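import Mathlib
import Pool.Agent.Work.MP_787500_nt.H10_CohDefs

/-!
Parity of Selmer groups: definitions used in the statement of the theorem.
-/

set_option autoImplicit false

namespace Pool.Agent.Work.MP_787500_nt.Parity

open NumberField Matrix

section group

variable {G : Type*} [Group G] [TopologicalSpace G]
variable {E : Type*} [NormedField E]
variable {n : ℕ}

/-- `ρ` is a continuous representation of `G` on `E ^ n` with pro-2 image, trivial on the subset `I`,
and `b` is the matrix of a symmetric bilinear form with `b (ρ σ x) (ρ (κ σ) y) = χ σ * b x y`. -/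
structure IsConjDual (I : Set G) (χ : G → E) (κ : G → G) (ρ : G →* Matrix (Fin n) (Fin n) E)
    (b : Matrix (Fin n) (Fin n) E) : Prop where
  cont : Continuous ρ
  proTwo : ∀ σ, Filter.Tendsto (fun k : ℕ => ρ (σ ^ 2 ^ k)) Filter.atTop (nhds 1)
  unram : ∀ σ ∈ I, ρ σ = 1
  symm : bᵀ = b
  dual : ∀ σ, (ρ σ)ᵀ * b * ρ (κ σ) = χ σ • b

/-- `x` is a continuous cocycle of `G`, for the action of `σ` by the matrix `A σ`. -/
def IsCocycle (A : G → Matrix (Fin n) (Fin n) E) (x : G → Fin n → E) : Prop :=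
  Continuous x ∧ ∀ σ τ, x (σ * τ) = x σ + A σ *ᵥ x τ

/-- `x` is a coboundary of `G`, for the action of `σ` by the matrix `A σ`. -/
def IsCoboundary (A : G → Matrix (Fin n) (Fin n) E) (x : G → Fin n → E) : Prop :=
  ∃ v : Fin n → E, ∀ σ, x σ = A σ *ᵥ v - v

/-- `y` is a continuous cocycle of `G`, for the action of `σ` by the matrix `B σ`, and is orthogonal
to `L`: for every `x` in `L` the 2-cocycle `b (x σ) (B σ (y τ))` of `G` with values in `E` twisted by
the character `χ` is the coboundary of a continuous function `z`. -/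
def IsPerp (χ : G → E) (B : G → Matrix (Fin n) (Fin n) E) (b : Matrix (Fin n) (Fin n) E)
    (L : Set (G → Fin n → E)) (y : G → Fin n → E) : Prop :=
  IsCocycle B y ∧ ∀ x ∈ L, ∃ z : G → E, Continuous z ∧
    ∀ σ τ, x σ ⬝ᵥ (b *ᵥ (B σ *ᵥ y τ)) = z σ + χ σ * z τ - z (σ * τ)

/-- `x` is a continuous cocycle of `G` that vanishes on `I`, its restriction to `D` lies in `L`, and
the restriction of `x ∘ κ` to `D` is orthogonal to `L`. -/
def IsSelmer (I : Set G) (χ : G → E) (κ : G → G) (ρ : G →* Matrix (Fin n) (Fin n) E)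
    (b : Matrix (Fin n) (Fin n) E) (D : Subgroup G) (L : Set (D → Fin n → E))
    (x : G → Fin n → E) : Prop :=
  IsCocycle ρ x ∧ (∀ σ ∈ I, x σ = 0) ∧ (fun σ : D => x σ) ∈ L ∧
    IsPerp (fun σ : D => χ σ) (fun σ : D => ρ (κ σ)) b L (fun σ : D => x (κ σ))

theorem IsCocycle.add {A : G → Matrix (Fin n) (Fin n) E} {x y : G → Fin n → E}
    (hx : IsCocycle A x) (hy : IsCocycle A y) : IsCocycle A (x + y) :=
  ⟨hx.1.add hy.1, fun σ τ => by
    simp only [Pi.add_apply, hx.2 σ τ, hy.2 σ τ, mulVec_add]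
    abel⟩

theorem IsCocycle.zero (A : G → Matrix (Fin n) (Fin n) E) : IsCocycle A 0 :=
  ⟨continuous_const, fun σ τ => by simp⟩

theorem IsCocycle.smul {A : G → Matrix (Fin n) (Fin n) E} (a : E) {x : G → Fin n → E}
    (hx : IsCocycle A x) : IsCocycle A (a • x) :=
  ⟨hx.1.const_smul a, fun σ τ => by
    simp only [Pi.smul_apply, hx.2 σ τ, mulVec_smul, smul_add]⟩

omit [Group G] [TopologicalSpace G] in
theorem IsCoboundary.add {A : G → Matrix (Fin n) (Fin n) E} {x y : G → Fin n → E}
    (hx : IsCoboundary A x) (hy : IsCoboundary A y) : IsCoboundary A (x + y) := by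
  obtain ⟨v, hv⟩ := hx
  obtain ⟨w, hw⟩ := hy
  refine ⟨v + w, fun σ => ?_⟩
  simp only [Pi.add_apply, hv, hw, mulVec_add]
  abel

omit [Group G] [TopologicalSpace G] in
theorem IsCoboundary.smul {A : G → Matrix (Fin n) (Fin n) E} (a : E) {x : G → Fin n → E}
    (hx : IsCoboundary A x) : IsCoboundary A (a • x) := by
  obtain ⟨v, hv⟩ := hx
  refine ⟨a • v, fun σ => ?_⟩
  simp only [Pi.smul_apply, hv, mulVec_smul, smul_sub]

omit [Group G] [TopologicalSpace G] in
theorem IsCoboundary.zero (A : G → Matrix (Fin n) (Fin n) E) : IsCoboundary A 0 :=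
  ⟨0, fun σ => by simp⟩

theorem IsPerp.add {χ : G → E} {B : G → Matrix (Fin n) (Fin n) E} {b : Matrix (Fin n) (Fin n) E}
    {L : Set (G → Fin n → E)} {y y' : G → Fin n → E} (h : IsPerp χ B b L y)
    (h' : IsPerp χ B b L y') : IsPerp χ B b L (y + y') := by
  refine ⟨h.1.add h'.1, fun x hx => ?_⟩
  obtain ⟨z, hz, hz'⟩ := h.2 x hx
  obtain ⟨w, hw, hw'⟩ := h'.2 x hx
  refine ⟨z + w, hz.add hw, fun σ τ => ?_⟩
  simp only [Pi.add_apply, mulVec_add, dotProduct_add, hz', hw']
  ring

theorem IsPerp.zero (χ : G → E) (B : G → Matrix (Fin n) (Fin n) E)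
    (b : Matrix (Fin n) (Fin n) E) (L : Set (G → Fin n → E)) : IsPerp χ B b L 0 :=
  ⟨IsCocycle.zero B, fun x _ => ⟨0, continuous_const, fun σ τ => by simp⟩⟩

theorem IsPerp.smul {χ : G → E} {B : G → Matrix (Fin n) (Fin n) E}
    {b : Matrix (Fin n) (Fin n) E} {L : Set (G → Fin n → E)} (a : E) {y : G → Fin n → E}
    (h : IsPerp χ B b L y) : IsPerp χ B b L (a • y) := by
  refine ⟨h.1.smul a, fun x hx => ?_⟩
  obtain ⟨z, hz, hz'⟩ := h.2 x hx
  refine ⟨a • z, hz.const_smul a, fun σ τ => ?_⟩
  simp only [Pi.smul_apply, mulVec_smul, dotProduct_smul, hz', smul_eq_mul]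
  ring

theorem IsSelmer.add {I : Set G} {χ : G → E} {κ : G → G} {ρ : G →* Matrix (Fin n) (Fin n) E}
    {b : Matrix (Fin n) (Fin n) E} {D : Subgroup G} {L : Submodule E (D → Fin n → E)}
    {x y : G → Fin n → E} (hx : IsSelmer I χ κ ρ b D L x) (hy : IsSelmer I χ κ ρ b D L y) :
    IsSelmer I χ κ ρ b D L (x + y) :=
  ⟨hx.1.add hy.1, fun σ hσ => by rw [Pi.add_apply, hx.2.1 σ hσ, hy.2.1 σ hσ, add_zero],
    add_mem hx.2.2.1 hy.2.2.1, hx.2.2.2.add hy.2.2.2⟩

theorem IsSelmer.zero (I : Set G) (χ : G → E) (κ : G → G) (ρ : G →* Matrix (Fin n) (Fin n) E)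
    (b : Matrix (Fin n) (Fin n) E) (D : Subgroup G) (L : Submodule E (D → Fin n → E)) :
    IsSelmer I χ κ ρ b D L 0 :=
  ⟨IsCocycle.zero _, fun _ _ => rfl, zero_mem L, IsPerp.zero _ _ _ _⟩

theorem IsSelmer.smul {I : Set G} {χ : G → E} {κ : G → G} {ρ : G →* Matrix (Fin n) (Fin n) E}
    {b : Matrix (Fin n) (Fin n) E} {D : Subgroup G} {L : Submodule E (D → Fin n → E)} (a : E)
    {x : G → Fin n → E} (hx : IsSelmer I χ κ ρ b D L x) : IsSelmer I χ κ ρ b D L (a • x) :=
  ⟨hx.1.smul a, fun σ hσ => by rw [Pi.smul_apply, hx.2.1 σ hσ, smul_zero],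
    L.smul_mem a hx.2.2.1, hx.2.2.2.smul a⟩

/-- The space of continuous cocycles of `G`, for the action of `σ` by the matrix `A σ`. -/
def cocycles (A : G → Matrix (Fin n) (Fin n) E) : Submodule E (G → Fin n → E) where
  carrier := {x | IsCocycle A x}
  add_mem' := IsCocycle.add
  zero_mem' := IsCocycle.zero A
  smul_mem' := fun a _ => IsCocycle.smul a

/-- The space of coboundaries of `G`, for the action of `σ` by the matrix `A σ`. -/
def coboundaries {G : Type*} (A : G → Matrix (Fin n) (Fin n) E) :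
    Submodule E (G → Fin n → E) where
  carrier := {x | IsCoboundary A x}
  add_mem' := IsCoboundary.add
  zero_mem' := IsCoboundary.zero A
  smul_mem' := fun a _ => IsCoboundary.smul a

/-- The Selmer space attached to the local condition `L`. -/
def selmer (I : Set G) (χ : G → E) (κ : G → G) (ρ : G →* Matrix (Fin n) (Fin n) E)
    (b : Matrix (Fin n) (Fin n) E) (D : Subgroup G) (L : Submodule E (D → Fin n → E)) :
    Submodule E (G → Fin n → E) where
  carrier := {x | IsSelmer I χ κ ρ b D L x}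
  add_mem' := IsSelmer.add
  zero_mem' := IsSelmer.zero I χ κ ρ b D L
  smul_mem' := fun a _ => IsSelmer.smul a

/-- `L` lies between `B` and `M`. -/
def Between {A : Type*} [AddCommGroup A] [Module E A] (B L M : Submodule E A) : Prop :=
  B ≤ L ∧ L ≤ M

/-- The dimension of `M` modulo `B`. -/
noncomputable def dimModulo {A : Type*} [AddCommGroup A] [Module E A] (M B : Submodule E A) : ℕ :=
  Module.finrank E (M ⧸ B.submoduleOf M)

/-- `L` modulo `B` and `M` modulo `C` are finite dimensional, `C` is contained in `M`, and the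
dimension of `M` modulo `C` is at most the dimension of `L` modulo `B`, and of the same parity. -/
def EvenGap {A A' : Type*} [AddCommGroup A] [Module E A] [AddCommGroup A'] [Module E A']
    (L B : Submodule E A) (M C : Submodule E A') : Prop :=
  FiniteDimensional E (L ⧸ B.submoduleOf L) ∧ FiniteDimensional E (M ⧸ C.submoduleOf M) ∧ C ≤ M ∧
    ∃ k : ℕ, dimModulo L B = dimModulo M C + 2 * k

/-- For every space `L` of continuous cocycles of `D` that contains the coboundaries: `L` and the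
Selmer space are finite dimensional modulo coboundaries, and the dimension of the Selmer space modulo
coboundaries is at most the dimension of `L` modulo coboundaries, and of the same parity. -/
def ParityBound (I : Set G) (χ : G → E) (κ : G → G) (ρ : G →* Matrix (Fin n) (Fin n) E)
    (b : Matrix (Fin n) (Fin n) E) (D : Subgroup G) : Prop :=
  ∀ L : Submodule E (D → Fin n → E),
    Between (coboundaries (fun σ : D => ρ σ)) L (cocycles (fun σ : D => ρ σ)) →
    EvenGap L (coboundaries (fun σ : D => ρ σ)) (selmer I χ κ ρ b D L) (coboundaries ρ)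

end group

section galois

universe u

variable {K : Type u} [Field K]

/-- The value in `E` of the 2-adic cyclotomic character. -/
noncomputable def cyclo (E : Type*) [NormedField E] [NormedAlgebra ℚ_[2] E] (σ : AbsGal K) : E :=
  algebraMap ℚ_[2] E (algebraMap ℤ_[2] ℚ_[2]
    (cyclotomicCharacter (AlgebraicClosure K) 2 σ.toRingEquiv : ℤ_[2]ˣ))

/-- The union of the inertia groups of all primes not above 2. -/
def ramOffTwo (K : Type u) [Field K] : Set (AbsGal K) :=
  {σ | ∃ Q : Ideal (𝓞 (AlgebraicClosure K)), Q.IsPrime ∧ (2 : 𝓞 (AlgebraicClosure K)) ∉ Q ∧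
    σ ∈ Q.inertia (AbsGal K)}

end galois

end Pool.Agent.Work.MP_787500_nt.Parity
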