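import Mathlib
import Pool.Agent.Work.MP_787500_nt.H10_CohDefs

/-!
Parity of Selmer groups over fields of local type: working definitions for all modules of this
folder. Do not change.
-/

set_option autoImplicit false

namespace Pool.Agent.Work.MP_787500_nt.PA

open IsDedekindDomain NumberField

/-! ## Groups with a system of normal subgroups of 2-power index -/

section abstract

/-- a directed system of normal subgroups of 2-power index -/
structure TwoSys (G : Type*) [Group G] where
  mem : Subgroup G → Prop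
  ex : ∃ W, mem W
  inf : ∀ {W W' : Subgroup G}, mem W → mem W' → mem (W ⊓ W')
  normal : ∀ {W : Subgroup G}, mem W → W.Normal
  index : ∀ {W : Subgroup G}, mem W → ∃ k : ℕ, W.index = 2 ^ k

variable {G : Type*} [Group G] (S : TwoSys G)

/-- `U` contains a member of the system -/
def Opn (U : Subgroup G) : Prop := ∃ W, S.mem W ∧ W ≤ U

/-- `f` is constant on the cosets of some member of the system -/
def Sm1 {A : Type*} (f : G → A) : Prop := ∃ W, S.mem W ∧ ∀ g, ∀ w ∈ W, f (g * w) = f g

/-- `f` is constant on the cosets of some member of the system, in both variables -/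
def Sm2 {A : Type*} (f : G → G → A) : Prop :=
  ∃ W, S.mem W ∧ ∀ g h, ∀ w ∈ W, ∀ w' ∈ W, f (g * w) (h * w') = f g h

/-- the smooth homomorphisms from `U` to `ZMod 2`, extended by zero to `G` -/
def homs (U : Subgroup G) : Submodule (ZMod 2) (G → ZMod 2) where
  carrier := {ψ | Sm1 S ψ ∧ (∀ g ∉ U, ψ g = 0) ∧ ∀ g ∈ U, ∀ h ∈ U, ψ (g * h) = ψ g + ψ h}
  add_mem' := by
    rintro a b ⟨⟨W, hW, h1⟩, h2, h3⟩ ⟨⟨W', hW', h1'⟩, h2', h3'⟩
    refine ⟨⟨W ⊓ W', S.inf hW hW', ?_⟩, ?_, ?_⟩
    · intro g w hw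
      simp only [Pi.add_apply]
      rw [h1 g w hw.1, h1' g w hw.2]
    · intro g hg
      simp only [Pi.add_apply]
      rw [h2 g hg, h2' g hg, add_zero]
    · intro g hg h hh
      simp only [Pi.add_apply]
      rw [h3 g hg h hh, h3' g hg h hh]
      ring
  zero_mem' := by
    obtain ⟨W, hW⟩ := S.ex
    exact ⟨⟨W, hW, fun _ _ _ => rfl⟩, fun _ _ => rfl, fun _ _ _ _ => by simp⟩
  smul_mem' := by
    rintro c a ⟨⟨W, hW, h1⟩, h2, h3⟩
    refine ⟨⟨W, hW, ?_⟩, ?_, ?_⟩
    · intro g w hw
      simp only [Pi.smul_apply]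
      rw [h1 g w hw]
    · intro g hg
      simp only [Pi.smul_apply]
      rw [h2 g hg, smul_zero]
    · intro g hg h hh
      simp only [Pi.smul_apply]
      rw [h3 g hg h hh, smul_add]

/-- `f` restricted to `U` is a smooth 2-cocycle modulo 2 -/
def Coc (U : Subgroup G) (f : G → G → ZMod 2) : Prop :=
  Sm2 S f ∧ ∀ g ∈ U, ∀ h ∈ U, ∀ k ∈ U, f g h + f (g * h) k = f h k + f g (h * k)

/-- `f` restricted to `U` is the coboundary of a smooth function -/
def Cob (U : Subgroup G) (f : G → G → ZMod 2) : Prop :=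
  ∃ z : G → ZMod 2, Sm1 S z ∧ ∀ g ∈ U, ∀ h ∈ U, f g h = z g + z h + z (g * h)

/-- cup product of two homomorphisms -/
def cup (a b : G → ZMod 2) : G → G → ZMod 2 := fun g h => a g * b h

open scoped Classical in
/-- the character of `U` with kernel `V` (`V` of index two in `U`), extended by zero -/
noncomputable def chi (V U : Subgroup G) (g : G) : ZMod 2 := if g ∈ U ∧ g ∉ V then 1 else 0

open scoped Classical in
/-- the transfer from `V` to `U` of a homomorphism `ψ`; `V` of index two in `U`, `s` in `U`, not in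
`V` -/
noncomputable def cor (V U : Subgroup G) (s : G) : (G → ZMod 2) →ₗ[ZMod 2] (G → ZMod 2) where
  toFun ψ g := if g ∈ V then ψ g + ψ (s * g * s⁻¹) else if g ∈ U then ψ (g * g) else 0
  map_add' a b := by
    funext g
    simp only [Pi.add_apply]
    split_ifs <;> ring
  map_smul' c a := by
    funext g
    simp only [Pi.smul_apply, RingHom.id_apply, smul_eq_mul]
    split_ifs <;> ring

/-- the number of homomorphisms to `ZMod 2` of each open subgroup `U` is `2 ^ ((G : U) + 2)` -/
def Counts : Prop :=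
  ∀ U : Subgroup G, Opn S U →
    FiniteDimensional (ZMod 2) (homs S U) ∧ Module.finrank (ZMod 2) (homs S U) = U.index + 2

/-- The second cohomology modulo 2 is spanned by one class, and the cup product of homomorphisms is
nondegenerate. -/
structure LocalType : Prop where
  nondeg : ∀ χ ∈ homs S ⊤, χ ≠ 0 → ∃ ω ∈ homs S ⊤, ¬ Cob S ⊤ (cup χ ω)
  one : ∀ f f' : G → G → ZMod 2, Coc S ⊤ f → Coc S ⊤ f' → ¬ Cob S ⊤ f → ¬ Cob S ⊤ f' →
    Cob S ⊤ (fun g h => f g h + f' g h)

end abstract

/-! ## 2-adic cochains -/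

section adic

variable {G : Type*} [Group G] (S : TwoSys G)

/-- uniform continuity for the system -/
def C1 (z : G → ℤ_[2]) : Prop :=
  ∀ n : ℕ, ∃ W, S.mem W ∧ ∀ g, ∀ w ∈ W, (2 : ℤ_[2]) ^ n ∣ z (g * w) - z g

/-- uniform continuity for the system, two variables -/
def C2 (f : G → G → ℤ_[2]) : Prop :=
  ∀ n : ℕ, ∃ W, S.mem W ∧ ∀ g h, ∀ w ∈ W, ∀ w' ∈ W, (2 : ℤ_[2]) ^ n ∣ f (g * w) (h * w') - f g h

/-- a continuous character, which is automatically 1 modulo 2 -/
structure IsChar (χ : G → ℤ_[2]) : Prop where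
  one : χ 1 = 1
  mul : ∀ g h, χ (g * h) = χ g * χ h
  cont : C1 S χ
  odd : ∀ g, (2 : ℤ_[2]) ∣ χ g - 1

/-- the coboundary of `z`, with values in the 2-adic integers twisted by `χ` -/
noncomputable def dd (χ z : G → ℤ_[2]) : G → G → ℤ_[2] :=
  fun g h => z g + χ g * z h - z (g * h)

/-- continuous 2-cocycles with values in the 2-adic integers twisted by `χ` -/
def Z2 (χ : G → ℤ_[2]) (f : G → G → ℤ_[2]) : Prop :=
  C2 S f ∧ ∀ g h k, f g h + f (g * h) k = χ g * f h k + f g (h * k)

/-- continuous 2-cocycles modulo `2 ^ n` -/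
def CocMod (χ : G → ℤ_[2]) (n : ℕ) (f : G → G → ℤ_[2]) : Prop :=
  (∃ W, S.mem W ∧ ∀ g h, ∀ w ∈ W, ∀ w' ∈ W, (2 : ℤ_[2]) ^ n ∣ f (g * w) (h * w') - f g h) ∧
    ∀ g h k, (2 : ℤ_[2]) ^ n ∣ f g h + f (g * h) k - (χ g * f h k + f g (h * k))

/-- coboundaries modulo `2 ^ n` -/
def CobMod (χ : G → ℤ_[2]) (n : ℕ) (f : G → G → ℤ_[2]) : Prop :=
  ∃ z : G → ℤ_[2], Sm1 S z ∧ ∀ g h, (2 : ℤ_[2]) ^ n ∣ f g h - dd χ z g h

/-- coboundaries of continuous functions -/
def B2 (χ : G → ℤ_[2]) (f : G → G → ℤ_[2]) : Prop :=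
  ∃ z : G → ℤ_[2], C1 S z ∧ f = dd χ z

/-- `κ` is an involution of the group preserving the system and the character -/
structure IsInvol (χ : G → ℤ_[2]) (κ : G → G) : Prop where
  mul : ∀ g h, κ (g * h) = κ g * κ h
  inv : ∀ g, κ (κ g) = g
  sys : ∀ W, S.mem W → ∃ W', S.mem W' ∧ ∀ g ∈ W', κ g ∈ W
  chi : ∀ g, χ (κ g) = χ g

end adic

/-! ## Cochains with values in a 2-adic field -/

section field

variable {G : Type*} [Group G] (S : TwoSys G)
variable {E : Type*} [NormedField E] [NormedAlgebra ℚ_[2] E]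

/-- uniform continuity for the system, values in a normed group -/
def N1 {A : Type*} [NormedAddCommGroup A] (z : G → A) : Prop :=
  ∀ ε : ℝ, 0 < ε → ∃ W, S.mem W ∧ ∀ g, ∀ w ∈ W, ‖z (g * w) - z g‖ < ε

/-- uniform continuity for the system, two variables, values in a normed group -/
def N2 {A : Type*} [NormedAddCommGroup A] (f : G → G → A) : Prop :=
  ∀ ε : ℝ, 0 < ε → ∃ W, S.mem W ∧ ∀ g h, ∀ w ∈ W, ∀ w' ∈ W, ‖f (g * w) (h * w') - f g h‖ < ε

/-- the value of a character in a 2-adic field -/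
noncomputable def toE (E : Type*) [NormedField E] [NormedAlgebra ℚ_[2] E] (a : ℤ_[2]) : E :=
  algebraMap ℚ_[2] E (a : ℚ_[2])

/-- the coboundary of `z`, with values in `E` twisted by `χ` -/
noncomputable def dE (χ : G → ℤ_[2]) (z : G → E) : G → G → E :=
  fun g h => z g + toE E (χ g) * z h - z (g * h)

/-- continuous 2-cocycles with values in `E` twisted by `χ` -/
def ZE (χ : G → ℤ_[2]) (f : G → G → E) : Prop :=
  N2 S f ∧ ∀ g h k, f g h + f (g * h) k = toE E (χ g) * f h k + f g (h * k)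

/-- coboundaries of continuous functions -/
def BE (χ : G → ℤ_[2]) (f : G → G → E) : Prop := ∃ z : G → E, N1 S z ∧ f = dE χ z

/-- an invariant map for the second cohomology with values in `E` twisted by `χ`, which is invariant
under `κ` -/
structure InvMap (E : Type*) [NormedField E] [NormedAlgebra ℚ_[2] E] (χ : G → ℤ_[2]) (κ : G → G)
    (inv : (G → G → E) → E) : Prop where
  add : ∀ f f', ZE S χ f → ZE S χ f' → inv (fun g h => f g h + f' g h) = inv f + inv f'
  smul : ∀ (a : E) (f), ZE S χ f → inv (fun g h => a * f g h) = a * inv f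
  ker : ∀ f, ZE S χ f → (inv f = 0 ↔ BE S χ f)
  kap : ∀ f, ZE S χ f → inv (fun g h => f (κ g) (κ h)) = inv f

end field

/-! ## The absolute Galois group -/

section galois

universe u

variable {K : Type u} [Field K]

/-- open normal subgroups with quotient a 2-group which contain the inertia groups at all primes not
above 2 -/
structure Good (W : Subgroup (AbsGal K)) : Prop where
  normal : W.Normal
  isOpen : IsOpen (W : Set (AbsGal K))
  pow : ∀ g : AbsGal K, ∃ k : ℕ, g ^ (2 ^ k) ∈ W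
  inertia : ∀ Q : Ideal (𝓞 (AlgebraicClosure K)), Q.IsPrime → (2 : 𝓞 (AlgebraicClosure K)) ∉ Q →
    Q.inertia (AbsGal K) ≤ W

/-- the intersection of all good subgroups -/
noncomputable def core (K : Type u) [Field K] : Subgroup (AbsGal K) := sInf {W | Good W}

/-- the 2-adic cyclotomic character -/
noncomputable def cyc (σ : AbsGal K) : ℤ_[2] :=
  ((cyclotomicCharacter (AlgebraicClosure K) 2 (σ : AlgebraicClosure K ≃+* AlgebraicClosure K) :
    ℤ_[2]ˣ) : ℤ_[2])

/-- `x` is a unit away from 2 -/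
def SU {Ω : Type*} [Field Ω] (x : Ω) : Prop :=
  x ≠ 0 ∧ (∃ N : ℕ, IsIntegral ℤ ((2 : Ω) ^ N * x)) ∧ ∃ N : ℕ, IsIntegral ℤ ((2 : Ω) ^ N * x⁻¹)

/-- `x` is fixed by a good subgroup: it lies in the maximal 2-extension unramified outside 2 -/
def InM (x : AlgebraicClosure K) : Prop :=
  ∃ W : Subgroup (AbsGal K), Good W ∧ ∀ w ∈ W, w x = x

/-- `c` is an involution of the algebraic closure with `c s = -s` -/
structure IsConj (s : K) (c : AlgebraicClosure K ≃+* AlgebraicClosure K) : Prop where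
  sq : ∀ x, c (c x) = x
  neg : c (algebraMap K (AlgebraicClosure K) s) = -algebraMap K (AlgebraicClosure K) s

open scoped Classical in
/-- the homomorphism from `U` to `ZMod 2` given by the action on `t`, extended by zero -/
noncomputable def act2 (U : Subgroup (AbsGal K)) (t : AlgebraicClosure K) (g : AbsGal K) : ZMod 2 :=
  if g ∈ U ∧ g t ≠ t then 1 else 0

end galois

end Pool.Agent.Work.MP_787500_nt.PA
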