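import Mathlib
import Pool.Agent.Work.MP_787500_nt.PA.Defs

/-!
The good subgroups of the absolute Galois group form a system (proved).
-/

set_option autoImplicit false

namespace Pool.Agent.Work.MP_787500_nt.PA

open IsDedekindDomain NumberField

universe u

variable {K : Type u} [Field K] [NumberField K]

theorem Good.top : Good (⊤ : Subgroup (AbsGal K)) :=
  ⟨inferInstance, isOpen_univ, fun _ => ⟨0, trivial⟩, fun _ _ _ => le_top⟩

theorem pow_mem_of_le {G : Type*} [Group G] {W : Subgroup G} {g : G} {k l : ℕ} (hkl : k ≤ l)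
    (h : g ^ 2 ^ k ∈ W) : g ^ 2 ^ l ∈ W := by
  obtain ⟨m, rfl⟩ := Nat.exists_eq_add_of_le hkl
  rw [pow_add, pow_mul]
  exact W.pow_mem h _

theorem Good.inf {W W' : Subgroup (AbsGal K)} (h : Good W) (h' : Good W') : Good (W ⊓ W') := by
  have := h.normal
  have := h'.normal
  refine ⟨inferInstance, h.isOpen.inter h'.isOpen, fun g => ?_, fun Q hQ hQ2 =>
    le_inf (h.inertia Q hQ hQ2) (h'.inertia Q hQ hQ2)⟩
  obtain ⟨k, hk⟩ := h.pow g
  obtain ⟨l, hl⟩ := h'.pow g
  exact ⟨max k l, pow_mem_of_le (le_max_left k l) hk, pow_mem_of_le (le_max_right k l) hl⟩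

theorem Good.index {W : Subgroup (AbsGal K)} (h : Good W) : ∃ k : ℕ, W.index = 2 ^ k := by
  have hn := h.normal
  have hfin : Finite (AbsGal K ⧸ W) := Subgroup.quotient_finite_of_isOpen W h.isOpen
  have : Fact (Nat.Prime 2) := ⟨Nat.prime_two⟩
  have hP : IsPGroup 2 (AbsGal K ⧸ W) := by
    intro x
    obtain ⟨g, rfl⟩ := QuotientGroup.mk_surjective x
    obtain ⟨k, hk⟩ := h.pow g
    exact ⟨k, by rw [← QuotientGroup.mk_pow, QuotientGroup.eq_one_iff]; exact hk⟩
  obtain ⟨m, hm⟩ := IsPGroup.iff_card.1 hP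
  exact ⟨m, hm⟩

/-- the system of good subgroups -/
def goodSys (K : Type u) [Field K] [NumberField K] : TwoSys (AbsGal K) where
  mem := Good
  ex := ⟨⊤, Good.top⟩
  inf := Good.inf
  normal := Good.normal
  index := Good.index

theorem Opn.isOpen {U : Subgroup (AbsGal K)} (h : Opn (goodSys K) U) :
    IsOpen (U : Set (AbsGal K)) := by
  obtain ⟨W, hW, hle⟩ := h
  exact Subgroup.isOpen_mono hle (Good.isOpen hW)

end Pool.Agent.Work.MP_787500_nt.PA
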