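import Mathlib
import Pool.Agent.Work.MP_787500_nt.PA.Defs
import Pool.Agent.Work.MP_787500_nt.H10_Step
import Pool.Agent.Work.MP_787500_nt.H10_Even

/-!
# Module SULEM (size S-M): units away from 2

`SU x`: `x ≠ 0` and `2 ^ N * x`, `2 ^ N * x⁻¹` are integral over `ℤ` for some `N`.
* products, inverses, powers, images under ring homomorphisms, preimages under injective ones
  (`isIntegral_algHom_iff`, `IsIntegral.map`): easy. `of_pow`: if `2 ^ N * x ^ n` is integral then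
  `(2 ^ N * x) ^ n = 2 ^ (N (n - 1)) * (2 ^ N * x ^ n)` is integral, so `2 ^ N * x` is
  (`IsIntegral.of_pow`).
* `su_iff` for a number field `F`: (⇒) `2 ^ N * x` integral gives `v (x) ≤ 1` at `v` not above 2
  (`v 2 = 1`: `2 ∉ v.asIdeal`), the same for `x⁻¹`. (⇐) there are finitely many `v` with `2 ∈ v`
  (`HeightOneSpectrum` dividing the nonzero ideal `(2)`), `v 2 < 1` at these; for `N` large
  `v (2 ^ N * x) ≤ 1` at all `v`, hence `2 ^ N * x` is integral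
  (`HeightOneSpectrum.mem_integers_of_valuation_le_one`).
-/

set_option autoImplicit false

namespace Pool.Agent.Work.MP_787500_nt.PA

open IsDedekindDomain NumberField

universe u

section general

variable {Ω Ω' : Type*} [Field Ω] [Field Ω'] [CharZero Ω] [CharZero Ω']

theorem SUlem_two_int : IsIntegral ℤ (2 : Ω) := by
  have := isIntegral_algebraMap (R := ℤ) (A := Ω) (x := 2)
  simpa using this

theorem SU.mul {x y : Ω} (hx : SU x) (hy : SU y) : SU (x * y) := by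
  obtain ⟨h1, ⟨a, ha⟩, ⟨b, hb⟩⟩ := hx
  obtain ⟨h2, ⟨c, hc⟩, ⟨d, hd⟩⟩ := hy
  refine ⟨mul_ne_zero h1 h2, ⟨a + c, ?_⟩, ⟨b + d, ?_⟩⟩
  · have := ha.mul hc
    rwa [show (2 : Ω) ^ a * x * (2 ^ c * y) = 2 ^ (a + c) * (x * y) by ring] at this
  · have := hb.mul hd
    rwa [show (2 : Ω) ^ b * x⁻¹ * (2 ^ d * y⁻¹) = 2 ^ (b + d) * (x * y)⁻¹ by rw [mul_inv]; ring] at this

theorem SU.inv {x : Ω} (hx : SU x) : SU x⁻¹ := by
  obtain ⟨h1, h2, h3⟩ := hx
  exact ⟨inv_ne_zero h1, h3, by rwa [inv_inv]⟩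

theorem SUlem_one : SU (1 : Ω) :=
  ⟨one_ne_zero, ⟨0, by simpa using isIntegral_one⟩, ⟨0, by simpa using isIntegral_one⟩⟩

theorem SU.pow {x : Ω} (hx : SU x) (n : ℕ) : SU (x ^ n) := by
  induction n with
  | zero => rw [pow_zero]; exact SUlem_one
  | succ n ih => rw [pow_succ]; exact ih.mul hx

theorem SU.prod {ι : Type*} (T : Finset ι) (f : ι → Ω) (h : ∀ i ∈ T, SU (f i)) :
    SU (∏ i ∈ T, f i) := by
  classical
  induction T using Finset.induction_on with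
  | empty => rw [Finset.prod_empty]; exact SUlem_one
  | insert a T ha ih =>
    rw [Finset.prod_insert ha]
    exact (h a (Finset.mem_insert_self _ _)).mul (ih fun i hi => h i (Finset.mem_insert_of_mem hi))

theorem SUlem_of_pow {x : Ω} {n : ℕ} (hn : n ≠ 0) {N : ℕ} (h : IsIntegral ℤ ((2 : Ω) ^ N * x ^ n)) :
    IsIntegral ℤ ((2 : Ω) ^ N * x) := by
  refine IsIntegral.of_pow (Nat.pos_of_ne_zero hn) ?_
  have e : ((2 : Ω) ^ N * x) ^ n = (2 ^ N) ^ (n - 1) * (2 ^ N * x ^ n) := by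
    rw [mul_pow, ← mul_assoc, ← pow_succ, Nat.sub_add_cancel (Nat.pos_of_ne_zero hn)]
  rw [e]
  exact (((SUlem_two_int.pow N).pow (n - 1))).mul h

theorem SU.of_pow {x : Ω} {n : ℕ} (hn : n ≠ 0) (h : SU (x ^ n)) : SU x := by
  obtain ⟨h1, ⟨a, ha⟩, ⟨b, hb⟩⟩ := h
  refine ⟨fun h0 => h1 (by rw [h0, zero_pow hn]), ⟨a, SUlem_of_pow hn ha⟩, ⟨b, SUlem_of_pow hn ?_⟩⟩
  rwa [inv_pow]

theorem SU.map (f : Ω →+* Ω') {x : Ω} (hx : SU x) : SU (f x) := by
  obtain ⟨h1, ⟨a, ha⟩, ⟨b, hb⟩⟩ := hx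
  have hf2 : f 2 = 2 := map_ofNat f 2
  refine ⟨(map_ne_zero f).2 h1, ⟨a, ?_⟩, ⟨b, ?_⟩⟩
  · have := ha.map f.toIntAlgHom
    simpa [hf2] using this
  · have := hb.map f.toIntAlgHom
    simpa [hf2] using this

theorem SU.of_map (f : Ω →+* Ω') {x : Ω} (hx : SU (f x)) : SU x := by
  obtain ⟨h1, ⟨a, ha⟩, ⟨b, hb⟩⟩ := hx
  have key : ∀ y : Ω, IsIntegral ℤ (f y) → IsIntegral ℤ y := fun y hy =>
    (isIntegral_algHom_iff f.toIntAlgHom f.injective).1 hy
  have hf2 : f 2 = 2 := map_ofNat f 2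
  refine ⟨(map_ne_zero f).1 h1, ⟨a, key _ ?_⟩, ⟨b, key _ ?_⟩⟩
  · simpa [hf2] using ha
  · simpa [hf2] using hb

theorem SU.two : SU (2 : Ω) := by
  refine ⟨two_ne_zero, ⟨0, ?_⟩, ⟨1, ?_⟩⟩
  · rw [pow_zero, one_mul]; exact SUlem_two_int
  · rw [pow_one, mul_inv_cancel₀ two_ne_zero]; exact isIntegral_one

theorem SU.of_root {x : Ω} {n : ℕ} (hn : n ≠ 0) (h : x ^ n = 1) : SU x :=
  SU.of_pow hn (by rw [h]; exact SUlem_one)

end general

theorem SUlem_val_two {F : Type*} [Field F] [NumberField F] {v : HeightOneSpectrum (𝓞 F)}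
    (hv : (2 : 𝓞 F) ∉ v.asIdeal) : v.valuation F (2 : F) = 1 := by
  refine le_antisymm (val_two_le_one v) (not_lt.1 fun h => hv ?_)
  refine (HeightOneSpectrum.valuation_lt_one_iff_mem (K := F) v (2 : 𝓞 F)).1 ?_
  have e : (algebraMap (𝓞 F) F (2 : 𝓞 F)) = 2 := map_ofNat (algebraMap (𝓞 F) F) 2
  rw [← e] at h
  exact h

theorem SUlem_le {F : Type*} [Field F] [NumberField F] {x : F} {N : ℕ} (h : IsIntegral ℤ ((2 : F) ^ N * x))
    {v : HeightOneSpectrum (𝓞 F)} (hv : (2 : 𝓞 F) ∉ v.asIdeal) : v.valuation F x ≤ 1 := by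
  have h1 : v.valuation F ((2 : F) ^ N * x) ≤ 1 := by
    have := v.valuation_le_one (K := F) (⟨_, h⟩ : 𝓞 F)
    exact this
  rwa [map_mul, map_pow, SUlem_val_two hv, one_pow, one_mul] at h1

theorem SUlem_ge {F : Type*} [Field F] [NumberField F] {x : F}
    (h : ∀ v : HeightOneSpectrum (𝓞 F), (2 : 𝓞 F) ∉ v.asIdeal → v.valuation F x ≤ 1) :
    ∃ N : ℕ, IsIntegral ℤ ((2 : F) ^ N * x) := by
  classical
  have hfin : {v : HeightOneSpectrum (𝓞 F) | (2 : 𝓞 F) ∈ v.asIdeal}.Finite := by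
    have := Ideal.finite_factors (R := 𝓞 F) (I := Ideal.span {(2 : 𝓞 F)}) (by
      rw [Ne, Ideal.zero_eq_bot, Ideal.span_singleton_eq_bot]; exact two_ne_zero)
    refine this.subset fun v hv => ?_
    show v.asIdeal ∣ _
    rw [Ideal.dvd_iff_le, Ideal.span_singleton_le_iff_mem]
    exact hv
  have hex : ∀ v : HeightOneSpectrum (𝓞 F), (2 : 𝓞 F) ∈ v.asIdeal →
      ∃ N : ℕ, ∀ n, N ≤ n → v.valuation F ((2 : F) ^ n * x) ≤ 1 := by
    intro v hv
    have h2 : v.valuation F (2 : F) < 1 := by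
      have := (HeightOneSpectrum.valuation_lt_one_iff_mem (K := F) v (2 : 𝓞 F)).2 hv
      have e : (algebraMap (𝓞 F) F (2 : 𝓞 F)) = 2 := map_ofNat (algebraMap (𝓞 F) F) 2
      rw [← e]
      exact this
    by_cases hx : x = 0
    · exact ⟨0, fun n _ => by rw [hx, mul_zero, map_zero]; exact zero_le_one⟩
    have h20 : v.valuation F (2 : F) ≠ 0 := (Valuation.ne_zero_iff _).2 two_ne_zero
    obtain ⟨a, ha⟩ : ∃ a : ℤ, v.valuation F (2 : F) = WithZero.exp a := ⟨_, (WithZero.exp_log h20).symm⟩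
    obtain ⟨b, hb⟩ : ∃ b : ℤ, v.valuation F x = WithZero.exp b :=
      ⟨_, (WithZero.exp_log ((Valuation.ne_zero_iff _).2 hx)).symm⟩
    have ha0 : a < 0 := by
      rw [ha, ← WithZero.exp_zero, WithZero.exp_lt_exp] at h2
      exact h2
    refine ⟨b.natAbs, fun n hn => ?_⟩
    rw [map_mul, map_pow, ha, hb, ← WithZero.exp_nsmul, ← WithZero.exp_add, ← WithZero.exp_zero, WithZero.exp_le_exp]
    have h3 : (b.natAbs : ℤ) ≤ n := by exact_mod_cast hn
    have h4 : b ≤ b.natAbs := Int.le_natAbs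
    have h5 : (n : ℤ) * a ≤ n * (-1) := by
      apply mul_le_mul_of_nonneg_left (by omega) (by positivity)
    rw [nsmul_eq_mul]
    linarith
  choose! N hN using hex
  refine ⟨hfin.toFinset.sup N, ?_⟩
  have hmem := HeightOneSpectrum.mem_integers_of_valuation_le_one F ((2 : F) ^ (hfin.toFinset.sup N) * x)
    (R := 𝓞 F) (fun v => by
      by_cases hv : (2 : 𝓞 F) ∈ v.asIdeal
      · exact hN v hv _ (Finset.le_sup (by simpa using hv))
      · rw [map_mul, map_pow, SUlem_val_two hv, one_pow, one_mul]; exact h v hv)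
  obtain ⟨y, hy⟩ := hmem
  rw [← hy]
  exact RingOfIntegers.isIntegral_coe y

theorem su_iff {F : Type*} [Field F] [NumberField F] {x : F} :
    SU x ↔ x ≠ 0 ∧ ∀ v : HeightOneSpectrum (𝓞 F), (2 : 𝓞 F) ∉ v.asIdeal → v.valuation F x = 1 := by
  constructor
  · rintro ⟨h1, ⟨a, ha⟩, ⟨b, hb⟩⟩
    refine ⟨h1, fun v hv => le_antisymm (SUlem_le ha hv) ?_⟩
    have := SUlem_le hb hv
    rw [map_inv₀] at this
    have h0 : v.valuation F x ≠ 0 := (Valuation.ne_zero_iff _).2 h1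
    exact (inv_le_one₀ (zero_lt_iff.2 h0)).1 this
  · rintro ⟨h1, h2⟩
    refine ⟨h1, SUlem_ge fun v hv => (h2 v hv).le, SUlem_ge fun v hv => ?_⟩
    rw [map_inv₀, h2 v hv, inv_one]

theorem SU.evenOff2 {F : Type*} [Field F] [NumberField F] {x : F} (hx : SU x) : EvenOff2 x := by
  intro v hv
  rw [(su_iff.1 hx).2 v hv]
  exact ⟨1, by rw [one_mul]⟩

end Pool.Agent.Work.MP_787500_nt.PA
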