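import Mathlib
import Pool.Agent.Work.MP_787500_nt.PA.GoodSys
import Pool.Agent.Work.MP_787500_nt.PA.SUlem

/-!
# Module ROOTM (size M): the maximal 2-extension unramified outside 2 and square roots

`InM x`: some good subgroup fixes `x`. Good subgroups are closed under intersection, so the elements
with `InM` form a subfield containing `K`; it is stable under `AbsGal K` (good subgroups are normal).
* `InM.sqrt`: `y` fixed by the good subgroup `W`, `SU y`, `x ^ 2 = y`. Let `W' ` be the set of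
  `g ∈ W` with `g x' = x'` for all conjugates `x' = h x`, `h ∈ AbsGal K`. There are finitely many
  conjugates (roots of the minimal polynomial; or: `x'^2 = h y` and `y` has finitely many conjugates),
  so `W'` is open; it is normal. `g ^ (2 ^ k) ∈ W` implies `g ^ (2 ^ (k + 1)) ∈ W'`: an element `w` of
  `W` fixes `h y` (normality), so `w x' = ± x'` and `w ^ 2 x' = x'`. Inertia: `g ∈ Q.inertia`,
  `2 ∉ Q`; then `g ∈ W` and `g x' = ± x'`; suppose `g x' = - x'`. `SU x'` (`SU.of_pow`, `SU.map`):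
  `2 ^ N * x'` and `2 ^ N * x'⁻¹` are integral; put `X = 2 ^ N * x' ∈ 𝓞`, `g X = -X`, so
  `- 2 X = g X - X ∈ Q`, `X ∈ Q` (`Q` prime, `2 ∉ Q`), and `2 ^ (2 N) = X * (2 ^ N * x'⁻¹) ∈ Q`:
  contradiction.
* `InM.root`: the same with `x ^ (2 ^ k) = y` by induction (`SU.of_pow` at each step).
-/

set_option autoImplicit false
set_option linter.unusedSectionVars false

namespace Pool.Agent.Work.MP_787500_nt.PA

open IsDedekindDomain NumberField

universe u

variable {K : Type u} [Field K] [NumberField K]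

theorem InM.base (a : K) : InM (algebraMap K (AlgebraicClosure K) a) :=
  ⟨⊤, Good.top, fun w _ => w.commutes a⟩

private theorem rootM_two {x y : AlgebraicClosure K} (hx : InM x) (hy : InM y) :
    ∃ W : Subgroup (AbsGal K), Good W ∧ ∀ w ∈ W, w x = x ∧ w y = y := by
  obtain ⟨W, hW, h1⟩ := hx
  obtain ⟨W', hW', h2⟩ := hy
  exact ⟨W ⊓ W', hW.inf hW', fun w hw => ⟨h1 w hw.1, h2 w hw.2⟩⟩

theorem InM.mul {x y : AlgebraicClosure K} (hx : InM x) (hy : InM y) : InM (x * y) := by
  obtain ⟨W, hW, h⟩ := rootM_two hx hy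
  exact ⟨W, hW, fun w hw => by rw [map_mul, (h w hw).1, (h w hw).2]⟩

theorem InM.add {x y : AlgebraicClosure K} (hx : InM x) (hy : InM y) : InM (x + y) := by
  obtain ⟨W, hW, h⟩ := rootM_two hx hy
  exact ⟨W, hW, fun w hw => by rw [map_add, (h w hw).1, (h w hw).2]⟩

theorem InM.neg {x : AlgebraicClosure K} (hx : InM x) : InM (-x) := by
  obtain ⟨W, hW, h⟩ := hx
  exact ⟨W, hW, fun w hw => by rw [map_neg, h w hw]⟩

theorem InM.inv {x : AlgebraicClosure K} (hx : InM x) : InM x⁻¹ := by
  obtain ⟨W, hW, h⟩ := hx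
  exact ⟨W, hW, fun w hw => by rw [map_inv₀, h w hw]⟩

private theorem rootM_conj {W : Subgroup (AbsGal K)} (hW : Good W) {x : AlgebraicClosure K}
    (h : ∀ w ∈ W, w x = x) (g : AbsGal K) : ∀ w ∈ W, w (g x) = g x := by
  intro w hw
  have hn := hW.normal
  have h1 : g⁻¹ * w * g ∈ W := by
    have := hn.conj_mem w hw g⁻¹
    rwa [inv_inv] at this
  have h2 := congrArg g (h _ h1)
  have h3 : g ((g⁻¹ * w * g) x) = w (g x) := by
    have : g * (g⁻¹ * w * g) = w * g := by group
    calc g ((g⁻¹ * w * g) x) = (g * (g⁻¹ * w * g)) x := rfl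
      _ = (w * g) x := by rw [this]
      _ = w (g x) := rfl
  rw [← h3]
  exact h2

theorem InM.gal {x : AlgebraicClosure K} (hx : InM x) (g : AbsGal K) : InM (g x) := by
  obtain ⟨W, hW, h⟩ := hx
  exact ⟨W, hW, rootM_conj hW h g⟩

private theorem rootM_core_open (x : AlgebraicClosure K) :
    IsOpen ((MulAction.stabilizer (AbsGal K) x).normalCore : Set (AbsGal K)) := by
  have h1 : IsOpen (MulAction.stabilizer (AbsGal K) x : Set (AbsGal K)) :=
    stabilizer_isOpen_of_isIntegral x
  have : Finite (AbsGal K ⧸ MulAction.stabilizer (AbsGal K) x) :=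
    Subgroup.quotient_finite_of_isOpen _ h1
  have : (MulAction.stabilizer (AbsGal K) x).FiniteIndex :=
    Subgroup.finiteIndex_of_finite_quotient
  have hcl : IsClosed (MulAction.stabilizer (AbsGal K) x : Set (AbsGal K)) :=
    Subgroup.isClosed_of_isOpen _ h1
  apply Subgroup.isOpen_of_isClosed_of_finiteIndex
  have : ((MulAction.stabilizer (AbsGal K) x).normalCore : Set (AbsGal K)) =
      ⋂ b : AbsGal K, (fun a => b * a * b⁻¹) ⁻¹' (MulAction.stabilizer (AbsGal K) x) := by
    ext a
    simp only [Set.mem_iInter, Set.mem_preimage]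
    rfl
  rw [this]
  exact isClosed_iInter fun b => hcl.preimage (by fun_prop)

theorem InM.sqrt {x y : AlgebraicClosure K} (hy : InM y) (hu : SU y) (h : x ^ 2 = y) : InM x := by
  obtain ⟨W, hW, hWy⟩ := hy
  have hmem : ∀ g : AbsGal K, g ∈ (MulAction.stabilizer (AbsGal K) x).normalCore ↔
      ∀ b : AbsGal K, g (b x) = b x := by
    intro g
    constructor
    · intro hg b
      have h1 : (b⁻¹ * g * b⁻¹⁻¹) x = x := hg b⁻¹
      rw [inv_inv] at h1
      have h2 := congrArg b h1
      have h3 : b ((b⁻¹ * g * b) x) = g (b x) := by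
        have : b * (b⁻¹ * g * b) = g * b := by group
        calc b ((b⁻¹ * g * b) x) = (b * (b⁻¹ * g * b)) x := rfl
          _ = (g * b) x := by rw [this]
          _ = g (b x) := rfl
      rw [← h3]
      exact h2
    · intro hg b
      show (b * g * b⁻¹) x = x
      have h1 := congrArg b (hg b⁻¹)
      have h3 : b (b⁻¹ x) = x := by
        have : b * b⁻¹ = 1 := mul_inv_cancel b
        calc b (b⁻¹ x) = (b * b⁻¹) x := rfl
          _ = x := by rw [this]; rfl
      rw [h3] at h1
      exact h1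
  have hsq : ∀ b : AbsGal K, (b x) ^ 2 = b y := by
    intro b
    rw [← map_pow, h]
  have hsign : ∀ w ∈ W, ∀ b : AbsGal K, w (b x) = b x ∨ w (b x) = - b x := by
    intro w hw b
    apply sq_eq_sq_iff_eq_or_eq_neg.1
    rw [← map_pow, hsq, rootM_conj hW hWy b w hw]
  refine ⟨W ⊓ (MulAction.stabilizer (AbsGal K) x).normalCore, ⟨?_, ?_, ?_, ?_⟩, ?_⟩
  · have := hW.normal
    infer_instance
  · exact hW.isOpen.inter (rootM_core_open x)
  · intro g
    obtain ⟨k, hk⟩ := hW.pow g
    refine ⟨k + 1, ?_⟩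
    rw [pow_succ, pow_mul, pow_two]
    refine Subgroup.mem_inf.2 ⟨W.mul_mem hk hk, (hmem _).2 fun b => ?_⟩
    show (g ^ 2 ^ k) ((g ^ 2 ^ k) (b x)) = b x
    rcases hsign _ hk b with h1 | h1
    · rw [h1, h1]
    · rw [h1, map_neg, h1, neg_neg]
  · intro Q hQ hQ2 g hg
    have hgW := hW.inertia Q hQ hQ2 hg
    refine Subgroup.mem_inf.2 ⟨hgW, (hmem _).2 fun b => ?_⟩
    rcases hsign _ hgW b with h1 | h1
    · exact h1
    · exfalso
      have hsu : SU (b x) := SU.of_pow two_ne_zero (by
        rw [hsq]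
        exact SU.map (b : AlgebraicClosure K →+* AlgebraicClosure K) hu)
      obtain ⟨h0, ⟨N, hN⟩, ⟨M, hM⟩⟩ := hsu
      let X : 𝓞 (AlgebraicClosure K) := ⟨_, hN⟩
      let Y : 𝓞 (AlgebraicClosure K) := ⟨_, hM⟩
      have hX : g • X = -X := by
        apply RingOfIntegers.ext
        show g ((2 : AlgebraicClosure K) ^ N * b x) = -((2 : AlgebraicClosure K) ^ N * b x)
        rw [map_mul, map_pow, map_ofNat, h1, mul_neg]
      have h2 : g • X - X ∈ Q := hg X
      have h3 : (2 : 𝓞 (AlgebraicClosure K)) * X ∈ Q := by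
        have : (2 : 𝓞 (AlgebraicClosure K)) * X = -(g • X - X) := by rw [hX]; ring
        rw [this]
        exact Q.neg_mem h2
      have h4 : X ∈ Q := (hQ.mem_or_mem h3).resolve_left hQ2
      have h5 : X * Y = 2 ^ (N + M) := by
        apply RingOfIntegers.ext
        show ((2 : AlgebraicClosure K) ^ N * b x) * ((2 : AlgebraicClosure K) ^ M * (b x)⁻¹) =
          algebraMap (𝓞 (AlgebraicClosure K)) (AlgebraicClosure K) (2 ^ (N + M))
        have : ((2 : AlgebraicClosure K) ^ N * b x) * ((2 : AlgebraicClosure K) ^ M * (b x)⁻¹) =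
            2 ^ (N + M) * (b x * (b x)⁻¹) := by ring
        rw [this, mul_inv_cancel₀ h0, mul_one, map_pow]
        congr 1
      have h6 : (2 : 𝓞 (AlgebraicClosure K)) ^ (N + M) ∈ Q := by
        rw [← h5]
        exact Q.mul_mem_right _ h4
      exact hQ2 (hQ.mem_of_pow_mem _ h6)
  · intro w hw
    exact (hmem w).1 hw.2 1

theorem InM.root {x y : AlgebraicClosure K} {k : ℕ} (hy : InM y) (hu : SU y) (h : x ^ 2 ^ k = y) :
    InM x := by
  induction k generalizing y with
  | zero =>
    rw [pow_zero, pow_one] at h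
    rw [h]
    exact hy
  | succ k ih =>
    have h1 : (x ^ 2 ^ k) ^ 2 = y := by
      rw [← pow_mul, ← pow_succ, h]
    refine ih (y := x ^ 2 ^ k) (InM.sqrt hy hu h1) ?_ rfl
    refine SU.of_pow two_ne_zero ?_
    rw [h1]
    exact hu

end Pool.Agent.Work.MP_787500_nt.PA
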