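import Mathlib
import Pool.Agent.Work.MP_787500_nt.PA.RootM
import Pool.Agent.Work.MP_787500_nt.H10_Gal
import Pool.Agent.Work.MP_787500_nt.H9_Kummer

/-!
# Module ACTHOM (size M): quadratic characters and square roots

`U` open in the system (`Opn`), `F` its fixed field, `AbsGal K` acts on `Ω = AlgebraicClosure K`.
* `act2_mem`: `t ≠ 0`, `InM t`, `U` fixes `t ^ 2`; then `g t = ± t` for `g ∈ U`, and
  `act2 U t g = 1` iff `g t = -t` (`t ≠ -t`). Homomorphism on `U`, zero off `U`, smooth (the good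
  subgroup fixing `t`, intersected with one inside `U`).
* `act2_mul`: `act2 U (t * t') = act2 U t + act2 U t'`. `act2_eq_zero`: `act2 U t = 0` iff `U` fixes
  `t`.
* `exists_act2`: let `ψ ∈ homs S U`. Apply `exists_sqrt_of_char` (`H9_Kummer.lean`) to the Galois
  extension `Ω / F` and the character of `Ω ≃ₐ[F] Ω ≅ F.fixingSubgroup = U`
  (`IntermediateField.fixingSubgroupEquiv`, the kernel of `ψ` in `U` is open): there is `t ≠ 0` with
  `g t = t` if `ψ g = 0` and `g t = -t` otherwise. The kernel of `ψ` in `U` contains a good subgroup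
  (smoothness), so `InM t`.
* `even_of_act2`: for such `t`, if `F` is a number field (instance) and `d : F` with `t ^ 2 = d`, then
  `EvenOff2 d`: otherwise `exists_inertia_of_odd` (`H10_Gal.lean`, for `Ω / F`) gives a prime `Q`,
  `2 ∉ Q`, and `σ` in its inertia group in `Ω ≃ₐ[F] Ω` with `σ t = -t`; `σ`, as an element of
  `AbsGal K`, lies in `Q.inertia (AbsGal K)`, hence in the good subgroup fixing `t`: contradiction.
-/

set_option autoImplicit false
set_option linter.unusedSectionVars false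

namespace Pool.Agent.Work.MP_787500_nt.PA

open IsDedekindDomain NumberField

universe u

variable {K : Type u} [Field K] [NumberField K]

private theorem actHom_sign {g : AbsGal K} {t : AlgebraicClosure K} (h : g (t ^ 2) = t ^ 2) :
    g t = t ∨ g t = -t := by
  apply sq_eq_sq_iff_eq_or_eq_neg.1
  rw [← map_pow, h]

private theorem actHom_ne {t : AlgebraicClosure K} (ht : t ≠ 0) : -t ≠ t := by
  intro h
  have h2 : (2 : AlgebraicClosure K) * t = 0 := by linear_combination -h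
  exact mul_ne_zero two_ne_zero ht h2

private theorem actHom_fix {U : Subgroup (AbsGal K)} {g : AbsGal K} {t : AlgebraicClosure K}
    (h : g t = t) : act2 U t g = 0 := by
  classical
  unfold act2
  rw [if_neg]
  rintro ⟨_, h2⟩
  exact h2 h

private theorem actHom_neg {U : Subgroup (AbsGal K)} {g : AbsGal K} {t : AlgebraicClosure K}
    (ht : t ≠ 0) (hg : g ∈ U) (h : g t = -t) : act2 U t g = 1 := by
  classical
  unfold act2
  rw [if_pos]
  refine ⟨hg, ?_⟩
  rw [h]
  exact actHom_ne ht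

private theorem actHom_off {U : Subgroup (AbsGal K)} {g : AbsGal K} {t : AlgebraicClosure K}
    (hg : g ∉ U) : act2 U t g = 0 := by
  classical
  unfold act2
  rw [if_neg]
  rintro ⟨h1, _⟩
  exact hg h1

theorem act2_mem {U : Subgroup (AbsGal K)} (hU : Opn (goodSys K) U) {t : AlgebraicClosure K}
    (ht0 : t ≠ 0) (ht : InM t) (hfix : ∀ g ∈ U, g (t ^ 2) = t ^ 2) :
    act2 U t ∈ homs (goodSys K) U := by
  obtain ⟨WU, hWU, hle⟩ := hU
  obtain ⟨W, hW, hWt⟩ := ht
  refine ⟨⟨W ⊓ WU, Good.inf hW hWU, ?_⟩, fun g hg => actHom_off hg, ?_⟩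
  · intro g w hw
    have hwU : w ∈ U := hle hw.2
    have hwt : w t = t := hWt w hw.1
    by_cases hg : g ∈ U
    · have hgw : (g * w) t = g t := by
        rw [AlgEquiv.mul_apply, hwt]
      rcases actHom_sign (hfix g hg) with h | h
      · rw [actHom_fix h, actHom_fix (by rw [hgw, h])]
      · rw [actHom_neg ht0 hg h, actHom_neg ht0 (U.mul_mem hg hwU) (by rw [hgw, h])]
    · have hgw : g * w ∉ U := fun h => hg (by
        have := U.mul_mem h (U.inv_mem hwU)
        rwa [mul_inv_cancel_right] at this)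
      rw [actHom_off hg, actHom_off hgw]
  · intro g hg h hh
    have hgh := U.mul_mem hg hh
    rcases actHom_sign (hfix g hg) with h1 | h1 <;> rcases actHom_sign (hfix h hh) with h2 | h2
    · rw [actHom_fix h1, actHom_fix h2, actHom_fix (by rw [AlgEquiv.mul_apply, h2, h1]), add_zero]
    · rw [actHom_fix h1, actHom_neg ht0 hh h2,
        actHom_neg ht0 hgh (by rw [AlgEquiv.mul_apply, h2, map_neg, h1]), zero_add]
    · rw [actHom_neg ht0 hg h1, actHom_fix h2,
        actHom_neg ht0 hgh (by rw [AlgEquiv.mul_apply, h2, h1]), add_zero]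
    · rw [actHom_neg ht0 hg h1, actHom_neg ht0 hh h2,
        actHom_fix (by rw [AlgEquiv.mul_apply, h2, map_neg, h1, neg_neg])]
      decide

theorem act2_mul {U : Subgroup (AbsGal K)} {t t' : AlgebraicClosure K} (ht0 : t ≠ 0)
    (ht0' : t' ≠ 0) (hfix : ∀ g ∈ U, g (t ^ 2) = t ^ 2) (hfix' : ∀ g ∈ U, g (t' ^ 2) = t' ^ 2) :
    act2 U (t * t') = act2 U t + act2 U t' := by
  funext g
  rw [Pi.add_apply]
  by_cases hg : g ∈ U
  · rcases actHom_sign (hfix g hg) with h1 | h1 <;> rcases actHom_sign (hfix' g hg) with h2 | h2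
    · rw [actHom_fix h1, actHom_fix h2, actHom_fix (by rw [map_mul, h1, h2]), add_zero]
    · rw [actHom_fix h1, actHom_neg ht0' hg h2,
        actHom_neg (mul_ne_zero ht0 ht0') hg (by rw [map_mul, h1, h2]; ring), zero_add]
    · rw [actHom_neg ht0 hg h1, actHom_fix h2,
        actHom_neg (mul_ne_zero ht0 ht0') hg (by rw [map_mul, h1, h2]; ring), add_zero]
    · rw [actHom_neg ht0 hg h1, actHom_neg ht0' hg h2, actHom_fix (by rw [map_mul, h1, h2]; ring)]
      decide
  · rw [actHom_off hg, actHom_off hg, actHom_off hg, add_zero]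

theorem act2_eq_zero_iff {U : Subgroup (AbsGal K)} {t : AlgebraicClosure K} :
    act2 U t = 0 ↔ ∀ g ∈ U, g t = t := by
  classical
  constructor
  · intro h g hg
    by_contra hcon
    have h1 := congrFun h g
    unfold act2 at h1
    rw [if_pos ⟨hg, hcon⟩, Pi.zero_apply] at h1
    exact one_ne_zero h1
  · intro h
    funext g
    by_cases hg : g ∈ U
    · rw [actHom_fix (h g hg)]; rfl
    · rw [actHom_off hg]; rfl

private theorem actHom_z2 (a : ZMod 2) : a = 0 ∨ a = 1 := by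
  revert a; decide

theorem exists_act2 {U : Subgroup (AbsGal K)} (hU : Opn (goodSys K) U) {ψ : AbsGal K → ZMod 2}
    (hψ : ψ ∈ homs (goodSys K) U) :
    ∃ t : AlgebraicClosure K, t ≠ 0 ∧ InM t ∧ (∀ g ∈ U, g (t ^ 2) = t ^ 2) ∧ ψ = act2 U t := by
  classical
  obtain ⟨WU, hWU, hle⟩ := hU
  obtain ⟨⟨W, hW, hsm⟩, hoff, hmul⟩ := hψ
  have h1 : ψ 1 = 0 := by
    have := hmul 1 U.one_mem 1 U.one_mem
    rw [mul_one] at this
    simpa using this
  have hinv : ∀ g ∈ U, ψ g⁻¹ = ψ g := by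
    intro g hg
    have := hmul g hg g⁻¹ (U.inv_mem hg)
    rw [mul_inv_cancel, h1] at this
    rcases actHom_z2 (ψ g) with h | h <;> rcases actHom_z2 (ψ g⁻¹) with h' | h' <;>
      rw [h, h'] at this ⊢
    · exact absurd this.symm (by decide)
    · exact absurd this.symm (by decide)
  let V : Subgroup (AbsGal K) :=
    { carrier := {g | g ∈ U ∧ ψ g = 0}
      mul_mem' := fun {a b} ha hb => ⟨U.mul_mem ha.1 hb.1, by
        rw [hmul a ha.1 b hb.1, ha.2, hb.2, add_zero]⟩
      one_mem' := ⟨U.one_mem, h1⟩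
      inv_mem' := fun {a} ha => ⟨U.inv_mem ha.1, by rw [hinv a ha.1, ha.2]⟩ }
  have hV : ∀ g, g ∈ V ↔ g ∈ U ∧ ψ g = 0 := fun g => Iff.rfl
  have hW' : Good (W ⊓ WU) := Good.inf hW hWU
  have hWV : W ⊓ WU ≤ V := by
    intro w hw
    refine ⟨hle hw.2, ?_⟩
    have := hsm 1 w hw.1
    rwa [one_mul, h1] at this
  by_cases hall : ∀ g ∈ U, ψ g = 0
  · refine ⟨1, one_ne_zero, ⟨⊤, Good.top, fun w _ => map_one w⟩, fun g _ => by
      rw [map_pow, map_one], ?_⟩
    funext g
    rw [actHom_fix (map_one g)]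
    by_cases hg : g ∈ U
    · exact hall g hg
    · exact hoff g hg
  push Not at hall
  obtain ⟨σ₀, hσU, hσ₀⟩ := hall
  have hσ1 : ψ σ₀ = 1 := (actHom_z2 _).resolve_left hσ₀
  have hVopen : IsOpen (V : Set (AbsGal K)) := Subgroup.isOpen_mono hWV hW'.isOpen
  have hcl : IsClosed (V : Set (AbsGal K)) := Subgroup.isClosed_of_isOpen V hVopen
  have hfix := InfiniteGalois.fixingSubgroup_fixedField (k := K) (K := AlgebraicClosure K) ⟨V, hcl⟩
  have hnot : σ₀ ∉ (IntermediateField.fixedField (F := K) (E := AlgebraicClosure K)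
      V).fixingSubgroup := by
    intro hh
    have : σ₀ ∈ V := by
      have h2 : (IntermediateField.fixedField (F := K) (E := AlgebraicClosure K)
        V).fixingSubgroup = V := hfix
      rw [h2] at hh
      exact hh
    exact hσ₀ this.2
  rw [IntermediateField.mem_fixingSubgroup_iff] at hnot
  push Not at hnot
  obtain ⟨z, hz, hzne⟩ := hnot
  rw [IntermediateField.mem_fixedField_iff] at hz
  have hσi : ψ σ₀⁻¹ = 1 := by rw [hinv σ₀ hσU, hσ1]
  have hσiU : σ₀⁻¹ ∈ U := U.inv_mem hσU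
  have key : ∀ σ ∈ U, ψ σ = 0 → σ (σ₀ z) = σ₀ z := by
    intro σ hs hσ
    have h3 : σ₀⁻¹ * (σ * σ₀) ∈ V := by
      refine ⟨U.mul_mem hσiU (U.mul_mem hs hσU), ?_⟩
      rw [hmul _ hσiU _ (U.mul_mem hs hσU), hmul _ hs _ hσU, hσi, hσ, hσ1]
      decide
    have h4 := hz _ h3
    have h5 : σ₀ ((σ₀⁻¹ * (σ * σ₀)) z) = σ₀ z := by rw [h4]
    rw [← AlgEquiv.mul_apply, ← mul_assoc, mul_inv_cancel, one_mul, AlgEquiv.mul_apply] at h5
    exact h5
  have key2 : ∀ σ ∈ U, ψ σ = 1 → σ z = σ₀ z := by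
    intro σ hs hσ
    have h3 : σ₀⁻¹ * σ ∈ V := by
      refine ⟨U.mul_mem hσiU hs, ?_⟩
      rw [hmul _ hσiU _ hs, hσi, hσ]
      decide
    have h4 := hz _ h3
    have h5 : σ₀ ((σ₀⁻¹ * σ) z) = σ₀ z := by rw [h4]
    rw [← AlgEquiv.mul_apply, ← mul_assoc, mul_inv_cancel, one_mul] at h5
    exact h5
  have key3 : ∀ σ ∈ U, ψ σ = 1 → σ (σ₀ z) = z := by
    intro σ hs hσ
    have h3 : σ * σ₀ ∈ V := by
      refine ⟨U.mul_mem hs hσU, ?_⟩
      rw [hmul _ hs _ hσU, hσ, hσ1]
      decide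
    have h4 := hz _ h3
    rw [AlgEquiv.mul_apply] at h4
    exact h4
  have e0 : ∀ σ ∈ U, ψ σ = 0 → σ (z - σ₀ z) = z - σ₀ z := by
    intro σ hs hσ
    rw [map_sub, key σ hs hσ, hz σ ⟨hs, hσ⟩]
  have e1 : ∀ σ ∈ U, ψ σ = 1 → σ (z - σ₀ z) = -(z - σ₀ z) := by
    intro σ hs hσ
    rw [map_sub, key3 σ hs hσ, key2 σ hs hσ]
    ring
  have ht0 : z - σ₀ z ≠ 0 := sub_ne_zero.2 (fun h => hzne h.symm)
  refine ⟨z - σ₀ z, ht0, ⟨W ⊓ WU, hW', fun w hw => e0 w (hWV hw).1 (hWV hw).2⟩, ?_, ?_⟩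
  · intro g hg
    rcases actHom_z2 (ψ g) with h | h
    · rw [map_pow, e0 g hg h]
    · rw [map_pow, e1 g hg h, neg_sq]
  · funext g
    by_cases hg : g ∈ U
    · rcases actHom_z2 (ψ g) with h | h
      · rw [h, actHom_fix (e0 g hg h)]
      · rw [h, actHom_neg ht0 hg (e1 g hg h)]
    · rw [hoff g hg, actHom_off hg]

theorem even_of_act2 {F : IntermediateField K (AlgebraicClosure K)} [NumberField F]
    {t : AlgebraicClosure K} (ht : InM t) {d : F} (hd0 : d ≠ 0) (hd : t ^ 2 = d) :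
    EvenOff2 d := by
  obtain ⟨W, hW, hWt⟩ := ht
  have ht0 : t ≠ 0 := by
    rintro rfl
    apply hd0
    rw [zero_pow two_ne_zero] at hd
    exact (ZeroMemClass.coe_eq_zero.1 hd.symm)
  intro v hv
  by_contra hcon
  obtain ⟨Q, hQ, hQ2, σ, hσ, hσt⟩ := exists_inertia_of_odd (F := F) (Ω := AlgebraicClosure K)
    (d := d) (s := t) hd hv hcon
  have h1 : σ.restrictScalars K ∈ Q.inertia (AbsGal K) := by
    intro x
    exact hσ x
  have h2 : (σ.restrictScalars K) t = t := hWt _ (hW.inertia Q hQ hQ2 h1)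
  have h3 : σ t = t := h2
  rw [hσt] at h3
  exact actHom_ne ht0 h3

end Pool.Agent.Work.MP_787500_nt.PA
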