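import Mathlib
import Pool.Agent.Work.MP_787500_nt.PA.RootM

/-!
# Module CYCK (size S-M): the cyclotomic character

`cyc` is multiplicative (a homomorphism), values are units, so not divisible by 2, so congruent to 1
modulo 2. Continuity: for `n` let `ζ` be a primitive `2 ^ n`-th root of unity; `InM ζ` (`InM.root` with
`y = 1`, `SU.of_root`), let `W` be good, fixing `ζ`; for `w ∈ W`, `cyc w` is 1 modulo `2 ^ n`
(`cyclotomicCharacter.toZModPow`, `cyclotomicCharacter.spec`), and
`cyc (g w) - cyc g = cyc g * (cyc w - 1)`.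
-/

set_option autoImplicit false

namespace Pool.Agent.Work.MP_787500_nt.PA

open IsDedekindDomain NumberField

universe u

variable {K : Type u} [Field K] [NumberField K]

private theorem cycK_mul (g h : AbsGal K) : cyc (g * h) = cyc g * cyc h := by
  have h1 : ((g * h : AbsGal K) : AlgebraicClosure K ≃+* AlgebraicClosure K) =
      (g : AlgebraicClosure K ≃+* AlgebraicClosure K) * (h : AlgebraicClosure K ≃+* AlgebraicClosure K) := rfl
  unfold cyc
  rw [h1, map_mul, Units.val_mul]

private theorem cycK_one : cyc (1 : AbsGal K) = 1 := by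
  have h1 : ((1 : AbsGal K) : AlgebraicClosure K ≃+* AlgebraicClosure K) = 1 := rfl
  unfold cyc
  rw [h1, map_one, Units.val_one]

private theorem cycK_spec (g : AbsGal K) {n : ℕ} {ζ : AlgebraicClosure K} (h : ζ ^ 2 ^ n = 1) :
    g ζ = ζ ^ (PadicInt.toZModPow n (cyc g)).val :=
  cyclotomicCharacter.spec 2 (g : AlgebraicClosure K ≃+* AlgebraicClosure K) ζ h

private theorem cycK_prim (n : ℕ) : ∃ ζ : AlgebraicClosure K, IsPrimitiveRoot ζ (2 ^ n) :=
  HasEnoughRootsOfUnity.exists_primitiveRoot _ _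

private theorem cycK_eq {g h : AbsGal K} {n : ℕ} {ζ : AlgebraicClosure K}
    (hζ : IsPrimitiveRoot ζ (2 ^ n)) (he : g ζ = h ζ) :
    PadicInt.toZModPow n (cyc g) = PadicInt.toZModPow n (cyc h) := by
  rw [cycK_spec g hζ.pow_eq_one, cycK_spec h hζ.pow_eq_one] at he
  haveI : NeZero (2 ^ n) := ⟨by positivity⟩
  exact ZMod.val_injective _ (hζ.pow_inj (ZMod.val_lt _) (ZMod.val_lt _) he)

private theorem cycK_good {n : ℕ} {ζ : AlgebraicClosure K} (hζ : IsPrimitiveRoot ζ (2 ^ n)) :
    ∃ W : Subgroup (AbsGal K), Good W ∧ ∀ w ∈ W, w ζ = ζ := by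
  have h1 : InM (1 : AlgebraicClosure K) := by
    have := InM.base (K := K) (1 : K)
    rwa [map_one] at this
  exact InM.root (k := n) h1 (SUlem_one) hζ.pow_eq_one

theorem isChar_cyc : IsChar (goodSys K) (cyc (K := K)) := by
  refine ⟨cycK_one, cycK_mul, ?_, ?_⟩
  · intro n
    obtain ⟨ζ, hζ⟩ := cycK_prim (K := K) n
    obtain ⟨W, hW, hw⟩ := cycK_good hζ
    refine ⟨W, hW, fun g w hwW => ?_⟩
    have h1 : (g * w) ζ = g ζ := by
      show g (w ζ) = g ζ
      rw [hw w hwW]
    have h2 := cycK_eq hζ h1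
    rw [← sub_eq_zero, ← map_sub, ← RingHom.mem_ker, PadicInt.ker_toZModPow,
      Ideal.mem_span_singleton] at h2
    exact_mod_cast h2
  · intro g
    have h1 : IsUnit (cyc g) := Units.isUnit _
    have h2 : IsUnit (PadicInt.toZMod (cyc g)) := h1.map _
    have h3 : PadicInt.toZMod (cyc g) = 1 := by
      have : ∀ a : ZMod 2, IsUnit a → a = 1 := by
        intro a ha
        have := ha.ne_zero
        revert this
        revert a
        decide
      exact this _ h2
    have h4 : PadicInt.toZMod (cyc g - 1) = 0 := by rw [map_sub, h3, map_one, sub_self]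
    rw [← RingHom.mem_ker, PadicInt.ker_toZMod, PadicInt.maximalIdeal_eq_span_p,
      Ideal.mem_span_singleton] at h4
    exact_mod_cast h4

theorem cyc_core {k : AbsGal K} (hk : k ∈ core K) : cyc k = 1 := by
  refine PadicInt.ext_of_toZModPow.mp fun n => ?_
  obtain ⟨ζ, hζ⟩ := cycK_prim (K := K) n
  obtain ⟨W, hW, hw⟩ := cycK_good hζ
  have h1 : k ∈ W := (Subgroup.mem_sInf.1 hk) W hW
  have h2 : k ζ = (1 : AbsGal K) ζ := hw k h1
  have h3 := cycK_eq hζ h2
  rw [h3, cycK_one]

end Pool.Agent.Work.MP_787500_nt.PA
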