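import Mathlib
import Pool.Agent.Work.MP_787500_nt.PA.GoodSys
import Pool.Agent.Work.MP_787500_nt.H10_Gal
import Pool.Agent.Work.MP_787500_nt.H10_Main

/-!
# Module DECCL (size M): the decomposition group is closed and surjects onto the quotient by the core

* `decomp_closed`: `decomp ι` is the image of the compact group `Γ = Gal(Ωv / C)` under the restriction
  map `r` (`exists_restrict10`, choose; unique since `ι` is injective). `r` is continuous: for `x ∈ Ω`,
  `{τ | r τ x = x} = {τ | τ (ι x) = ι x}` is open (`stabilizer_isOpen_of_isIntegral`), `r` is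
  multiplicative, and these stabilizers generate the topology of `AbsGal K` at 1 (finite intersections:
  `krullTopology_mem_nhds_one_iff` and finitely many generators). `AbsGal K` is Hausdorff.
* `decomp_mul_good`: `decomp_surj` in `H10_Gal.lean`, with `PropP K` from `general_tower`
  (`H10_Main.lean`) or `quadratic` for `K` in its own tower.
* `decomp_mul_core`: the sets `decomp ι ∩ {d | d⁻¹ * g ∈ W}`, `W` good, are closed, nonempty and
  directed; by compactness (`IsCompact.nonempty_iInter_of_directed_nonempty_isCompact_isClosed`) the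
  intersection is nonempty.
* `core_normal`, `core_closed`, `inertia_le_core`, `core_le`: clear (a good subgroup is open, so closed).
-/

set_option autoImplicit false
set_option linter.unusedSectionVars false

namespace Pool.Agent.Work.MP_787500_nt.PA

open IsDedekindDomain NumberField

universe u

variable {K : Type u} [Field K] [NumberField K]

theorem core_le {W : Subgroup (AbsGal K)} (hW : Good W) : core K ≤ W :=
  sInf_le hW

theorem core_normal : (core K).Normal := by
  refine ⟨fun n hn g => ?_⟩
  rw [core, Subgroup.mem_sInf] at hn ⊢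
  intro W hW
  exact (Good.normal hW).conj_mem n (hn W hW) g

theorem core_closed : IsClosed (core K : Set (AbsGal K)) := by
  rw [core, Subgroup.coe_sInf]
  refine isClosed_biInter fun W hW => ?_
  exact Subgroup.isClosed_of_isOpen W (Good.isOpen hW)

theorem inertia_le_core {Q : Ideal (𝓞 (AlgebraicClosure K))} (hQ : Q.IsPrime)
    (h2 : (2 : 𝓞 (AlgebraicClosure K)) ∉ Q) : Q.inertia (AbsGal K) ≤ core K :=
  le_sInf fun _ hW => Good.inertia hW Q hQ h2

/-- The restriction map. -/
private theorem deccl_restrict {F : Type*} [Field F] {E : Type*} [Field E] [Algebra F E]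
    (ι : AlgebraicClosure F →ₐ[F] AlgebraicClosure E) :
    ∃ r : (AlgebraicClosure E ≃ₐ[E] AlgebraicClosure E) →*
      (AlgebraicClosure F ≃ₐ[F] AlgebraicClosure F),
      (∀ τ x, τ (ι x) = ι (r τ x)) ∧ Continuous r := by
  choose f hf using fun τ => exists_restrict10 ι τ
  have hinj : Function.Injective ι := ι.toRingHom.injective
  let r : (AlgebraicClosure E ≃ₐ[E] AlgebraicClosure E) →*
      (AlgebraicClosure F ≃ₐ[F] AlgebraicClosure F) :=
    { toFun := f
      map_one' := by
        ext x
        apply hinj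
        rw [← hf]
        rfl
      map_mul' := fun a b => by
        ext x
        apply hinj
        rw [← hf, AlgEquiv.mul_apply, hf, hf, AlgEquiv.mul_apply] }
  refine ⟨r, hf, ?_⟩
  apply continuous_of_continuousAt_one
  rw [ContinuousAt, map_one]
  intro U hU
  rw [krullTopology_mem_nhds_one_iff] at hU
  obtain ⟨L, hL, hLU⟩ := hU
  let b := Module.finBasis F L
  have hopen : IsOpen (⋂ i, (MulAction.stabilizer (AlgebraicClosure E ≃ₐ[E] AlgebraicClosure E)
      (ι (b i : AlgebraicClosure F)) : Set (AlgebraicClosure E ≃ₐ[E] AlgebraicClosure E))) := by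
    refine isOpen_iInter_of_finite fun i => ?_
    exact stabilizer_isOpen_of_isIntegral (ι (b i : AlgebraicClosure F))
  rw [Filter.mem_map]
  refine Filter.mem_of_superset (hopen.mem_nhds ?_) ?_
  · rw [Set.mem_iInter]
    intro i
    exact one_smul _ _
  · intro τ hτ
    rw [Set.mem_iInter] at hτ
    apply hLU
    show r τ ∈ L.fixingSubgroup
    rw [IntermediateField.mem_fixingSubgroup_iff]
    intro x hx
    have h1 : ∀ i, r τ (b i : AlgebraicClosure F) = (b i : AlgebraicClosure F) := by
      intro i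
      apply hinj
      exact (hf τ _).symm.trans (hτ i)
    have h3 : x = ∑ i, b.repr ⟨x, hx⟩ i • (b i : AlgebraicClosure F) := by
      calc x = L.val ⟨x, hx⟩ := rfl
        _ = L.val (∑ i, b.repr ⟨x, hx⟩ i • b i) := by rw [b.sum_repr]
        _ = _ := by rw [map_sum]; rfl
    rw [h3, map_sum]
    refine Finset.sum_congr rfl fun i _ => ?_
    rw [map_smul, h1]

theorem decomp_closed {v : HeightOneSpectrum (𝓞 K)}
    (ι : AlgebraicClosure K →ₐ[K] AlgebraicClosure (v.adicCompletion K)) :
    IsClosed (decomp ι : Set (AbsGal K)) := by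
  have : CharZero (v.adicCompletion K) :=
    charZero_of_injective_algebraMap (algebraMap K (v.adicCompletion K)).injective
  obtain ⟨r, hr, hc⟩ := deccl_restrict ι
  have h1 : (decomp ι : Set (AbsGal K)) = Set.range r := by
    ext σ
    constructor
    · rintro ⟨τ, hτ⟩
      refine ⟨τ, ?_⟩
      ext x
      apply ι.toRingHom.injective
      show ι (r τ x) = ι (σ x)
      rw [← hr, hτ]
    · rintro ⟨τ, rfl⟩
      exact ⟨τ, hr τ⟩
  rw [h1]
  exact (isCompact_range hc).isClosed

theorem decomp_mul_good {q : ℕ} {s : K} (hK : IsBase K q s) {v : HeightOneSpectrum (𝓞 K)}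
    (hv : (2 : 𝓞 K) ∈ v.asIdeal)
    (ι : AlgebraicClosure K →ₐ[K] AlgebraicClosure (v.adicCompletion K))
    {W : Subgroup (AbsGal K)} (hW : Good W) (g : AbsGal K) : ∃ d ∈ decomp ι, d⁻¹ * g ∈ W := by
  have hn := hW.normal
  exact decomp_surj (Quad.propP hK.1 hK.2.1 hK.2.2.1 hK.2.2.2) hv ι W hW.isOpen hW.pow hW.inertia g

theorem decomp_mul_core {q : ℕ} {s : K} (hK : IsBase K q s) {v : HeightOneSpectrum (𝓞 K)}
    (hv : (2 : 𝓞 K) ∈ v.asIdeal)
    (ι : AlgebraicClosure K →ₐ[K] AlgebraicClosure (v.adicCompletion K))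
    (g : AbsGal K) : ∃ d ∈ decomp ι, d⁻¹ * g ∈ core K := by
  let t : {W : Subgroup (AbsGal K) // Good W} → Set (AbsGal K) := fun W =>
    (decomp ι : Set (AbsGal K)) ∩ {d | d⁻¹ * g ∈ W.1}
  have hcl : ∀ W, IsClosed (t W) := by
    intro W
    refine (decomp_closed ι).inter ?_
    exact (Subgroup.isClosed_of_isOpen W.1 W.2.isOpen).preimage
      (continuous_inv.mul continuous_const)
  have hne : Nonempty {W : Subgroup (AbsGal K) // Good W} := ⟨⟨⊤, Good.top⟩⟩
  have h := IsCompact.nonempty_iInter_of_directed_nonempty_isCompact_isClosed t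
    (fun W W' => ⟨⟨W.1 ⊓ W'.1, W.2.inf W'.2⟩, fun d hd => ⟨hd.1, hd.2.1⟩, fun d hd => ⟨hd.1, hd.2.2⟩⟩)
    (fun W => by
      obtain ⟨d, hd, hd'⟩ := decomp_mul_good hK hv ι W.2 g
      exact ⟨d, hd, hd'⟩)
    (fun W => (hcl W).isCompact) hcl
  obtain ⟨d, hd⟩ := h
  rw [Set.mem_iInter] at hd
  refine ⟨d, (hd ⟨⊤, Good.top⟩).1, ?_⟩
  rw [core, Subgroup.mem_sInf]
  intro W hW
  exact (hd ⟨W, hW⟩).2

end Pool.Agent.Work.MP_787500_nt.PA
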