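import Mathlib
import Pool.Agent.Work.MP_787500_nt.PA.GoodSys
import Pool.Agent.Work.MP_787500_nt.H10_Defs
import Pool.Agent.Work.MP_787500_nt.H10_Gal

/-!
# Module FIXEDF (size M): the fixed field of an open subgroup of the system

`U` contains a good subgroup `W`. `F = fixedField U`. The subgroup `U` is open, hence closed, so
`F.fixingSubgroup = U` (`InfiniteGalois.fixingSubgroup_fixedField`), `F` is finite over `K`
(`InfiniteGalois.isOpen_iff_finite`), of degree `U.index` (`IntermediateField.finrank_eq_fixingSubgroup_index`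
or similar). `F` is a number field (finite over `K`).
`InTwoTower K F`: take `L = fixedField W`, Galois over `K` (`W` normal:
`InfiniteGalois.normal_iff_isGalois`), `Gal (L / K)` is `AbsGal K / W`, of 2-power order
(`Good.index`), `F ≤ L` gives the `F`-algebra structure on `L`.
Unramified off 2: for a prime `Q` of `𝓞 L`, `2 ∉ Q`: the inertia group of `Q` in `Gal (L / K)` is
trivial: choose a prime `P` of the ring of integers of the algebraic closure above `Q`; every element of
the inertia group of `Q` lifts to the inertia group of `P` in `AbsGal K` (`exists_inertia` in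
`H10_Gal.lean` with `H = L.fixingSubgroup`, or `Ideal.inertia` surjectivity), which is contained in `W`,
so it is trivial on `L`. Trivial inertia implies `Algebra.IsUnramifiedAt`: copy the end of the proof of
`unramified` in `RS/Unr.lean`.
-/

set_option autoImplicit false

namespace Pool.Agent.Work.MP_787500_nt.PA

open IsDedekindDomain NumberField

universe u

variable {K : Type u} [Field K] [NumberField K]

private theorem fixedF_closed {U : Subgroup (AbsGal K)} (hU : IsOpen (U : Set (AbsGal K))) :
    (IntermediateField.fixedField (F := K) (E := AlgebraicClosure K) U).fixingSubgroup = U :=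
  InfiniteGalois.fixingSubgroup_fixedField (k := K) (K := AlgebraicClosure K)
    ⟨U, Subgroup.isClosed_of_isOpen U hU⟩

private theorem fixedF_fin {U : Subgroup (AbsGal K)} (hU : IsOpen (U : Set (AbsGal K))) :
    FiniteDimensional K (IntermediateField.fixedField (F := K) (E := AlgebraicClosure K) U) := by
  rw [← InfiniteGalois.isOpen_iff_finite, fixedF_closed hU]
  exact hU

private theorem fixedF_rank {U : Subgroup (AbsGal K)} (hU : IsOpen (U : Set (AbsGal K))) :
    Module.finrank K (IntermediateField.fixedField (F := K) (E := AlgebraicClosure K) U) =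
      U.index := by
  rw [IntermediateField.finrank_eq_fixingSubgroup_index (AlgebraicClosure K), fixedF_closed hU]

private theorem fixedF_unr {W : Subgroup (AbsGal K)} (hW : Good W)
    (L : IntermediateField K (AlgebraicClosure K))
    (hL : ∀ x, x ∈ L ↔ ∀ f ∈ W, f x = x) [NumberField L] [IsGalois K L]
    (Q : HeightOneSpectrum (𝓞 L)) (hQ2 : (2 : 𝓞 L) ∉ Q.asIdeal) :
    Algebra.IsUnramifiedAt (𝓞 K) Q.asIdeal := by
  have hQprime : Q.asIdeal.IsPrime := Q.isPrime
  have hQmax : Q.asIdeal.IsMaximal := Q.isMaximal
  obtain ⟨P, hPm, hPQ⟩ := Ideal.exists_maximal_ideal_liesOver_of_isIntegral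
    (S := 𝓞 (AlgebraicClosure K)) Q.asIdeal
  have hP : P.IsPrime := hPm.isPrime
  have hmem : ∀ z : 𝓞 L, algebraMap (𝓞 L) (𝓞 (AlgebraicClosure K)) z ∈ P ↔ z ∈ Q.asIdeal := by
    intro z
    rw [hPQ.over, Ideal.under_def, Ideal.mem_comap]
  have hP2 : (2 : 𝓞 (AlgebraicClosure K)) ∉ P := by
    intro h
    apply hQ2
    rw [← hmem, map_ofNat]
    exact h
  let _ : TopologicalSpace (𝓞 (AlgebraicClosure K)) := ⊥
  have : DiscreteTopology (𝓞 (AlgebraicClosure K)) := ⟨rfl⟩
  have : ContinuousSMul (AbsGal K) (𝓞 (AlgebraicClosure K)) := by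
    rw [continuousSMul_iff_stabilizer_isOpen]
    intro x
    have h1 : IsOpen (MulAction.stabilizer (AbsGal K)
        (algebraMap (𝓞 (AlgebraicClosure K)) (AlgebraicClosure K) x) : Set (AbsGal K)) :=
      stabilizer_isOpen_of_isIntegral _
    convert h1 using 1
    ext σ
    simp only [SetLike.mem_coe, MulAction.mem_stabilizer_iff]
    constructor
    · intro h
      have := congrArg (algebraMap (𝓞 (AlgebraicClosure K)) (AlgebraicClosure K)) h
      exact this
    · intro h
      apply RingOfIntegers.ext
      exact h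
  have hcl : IsClosed (W : Set (AbsGal K)) := Subgroup.isClosed_of_isOpen W hW.isOpen
  have key : ∀ σ : Gal(L/K), σ ∈ Q.asIdeal.inertia Gal(L/K) → σ = 1 := by
    intro σ hσ
    obtain ⟨σ₀, hσ₀⟩ := AlgEquiv.restrictNormalHom_surjective (F := K) (K₁ := L)
      (AlgebraicClosure K) σ
    have hres : ∀ x : L, σ₀ (x : AlgebraicClosure K) = ((σ x : L) : AlgebraicClosure K) := by
      intro x
      rw [← hσ₀]
      exact (AlgEquiv.restrictNormal_commutes σ₀ L x).symm
    have hresi : ∀ x : L, σ₀⁻¹ (x : AlgebraicClosure K) = ((σ⁻¹ x : L) : AlgebraicClosure K) := by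
      intro x
      have h1 := hres (σ⁻¹ x)
      have h2 : σ (σ⁻¹ x) = x := by
        rw [← AlgEquiv.mul_apply, mul_inv_cancel]; rfl
      rw [h2] at h1
      rw [← h1, ← AlgEquiv.mul_apply, inv_mul_cancel]; rfl
    have hσi : σ⁻¹ ∈ Q.asIdeal.inertia Gal(L/K) := Subgroup.inv_mem _ hσ
    obtain ⟨h, hh, hin⟩ := exists_inertia W hcl P σ₀ (by
      intro x hx
      have hxL : algebraMap (𝓞 (AlgebraicClosure K)) (AlgebraicClosure K) x ∈ L := by
        rw [hL]
        intro f hf
        have := congrArg (algebraMap (𝓞 (AlgebraicClosure K)) (AlgebraicClosure K)) (hx f hf)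
        exact this
      have hint : IsIntegral ℤ (⟨_, hxL⟩ : L) := by
        have h1 : IsIntegral ℤ (algebraMap L (AlgebraicClosure K) ⟨_, hxL⟩) :=
          RingOfIntegers.isIntegral_coe x
        exact (isIntegral_algebraMap_iff (algebraMap L (AlgebraicClosure K)).injective).1 h1
      let z : 𝓞 L := ⟨⟨_, hxL⟩, hint⟩
      have h2 : σ⁻¹ • z - z ∈ Q.asIdeal := hσi z
      rw [← hmem] at h2
      have h3 : algebraMap (𝓞 L) (𝓞 (AlgebraicClosure K)) (σ⁻¹ • z - z) = σ₀⁻¹ • x - x := by
        rw [map_sub]
        apply RingOfIntegers.ext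
        have e0 : ∀ a b : 𝓞 (AlgebraicClosure K),
            algebraMap (𝓞 (AlgebraicClosure K)) (AlgebraicClosure K) (a - b) =
            algebraMap (𝓞 (AlgebraicClosure K)) (AlgebraicClosure K) a -
            algebraMap (𝓞 (AlgebraicClosure K)) (AlgebraicClosure K) b := fun a b => map_sub _ a b
        have e1 : algebraMap (𝓞 (AlgebraicClosure K)) (AlgebraicClosure K)
            (algebraMap (𝓞 L) (𝓞 (AlgebraicClosure K)) (σ⁻¹ • z)) =
            algebraMap (𝓞 (AlgebraicClosure K)) (AlgebraicClosure K) (σ₀⁻¹ • x) :=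
          (hresi ⟨_, hxL⟩).symm
        have e2 : algebraMap (𝓞 (AlgebraicClosure K)) (AlgebraicClosure K)
            (algebraMap (𝓞 L) (𝓞 (AlgebraicClosure K)) z) =
            algebraMap (𝓞 (AlgebraicClosure K)) (AlgebraicClosure K) x := rfl
        exact ((e0 _ _).trans (by rw [e1, e2])).trans (e0 _ _).symm
      rwa [h3] at h2)
    have h4 : h * σ₀ ∈ W := hW.inertia P hP hP2 hin
    have h5 : σ₀ ∈ W := by
      have := W.mul_mem (W.inv_mem hh) h4
      rwa [inv_mul_cancel_left] at this
    ext x
    have h7 := (hL _).1 x.2 _ h5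
    rw [hres] at h7
    exact h7
  have hcard : Nat.card (Q.asIdeal.inertia Gal(L/K)) = 1 := by
    rw [Nat.card_eq_one_iff_unique]
    refine ⟨⟨fun s t => ?_⟩, ⟨1⟩⟩
    apply Subtype.ext
    rw [key s.1 s.2, key t.1 t.2]
  rw [← Ideal.ramificationIdx_eq_one_iff,
    ← Ideal.ramificationIdxIn_eq_ramificationIdx (Q.asIdeal.under (𝓞 K)) _ Gal(L/K),
    ← Ideal.card_inertia_eq_ramificationIdxIn (G := Gal(L/K)) (Q.asIdeal.under (𝓞 K)) Q.asIdeal]
  exact hcard

theorem fixedF {U : Subgroup (AbsGal K)} (hU : Opn (goodSys K) U) :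
    FiniteDimensional K (IntermediateField.fixedField U) ∧
      Module.finrank K (IntermediateField.fixedField U) = U.index ∧
      (IntermediateField.fixedField U).fixingSubgroup = U ∧
      ∃ _ : NumberField (IntermediateField.fixedField U),
        InTwoTower K (IntermediateField.fixedField U) := by
  have hUo := hU.isOpen
  obtain ⟨W, hW, hle⟩ := hU
  have hW' : Good W := hW
  have hWo : IsOpen (W : Set (AbsGal K)) := hW'.isOpen
  have hfU := fixedF_fin hUo
  have hfW := fixedF_fin hWo
  have hNU : NumberField (IntermediateField.fixedField (F := K) (E := AlgebraicClosure K) U) :=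
    NumberField.of_module_finite K _
  have hNW : NumberField (IntermediateField.fixedField (F := K) (E := AlgebraicClosure K) W) :=
    NumberField.of_module_finite K _
  refine ⟨hfU, fixedF_rank hUo, fixedF_closed hUo, hNU, ?_⟩
  have hgal : IsGalois K (IntermediateField.fixedField (F := K) (E := AlgebraicClosure K) W) := by
    rw [← InfiniteGalois.normal_iff_isGalois, fixedF_closed hWo]
    exact hW'.normal
  have hUW : IntermediateField.fixedField (F := K) (E := AlgebraicClosure K) U ≤
      IntermediateField.fixedField (F := K) (E := AlgebraicClosure K) W :=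
    IntermediateField.fixedField_le hle
  let _ : Algebra (IntermediateField.fixedField (F := K) (E := AlgebraicClosure K) U)
      (IntermediateField.fixedField (F := K) (E := AlgebraicClosure K) W) :=
    (IntermediateField.inclusion hUW).toRingHom.toAlgebra
  have htow : IsScalarTower K (IntermediateField.fixedField (F := K) (E := AlgebraicClosure K) U)
      (IntermediateField.fixedField (F := K) (E := AlgebraicClosure K) W) :=
    IsScalarTower.of_algebraMap_eq (fun x => rfl)
  refine ⟨IntermediateField.fixedField (F := K) (E := AlgebraicClosure K) W, inferInstance, hNW,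
    inferInstance, inferInstance, htow, hgal, ?_, ?_⟩
  · obtain ⟨k, hk⟩ := Good.index hW'
    exact ⟨k, by rw [fixedF_rank hWo, hk]⟩
  · intro Q hQ
    exact fixedF_unr hW' _ (fun x => IntermediateField.mem_fixedField_iff _ _) Q hQ

end Pool.Agent.Work.MP_787500_nt.PA
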