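import Mathlib
import Pool.Agent.Work.MP_787500_nt.PA.SUlem
import Pool.Agent.Work.MP_787500_nt.H10_Rank

/-!
# Module SUNITRANK (size L): independent units away from 2 modulo squares

`F` totally complex of degree `2 m`, two different places above 2. The units of `𝓞 F` have `m`
elements independent modulo squares (Dirichlet and `index_dbl_eq`), and the valuation exponents at the two
dyadic places of the units away from 2 form a subgroup of rank 2 of `ℤ × ℤ` (class number), which gives two
further elements.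
-/

set_option autoImplicit false

namespace Pool.Agent.Work.MP_787500_nt.PA

open IsDedekindDomain NumberField

universe u

namespace SunitRank

/-- elements of a finitely generated group that are independent modulo doubles -/
theorem exists_indep (G : Type*) [AddCommGroup G] (n : ℕ) (h : 2 ^ n ≤ (dbl G).range.index) :
    ∃ a : Fin n → G, ∀ T : Finset (Fin n), (∃ y, ∑ i ∈ T, a i = 2 • y) → T = ∅ := by
  classical
  set Q := G ⧸ (dbl G).range with hQ
  have h0 : (dbl G).range.index ≠ 0 := by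
    have : 0 < 2 ^ n := by positivity
    omega
  have hfin : Finite Q := (AddSubgroup.finiteIndex_iff_finite_quotient).1 ⟨h0⟩
  have h2 : ∀ x : Q, (2 : ℕ) • x = 0 := by
    intro x
    obtain ⟨g, rfl⟩ := QuotientAddGroup.mk_surjective x
    have : ((2 • g : G) : Q) = 0 := (QuotientAddGroup.eq_zero_iff _).2 ⟨g, rfl⟩
    simpa using this
  let _ : Module (ZMod 2) Q := AddCommGroup.zmodModule h2
  have hfd : Module.Finite (ZMod 2) Q := Module.Finite.of_finite
  have hcard : Nat.card Q = 2 ^ Module.finrank (ZMod 2) Q := by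
    have := Module.natCard_eq_pow_finrank (K := ZMod 2) (V := Q)
    simpa using this
  have hn : n ≤ Module.finrank (ZMod 2) Q := by
    have : 2 ^ n ≤ 2 ^ Module.finrank (ZMod 2) Q := by
      rw [← hcard]; exact h
    exact (Nat.pow_le_pow_iff_right (by norm_num)).1 this
  let b := Module.finBasis (ZMod 2) Q
  have hs : ∀ i : Fin n, ∃ g : G, (g : Q) = b (Fin.castLE hn i) := fun i => QuotientAddGroup.mk_surjective _
  choose a ha using hs
  refine ⟨a, fun T ⟨y, hy⟩ => ?_⟩
  have h3 : ∑ i ∈ T, b (Fin.castLE hn i) = 0 := by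
    have : ((∑ i ∈ T, a i : G) : Q) = 0 := by
      rw [hy]; exact (QuotientAddGroup.eq_zero_iff _).2 ⟨y, rfl⟩
    have h4 : ((∑ i ∈ T, a i : G) : Q) = ∑ i ∈ T, ((a i : G) : Q) :=
      map_sum (QuotientAddGroup.mk' (dbl G).range) a T
    rw [h4] at this
    simpa only [ha] using this
  have hli : LinearIndependent (ZMod 2) (fun i : Fin n => b (Fin.castLE hn i)) :=
    b.linearIndependent.comp _ (Fin.castLE_injective hn)
  rw [linearIndependent_iff'] at hli
  by_contra hT
  obtain ⟨i, hi⟩ := Finset.nonempty_iff_ne_empty.2 hT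
  have := hli T (fun _ => 1) (by simpa using h3) i hi
  exact one_ne_zero this

theorem exists_units {F : Type*} [Field F] [NumberField F] [IsTotallyComplex F] {m : ℕ}
    (hm : Module.finrank ℚ F = 2 * m) (hm0 : 0 < m) :
    ∃ a : Fin m → (𝓞 F)ˣ, ∀ T : Finset (Fin m), (∃ y : (𝓞 F)ˣ, ∏ i ∈ T, a i = y ^ 2) → T = ∅ := by
  have h1 : Module.finrank ℤ (Additive (𝓞 F)ˣ) = m - 1 := by
    rw [NumberField.Units.finrank_eq, NumberField.Units.rank,
      NumberField.InfinitePlace.card_eq_nrRealPlaces_add_nrComplexPlaces,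
      NumberField.IsTotallyComplex.nrRealPlaces_eq_zero]
    have := NumberField.IsTotallyComplex.finrank F
    omega
  have hker : 2 ≤ Nat.card (dbl (Additive (𝓞 F)ˣ)).ker := by
    have hf : Finite (dbl (Additive (𝓞 F)ˣ)).ker := by
      refine Finite.of_injective (β := ({1, -1} : Set (𝓞 F)ˣ)) (fun x => ⟨x.1.toMul, ?_⟩) ?_
      · have hx := x.2
        rw [AddMonoidHom.mem_ker] at hx
        have : (x.1.toMul) ^ 2 = 1 := hx
        have h2 : ((x.1.toMul : (𝓞 F)ˣ) : 𝓞 F) ^ 2 = 1 := by
          rw [← Units.val_pow_eq_pow_val, this, Units.val_one]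
        have h3 : (((x.1.toMul : (𝓞 F)ˣ) : 𝓞 F) - 1) * (((x.1.toMul : (𝓞 F)ˣ) : 𝓞 F) + 1) = 0 := by
          linear_combination h2
        rcases mul_eq_zero.1 h3 with h | h
        · left; exact Units.ext (sub_eq_zero.1 h)
        · right; exact Units.ext (by rw [Units.val_neg, Units.val_one]; exact eq_neg_of_add_eq_zero_left h)
      · intro x y hxy
        apply Subtype.ext
        have := congrArg Subtype.val hxy
        exact this
    have hnt : Nontrivial (dbl (Additive (𝓞 F)ˣ)).ker := by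
      refine ⟨⟨⟨Additive.ofMul (-1), ?_⟩, 0, ?_⟩⟩
      · rw [AddMonoidHom.mem_ker]
        show (-1 : (𝓞 F)ˣ) ^ 2 = 1
        simp
      · intro h
        have h1 := congrArg (fun x => ((x.1.toMul : (𝓞 F)ˣ) : 𝓞 F)) h
        have h2 : (-1 : 𝓞 F) = 1 := by simpa using h1
        have : (2 : 𝓞 F) = 0 := by linear_combination (-1 : 𝓞 F) * h2
        exact two_ne_zero this
    exact Finite.one_lt_card
  have hfg : AddGroup.FG (Additive (𝓞 F)ˣ) := Module.Finite.iff_addGroup_fg.1 inferInstance
  have hidx : 2 ^ m ≤ (dbl (Additive (𝓞 F)ˣ)).range.index := by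
    rw [index_dbl_eq, h1]
    calc 2 ^ m = 2 ^ (m - 1) * 2 := by
          rw [← pow_succ]; congr 1; omega
      _ ≤ _ := Nat.mul_le_mul_left _ hker
  obtain ⟨a, ha⟩ := exists_indep _ m hidx
  refine ⟨fun i => (a i).toMul, fun T ⟨y, hy⟩ => ha T ⟨Additive.ofMul y, ?_⟩⟩
  apply Additive.toMul.injective
  rw [toMul_sum]
  exact hy

/-- exponent of the valuation -/
noncomputable def o {F : Type*} [Field F] [NumberField F] (w : HeightOneSpectrum (𝓞 F)) (x : Fˣ) : ℤ :=
  Multiplicative.toAdd (w.valuationOfNeZero (K := F) x)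

theorem o_mul {F : Type*} [Field F] [NumberField F] (w : HeightOneSpectrum (𝓞 F)) (x y : Fˣ) :
    o w (x * y) = o w x + o w y := by
  simp [o]

theorem o_one {F : Type*} [Field F] [NumberField F] (w : HeightOneSpectrum (𝓞 F)) : o w (1 : Fˣ) = 0 := by
  simp [o]

theorem o_pow {F : Type*} [Field F] [NumberField F] (w : HeightOneSpectrum (𝓞 F)) (x : Fˣ) (n : ℤ) :
    o w (x ^ n) = n * o w x := by
  simp [o]

theorem o_prod {F : Type*} [Field F] [NumberField F] (w : HeightOneSpectrum (𝓞 F)) {ι : Type*} (T : Finset ι)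
    (f : ι → Fˣ) : o w (∏ i ∈ T, f i) = ∑ i ∈ T, o w (f i) := by
  classical
  induction T using Finset.induction_on with
  | empty => simp [o_one]
  | insert a T ha ih => rw [Finset.prod_insert ha, Finset.sum_insert ha, o_mul, ih]

theorem o_eq_zero {F : Type*} [Field F] [NumberField F] (w : HeightOneSpectrum (𝓞 F)) (x : Fˣ) :
    o w x = 0 ↔ w.valuation F (x : F) = 1 := by
  rw [← HeightOneSpectrum.valuationOfNeZero_eq]
  unfold o
  constructor
  · intro h
    have : w.valuationOfNeZero (K := F) x = 1 := h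
    rw [this]; rfl
  · intro h
    have : w.valuationOfNeZero (K := F) x = 1 := WithZero.coe_inj.1 h
    rw [this]; rfl

theorem SU_zpow {Ω : Type*} [Field Ω] [CharZero Ω] {x : Ω} (hx : SU x) (n : ℤ) : SU (x ^ n) := by
  rcases Int.eq_nat_or_neg n with ⟨k, rfl | rfl⟩
  · rw [zpow_natCast]; exact hx.pow k
  · rw [zpow_neg, zpow_natCast]; exact (hx.pow k).inv

theorem SU_one {Ω : Type*} [Field Ω] [CharZero Ω] : SU (1 : Ω) := SU.of_root (n := 1) one_ne_zero (by simp)

/-- the exponents of units away from 2 at two places -/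
noncomputable def B {F : Type*} [Field F] [NumberField F] (w w' : HeightOneSpectrum (𝓞 F)) :
    Submodule ℤ (ℤ × ℤ) where
  carrier := {z | ∃ x : Fˣ, SU (x : F) ∧ o w x = z.1 ∧ o w' x = z.2}
  add_mem' := by
    rintro a b ⟨x, hx, h1, h2⟩ ⟨y, hy, h3, h4⟩
    refine ⟨x * y, by rw [Units.val_mul]; exact hx.mul hy, ?_, ?_⟩
    · rw [o_mul, h1, h3]; rfl
    · rw [o_mul, h2, h4]; rfl
  zero_mem' := ⟨1, by rw [Units.val_one]; exact SU_one, by rw [o_one]; rfl, by rw [o_one]; rfl⟩
  smul_mem' := by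
    rintro c a ⟨x, hx, h1, h2⟩
    refine ⟨x ^ c, by rw [Units.val_zpow_eq_zpow_val]; exact SU_zpow hx c, ?_, ?_⟩
    · rw [o_pow, h1]; rfl
    · rw [o_pow, h2]; rfl

/-- an integer whose only prime is `w` -/
theorem exists_gen {F : Type*} [Field F] [NumberField F] {w : HeightOneSpectrum (𝓞 F)}
    (hw : (2 : 𝓞 F) ∈ w.asIdeal) :
    ∃ x : Fˣ, SU (x : F) ∧ o w x ≠ 0 ∧ ∀ w' : HeightOneSpectrum (𝓞 F), w' ≠ w → o w' x = 0 := by
  classical
  let I : nonZeroDivisors (Ideal (𝓞 F)) := ⟨w.asIdeal, mem_nonZeroDivisors_of_ne_zero w.ne_bot⟩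
  set h := Nat.card (ClassGroup (𝓞 F)) with hh
  have hpos : 0 < h := Nat.card_pos
  have h1 : ClassGroup.mk0 (I ^ h) = 1 := by
    rw [map_pow]; exact pow_card_eq_one'
  have h2 : (w.asIdeal ^ h).IsPrincipal := by
    have := (ClassGroup.mk0_eq_one_iff (I ^ h).2).1 h1
    simpa [I] using this
  obtain ⟨g, hg⟩ := h2.principal
  have hg' : w.asIdeal ^ h = Ideal.span {g} := hg
  have hg0 : g ≠ 0 := by
    rintro rfl
    rw [Ideal.span_singleton_zero] at hg'
    exact pow_ne_zero h w.ne_bot hg'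
  have hgF : algebraMap (𝓞 F) F g ≠ 0 := by
    intro h0
    exact hg0 ((FaithfulSMul.algebraMap_injective (𝓞 F) F) (by rw [h0, map_zero]))
  have hgw : g ∈ w.asIdeal := by
    have : g ∈ w.asIdeal ^ h := by rw [hg']; exact Ideal.mem_span_singleton_self g
    exact Ideal.pow_le_self hpos.ne' this
  have hother : ∀ w' : HeightOneSpectrum (𝓞 F), w' ≠ w → w'.valuation F (algebraMap (𝓞 F) F g) = 1 := by
    intro w' hne
    refine le_antisymm (w'.valuation_le_one g) (not_lt.1 fun hlt => hne ?_)
    rw [HeightOneSpectrum.valuation_lt_one_iff_mem] at hlt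
    have hle : w.asIdeal ≤ w'.asIdeal := by
      have : w.asIdeal ^ h ≤ w'.asIdeal := by
        rw [hg', Ideal.span_singleton_le_iff_mem]; exact hlt
      exact w'.isPrime.le_of_pow_le this
    have := w.isMaximal.eq_of_le w'.isPrime.ne_top hle
    exact HeightOneSpectrum.ext this.symm
  refine ⟨Units.mk0 _ hgF, ?_, ?_, fun w' hne => ?_⟩
  · rw [su_iff]
    refine ⟨hgF, fun v hv => ?_⟩
    exact hother v (by rintro rfl; exact hv hw)
  · rw [Ne, o_eq_zero]
    intro h0
    have : w.valuation F (algebraMap (𝓞 F) F g) < 1 := (HeightOneSpectrum.valuation_lt_one_iff_mem _ _).2 hgw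
    exact this.ne h0
  · rw [o_eq_zero]
    exact hother w' hne

theorem B_index {F : Type*} [Field F] [NumberField F] {w w' : HeightOneSpectrum (𝓞 F)}
    (hw : (2 : 𝓞 F) ∈ w.asIdeal) (hw' : (2 : 𝓞 F) ∈ w'.asIdeal) (hne : w ≠ w') :
    2 ^ 2 ≤ (dbl (B w w')).range.index := by
  obtain ⟨x, hx, h1, h2⟩ := exists_gen hw
  obtain ⟨y, hy, h3, h4⟩ := exists_gen hw'
  have hfin : Module.Finite ℤ (B w w') := inferInstance
  have hfg : AddGroup.FG (B w w') := Module.Finite.iff_addGroup_fg.1 hfin
  let bx : B w w' := ⟨(o w x, o w' x), x, hx, rfl, rfl⟩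
  let byy : B w w' := ⟨(o w y, o w' y), y, hy, rfl, rfl⟩
  have hli : LinearIndependent ℤ ![bx, byy] := by
    rw [LinearIndependent.pair_iff]
    intro s t hst
    have e := congrArg Subtype.val hst
    have e1 : s * o w x + t * o w y = 0 := congrArg Prod.fst e
    have e2 : s * o w' x + t * o w' y = 0 := congrArg Prod.snd e
    rw [h2 w' hne.symm] at e2
    rw [h4 w hne] at e1
    simp only [mul_zero, add_zero, zero_add, mul_eq_zero] at e1 e2
    exact ⟨e1.resolve_right h1, e2.resolve_right h3⟩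
  have hrank : 2 ≤ Module.finrank ℤ (B w w') := by
    have := hli.fintype_card_le_finrank
    simpa using this
  rw [index_dbl_eq]
  have hk : 1 ≤ Nat.card (dbl (B w w')).ker := by
    have : Subsingleton (dbl (B w w')).ker := by
      refine ⟨fun a b => ?_⟩
      have key : ∀ a : (dbl (B w w')).ker, a = 0 := by
        rintro ⟨a, ha⟩
        rw [AddMonoidHom.mem_ker] at ha
        have h5 : (2 : ℕ) • a = 0 := ha
        have h6 : (2 : ℕ) • (a : ℤ × ℤ) = 0 := by
          have := congrArg Subtype.val h5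
          simpa using this
        have h7 : (a : ℤ × ℤ) = 0 := by
          refine Prod.ext ?_ ?_
          · have := congrArg Prod.fst h6; simpa using this
          · have := congrArg Prod.snd h6; simpa using this
        exact Subtype.ext (Subtype.ext h7)
      rw [key a, key b]
    rw [Nat.card_eq_one_iff_unique.2 ⟨this, ⟨0⟩⟩]
  calc 2 ^ 2 ≤ 2 ^ Module.finrank ℤ (B w w') := Nat.pow_le_pow_right (by norm_num) hrank
    _ = 2 ^ Module.finrank ℤ (B w w') * 1 := (mul_one _).symm
    _ ≤ _ := Nat.mul_le_mul_left _ hk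

end SunitRank

open SunitRank in
theorem exists_sunits {F : Type*} [Field F] [NumberField F] [IsTotallyComplex F] {m : ℕ}
    (hm : Module.finrank ℚ F = 2 * m) {w w' : HeightOneSpectrum (𝓞 F)}
    (hw : (2 : 𝓞 F) ∈ w.asIdeal) (hw' : (2 : 𝓞 F) ∈ w'.asIdeal) (hne : w ≠ w') :
    ∃ a : Fin (m + 2) → F, (∀ i, SU (a i)) ∧
      ∀ T : Finset (Fin (m + 2)), IsSquare (∏ i ∈ T, a i) → T = ∅ := by
  classical
  have hm0 : 0 < m := by
    have := Module.finrank_pos (R := ℚ) (M := F)
    omega
  obtain ⟨e, he⟩ := exists_units hm hm0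
  obtain ⟨b, hb⟩ := exists_indep (B w w') 2 (B_index hw hw' hne)
  choose z hz1 hz2 hz3 using fun i => (b i).2
  have hunit : ∀ u : (𝓞 F)ˣ, SU ((u : 𝓞 F) : F) := by
    intro u
    refine ⟨by simp, ⟨0, ?_⟩, ⟨0, ?_⟩⟩
    · rw [pow_zero, one_mul]
      exact RingOfIntegers.isIntegral_coe _
    · rw [pow_zero, one_mul]
      have : (((u : 𝓞 F) : F))⁻¹ = ((u⁻¹ : (𝓞 F)ˣ) : 𝓞 F) := by
        refine inv_eq_of_mul_eq_one_right ?_
        have := congrArg (algebraMap (𝓞 F) F) (Units.mul_inv u)
        rw [map_mul, map_one] at this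
        exact this
      rw [this]
      exact RingOfIntegers.isIntegral_coe _
  let f : Fin m ⊕ Fin 2 → Fˣ := Sum.elim (fun i => Units.map (algebraMap (𝓞 F) F : 𝓞 F →* F) (e i)) z
  have hfSU : ∀ i, SU (f i : F) := by
    rintro (i | i)
    · exact hunit (e i)
    · exact hz1 i
  have key : ∀ T : Finset (Fin m ⊕ Fin 2), ∀ y : F, ∏ i ∈ T, (f i : F) = y * y → T = ∅ := by
    intro T y hy
    have hy0 : y ≠ 0 := by
      rintro rfl
      rw [mul_zero, Finset.prod_eq_zero_iff] at hy
      obtain ⟨i, _, hi⟩ := hy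
      exact (f i).ne_zero hi
    have hySU : SU y := by
      refine SU.of_pow (n := 2) two_ne_zero ?_
      rw [pow_two, ← hy]
      exact SU.prod T _ fun i _ => hfSU i
    set yu : Fˣ := Units.mk0 y hy0 with hyu
    have hprod : ∏ i ∈ T, f i = yu * yu := by
      apply Units.ext
      rw [Units.coe_prod, hy]; rfl
    have hsplit : ∏ i ∈ T, f i = (∏ i ∈ T.toLeft, f (Sum.inl i)) * ∏ i ∈ T.toRight, f (Sum.inr i) := by
      rw [← Finset.toLeft_disjSum_toRight (u := T), Finset.prod_disjSum]
      simp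
    have hou : ∀ (v : HeightOneSpectrum (𝓞 F)) (i : Fin m), o v (f (Sum.inl i)) = 0 := by
      intro v i
      unfold o
      have : v.valuationOfNeZero (K := F) (f (Sum.inl i)) = 1 := v.valuation_of_unit_eq (e i)
      rw [this]; rfl
    have hT2 : T.toRight = ∅ := by
      refine hb _ ⟨⟨(o w yu, o w' yu), yu, hySU, rfl, rfl⟩, ?_⟩
      have h1 : ∀ v : HeightOneSpectrum (𝓞 F), ∑ i ∈ T.toRight, o v (z i) = 2 * o v yu := by
        intro v
        have := congrArg (o v) hprod
        rw [hsplit, o_mul, o_prod, o_prod, Finset.sum_eq_zero (fun i _ => hou v i), zero_add, o_mul] at this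
        rw [two_mul]; exact this
      apply Subtype.ext
      rw [AddSubmonoidClass.coe_finsetSum]
      refine Prod.ext ?_ ?_
      · rw [Prod.fst_sum]
        have := h1 w
        simp only [hz2] at this
        rw [this]
        simp [two_mul]
      · rw [Prod.snd_sum]
        have := h1 w'
        simp only [hz3] at this
        rw [this]
        simp [two_mul]
    have hT1 : T.toLeft = ∅ := by
      rw [hT2, Finset.prod_empty, mul_one] at hsplit
      have hsq : algebraMap (𝓞 F) F (∏ i ∈ T.toLeft, ((e i : (𝓞 F)ˣ) : 𝓞 F)) = y ^ 2 := by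
        have := congrArg (Units.val) (hsplit.symm.trans hprod)
        rw [Units.coe_prod] at this
        rw [map_prod, pow_two]
        exact this
      have hyint : IsIntegral ℤ y := by
        refine IsIntegral.of_pow two_pos ?_
        rw [← hsq]
        exact RingOfIntegers.isIntegral_coe _
      obtain ⟨y', hy'⟩ : ∃ y' : 𝓞 F, algebraMap (𝓞 F) F y' = y := ⟨⟨y, hyint⟩, rfl⟩
      have hsq' : ∏ i ∈ T.toLeft, ((e i : (𝓞 F)ˣ) : 𝓞 F) = y' ^ 2 := by
        apply FaithfulSMul.algebraMap_injective (𝓞 F) F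
        rw [hsq, map_pow, hy']
      have hu : IsUnit y' := by
        have : IsUnit (y' ^ 2) := by
          rw [← hsq', ← Units.coe_prod]
          exact Units.isUnit _
        exact (isUnit_pow_iff two_ne_zero).1 this
      obtain ⟨y'', rfl⟩ := hu
      refine he _ ⟨y'', ?_⟩
      apply Units.ext
      rw [Units.coe_prod, hsq', Units.val_pow_eq_pow_val]
    rw [← Finset.toLeft_disjSum_toRight (u := T), hT1, hT2]
    simp
  refine ⟨fun i => (f (finSumFinEquiv.symm i) : F), fun i => hfSU _, ?_⟩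
  rintro T ⟨y, hy⟩
  have := key (T.map finSumFinEquiv.symm.toEmbedding) y (by
    rw [Finset.prod_map]; exact hy)
  simpa using this

end Pool.Agent.Work.MP_787500_nt.PA
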