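import Mathlib
import Pool.Agent.Work.MP_787500_nt.PA.Defs
import Pool.Agent.Work.MP_787500_nt.H10_Gal
import Pool.Agent.Work.MP_787500_nt.H10_Local

/-!
# Module LOCA (size L): local quadratic characters come from square roots of global elements

`C = v.adicCompletion K` (complete, nonarchimedean, characteristic 0), `Ωv = AlgebraicClosure C`,
`ι : Ω → Ωv`, `D = decomp ι`. `U` open in `AbsGal K`, `F` its fixed field, finite over `K`.
Let `Γ = Ωv ≃ₐ[C] Ωv`; for `τ ∈ Γ` let `r τ ∈ D` be the restriction: `ι (r τ x) = τ (ι x)`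
(`exists_restrict10`; unique as `ι` is injective; `r` is a continuous homomorphism onto `D`).
`Γ_U = {τ | r τ ∈ U}` = the elements fixing `ι F`.
1. `A τ := lam (r τ) = 0` for `τ ∈ Γ_U`. The set `{τ ∈ Γ_U | A τ}` is open. Let `C'` be the fixed field
   of `Γ_U` in `Ωv`: `C' = C (ι F)` (adjoin `ι F`; infinite Galois correspondence), finite over `C`.
   `exists_sqrt_of_char` for `Ωv / C'` gives `y ≠ 0` in `Ωv` with `τ y = y` if `lam (r τ) = 0` and
   `τ y = -y` otherwise, for `τ ∈ Γ_U`; `y ^ 2 ∈ C'`.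
2. `C'` is spanned over `C` by `ι F` (a finite extension generated by the field `ι F`, whose span over
   `C` is closed under multiplication). `K` is dense in `C`. Use the spectral norm `|·|` on `Ωv`
   (`spectralNorm C Ωv`, `spectralMulAlgNorm`: multiplicative, nonarchimedean, extends the norm of
   `C`; invariant under `Γ`: `spectralNorm_eq_of_equiv`); `C` has its norm from
   `Mathlib/NumberTheory/NumberField/FinitePlaces.lean` (or `Valued.toNormedField`). So there is `b ∈ F`,
   `b ≠ 0`, with `|ι b - y ^ 2| < |4 y ^ 2|`.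
3. Let `t ∈ Ω`, `t ^ 2 = b`, `u = ι t / y`, `u ^ 2 = 1 + x`, `|x| < |4|`. For `τ ∈ Γ_U`:
   `τ u = ± u` (its square is fixed). If `τ u = -u` and `u ≠ 0`: `|u - 1| = |τ (u - 1)| = |u + 1|`, so
   `|x| = |u - 1| ^ 2` and `|2| = |(u + 1) - (u - 1)| ≤ |u - 1|`, `|4| ≤ |x|`: contradiction. So
   `τ u = u` and `τ (ι t) = ι t` iff `τ y = y`. Hence for `g = r τ ∈ D ⊓ U`: `lam g = 0` iff `g t = t`.
The Krasner argument of step 3 is stated separately (`krasner`), it is used in `LocB.lean`.
-/

set_option autoImplicit false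

namespace Pool.Agent.Work.MP_787500_nt.PA

open IsDedekindDomain NumberField

universe u

variable {K : Type u} [Field K] [NumberField K]

section
open scoped Valued

theorem exists_N_locA (v : HeightOneSpectrum (𝓞 K)) :
    ∃ N : AlgebraicClosure (v.adicCompletion K) → ℝ,
      (∀ x y, N (x * y) = N x * N y) ∧ (∀ x y, N (x + y) ≤ max (N x) (N y)) ∧
      (∀ x, 0 ≤ N x) ∧ (∀ x, N x = 0 ↔ x = 0) ∧
      (∀ x : v.adicCompletion K, N (algebraMap _ _ x) ≤ 1 ↔ Valued.v x ≤ 1) ∧
      (∀ (τ : AlgebraicClosure (v.adicCompletion K) ≃ₐ[v.adicCompletion K]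
          AlgebraicClosure (v.adicCompletion K)) (x), N (τ x) = N x) ∧
      (∀ (c : v.adicCompletion K) (δ : ℝ), 0 < δ →
        ∃ k : K, N (algebraMap _ _ (c - algebraMap K _ k)) < δ) := by
  have hc : CompleteSpace (v.adicCompletion K) := inferInstance
  have hu : IsUltrametricDist (v.adicCompletion K) := inferInstance
  refine ⟨fun x => spectralNorm (v.adicCompletion K) (AlgebraicClosure (v.adicCompletion K)) x,
    ?_, ?_, ?_, ?_, ?_, ?_, ?_⟩
  · intro x y
    exact spectralAlgNorm_mul x y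
  · intro x y
    exact isNonarchimedean_spectralNorm x y
  · intro x
    exact spectralNorm_nonneg x
  · intro x
    refine ⟨fun h => eq_zero_of_map_spectralNorm_eq_zero h (Algebra.IsAlgebraic.isAlgebraic x), ?_⟩
    rintro rfl
    exact spectralNorm_zero
  · intro x
    show spectralNorm (v.adicCompletion K) (AlgebraicClosure (v.adicCompletion K)) (algebraMap _ _ x) ≤ 1 ↔ _
    rw [spectralNorm_extends]
    exact Valued.toNormedField.norm_le_one_iff
  · intro τ x
    exact (spectralNorm_eq_of_equiv τ x).symm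
  · intro c δ hδ
    have hdense : DenseRange (algebraMap K (v.adicCompletion K)) :=
      HeightOneSpectrum.denseRange_algebraMap K v
    obtain ⟨k, hk⟩ := hdense.exists_dist_lt c hδ
    refine ⟨k, ?_⟩
    show spectralNorm (v.adicCompletion K) (AlgebraicClosure (v.adicCompletion K)) (algebraMap _ _ _) < δ
    rw [spectralNorm_extends]
    rwa [dist_eq_norm] at hk

end


theorem krasner_aux {C : Type*} [Field C] {L : Type*} [Field L] [Algebra C L] (N : L → ℝ)
    (hmul : ∀ x y, N (x * y) = N x * N y) (hadd : ∀ x y, N (x + y) ≤ max (N x) (N y))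
    (hnn : ∀ x, 0 ≤ N x) (hinv : ∀ (τ : L ≃ₐ[C] L) (x), N (τ x) = N x)
    (hneg : ∀ x, N (-x) = N x)
    {u x y : L} (hu : u ^ 2 = y ^ 2 + x) (hx : N x < N (4 * y ^ 2)) (τ : L ≃ₐ[C] L)
    (h1 : τ (y ^ 2) = y ^ 2) (h2 : τ (u ^ 2) = u ^ 2) : τ u = u ↔ τ y = y := by
  have e1 : (u - y) * (u + y) = x := by linear_combination hu
  have e2 : N (u - y) * N (u + y) < N (2 * y) * N (2 * y) := by
    rw [← hmul, ← hmul, e1]
    have : 2 * y * (2 * y) = 4 * y ^ 2 := by ring
    rw [this]
    exact hx
  have e3 : N (2 * y) ≤ max (N (u + y)) (N (u - y)) := by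
    have h := hadd (u + y) (-(u - y))
    rw [hneg] at h
    have h' : u + y + -(u - y) = 2 * y := by ring
    rwa [h'] at h
  have key : N (u - y) ≠ N (u + y) := by
    intro h
    rw [h, max_self] at e3
    rw [h] at e2
    have := mul_le_mul e3 e3 (hnn _) (hnn _)
    linarith
  have hu' : τ u = u ∨ τ u = -u := by
    rw [map_pow] at h2
    exact sq_eq_sq_iff_eq_or_eq_neg.1 h2
  have hy' : τ y = y ∨ τ y = -y := by
    rw [map_pow] at h1
    exact sq_eq_sq_iff_eq_or_eq_neg.1 h1
  constructor
  · intro h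
    rcases hy' with h' | h'
    · exact h'
    · exfalso
      apply key
      have h3 := hinv τ (u - y)
      rw [map_sub, h, h', sub_neg_eq_add] at h3
      exact h3.symm
  · intro h
    rcases hu' with h' | h'
    · exact h'
    · exfalso
      apply key
      have h3 := hinv τ (u - y)
      rw [map_sub, h, h'] at h3
      have h4 : -u - y = -(u + y) := by ring
      rw [h4, hneg] at h3
      exact h3.symm

theorem norm_neg_locA {L : Type*} [Field L] (N : L → ℝ)
    (hmul : ∀ x y, N (x * y) = N x * N y) (hnn : ∀ x, 0 ≤ N x)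
    (h0 : ∀ x, N x = 0 ↔ x = 0) (x : L) : N (-x) = N x := by
  have h1 : N 1 = 1 := by
    have h := hmul 1 1
    rw [mul_one] at h
    have hne : N 1 ≠ 0 := fun h' => one_ne_zero ((h0 1).1 h')
    have : N 1 * (N 1 - 1) = 0 := by linarith
    rcases mul_eq_zero.1 this with h' | h'
    · exact absurd h' hne
    · linarith
  have h2 : N (-1) = 1 := by
    have h := hmul (-1) (-1)
    rw [neg_mul_neg, one_mul, h1] at h
    have h3 := hnn (-1)
    nlinarith
  have h3 := hmul (-1) x
  rwa [neg_one_mul, h2, one_mul] at h3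

theorem krasner {v : HeightOneSpectrum (𝓞 K)}
    (ι : AlgebraicClosure K →ₐ[K] AlgebraicClosure (v.adicCompletion K)) :
    ∃ N : AlgebraicClosure (v.adicCompletion K) → ℝ,
      (∀ x y, N (x * y) = N x * N y) ∧ (∀ x y, N (x + y) ≤ max (N x) (N y)) ∧
      (∀ x, 0 ≤ N x) ∧ (∀ x, N x = 0 ↔ x = 0) ∧
      (∀ x : v.adicCompletion K, N (algebraMap _ _ x) ≤ 1 ↔ Valued.v x ≤ 1) ∧
      (∀ u x y : AlgebraicClosure (v.adicCompletion K), y ≠ 0 → u ^ 2 = y ^ 2 + x →
        N x < N (4 * y ^ 2) →
        ∀ τ : AlgebraicClosure (v.adicCompletion K) ≃ₐ[v.adicCompletion K]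
          AlgebraicClosure (v.adicCompletion K), τ (y ^ 2) = y ^ 2 → τ (u ^ 2) = u ^ 2 →
          (τ u = u ↔ τ y = y)) := by
  obtain ⟨N, h1, h2, h3, h4, h5, h6, _⟩ := exists_N_locA v
  exact ⟨N, h1, h2, h3, h4, h5, fun u x y _ hu hx τ ha hb =>
    krasner_aux N h1 h2 h3 h6 (norm_neg_locA N h1 h3 h4) hu hx τ ha hb⟩

theorem inj_locA {v : HeightOneSpectrum (𝓞 K)}
    (ι : AlgebraicClosure K →ₐ[K] AlgebraicClosure (v.adicCompletion K)) :
    Function.Injective ι := ι.toRingHom.injective

/-- restriction of automorphisms along `ι` -/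
noncomputable def resHom {v : HeightOneSpectrum (𝓞 K)}
    (ι : AlgebraicClosure K →ₐ[K] AlgebraicClosure (v.adicCompletion K)) :
    (AlgebraicClosure (v.adicCompletion K) ≃ₐ[v.adicCompletion K]
      AlgebraicClosure (v.adicCompletion K)) →* AbsGal K where
  toFun τ := (exists_restrict10 ι τ).choose
  map_one' := by
    ext x
    apply inj_locA ι
    rw [← (exists_restrict10 ι 1).choose_spec x]
    rfl
  map_mul' a b := by
    ext x
    apply inj_locA ι
    rw [← (exists_restrict10 ι (a * b)).choose_spec x, AlgEquiv.mul_apply, AlgEquiv.mul_apply,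
      ← (exists_restrict10 ι a).choose_spec, ← (exists_restrict10 ι b).choose_spec]

theorem resHom_spec {v : HeightOneSpectrum (𝓞 K)}
    (ι : AlgebraicClosure K →ₐ[K] AlgebraicClosure (v.adicCompletion K)) (τ) (x) :
    τ (ι x) = ι (resHom ι τ x) := (exists_restrict10 ι τ).choose_spec x

theorem resHom_eq {v : HeightOneSpectrum (𝓞 K)}
    (ι : AlgebraicClosure K →ₐ[K] AlgebraicClosure (v.adicCompletion K)) {τ} {g : AbsGal K}
    (h : ∀ x, τ (ι x) = ι (g x)) : resHom ι τ = g := by
  ext x
  apply inj_locA ι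
  rw [← resHom_spec, h]

theorem nhds_resHom {v : HeightOneSpectrum (𝓞 K)}
    (ι : AlgebraicClosure K →ₐ[K] AlgebraicClosure (v.adicCompletion K))
    {U : Subgroup (AbsGal K)} (hU : IsOpen (U : Set (AbsGal K)))
    (C' : IntermediateField (v.adicCompletion K) (AlgebraicClosure (v.adicCompletion K))) :
    {σ : AlgebraicClosure (v.adicCompletion K) ≃ₐ[C'] AlgebraicClosure (v.adicCompletion K) |
      resHom ι (σ.restrictScalars (v.adicCompletion K)) ∈ U} ∈ nhds 1 := by
  have hn : (U : Set (AbsGal K)) ∈ nhds 1 := hU.mem_nhds U.one_mem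
  obtain ⟨E, hE, hEU⟩ := (krullTopology_mem_nhds_one_iff _ _ _).1 hn
  rw [krullTopology_mem_nhds_one_iff]
  let b := Module.finBasis K E
  let S : Set (AlgebraicClosure (v.adicCompletion K)) := Set.range fun i => ι (b i)
  have hS : Finite S := inferInstance
  refine ⟨IntermediateField.adjoin C' S, IntermediateField.finiteDimensional_adjoin
    (fun x _ => Algebra.IsIntegral.isIntegral x), fun σ hσ => ?_⟩
  have hfix : ∀ i, σ (ι (b i)) = ι (b i) := by
    intro i
    have := (IntermediateField.mem_fixingSubgroup_iff _ _).1 hσ (ι (b i))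
      (IntermediateField.subset_adjoin _ _ ⟨i, rfl⟩)
    exact this
  apply hEU
  rw [SetLike.mem_coe, IntermediateField.mem_fixingSubgroup_iff]
  intro x hx
  have hb : ∀ i, resHom ι (σ.restrictScalars (v.adicCompletion K)) (b i : AlgebraicClosure K) =
      b i := by
    intro i
    apply inj_locA ι
    rw [← resHom_spec]
    exact hfix i
  have hx' : (x : AlgebraicClosure K) = ∑ i, b.repr ⟨x, hx⟩ i • (b i : AlgebraicClosure K) := by
    calc x = ((⟨x, hx⟩ : E) : AlgebraicClosure K) := rfl
      _ = ((∑ i, b.repr ⟨x, hx⟩ i • b i : E) : AlgebraicClosure K) := by rw [b.sum_repr]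
      _ = _ := by
        rw [IntermediateField.coe_sum]
        rfl
  rw [hx', map_sum]
  refine Finset.sum_congr rfl fun i _ => ?_
  rw [Algebra.smul_def, map_mul, AlgEquiv.commutes, hb]

theorem dense_locA {v : HeightOneSpectrum (𝓞 K)}
    (ι : AlgebraicClosure K →ₐ[K] AlgebraicClosure (v.adicCompletion K))
    (N : AlgebraicClosure (v.adicCompletion K) → ℝ)
    (hmul : ∀ x y, N (x * y) = N x * N y) (hadd : ∀ x y, N (x + y) ≤ max (N x) (N y))
    (hnn : ∀ x, 0 ≤ N x) (h0 : N 0 = 0)
    (hd : ∀ (c : v.adicCompletion K) (δ : ℝ), 0 < δ →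
        ∃ k : K, N (algebraMap _ _ (c - algebraMap K _ k)) < δ)
    (F : IntermediateField K (AlgebraicClosure K)) {z : AlgebraicClosure (v.adicCompletion K)}
    (hz : z ∈ IntermediateField.adjoin (v.adicCompletion K) (ι '' (F : Set (AlgebraicClosure K)))) :
    ∀ δ : ℝ, 0 < δ → ∃ b ∈ F, N (ι b - z) < δ := by
  have hneg : ∀ x, N (-x) = N x := by
    intro x
    have h1 : N 1 * N 1 = N 1 := by rw [← hmul, one_mul]
    have h2 : N (-1) * N (-1) = N 1 := by rw [← hmul]; simp
    have h3 : N (-1) = N 1 := by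
      have ha := hnn (-1)
      have hb := hnn 1
      have : N (-1) * N (-1) = N 1 * N 1 := by rw [h2, h1]
      nlinarith
    calc N (-x) = N (-1 * x) := by rw [neg_one_mul]
      _ = N (-1) * N x := hmul _ _
      _ = N 1 * N x := by rw [h3]
      _ = N x := by rw [← hmul, one_mul]
  have hz2 : z ∈ Submodule.span (v.adicCompletion K) (ι '' (F : Set (AlgebraicClosure K))) := by
    have h1 : z ∈ (IntermediateField.adjoin (v.adicCompletion K)
      (ι '' (F : Set (AlgebraicClosure K)))).toSubalgebra := hz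
    rw [IntermediateField.adjoin_toSubalgebra_of_isAlgebraic
      (fun x _ => Algebra.IsAlgebraic.isAlgebraic x), ← Subalgebra.mem_toSubmodule,
      Algebra.adjoin_eq_span] at h1
    have h2 : (Submonoid.closure (ι '' (F : Set (AlgebraicClosure K))) :
        Set (AlgebraicClosure (v.adicCompletion K))) ⊆ ι '' (F : Set (AlgebraicClosure K)) := by
      intro x hx
      refine Submonoid.closure_induction (motive := fun x _ => x ∈ ι '' (F : Set (AlgebraicClosure K)))
        (fun _ h => h) ⟨1, F.one_mem, map_one ι⟩ ?_ hx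
      rintro _ _ _ _ ⟨a, ha, rfl⟩ ⟨b, hb, rfl⟩
      exact ⟨a * b, F.mul_mem ha hb, map_mul ι a b⟩
    exact Submodule.span_mono h2 h1
  refine Submodule.span_induction (p := fun z _ => ∀ δ : ℝ, 0 < δ → ∃ b ∈ F, N (ι b - z) < δ)
    ?_ ?_ ?_ ?_ hz2
  · rintro _ ⟨f, hf, rfl⟩ δ hδ
    exact ⟨f, hf, by rw [sub_self, h0]; exact hδ⟩
  · intro δ hδ
    exact ⟨0, F.zero_mem, by rw [map_zero, sub_zero, h0]; exact hδ⟩
  · intro x y _ _ hx hy δ hδ
    obtain ⟨b, hb, hb'⟩ := hx δ hδ
    obtain ⟨c, hc, hc'⟩ := hy δ hδ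
    refine ⟨b + c, F.add_mem hb hc, ?_⟩
    have e : ι (b + c) - (x + y) = (ι b - x) + (ι c - y) := by rw [map_add]; ring
    rw [e]
    exact (hadd _ _).trans_lt (max_lt hb' hc')
  · intro c x _ hx δ hδ
    obtain ⟨b, hb, hb'⟩ := hx (δ / (N (algebraMap _ _ c) + 1))
      (div_pos hδ (by have := hnn (algebraMap (v.adicCompletion K)
        (AlgebraicClosure (v.adicCompletion K)) c); linarith))
    obtain ⟨k, hk⟩ := hd c (δ / (N (ι b) + 1)) (div_pos hδ (by have := hnn (ι b); linarith))
    refine ⟨k • b, F.smul_mem hb, ?_⟩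
    have e : ι (k • b) - c • x = -(algebraMap (v.adicCompletion K)
        (AlgebraicClosure (v.adicCompletion K)) (c - algebraMap K _ k) * ι b) +
        algebraMap (v.adicCompletion K) (AlgebraicClosure (v.adicCompletion K)) c * (ι b - x) := by
      rw [map_smul, Algebra.smul_def, Algebra.smul_def, map_sub,
        ← IsScalarTower.algebraMap_apply K (v.adicCompletion K)]
      ring
    rw [e]
    refine (hadd _ _).trans_lt (max_lt ?_ ?_)
    · rw [hneg, hmul]
      have h1 := hnn (ι b)
      calc N (algebraMap _ _ (c - algebraMap K _ k)) * N (ι b)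
          ≤ N (algebraMap _ _ (c - algebraMap K _ k)) * (N (ι b) + 1) :=
            mul_le_mul_of_nonneg_left (by linarith) (hnn _)
        _ < δ / (N (ι b) + 1) * (N (ι b) + 1) := mul_lt_mul_of_pos_right hk (by linarith)
        _ = δ := div_mul_cancel₀ _ (by linarith)
    · rw [hmul]
      have h1 := hnn (algebraMap (v.adicCompletion K) (AlgebraicClosure (v.adicCompletion K)) c)
      calc N (algebraMap _ _ c) * N (ι b - x) ≤ (N (algebraMap _ _ c) + 1) * N (ι b - x) :=
            mul_le_mul_of_nonneg_right (by linarith) (hnn _)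
        _ < (N (algebraMap _ _ c) + 1) * (δ / (N (algebraMap _ _ c) + 1)) :=
            mul_lt_mul_of_pos_left hb' (by linarith)
        _ = δ := mul_div_cancel₀ _ (by linarith)

theorem exists_local_sqrt {v : HeightOneSpectrum (𝓞 K)}
    (ι : AlgebraicClosure K →ₐ[K] AlgebraicClosure (v.adicCompletion K))
    {U : Subgroup (AbsGal K)} (hU : IsOpen (U : Set (AbsGal K))) (lam : AbsGal K → ZMod 2)
    (hmul : ∀ g ∈ decomp ι ⊓ U, ∀ h ∈ decomp ι ⊓ U, lam (g * h) = lam g + lam h)
    (hcont : ∃ U' : Subgroup (AbsGal K), IsOpen (U' : Set (AbsGal K)) ∧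
      ∀ g ∈ decomp ι ⊓ U ⊓ U', lam g = 0) :
    ∃ t : AlgebraicClosure K, t ≠ 0 ∧ (∀ g ∈ U, g (t ^ 2) = t ^ 2) ∧
      ∀ g ∈ decomp ι ⊓ U, (lam g = 0 ↔ g t = t) := by
  classical
  obtain ⟨U', hU', hlam⟩ := hcont
  obtain ⟨N, n1, n2, n3, n4, n5, n6, n7⟩ := exists_N_locA v
  have hneg := norm_neg_locA N n1 n3 n4
  have hUc : IsClosed (U : Set (AbsGal K)) := Subgroup.isClosed_of_isOpen U hU
  let F : IntermediateField K (AlgebraicClosure K) := IntermediateField.fixedField U
  have hFU : F.fixingSubgroup = U := InfiniteGalois.fixingSubgroup_fixedField ⟨U, hUc⟩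
  let C' : IntermediateField (v.adicCompletion K) (AlgebraicClosure (v.adicCompletion K)) :=
    IntermediateField.adjoin (v.adicCompletion K) (ι '' (F : Set (AlgebraicClosure K)))
  have hmemU : ∀ τ : AlgebraicClosure (v.adicCompletion K) ≃ₐ[v.adicCompletion K]
      AlgebraicClosure (v.adicCompletion K), τ ∈ C'.fixingSubgroup ↔ resHom ι τ ∈ U := by
    intro τ
    rw [← hFU, IntermediateField.mem_fixingSubgroup_iff, IntermediateField.mem_fixingSubgroup_iff]
    constructor
    · intro h x hx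
      apply inj_locA ι
      rw [← resHom_spec]
      exact h _ (IntermediateField.subset_adjoin _ _ ⟨x, hx, rfl⟩)
    · intro h z hz
      refine IntermediateField.adjoin_induction (v.adicCompletion K)
        (p := fun z _ => τ z = z) ?_ ?_ ?_ ?_ ?_ hz
      · rintro _ ⟨x, hx, rfl⟩
        rw [resHom_spec, h x hx]
      · intro x
        exact τ.commutes x
      · intro x y _ _ hx hy
        rw [map_add, hx, hy]
      · intro x _ hx
        rw [map_inv₀, hx]
      · intro x y _ _ hx hy
        rw [map_mul, hx, hy]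
  have hres : ∀ σ : AlgebraicClosure (v.adicCompletion K) ≃ₐ[C']
      AlgebraicClosure (v.adicCompletion K),
      resHom ι (σ.restrictScalars (v.adicCompletion K)) ∈ decomp ι ⊓ U := by
    intro σ
    refine ⟨⟨σ.restrictScalars (v.adicCompletion K), resHom_spec ι _⟩, (hmemU _).1 ?_⟩
    rw [IntermediateField.mem_fixingSubgroup_iff]
    intro x hx
    exact σ.commutes ⟨x, hx⟩
  let A : (AlgebraicClosure (v.adicCompletion K) ≃ₐ[C']
      AlgebraicClosure (v.adicCompletion K)) → Prop :=
    fun σ => lam (resHom ι (σ.restrictScalars (v.adicCompletion K))) = 0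
  have hmulr : ∀ σ τ : AlgebraicClosure (v.adicCompletion K) ≃ₐ[C']
      AlgebraicClosure (v.adicCompletion K),
      resHom ι ((σ * τ).restrictScalars (v.adicCompletion K)) =
      resHom ι (σ.restrictScalars (v.adicCompletion K)) *
      resHom ι (τ.restrictScalars (v.adicCompletion K)) := by
    intro σ τ
    rw [← map_mul]
    rfl
  have hA : ∀ σ τ, A (σ * τ) ↔ (A σ ↔ A τ) := by
    intro σ τ
    have h := hmul _ (hres σ) _ (hres τ)
    rw [← hmulr] at h
    have key : ∀ a b c : ZMod 2, a = b + c → (a = 0 ↔ (b = 0 ↔ c = 0)) := by decide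
    exact key _ _ _ h
  have hAopen : IsOpen {σ | A σ} := by
    rw [isOpen_iff_mem_nhds]
    intro σ hσ
    have h1 := nhds_resHom ι hU' C'
    have h2 : Filter.Tendsto (fun x => σ⁻¹ * x) (nhds σ) (nhds 1) := by
      have : Continuous fun x => σ⁻¹ * x := continuous_const.mul continuous_id
      have h3 := this.tendsto σ
      rwa [inv_mul_cancel] at h3
    filter_upwards [h2 h1] with τ hτ
    have h4 : A (σ⁻¹ * τ) := hlam _ ⟨hres _, hτ⟩
    have h5 := hA σ (σ⁻¹ * τ)
    rw [mul_inv_cancel_left] at h5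
    exact h5.2 ⟨fun _ => h4, fun _ => hσ⟩
  have : CharZero (v.adicCompletion K) :=
    charZero_of_injective_algebraMap (algebraMap K (v.adicCompletion K)).injective
  have : IsGalois (v.adicCompletion K) (AlgebraicClosure (v.adicCompletion K)) := inferInstance
  have : IsGalois C' (AlgebraicClosure (v.adicCompletion K)) := inferInstance
  obtain ⟨y, hy0, hyA, hyA'⟩ := exists_sqrt_of_char A hA hAopen
  have hyfix : ∀ σ : AlgebraicClosure (v.adicCompletion K) ≃ₐ[C']
      AlgebraicClosure (v.adicCompletion K), σ (y ^ 2) = y ^ 2 := by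
    intro σ
    by_cases h : A σ
    · rw [map_pow, hyA σ h]
    · rw [map_pow, hyA' σ h, neg_sq]
  obtain ⟨c, hc⟩ := (InfiniteGalois.mem_range_algebraMap_iff_fixed (y ^ 2)).2 hyfix
  have hyC : y ^ 2 ∈ C' := by rw [← hc]; exact c.2
  have hpos : 0 < N (4 * y ^ 2) := by
    refine lt_of_le_of_ne (n3 _) fun h => ?_
    have h' := (n4 _).1 h.symm
    have h4 : (4 : AlgebraicClosure (v.adicCompletion K)) ≠ 0 := by
      have : CharZero (AlgebraicClosure (v.adicCompletion K)) :=
        charZero_of_injective_algebraMap (algebraMap K _).injective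
      norm_num
    rcases mul_eq_zero.1 h' with h5 | h5
    · exact h4 h5
    · exact hy0 (pow_eq_zero_iff two_ne_zero |>.1 h5)
  obtain ⟨b, hbF, hb⟩ := dense_locA ι N n1 n2 n3 ((n4 0).2 rfl) n7 F hyC _ hpos
  have hb0 : b ≠ 0 := by
    rintro rfl
    rw [map_zero, zero_sub, hneg, n1] at hb
    have h4 : N (4 : AlgebraicClosure (v.adicCompletion K)) ≤ 1 := by
      have h := (n5 4).2 ?_
      · rwa [map_ofNat] at h
      · have h1 : (Valued.v : Valuation (v.adicCompletion K) _) ((4 : ℕ) : v.adicCompletion K) ≤ 1 := by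
          have := VC_algebraMap v ((4 : ℕ) : K)
          rw [map_natCast] at this
          rw [this]
          have h2 := v.valuation_le_one (K := K) ((4 : ℕ) : 𝓞 K)
          have e : (algebraMap (𝓞 K) K ((4 : ℕ) : 𝓞 K)) = ((4 : ℕ) : K) := map_natCast _ _
          rw [← e]
          exact h2
        exact_mod_cast h1
    have h5 := mul_le_mul_of_nonneg_right h4 (n3 (y ^ 2))
    rw [one_mul] at h5
    exact absurd hb (not_lt.2 h5)
  obtain ⟨t, ht⟩ := IsAlgClosed.exists_pow_nat_eq b (n := 2) two_pos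
  have ht0 : t ≠ 0 := by
    rintro rfl
    rw [zero_pow two_ne_zero] at ht
    exact hb0 ht.symm
  have hbfix : ∀ g ∈ U, g b = b := by
    intro g hg
    exact (IntermediateField.mem_fixedField_iff _ _).1 hbF g hg
  refine ⟨t, ht0, fun g hg => by rw [ht]; exact hbfix g hg, ?_⟩
  rintro g ⟨⟨τ, hτ⟩, hgU⟩
  have hr : resHom ι τ = g := resHom_eq ι hτ
  have hτC : τ ∈ C'.fixingSubgroup := by rw [hmemU, hr]; exact hgU
  let σ : AlgebraicClosure (v.adicCompletion K) ≃ₐ[C'] AlgebraicClosure (v.adicCompletion K) :=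
    { τ with commutes' := fun x => (IntermediateField.mem_fixingSubgroup_iff _ _).1 hτC x x.2 }
  have hσ : σ.restrictScalars (v.adicCompletion K) = τ := rfl
  have hστ : ∀ x, σ x = τ x := fun _ => rfl
  have h1 : lam g = 0 ↔ τ y = y := by
    have hAg : A σ ↔ lam g = 0 := by
      show lam (resHom ι (σ.restrictScalars (v.adicCompletion K))) = 0 ↔ _
      rw [hσ, hr]
    rw [← hAg]
    constructor
    · intro h
      exact hyA σ h
    · intro h
      by_contra h'
      have h2 := hyA' σ h'
      rw [hστ, h] at h2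
      have : CharZero (AlgebraicClosure (v.adicCompletion K)) :=
        charZero_of_injective_algebraMap (algebraMap K _).injective
      exact hy0 (self_eq_neg.1 h2)
  have h2 : τ (ι t) = ι t ↔ τ y = y := by
    refine krasner_aux N n1 n2 n3 n6 hneg (x := ι b - y ^ 2) ?_ hb τ (hyfix σ) ?_
    · rw [← map_pow, ht]
      ring
    · rw [← map_pow, ht, hτ, hbfix g hgU]
  rw [h1, ← h2, hτ]
  exact (inj_locA ι).eq_iff

end Pool.Agent.Work.MP_787500_nt.PA
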