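import Mathlib
import Pool.Agent.Work.MP_787500_nt.PA.Defs

/-!
# Module CHAIN (size S): subgroups of index two

* `exists_between`: `W` in the system, `W ≤ U`, `W ≠ U`. The quotient of `U` by `W.subgroupOf U`
  (normal) is a nontrivial finite 2-group (`W.index` is a power of two, `relIndex` divides it), so it
  has a subgroup of index two (for example `Sylow.exists_subgroup_card_pow_prime_le`, see the proof of
  `decomp_surj` in `H10_Gal.lean`, or `Subgroup.exists...`); pull it back to `U` and push it to `G`.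
  The index: `W.relIndex V * V.relIndex U = W.relIndex U`.
* `exists_index_two`: the same for a proper open subgroup `H` of `G`: it is contained in an open
  subgroup of index two. Let `W ≤ H` be in the system, apply to the image of `H` in the finite 2-group
  `G / W`, a proper subgroup: it lies in a subgroup of index two (`decomp_surj` proves exactly this).
  State the result with a homomorphism: there is `ω ∈ homs S ⊤`, `ω ≠ 0`, vanishing on `H`.
* `exists_cob`: a smooth cocycle is a coboundary on some member of the system: choose `W ≤ U` in the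
  system with `α (g w) (h w') = α g h`; on `W`, `α w w' = α 1 1`, the coboundary of the constant
  function `α 1 1`.
-/

set_option autoImplicit false

namespace Pool.Agent.Work.MP_787500_nt.PA

variable {G : Type*} [Group G] {S : TwoSys G}

/-- `2 = 0` in `ZMod 2` -/
private lemma chain_two (a : ZMod 2) : a + a = 0 := CharTwo.add_self_eq_zero a

/-- in a finite group of order `2 ^ m` every proper subgroup lies in a subgroup of index two -/
private theorem chain_index_two {Q : Type*} [Group Q] [Finite Q] {m : ℕ} (hm : Nat.card Q = 2 ^ m)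
    (D : Subgroup Q) (hD : D ≠ ⊤) : ∃ K : Subgroup Q, D ≤ K ∧ K.index = 2 := by
  have : Fact (Nat.Prime 2) := ⟨Nat.prime_two⟩
  obtain ⟨n, hnm, hn⟩ := (Nat.dvd_prime_pow Nat.prime_two).1
    (hm ▸ Subgroup.card_subgroup_dvd_card D)
  have hlt : n < m := by
    rcases lt_or_eq_of_le hnm with h | h
    · exact h
    · exfalso
      apply hD
      rw [← Subgroup.card_eq_iff_eq_top, hn, hm, h]
  obtain ⟨K, hK, hDK⟩ := Sylow.exists_subgroup_card_pow_prime_le (p := 2) (n := n) (m := m - 1)
    (by rw [hm]; exact pow_dvd_pow 2 (by omega)) D hn (by omega)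
  refine ⟨K, hDK, ?_⟩
  have h3 := K.card_mul_index
  rw [hm, hK] at h3
  have h4 : 2 ^ m = 2 ^ (m - 1) * 2 := by rw [← pow_succ]; congr 1; omega
  rw [h4] at h3
  exact Nat.eq_of_mul_eq_mul_left (by positivity) h3

theorem exists_between {W U : Subgroup G} (hW : S.mem W) (hWU : W ≤ U) (hne : W ≠ U) :
    ∃ V : Subgroup G, W ≤ V ∧ V ≤ U ∧ V.relIndex U = 2 ∧ W.relIndex V < W.relIndex U := by
  have hn : W.Normal := S.normal hW
  obtain ⟨k, hk⟩ := S.index hW
  obtain ⟨m, -, hm⟩ := (Nat.dvd_prime_pow Nat.prime_two).1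
    (hk ▸ Subgroup.relIndex_dvd_index_of_normal W U)
  have hcard : Nat.card (U ⧸ W.subgroupOf U) = 2 ^ m := hm
  have hfin : Finite (U ⧸ W.subgroupOf U) := Nat.finite_of_card_ne_zero (by rw [hcard]; positivity)
  have hbot : (⊥ : Subgroup (U ⧸ W.subgroupOf U)) ≠ ⊤ := by
    intro h
    have h1 : (W.subgroupOf U).index = 1 := by
      have h2 := congrArg (fun H : Subgroup (U ⧸ W.subgroupOf U) => H.index) h
      simp only [Subgroup.index_bot, Subgroup.index_top] at h2
      exact h2
    have h3 : U ≤ W := Subgroup.relIndex_eq_one.1 h1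
    exact hne (le_antisymm hWU h3)
  obtain ⟨K, -, hK⟩ := chain_index_two hcard ⊥ hbot
  let V' : Subgroup U := K.comap (QuotientGroup.mk' (W.subgroupOf U))
  have hV' : V'.index = 2 := by
    rw [← hK]
    exact Subgroup.index_comap_of_surjective K (QuotientGroup.mk'_surjective _)
  have hrel : (V'.map U.subtype).relIndex U = 2 := by
    rw [← hV']
    unfold Subgroup.relIndex Subgroup.subgroupOf
    rw [Subgroup.comap_map_eq_self_of_injective U.subtype_injective]
  have hWV : W ≤ V'.map U.subtype := by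
    intro w hw
    refine ⟨⟨w, hWU hw⟩, ?_, rfl⟩
    show QuotientGroup.mk' (W.subgroupOf U) ⟨w, hWU hw⟩ ∈ K
    have : QuotientGroup.mk' (W.subgroupOf U) ⟨w, hWU hw⟩ = 1 := by
      rw [QuotientGroup.mk'_apply, QuotientGroup.eq_one_iff, Subgroup.mem_subgroupOf]
      exact hw
    rw [this]
    exact K.one_mem
  have hVU : V'.map U.subtype ≤ U := by
    rintro _ ⟨v, -, rfl⟩
    exact v.2
  refine ⟨V'.map U.subtype, hWV, hVU, hrel, ?_⟩
  have hmul := Subgroup.relIndex_mul_relIndex W (V'.map U.subtype) U hWV hVU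
  rw [hrel, hm] at hmul
  rw [hm]
  have : 0 < 2 ^ m := by positivity
  omega

theorem exists_index_two {H : Subgroup G} (hH : Opn S H) (hne : H ≠ ⊤) :
    ∃ ω ∈ homs S ⊤, ω ≠ 0 ∧ ∀ h ∈ H, ω h = 0 := by
  classical
  obtain ⟨W, hW, hWH⟩ := hH
  have hn : W.Normal := S.normal hW
  obtain ⟨m, hm⟩ := S.index hW
  have hcard : Nat.card (G ⧸ W) = 2 ^ m := hm
  have hfin : Finite (G ⧸ W) := Nat.finite_of_card_ne_zero (by rw [hcard]; positivity)
  let D := H.map (QuotientGroup.mk' W)
  have hD : D ≠ ⊤ := by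
    intro h
    apply hne
    rw [eq_top_iff]
    intro g _
    have : QuotientGroup.mk' W g ∈ D := by rw [h]; trivial
    obtain ⟨δ, hδ, hδg⟩ := this
    have h1 : δ⁻¹ * g ∈ W := QuotientGroup.eq.1 hδg
    have h2 := H.mul_mem hδ (hWH h1)
    rwa [mul_inv_cancel_left] at h2
  obtain ⟨K, hDK, hK⟩ := chain_index_two hcard D hD
  let N := K.comap (QuotientGroup.mk' W)
  have hN : N.index = 2 := by
    rw [← hK]
    exact Subgroup.index_comap_of_surjective K (QuotientGroup.mk'_surjective _)
  have hWN : W ≤ N := by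
    intro u hu
    rw [Subgroup.mem_comap]
    have : QuotientGroup.mk' W u = 1 := (QuotientGroup.eq_one_iff u).2 hu
    rw [this]
    exact K.one_mem
  have hHN : H ≤ N := fun h hh => hDK ⟨h, hh, rfl⟩
  refine ⟨fun g => if g ∈ N then 0 else 1, ⟨⟨W, hW, fun g w hw => ?_⟩, fun g hg => ?_, fun g _ h _ => ?_⟩, ?_, ?_⟩
  · have : g * w ∈ N ↔ g ∈ N := Subgroup.mul_mem_cancel_right N (hWN hw)
    simp only [this]
  · exact absurd (Subgroup.mem_top g) hg
  · have := Subgroup.mul_mem_iff_of_index_two hN (a := g) (b := h)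
    simp only [this]
    by_cases h1 : g ∈ N <;> by_cases h2 : h ∈ N <;> simp [h1, h2, chain_two]
  · intro h
    have : N = ⊤ := by
      rw [eq_top_iff]
      intro g _
      by_contra hg
      have := congrFun h g
      simp [hg] at this
    rw [this, Subgroup.index_top] at hN
    norm_num at hN
  · intro h hh
    simp [hHN hh]

theorem exists_cob {U : Subgroup G} (hU : Opn S U) {α : G → G → ZMod 2} (hα : Coc S U α) :
    ∃ W, S.mem W ∧ W ≤ U ∧ Cob S W α := by
  obtain ⟨W₁, hW₁, h1⟩ := hU
  obtain ⟨⟨W₂, hW₂, h2⟩, -⟩ := hα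
  refine ⟨W₁ ⊓ W₂, S.inf hW₁ hW₂, inf_le_left.trans h1, fun _ => α 1 1, ?_, ?_⟩
  · exact ⟨W₁, hW₁, fun _ _ _ => rfl⟩
  · intro g hg h hh
    have := h2 1 1 g hg.2 h hh.2
    rw [one_mul, one_mul] at this
    rw [this, chain_two, zero_add]

end Pool.Agent.Work.MP_787500_nt.PA
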