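import Mathlib
import Pool.Agent.Work.MP_787500_nt.PA.Defs

/-!
Basic facts about a subgroup `V` of index two in `U`, and about homomorphisms to `ZMod 2`.
-/

set_option autoImplicit false

namespace Pool.Agent.Work.MP_787500_nt.PA.I2

variable {G : Type*} [Group G] {S : TwoSys G} {V U : Subgroup G}

theorem mm (h2 : V.relIndex U = 2) {g h : G} (hg : g ∈ U) (hh : h ∈ U) :
    g * h ∈ V ↔ (g ∈ V ↔ h ∈ V) := by
  have h1 := Subgroup.mul_mem_iff_of_index_two (H := V.subgroupOf U) h2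
    (a := ⟨g, hg⟩) (b := ⟨h, hh⟩)
  simpa [Subgroup.mem_subgroupOf] using h1

theorem cj (hVU : V ≤ U) (h2 : V.relIndex U = 2) {g v : G} (hg : g ∈ U) (hv : v ∈ V) :
    g * v * g⁻¹ ∈ V := by
  rw [mm h2 (U.mul_mem hg (hVU hv)) (U.inv_mem hg), mm h2 hg (hVU hv), V.inv_mem_iff]
  simp [hv]

theorem cj' (hVU : V ≤ U) (h2 : V.relIndex U = 2) {g v : G} (hg : g ∈ U) (hv : v ∈ V) :
    g⁻¹ * v * g ∈ V := by
  have := cj hVU h2 (U.inv_mem hg) hv
  rwa [inv_inv] at this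

theorem sq (h2 : V.relIndex U = 2) {g : G} (hg : g ∈ U) : g * g ∈ V := by
  rw [mm h2 hg hg]

/-- a product of two elements of `U` outside `V` -/
theorem mem_of_not (h2 : V.relIndex U = 2) {g h : G} (hg : g ∈ U) (hh : h ∈ U) (hg' : g ∉ V)
    (hh' : h ∉ V) : g * h ∈ V := by
  rw [mm h2 hg hh]
  exact ⟨fun h => absurd h hg', fun h => absurd h hh'⟩

theorem div_mem (h2 : V.relIndex U = 2) {g h : G} (hg : g ∈ U) (hh : h ∈ U) (hg' : g ∉ V)
    (hh' : h ∉ V) : g * h⁻¹ ∈ V :=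
  mem_of_not h2 hg (U.inv_mem hh) hg' fun h => hh' (V.inv_mem_iff.1 h)

theorem add_self (a : ZMod 2) : a + a = 0 := CharTwo.add_self_eq_zero a

theorem hom_one {f : G → ZMod 2} (hf : ∀ g ∈ V, ∀ h ∈ V, f (g * h) = f g + f h) : f 1 = 0 := by
  have := hf 1 V.one_mem 1 V.one_mem
  rw [mul_one] at this
  simpa using this

theorem hom_inv {f : G → ZMod 2} (hf : ∀ g ∈ V, ∀ h ∈ V, f (g * h) = f g + f h) {g : G}
    (hg : g ∈ V) : f g⁻¹ = f g := by
  have h1 := hf g hg g⁻¹ (V.inv_mem hg)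
  rw [mul_inv_cancel, hom_one hf] at h1
  have h2 : f g + f g = 0 := add_self _
  exact add_left_cancel (h1.symm.trans h2.symm)

theorem hom_conj {f : G → ZMod 2} (hf : ∀ g ∈ V, ∀ h ∈ V, f (g * h) = f g + f h) {g h : G}
    (hg : g ∈ V) (hh : h ∈ V) : f (g * h * g⁻¹) = f h := by
  rw [hf _ (V.mul_mem hg hh) _ (V.inv_mem hg), hf _ hg _ hh, hom_inv hf hg,
    show f g + f h + f g = f h + (f g + f g) by ring, add_self, add_zero]

/-- a member of the system inside `V` on whose cosets a smooth function is constant -/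
theorem sm1_in {A : Type*} {f : G → A} (hf : Sm1 S f) (hV : Opn S V) :
    ∃ W, S.mem W ∧ W ≤ V ∧ W.Normal ∧ ∀ g, ∀ w ∈ W, f (g * w) = f g := by
  obtain ⟨W, hW, h1⟩ := hf
  obtain ⟨W', hW', h2⟩ := hV
  exact ⟨W ⊓ W', S.inf hW hW', inf_le_right.trans h2, S.normal (S.inf hW hW'),
    fun g w hw => h1 g w hw.1⟩

theorem sm2_in {A : Type*} {f : G → G → A} (hf : Sm2 S f) (hV : Opn S V) :
    ∃ W, S.mem W ∧ W ≤ V ∧ W.Normal ∧ ∀ g h, ∀ w ∈ W, ∀ w' ∈ W, f (g * w) (h * w') = f g h := by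
  obtain ⟨W, hW, h1⟩ := hf
  obtain ⟨W', hW', h2⟩ := hV
  exact ⟨W ⊓ W', S.inf hW hW', inf_le_right.trans h2, S.normal (S.inf hW hW'),
    fun g h w hw w' hw' => h1 g h w hw.1 w' hw'.1⟩

/-- membership of translates by elements of `W ≤ V` -/
theorem mem_mul_iff {W V : Subgroup G} (hWV : W ≤ V) (g : G) {w : G} (hw : w ∈ W) :
    g * w ∈ V ↔ g ∈ V := V.mul_mem_cancel_right (hWV hw)

end Pool.Agent.Work.MP_787500_nt.PA.I2
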