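import Mathlib
import Pool.Agent.Work.MP_787500_nt.PA.Defs
import Pool.Agent.Work.MP_787500_nt.PA.IdxTwo

/-!
# Module TRANSFER (size M): the transfer map for a subgroup of index two, in degree one

Pure group theory. `V ≤ U`, `V` open, of index two in `U`, `s ∈ U`, `s ∉ V`. Recall
`cor V U s ψ g = ψ g + ψ (s g s⁻¹)` for `g ∈ V`, `= ψ (g g)` for `g ∈ U`, `g ∉ V`, and `0` off `U`.
Basic facts: `V` is normal in `U`; products of two elements of `U` outside `V` lie in `V`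
(`Subgroup.relIndex`, `Subgroup.mul_mem_iff_of_index_two` applied to `V.subgroupOf U`).

* `cor_mem`: `cor V U s ψ` is a homomorphism on `U`. Cases: `g, h ∈ V`: clear. `g ∈ V`, `h ∉ V`:
  `(g h)(g h) = g (h g h⁻¹) (h h)` and `ψ (h g h⁻¹) = ψ (s g s⁻¹)` because `h = v s` with `v ∈ V` and
  `ψ` is invariant under conjugation by `v`. `h ∈ V`, `g ∉ V`: similar. `g, h ∉ V`:
  `g h ∈ V`, `ψ (g h) + ψ (s g h s⁻¹)`; write `g = a s`, `h = b s` (`a, b ∈ V`), put
  `x = s s ∈ V`: `g h = a (s b s⁻¹) x`, `s g h s⁻¹ = (s a s⁻¹) (x b x⁻¹) x`, `g g = a (s a s⁻¹) x`,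
  `h h = b (s b s⁻¹) x`; all give the same sum. Smoothness: take `W` in the system with `W ≤ V` and
  `ψ` constant on cosets of `W` (`W` is normal: `s w s⁻¹ ∈ W`, `(g w)(g w) = g g (g⁻¹ w g) w`);
  note that off `U` everything is zero and `W ≤ U`.
* `cor_indep`: the value does not depend on `s`.
* `finrank_cor`: the kernel of `cor V U s` on `homs S V` consists of the restrictions of elements of
  `homs S U` (the restriction of `ω` is `fun g => if g ∈ V then ω g else 0`): if `cor V U s ψ = 0`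
  then `ψ (s g s⁻¹) = ψ g` on `V` and `ψ (s s) = 0`, and `Ψ (v) = ψ v`, `Ψ (v s) = ψ v` is a
  homomorphism on `U` that restricts to `ψ`; conversely `cor` of a restriction is `2 ω = 0`. The
  kernel of the restriction map `homs S U → homs S V` is `{0, chi V U}`, one-dimensional. Hence
  `dim (image of cor) = dim homs V - (dim homs U - 1)` (rank-nullity twice).
-/

set_option autoImplicit false

namespace Pool.Agent.Work.MP_787500_nt.PA


variable {G : Type*} [Group G] {S : TwoSys G}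

theorem chi_mem {V U : Subgroup G} (hVU : V ≤ U) (hV : Opn S V) (h2 : V.relIndex U = 2) :
    chi V U ∈ homs S U := by
  refine ⟨?_, ?_, ?_⟩
  · obtain ⟨W, hW, hWV⟩ := hV
    refine ⟨W, hW, fun g w hw => ?_⟩
    unfold chi
    rw [I2.mem_mul_iff (hWV.trans hVU) g hw, I2.mem_mul_iff hWV g hw]
  · intro g hg
    exact if_neg fun h => hg h.1
  · intro g hg h hh
    have h3 := I2.mm h2 hg hh
    unfold chi
    by_cases hgV : g ∈ V <;> by_cases hhV : h ∈ V
    · have h4 : g * h ∈ V := h3.2 (by simp [hgV, hhV])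
      simp [hgV, hhV, h4]
    · have h4 : g * h ∉ V := fun h5 => hhV ((h3.1 h5).1 hgV)
      simp [hgV, hhV, h4, hg, hh, U.mul_mem hg hh]
    · have h4 : g * h ∉ V := fun h5 => hgV ((h3.1 h5).2 hhV)
      simp [hgV, hhV, h4, hg, hh, U.mul_mem hg hh]
    · have h4 : g * h ∈ V := h3.2 (by simp [hgV, hhV])
      rw [if_neg (fun h5 => h5.2 h4), if_pos ⟨hg, hgV⟩, if_pos ⟨hh, hhV⟩]
      exact (I2.add_self 1).symm

theorem cor_apply_mem (V U : Subgroup G) (s : G) (ψ : G → ZMod 2) {g : G} (hg : g ∈ V) :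
    cor V U s ψ g = ψ g + ψ (s * g * s⁻¹) := if_pos hg

theorem cor_apply_not (V U : Subgroup G) (s : G) (ψ : G → ZMod 2) {g : G} (hg : g ∈ U)
    (hg' : g ∉ V) : cor V U s ψ g = ψ (g * g) := by
  classical
  change (if g ∈ V then ψ g + ψ (s * g * s⁻¹) else if g ∈ U then ψ (g * g) else 0) = _
  rw [if_neg hg', if_pos hg]

theorem cor_apply_off {V U : Subgroup G} (hVU : V ≤ U) (s : G) (ψ : G → ZMod 2) {g : G}
    (hg : g ∉ U) : cor V U s ψ g = 0 := by
  classical
  change (if g ∈ V then ψ g + ψ (s * g * s⁻¹) else if g ∈ U then ψ (g * g) else 0) = _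
  rw [if_neg (fun h => hg (hVU h)), if_neg hg]

theorem cor_mem {V U : Subgroup G} (hVU : V ≤ U) (hV : Opn S V) (h2 : V.relIndex U = 2) {s : G}
    (hs : s ∈ U) (hs' : s ∉ V) {ψ : G → ZMod 2} (hψ : ψ ∈ homs S V) : cor V U s ψ ∈ homs S U := by
  obtain ⟨hψs, hψ0, hψm⟩ := hψ
  refine ⟨?_, fun g hg => cor_apply_off hVU s ψ hg, ?_⟩
  · obtain ⟨W, hW, hWV, hWn, h3⟩ := I2.sm1_in hψs hV
    refine ⟨W, hW, fun g w hw => ?_⟩
    by_cases hgV : g ∈ V
    · have h4 : g * w ∈ V := (I2.mem_mul_iff hWV g hw).2 hgV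
      rw [cor_apply_mem V U s ψ hgV, cor_apply_mem V U s ψ h4, h3 g w hw]
      have e : s * (g * w) * s⁻¹ = (s * g * s⁻¹) * (s * w * s⁻¹) := by group
      rw [e, h3 _ _ (hWn.conj_mem w hw s)]
    · have h4 : g * w ∉ V := fun h => hgV ((I2.mem_mul_iff hWV g hw).1 h)
      by_cases hgU : g ∈ U
      · have h5 : g * w ∈ U := (I2.mem_mul_iff (hWV.trans hVU) g hw).2 hgU
        rw [cor_apply_not V U s ψ hgU hgV, cor_apply_not V U s ψ h5 h4]
        have e : (g * w) * (g * w) = (g * g) * ((g⁻¹ * w * g) * w) := by group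
        have h6 := hWn.conj_mem w hw g⁻¹
        rw [inv_inv] at h6
        rw [e, h3 _ _ (W.mul_mem h6 hw)]
      · have h5 : g * w ∉ U := fun h => hgU ((I2.mem_mul_iff (hWV.trans hVU) g hw).1 h)
        rw [cor_apply_off hVU s ψ hgU, cor_apply_off hVU s ψ h5]
  · intro g hg h hh
    have h3 := I2.mm h2 hg hh
    have hx : s * s ∈ V := I2.sq h2 hs
    by_cases hgV : g ∈ V <;> by_cases hhV : h ∈ V
    · have h4 : g * h ∈ V := V.mul_mem hgV hhV
      rw [cor_apply_mem V U s ψ hgV, cor_apply_mem V U s ψ hhV, cor_apply_mem V U s ψ h4,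
        hψm g hgV h hhV]
      have e : s * (g * h) * s⁻¹ = (s * g * s⁻¹) * (s * h * s⁻¹) := by group
      rw [e, hψm _ (I2.cj hVU h2 hs hgV) _ (I2.cj hVU h2 hs hhV)]
      ring
    · have h4 : g * h ∉ V := fun h5 => hhV ((h3.1 h5).1 hgV)
      rw [cor_apply_mem V U s ψ hgV, cor_apply_not V U s ψ hh hhV,
        cor_apply_not V U s ψ (U.mul_mem hg hh) h4]
      have hb : h * s⁻¹ ∈ V := I2.div_mem h2 hh hs hhV hs'
      have e1 : g * h * (g * h) = (g * (h * s⁻¹)) * ((s * g * s⁻¹) *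
          ((s * (h * s⁻¹) * s⁻¹) * (s * s))) := by group
      have e2 : h * h = (h * s⁻¹) * ((s * (h * s⁻¹) * s⁻¹) * (s * s)) := by group
      have m1 := I2.cj hVU h2 hs hgV
      have m2 := I2.cj hVU h2 hs hb
      rw [e1, e2, hψm _ (V.mul_mem hgV hb) _ (V.mul_mem m1 (V.mul_mem m2 hx)),
        hψm _ hgV _ hb, hψm _ m1 _ (V.mul_mem m2 hx), hψm _ m2 _ hx,
        hψm _ hb _ (V.mul_mem m2 hx), hψm _ m2 _ hx]
      ring
    · have h4 : g * h ∉ V := fun h5 => hgV ((h3.1 h5).2 hhV)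
      rw [cor_apply_mem V U s ψ hhV, cor_apply_not V U s ψ hg hgV,
        cor_apply_not V U s ψ (U.mul_mem hg hh) h4]
      have ha : g * s⁻¹ ∈ V := I2.div_mem h2 hg hs hgV hs'
      have e1 : g * h * (g * h) = (g * s⁻¹) * ((s * h * s⁻¹) *
          ((s * (g * s⁻¹) * s⁻¹) * ((s * s) * h))) := by group
      have e2 : g * g = (g * s⁻¹) * ((s * (g * s⁻¹) * s⁻¹) * (s * s)) := by group
      have m1 := I2.cj hVU h2 hs hhV
      have m2 := I2.cj hVU h2 hs ha
      rw [e1, e2, hψm _ ha _ (V.mul_mem m1 (V.mul_mem m2 (V.mul_mem hx hhV))),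
        hψm _ m1 _ (V.mul_mem m2 (V.mul_mem hx hhV)), hψm _ m2 _ (V.mul_mem hx hhV),
        hψm _ hx _ hhV, hψm _ ha _ (V.mul_mem m2 hx), hψm _ m2 _ hx]
      ring
    · have h4 : g * h ∈ V := I2.mem_of_not h2 hg hh hgV hhV
      rw [cor_apply_mem V U s ψ h4, cor_apply_not V U s ψ hg hgV, cor_apply_not V U s ψ hh hhV]
      have ha : g * s⁻¹ ∈ V := I2.div_mem h2 hg hs hgV hs'
      have hb : h * s⁻¹ ∈ V := I2.div_mem h2 hh hs hhV hs'
      have m1 := I2.cj hVU h2 hs ha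
      have m2 := I2.cj hVU h2 hs hb
      have e1 : g * h = (g * s⁻¹) * ((s * (h * s⁻¹) * s⁻¹) * (s * s)) := by group
      have e2 : s * (g * h) * s⁻¹ = (s * (g * s⁻¹) * s⁻¹) * ((s * s) * (h * s⁻¹)) := by group
      have e3 : g * g = (g * s⁻¹) * ((s * (g * s⁻¹) * s⁻¹) * (s * s)) := by group
      have e4 : h * h = (h * s⁻¹) * ((s * (h * s⁻¹) * s⁻¹) * (s * s)) := by group
      rw [e2, e3, e4, e1, hψm _ ha _ (V.mul_mem m2 hx), hψm _ m2 _ hx,
        hψm _ m1 _ (V.mul_mem hx hb), hψm _ hx _ hb, hψm _ ha _ (V.mul_mem m1 hx),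
        hψm _ m1 _ hx, hψm _ hb _ (V.mul_mem m2 hx), hψm _ m2 _ hx]
      ring

theorem cor_indep {V U : Subgroup G} (hVU : V ≤ U) (hV : Opn S V) (h2 : V.relIndex U = 2) {s t : G}
    (hs : s ∈ U) (hs' : s ∉ V) (ht : t ∈ U) (ht' : t ∉ V) {ψ : G → ZMod 2} (hψ : ψ ∈ homs S V) :
    cor V U s ψ = cor V U t ψ := by
  obtain ⟨hψs, hψ0, hψm⟩ := hψ
  funext g
  by_cases hgV : g ∈ V
  · rw [cor_apply_mem V U s ψ hgV, cor_apply_mem V U t ψ hgV]
    have hv : t * s⁻¹ ∈ V := I2.div_mem h2 ht hs ht' hs'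
    have e : t * g * t⁻¹ = (t * s⁻¹) * (s * g * s⁻¹) * (t * s⁻¹)⁻¹ := by group
    rw [e, I2.hom_conj hψm hv (I2.cj hVU h2 hs hgV)]
  · by_cases hgU : g ∈ U
    · rw [cor_apply_not V U s ψ hgU hgV, cor_apply_not V U t ψ hgU hgV]
    · rw [cor_apply_off hVU s ψ hgU, cor_apply_off hVU t ψ hgU]

open scoped Classical in
/-- restriction to `V`, extended by zero -/
noncomputable def resV (V : Subgroup G) : (G → ZMod 2) →ₗ[ZMod 2] (G → ZMod 2) where
  toFun f g := if g ∈ V then f g else 0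
  map_add' a b := by
    funext g
    simp only [Pi.add_apply]
    split_ifs <;> simp
  map_smul' c a := by
    funext g
    simp only [Pi.smul_apply, RingHom.id_apply, smul_eq_mul]
    split_ifs <;> simp

theorem resV_mem (V : Subgroup G) (f : G → ZMod 2) {g : G} (hg : g ∈ V) : resV V f g = f g :=
  if_pos hg

theorem resV_not (V : Subgroup G) (f : G → ZMod 2) {g : G} (hg : g ∉ V) : resV V f g = 0 :=
  if_neg hg

theorem finrank_map_add {A B : Type*} [AddCommGroup A] [Module (ZMod 2) A] [AddCommGroup B]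
    [Module (ZMod 2) B] (f : A →ₗ[ZMod 2] B) (M : Submodule (ZMod 2) A)
    [FiniteDimensional (ZMod 2) M] :
    Module.finrank (ZMod 2) (M.map f) + Module.finrank (ZMod 2) (M ⊓ LinearMap.ker f :
      Submodule (ZMod 2) A) = Module.finrank (ZMod 2) M := by
  have h1 := LinearMap.finrank_range_add_finrank_ker (f.domRestrict M)
  rw [LinearMap.range_domRestrict] at h1
  have h2 : LinearMap.ker (f.domRestrict M) = (LinearMap.ker f).comap M.subtype := rfl
  have h3 : Module.finrank (ZMod 2) (M ⊓ LinearMap.ker f : Submodule (ZMod 2) A) =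
      Module.finrank (ZMod 2) (LinearMap.ker (f.domRestrict M)) := by
    rw [h2, ← Submodule.map_comap_subtype, Submodule.finrank_map_subtype_eq]
  rw [h3]
  exact h1

theorem map_resV {V U : Subgroup G} (hVU : V ≤ U) (hV : Opn S V) (h2 : V.relIndex U = 2) {s : G}
    (hs : s ∈ U) (hs' : s ∉ V) :
    (homs S U).map (resV V) = homs S V ⊓ LinearMap.ker (cor V U s) := by
  classical
  ext ψ
  constructor
  · rintro ⟨ω, ⟨h3, h4, h5⟩, rfl⟩
    have hω1 := I2.hom_one h5
    refine ⟨⟨?_, fun g hg => resV_not V ω hg, fun g hg h hh => ?_⟩, ?_⟩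
    · obtain ⟨W, hW, hWV, hWn, h6⟩ := I2.sm1_in h3 hV
      refine ⟨W, hW, fun g w hw => ?_⟩
      by_cases hg : g ∈ V
      · rw [resV_mem V ω hg, resV_mem V ω ((I2.mem_mul_iff hWV g hw).2 hg), h6 g w hw]
      · rw [resV_not V ω hg, resV_not V ω fun h => hg ((I2.mem_mul_iff hWV g hw).1 h)]
    · rw [resV_mem V ω hg, resV_mem V ω hh, resV_mem V ω (V.mul_mem hg hh),
        h5 g (hVU hg) h (hVU hh)]
    · change cor V U s (resV V ω) = 0
      funext g
      by_cases hgV : g ∈ V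
      · rw [cor_apply_mem V U s _ hgV, resV_mem V ω hgV, resV_mem V ω (I2.cj hVU h2 hs hgV),
          I2.hom_conj h5 hs (hVU hgV)]
        exact I2.add_self _
      · by_cases hgU : g ∈ U
        · rw [cor_apply_not V U s _ hgU hgV, resV_mem V ω (I2.sq h2 hgU), h5 g hgU g hgU]
          exact I2.add_self _
        · rw [cor_apply_off hVU s _ hgU]
          rfl
  · rintro ⟨⟨h3, h4, h5⟩, h6⟩
    have hk : cor V U s ψ = 0 := h6
    have k1 : ∀ g ∈ V, ψ (s * g * s⁻¹) = ψ g := by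
      intro g hg
      have h7 := congrFun hk g
      rw [cor_apply_mem V U s ψ hg] at h7
      have h8 : ψ g + ψ (s * g * s⁻¹) = ψ g + ψ g := by
        rw [h7, I2.add_self]
        rfl
      exact add_left_cancel h8
    have k2 : ψ (s * s) = 0 := by
      have h7 := congrFun hk s
      rw [cor_apply_not V U s ψ hs hs'] at h7
      exact h7
    set Ψ : G → ZMod 2 := fun g => if g ∈ V then ψ g else if g ∈ U then ψ (g * s⁻¹) else 0 with hΨ
    have p1 : ∀ {g}, g ∈ V → Ψ g = ψ g := fun hg => if_pos hg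
    have p2 : ∀ {g}, g ∈ U → g ∉ V → Ψ g = ψ (g * s⁻¹) := by
      intro g hg hg'
      simp only [hΨ]
      rw [if_neg hg', if_pos hg]
    have p3 : ∀ {g}, g ∉ U → Ψ g = 0 := by
      intro g hg
      simp only [hΨ]
      rw [if_neg (fun h => hg (hVU h)), if_neg hg]
    refine ⟨Ψ, ⟨?_, fun g hg => p3 hg, ?_⟩, ?_⟩
    · obtain ⟨W, hW, hWV, hWn, h7⟩ := I2.sm1_in h3 hV
      refine ⟨W, hW, fun g w hw => ?_⟩
      by_cases hgV : g ∈ V
      · rw [p1 hgV, p1 ((I2.mem_mul_iff hWV g hw).2 hgV), h7 g w hw]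
      · have h8 : g * w ∉ V := fun h => hgV ((I2.mem_mul_iff hWV g hw).1 h)
        by_cases hgU : g ∈ U
        · have h9 : g * w ∈ U := (I2.mem_mul_iff (hWV.trans hVU) g hw).2 hgU
          rw [p2 hgU hgV, p2 h9 h8]
          have e : g * w * s⁻¹ = (g * s⁻¹) * (s * w * s⁻¹) := by group
          rw [e, h7 _ _ (hWn.conj_mem w hw s)]
        · have h9 : g * w ∉ U := fun h => hgU ((I2.mem_mul_iff (hWV.trans hVU) g hw).1 h)
          rw [p3 hgU, p3 h9]
    · intro g hg h hh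
      have h7 := I2.mm h2 hg hh
      by_cases hgV : g ∈ V <;> by_cases hhV : h ∈ V
      · rw [p1 hgV, p1 hhV, p1 (V.mul_mem hgV hhV), h5 g hgV h hhV]
      · have h8 : g * h ∉ V := fun h9 => hhV ((h7.1 h9).1 hgV)
        rw [p1 hgV, p2 hh hhV, p2 (U.mul_mem hg hh) h8, mul_assoc,
          h5 g hgV _ (I2.div_mem h2 hh hs hhV hs')]
      · have h8 : g * h ∉ V := fun h9 => hgV ((h7.1 h9).2 hhV)
        rw [p1 hhV, p2 hg hgV, p2 (U.mul_mem hg hh) h8]
        have e : g * h * s⁻¹ = (g * s⁻¹) * (s * h * s⁻¹) := by group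
        rw [e, h5 _ (I2.div_mem h2 hg hs hgV hs') _ (I2.cj hVU h2 hs hhV), k1 h hhV]
      · have h8 : g * h ∈ V := I2.mem_of_not h2 hg hh hgV hhV
        rw [p1 h8, p2 hg hgV, p2 hh hhV]
        have ha : g * s⁻¹ ∈ V := I2.div_mem h2 hg hs hgV hs'
        have hb : h * s⁻¹ ∈ V := I2.div_mem h2 hh hs hhV hs'
        have e : g * h = (g * s⁻¹) * ((s * (h * s⁻¹) * s⁻¹) * (s * s)) := by group
        rw [e, h5 _ ha _ (V.mul_mem (I2.cj hVU h2 hs hb) (I2.sq h2 hs)),
          h5 _ (I2.cj hVU h2 hs hb) _ (I2.sq h2 hs), k1 _ hb, k2, add_zero]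
    · funext g
      by_cases hgV : g ∈ V
      · rw [resV_mem V Ψ hgV, p1 hgV]
      · rw [resV_not V Ψ hgV, h4 g hgV]

theorem homs_inf_ker_resV {V U : Subgroup G} (hVU : V ≤ U) (hV : Opn S V)
    (h2 : V.relIndex U = 2) {s : G} (hs : s ∈ U) (hs' : s ∉ V) :
    homs S U ⊓ LinearMap.ker (resV V) = Submodule.span (ZMod 2) {chi V U} := by
  ext ω
  rw [Submodule.mem_span_singleton]
  constructor
  · rintro ⟨⟨h3, h4, h5⟩, h6⟩
    have h7 : resV V ω = 0 := h6
    have h8 : ∀ g ∈ V, ω g = 0 := by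
      intro g hg
      rw [← resV_mem V ω hg, h7]
      rfl
    refine ⟨ω s, ?_⟩
    funext g
    change ω s * chi V U g = ω g
    unfold chi
    by_cases hgU : g ∈ U
    · by_cases hgV : g ∈ V
      · rw [if_neg (fun h => h.2 hgV), h8 g hgV, mul_zero]
      · rw [if_pos ⟨hgU, hgV⟩, mul_one]
        have e : g = (g * s⁻¹) * s := by group
        have ha : g * s⁻¹ ∈ V := I2.div_mem h2 hgU hs hgV hs'
        rw [e, h5 _ (hVU ha) _ hs, h8 _ ha, zero_add]
    · rw [if_neg (fun h => hgU h.1), h4 g hgU, mul_zero]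
  · rintro ⟨c, rfl⟩
    refine ⟨(homs S U).smul_mem c (chi_mem hVU hV h2), ?_⟩
    change resV V (c • chi V U) = 0
    rw [map_smul]
    have : resV V (chi V U) = 0 := by
      funext g
      by_cases hgV : g ∈ V
      · rw [resV_mem V _ hgV]
        exact if_neg fun h => h.2 hgV
      · rw [resV_not V _ hgV]
        rfl
    rw [this, smul_zero]

theorem finrank_cor {V U : Subgroup G} (hVU : V ≤ U) (hV : Opn S V) (h2 : V.relIndex U = 2) {s : G}
    (hs : s ∈ U) (hs' : s ∉ V) (hfV : FiniteDimensional (ZMod 2) (homs S V))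
    (hfU : FiniteDimensional (ZMod 2) (homs S U)) :
    Module.finrank (ZMod 2) ((homs S V).map (cor V U s)) + Module.finrank (ZMod 2) (homs S U) =
      Module.finrank (ZMod 2) (homs S V) + 1 := by
  have h3 := finrank_map_add (cor V U s) (homs S V)
  have h4 := finrank_map_add (resV V) (homs S U)
  rw [map_resV hVU hV h2 hs hs', homs_inf_ker_resV hVU hV h2 hs hs'] at h4
  have h5 : chi V U ≠ (0 : G → ZMod 2) := by
    intro h
    have h6 := congrFun h s
    unfold chi at h6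
    rw [if_pos ⟨hs, hs'⟩] at h6
    exact one_ne_zero h6
  rw [finrank_span_singleton h5] at h4
  omega

end Pool.Agent.Work.MP_787500_nt.PA
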