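import Mathlib
import Pool.Agent.Work.MP_787500_nt.PA.Defs
import Pool.Agent.Work.MP_787500_nt.PA.IdxTwo
import Pool.Agent.Work.MP_787500_nt.PA.Transfer

/-!
# Module NOTRES (size M): the transfer in degree two (only what is needed)

`V ≤ U` open of index two, `s ∈ U`, `s ∉ V`. For `t ∈ {1, s}` and `g ∈ U` let `t∗g ∈ {1, s}` be the
representative of the coset `V t g` (`1` if `t g ∈ V`, `s` otherwise) and `a t g = t g (t∗g)⁻¹ ∈ V`.
Then `a t (g h) = a t g * a (t∗g) h`, and `t ↦ t∗g` is a permutation of `{1, s}`.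
For `f : G → G → ZMod 2` put `T f g h = Σ_{t ∈ {1, s}} f (a t g) (a (t∗g) h)` and for `z : G → ZMod 2`
put `T z g = Σ_t z (a t g)`. All identities in `ZMod 2`, all elements in `U`.

1. If `f = δ z` on `V` then `T f = δ (T z)` on `U` (`Σ_t z (a t h) = Σ_t z (a (t∗g) h)`).
2. If `α` is a cocycle on `U` then `T α` is a coboundary on `U`: with
   `w t g = α t g + α (a t g) (t∗g)` one has, for each `t`,
   `α (a t g) (a (t∗g) h) = α g h + w t g + w (t∗g) h + w t (g h)` (three uses of the cocycle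
   identity: at `(a t g, t∗g, h)`, at `(a t g, a (t∗g) h, (t∗g)∗h)` and at `(t, g, h)`, using
   `a t g * (t∗g) = t * g` etc.). Sum over `t`: `T α = 2 α + δ W = δ W` with `W g = Σ_t w t g`.
3. For `ψ ∈ homs S V`, `ω ∈ homs S U` with `ω s = 0`: `ω (a (t∗g) h) = ω h` since `ω 1 = ω s = 0`, so
   `T (ψ ∪ ω) g h = (T ψ g) ω h`, and `T ψ = cor V U s ψ` on `U` (for `g ∈ V`: `a 1 g = g`,
   `a s g = s g s⁻¹`; for `g ∉ V`: `a 1 g = g s⁻¹`, `a s g = s g`, and
   `ψ (g s⁻¹) + ψ (s g) = ψ (g g)`).

So if `ψ ∪ ω + α = δ z` on `V` then `cor ψ ∪ ω = T (ψ ∪ ω) = T α + δ (T z)` is a coboundary on `U`.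
Smoothness of `T z` and of `W`: choose `W₀` in the system inside `V` for which `z` resp. `α` are
constant on cosets; `a t (g w) = a t g * (conjugate of w)`.
-/

set_option autoImplicit false

namespace Pool.Agent.Work.MP_787500_nt.PA

variable {G : Type*} [Group G] {S : TwoSys G}

/-- the two representatives -/
def ta (s : G) (t : Bool) : G := if t then s else 1

open scoped Classical in
/-- the representative of the coset of `t g` -/
noncomputable def sg (V : Subgroup G) (t : Bool) (g : G) : Bool := xor t (decide (g ∉ V))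

/-- the part in `V` of `t g` -/
noncomputable def aa (V : Subgroup G) (s : G) (t : Bool) (g : G) : G :=
  ta s t * g * (ta s (sg V t g))⁻¹

theorem ta_mem {U : Subgroup G} {s : G} (hs : s ∈ U) (t : Bool) : ta s t ∈ U := by
  cases t
  · exact U.one_mem
  · exact hs

theorem sg_perm (V : Subgroup G) (g : G) (F : Bool → ZMod 2) :
    ∑ t, F (sg V t g) = ∑ t, F t := by
  unfold sg
  by_cases hg : g ∈ V
  · simp [hg]
  · simp [hg, add_comm]

theorem sg_mul {V U : Subgroup G} (h2 : V.relIndex U = 2) {g h : G} (hg : g ∈ U) (hh : h ∈ U)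
    (t : Bool) : sg V t (g * h) = sg V (sg V t g) h := by
  have h3 := I2.mm h2 hg hh
  unfold sg
  by_cases hgV : g ∈ V <;> by_cases hhV : h ∈ V
  · have h4 : g * h ∈ V := h3.2 (by simp [hgV, hhV])
    simp [hgV, hhV, h4]
  · have h4 : g * h ∉ V := fun h5 => hhV ((h3.1 h5).1 hgV)
    simp [hgV, hhV, h4]
  · have h4 : g * h ∉ V := fun h5 => hgV ((h3.1 h5).2 hhV)
    simp [hgV, hhV, h4]
  · have h4 : g * h ∈ V := h3.2 (by simp [hgV, hhV])
    simp [hgV, hhV, h4]

theorem aa_mem {V U : Subgroup G} (hVU : V ≤ U) (h2 : V.relIndex U = 2) {s : G} (hs : s ∈ U)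
    (hs' : s ∉ V) (t : Bool) {g : G} (hg : g ∈ U) : aa V s t g ∈ V := by
  unfold aa sg
  by_cases hgV : g ∈ V
  · cases t
    · simpa [ta, hgV] using hgV
    · simpa [ta, hgV] using I2.cj hVU h2 hs hgV
  · cases t
    · simpa [ta, hgV] using I2.div_mem h2 hg hs hgV hs'
    · simpa [ta, hgV] using I2.mem_of_not h2 hs hg hs' hgV

theorem aa_mul {V U : Subgroup G} (h2 : V.relIndex U = 2) (s : G) {g h : G} (hg : g ∈ U)
    (hh : h ∈ U) (t : Bool) : aa V s t (g * h) = aa V s t g * aa V s (sg V t g) h := by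
  unfold aa
  rw [sg_mul h2 hg hh]
  group

theorem sg_mul_mem {W V : Subgroup G} (hWV : W ≤ V) (t : Bool) (g : G) {w : G} (hw : w ∈ W) :
    sg V t (g * w) = sg V t g := by
  unfold sg
  have := I2.mem_mul_iff hWV g hw
  by_cases hg : g ∈ V
  · simp [hg, this.2 hg]
  · have h3 : g * w ∉ V := fun h => hg (this.1 h)
    simp [hg, h3]

theorem aa_mul_mem {W V : Subgroup G} (hWV : W ≤ V) (hWn : W.Normal) (s : G) (t : Bool) (g : G)
    {w : G} (hw : w ∈ W) : ∃ w' ∈ W, aa V s t (g * w) = aa V s t g * w' := by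
  refine ⟨ta s (sg V t g) * w * (ta s (sg V t g))⁻¹, hWn.conj_mem w hw _, ?_⟩
  unfold aa
  rw [sg_mul_mem hWV t g hw]
  group

theorem cor_eq_sum {V U : Subgroup G} (hVU : V ≤ U) (h2 : V.relIndex U = 2) {s : G} (hs : s ∈ U)
    (hs' : s ∉ V) {ψ : G → ZMod 2} (hψ : ∀ g ∈ V, ∀ h ∈ V, ψ (g * h) = ψ g + ψ h) {g : G}
    (hg : g ∈ U) : ∑ t, ψ (aa V s t g) = cor V U s ψ g := by
  rw [Fintype.sum_bool]
  unfold aa sg
  by_cases hgV : g ∈ V
  · rw [cor_apply_mem V U s ψ hgV]
    simp [ta, hgV, add_comm]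
  · rw [cor_apply_not V U s ψ hg hgV]
    have e : g * g = (g * s⁻¹) * (s * g) := by group
    rw [e, hψ _ (I2.div_mem h2 hg hs hgV hs') _ (I2.mem_of_not h2 hs hg hs' hgV)]
    simp [ta, hgV, add_comm]

theorem notres {V U : Subgroup G} (hVU : V ≤ U) (hV : Opn S V) (h2 : V.relIndex U = 2) {s : G}
    (hs : s ∈ U) (hs' : s ∉ V) {ψ ω : G → ZMod 2} (hψ : ψ ∈ homs S V) (hω : ω ∈ homs S U)
    (hωs : ω s = 0) {α : G → G → ZMod 2} (hα : Coc S U α)
    (hc : Cob S V (fun g h => cup ψ ω g h + α g h)) :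
    Cob S U (cup (cor V U s ψ) ω) := by
  obtain ⟨z, hz, hc⟩ := hc
  obtain ⟨hα2, hα3⟩ := hα
  obtain ⟨hψs, hψ0, hψm⟩ := hψ
  obtain ⟨hωs', hω0, hωm⟩ := hω
  have hτ : ∀ t, ta s t ∈ U := ta_mem hs
  have haV : ∀ t, ∀ {g}, g ∈ U → aa V s t g ∈ V := fun t _ hg => aa_mem hVU h2 hs hs' t hg
  set w : Bool → G → ZMod 2 := fun t g => α (ta s t) g + α (aa V s t g) (ta s (sg V t g)) with hw
  refine ⟨fun g => (∑ t, z (aa V s t g)) + ∑ t, w t g, ?_, fun g hg h hh => ?_⟩
  · obtain ⟨W, hW, hWV, hWn, h3⟩ := I2.sm1_in hz hV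
    obtain ⟨W', hW', hWV', hWn', h4⟩ := I2.sm2_in hα2 hV
    refine ⟨W ⊓ W', S.inf hW hW', fun g v hv => ?_⟩
    simp only
    congr 1
    · refine Finset.sum_congr rfl fun t _ => ?_
      obtain ⟨v', hv', e⟩ := aa_mul_mem hWV hWn s t g hv.1
      rw [e, h3 _ _ hv']
    · refine Finset.sum_congr rfl fun t _ => ?_
      obtain ⟨v', hv', e⟩ := aa_mul_mem hWV' hWn' s t g hv.2
      simp only [hw]
      rw [sg_mul_mem hWV' t g hv.2, e]
      have h5 := h4 (ta s t) g 1 W'.one_mem v hv.2
      have h6 := h4 (aa V s t g) (ta s (sg V t g)) v' hv' 1 W'.one_mem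
      rw [mul_one] at h5 h6
      rw [h5, h6]
  · -- the identity for each `t`
    have key : ∀ t, ψ (aa V s t g) * ω h =
        (z (aa V s t g) + z (aa V s (sg V t g) h) + z (aa V s t (g * h))) +
        (α g h + w t g + w (sg V t g) h + w t (g * h)) := by
      intro t
      set a := aa V s t g with ha
      set b := aa V s (sg V t g) h with hb
      have haV' : a ∈ V := haV t hg
      have hbV' : b ∈ V := haV _ hh
      have hab : aa V s t (g * h) = a * b := aa_mul h2 s hg hh t
      have e0 := hc a haV' b hbV'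
      -- omega
      have hωt : ∀ t, ω (ta s t) = 0 := by
        intro t
        cases t
        · exact I2.hom_one hωm
        · exact hωs
      have hωb : ω b = ω h := by
        rw [hb]
        unfold aa
        rw [hωm _ (U.mul_mem (hτ _) hh) _ (U.inv_mem (hτ _)), hωm _ (hτ _) _ hh,
          I2.hom_inv hωm (hτ _), hωt, hωt, zero_add, add_zero]
      -- the cocycle identities
      have m1 : a * ta s (sg V t g) = ta s t * g := by
        rw [ha]
        unfold aa
        group
      have m2 : b * ta s (sg V (sg V t g) h) = ta s (sg V t g) * h := by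
        rw [hb]
        unfold aa
        group
      have c1 := hα3 a (hVU haV') (ta s (sg V t g)) (hτ _) h hh
      have c2 := hα3 a (hVU haV') b (hVU hbV') (ta s (sg V (sg V t g) h)) (hτ _)
      have c3 := hα3 (ta s t) (hτ _) g hg h hh
      rw [m1] at c1
      rw [m2] at c2
      have e1 : w t g = α (ta s t) g + α a (ta s (sg V t g)) := rfl
      have e2 : w (sg V t g) h = α (ta s (sg V t g)) h + α b (ta s (sg V (sg V t g) h)) := rfl
      have e3 : w t (g * h) = α (ta s t) (g * h) + α (a * b) (ta s (sg V (sg V t g) h)) := by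
        simp only [hw]
        rw [hab, sg_mul h2 hg hh]
      rw [hab, e1, e2, e3]
      change ψ a * ω b + α a b = z a + z b + z (a * b) at e0
      rw [hωb] at e0
      have e4 : ψ a * ω h = (z a + z b + z (a * b)) + α a b := by
        rw [← e0, add_assoc, I2.add_self, add_zero]
      rw [e4]
      congr 1
      revert c1 c2 c3
      generalize α a (ta s (sg V t g)) = x1
      generalize α (ta s t * g) h = x2
      generalize α (ta s (sg V t g)) h = x3
      generalize α a (ta s (sg V t g) * h) = x4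
      generalize α a b = x5
      generalize α (a * b) (ta s (sg V (sg V t g) h)) = x6
      generalize α b (ta s (sg V (sg V t g) h)) = x7
      generalize α (ta s t) g = x8
      generalize α g h = x9
      generalize α (ta s t) (g * h) = x10
      intro c1 c2 c3
      have q1 : x4 = x1 + x2 + x3 := by
        rw [c1, show x3 + x4 + x3 = x4 + (x3 + x3) by ring, I2.add_self, add_zero]
      have q2 : x5 = x7 + x4 + x6 := by
        rw [← c2, add_assoc, I2.add_self, add_zero]
      have q3 : x2 = x8 + x9 + x10 := by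
        rw [add_assoc, ← c3, ← add_assoc, I2.add_self, zero_add]
      rw [q2, q1, q3]
      ring
    unfold cup
    rw [← cor_eq_sum hVU h2 hs hs' hψm hg, Finset.sum_mul, Finset.sum_congr rfl fun t _ => key t]
    simp only [Finset.sum_add_distrib]
    rw [sg_perm V g (fun t => z (aa V s t h)), sg_perm V g (fun t => w t h)]
    have e5 : ∑ _t : Bool, α g h = 0 := by
      rw [Fintype.sum_bool]
      exact I2.add_self _
    rw [e5]
    ring

end Pool.Agent.Work.MP_787500_nt.PA
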