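import Mathlib
import Pool.Agent.Work.MP_787500_nt.PA.Defs
import Pool.Agent.Work.MP_787500_nt.PA.IdxTwo
import Pool.Agent.Work.MP_787500_nt.PA.Transfer

/-!
# Module SYMBKER (size S): the symbols which vanish are the transfers

`V ≤ U` open of index two, `s ∈ U`, `s ∉ V`, `ω ∈ homs S U`. All identities are in `ZMod 2`.

(⇒) Let `chi V U g * ω h = z g + z h + z (g h)` for `g, h ∈ U`, `z` smooth. Put
`ψ g = if g ∈ V then z g else 0`; it lies in `homs S V` because `chi` vanishes on `V` (smoothness: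
intersect the subgroup of `z` with one inside `V`). For `g ∈ V`:
`z (s g) = z s + z g + ω g` and `z (s g s⁻¹ s) = z (s g s⁻¹) + z s` (as `chi (s g s⁻¹) = 0`), so
`z (s g s⁻¹) = z g + ω g`, i.e. `cor ψ g = ω g`. For `g ∉ V`: `z (g g) = z g + z g + ω g`, so
`cor ψ g = ψ (g g) = ω g`. Off `U` both are zero.

(⇐) Let `ω = cor V U s ψ`. Put `z v = ψ v` for `v ∈ V`, `z g = ψ (g s⁻¹)` for `g ∈ U`, `g ∉ V`, and
`0` off `U` (that is `z (v s) = ψ v`). Check `chi g * ω h = z g + z h + z (g h)` in the four cases,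
with `g = a` or `a s`, `h = b` or `b s`:
`(a, b)`: `0 = ψ a + ψ b + ψ (a b)`; `(a, b s)`: the same; `(a s, b)`:
`ω b = ψ b + ψ (s b s⁻¹)` and `z (a s b) = z (a (s b s⁻¹) s) = ψ a + ψ (s b s⁻¹)`;
`(a s, b s)`: `ω (b s) = ψ (b s b s) = ψ b + ψ (s b s⁻¹) + ψ (s s)` and
`z (a s b s) = ψ (a (s b s⁻¹) s s)`. Smoothness of `z`: use `W` inside `V` with `ψ` constant on
cosets (`v w s = v s (s⁻¹ w s)`).
-/

set_option autoImplicit false

namespace Pool.Agent.Work.MP_787500_nt.PA

variable {G : Type*} [Group G] {S : TwoSys G}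

theorem chi_of_mem {V : Subgroup G} (U : Subgroup G) {g : G} (hg : g ∈ V) : chi V U g = 0 :=
  if_neg fun h => h.2 hg

theorem chi_of_not {V U : Subgroup G} {g : G} (hg : g ∈ U) (hg' : g ∉ V) : chi V U g = 1 :=
  if_pos ⟨hg, hg'⟩

theorem cup_chi_iff {V U : Subgroup G} (hVU : V ≤ U) (hV : Opn S V) (h2 : V.relIndex U = 2) {s : G}
    (hs : s ∈ U) (hs' : s ∉ V) {ω : G → ZMod 2} (hω : ω ∈ homs S U) :
    Cob S U (cup (chi V U) ω) ↔ ∃ ψ ∈ homs S V, cor V U s ψ = ω := by
  classical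
  constructor
  · rintro ⟨z, hz, hc⟩
    have hcV : ∀ g ∈ V, ∀ h ∈ U, 0 = z g + z h + z (g * h) := by
      intro g hg h hh
      have h1 := hc g (hVU hg) h hh
      unfold cup at h1
      rwa [chi_of_mem U hg, zero_mul] at h1
    have hcN : ∀ g ∈ U, g ∉ V → ∀ h ∈ U, ω h = z g + z h + z (g * h) := by
      intro g hg hg' h hh
      have h1 := hc g hg h hh
      unfold cup at h1
      rwa [chi_of_not hg hg', one_mul] at h1
    have mv : ∀ {a b c : ZMod 2}, 0 = a + b + c → c = a + b := by decide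
    refine ⟨resV V z, ⟨?_, fun g hg => resV_not V z hg, fun g hg h hh => ?_⟩, ?_⟩
    · obtain ⟨W, hW, hWV, hWn, h6⟩ := I2.sm1_in hz hV
      refine ⟨W, hW, fun g w hw => ?_⟩
      by_cases hg : g ∈ V
      · rw [resV_mem V z hg, resV_mem V z ((I2.mem_mul_iff hWV g hw).2 hg), h6 g w hw]
      · rw [resV_not V z hg, resV_not V z fun h => hg ((I2.mem_mul_iff hWV g hw).1 h)]
    · rw [resV_mem V z hg, resV_mem V z hh, resV_mem V z (V.mul_mem hg hh)]
      exact mv (hcV g hg h (hVU hh))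
    · funext g
      by_cases hgV : g ∈ V
      · rw [cor_apply_mem V U s _ hgV, resV_mem V z hgV, resV_mem V z (I2.cj hVU h2 hs hgV)]
        have h3 := hcN s hs hs' g (hVU hgV)
        have h4 := mv (hcV _ (I2.cj hVU h2 hs hgV) s hs)
        rw [show s * g * s⁻¹ * s = s * g by group] at h4
        rw [h4] at h3
        rw [h3]
        generalize z s = a
        generalize z g = b
        generalize z (s * g * s⁻¹) = c
        revert a b c
        decide
      · by_cases hgU : g ∈ U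
        · rw [cor_apply_not V U s _ hgU hgV, resV_mem V z (I2.sq h2 hgU)]
          have h3 := hcN g hgU hgV g hgU
          rw [h3, I2.add_self, zero_add]
        · rw [cor_apply_off hVU s _ hgU, hω.2.1 g hgU]
  · rintro ⟨ψ, ⟨h3, h4, h5⟩, rfl⟩
    have hx : s * s ∈ V := I2.sq h2 hs
    set z : G → ZMod 2 := fun g => if g ∈ V then ψ g else if g ∈ U then ψ (g * s⁻¹) else 0 with hz
    have p1 : ∀ {g}, g ∈ V → z g = ψ g := fun hg => if_pos hg
    have p2 : ∀ {g}, g ∈ U → g ∉ V → z g = ψ (g * s⁻¹) := by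
      intro g hg hg'
      simp only [hz]
      rw [if_neg hg', if_pos hg]
    have p3 : ∀ {g}, g ∉ U → z g = 0 := by
      intro g hg
      simp only [hz]
      rw [if_neg (fun h => hg (hVU h)), if_neg hg]
    refine ⟨z, ?_, fun g hg h hh => ?_⟩
    · obtain ⟨W, hW, hWV, hWn, h7⟩ := I2.sm1_in h3 hV
      refine ⟨W, hW, fun g w hw => ?_⟩
      by_cases hgV : g ∈ V
      · rw [p1 hgV, p1 ((I2.mem_mul_iff hWV g hw).2 hgV), h7 g w hw]
      · have h8 : g * w ∉ V := fun h => hgV ((I2.mem_mul_iff hWV g hw).1 h)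
        by_cases hgU : g ∈ U
        · have h9 : g * w ∈ U := (I2.mem_mul_iff (hWV.trans hVU) g hw).2 hgU
          rw [p2 hgU hgV, p2 h9 h8]
          have e : g * w * s⁻¹ = (g * s⁻¹) * (s * w * s⁻¹) := by group
          rw [e, h7 _ _ (hWn.conj_mem w hw s)]
        · have h9 : g * w ∉ U := fun h => hgU ((I2.mem_mul_iff (hWV.trans hVU) g hw).1 h)
          rw [p3 hgU, p3 h9]
    · have h7 := I2.mm h2 hg hh
      unfold cup
      by_cases hgV : g ∈ V <;> by_cases hhV : h ∈ V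
      · rw [chi_of_mem U hgV, p1 hgV, p1 hhV, p1 (V.mul_mem hgV hhV), h5 g hgV h hhV, zero_mul,
          I2.add_self]
      · have h8 : g * h ∉ V := fun h9 => hhV ((h7.1 h9).1 hgV)
        rw [chi_of_mem U hgV, p1 hgV, p2 hh hhV, p2 (U.mul_mem hg hh) h8, mul_assoc,
          h5 g hgV _ (I2.div_mem h2 hh hs hhV hs'), zero_mul, I2.add_self]
      · have h8 : g * h ∉ V := fun h9 => hgV ((h7.1 h9).2 hhV)
        rw [chi_of_not hg hgV, p1 hhV, p2 hg hgV, p2 (U.mul_mem hg hh) h8,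
          cor_apply_mem V U s ψ hhV]
        have e : g * h * s⁻¹ = (g * s⁻¹) * (s * h * s⁻¹) := by group
        rw [e, h5 _ (I2.div_mem h2 hg hs hgV hs') _ (I2.cj hVU h2 hs hhV)]
        generalize ψ h = a
        generalize ψ (s * h * s⁻¹) = b
        generalize ψ (g * s⁻¹) = c
        revert a b c
        decide
      · have h8 : g * h ∈ V := I2.mem_of_not h2 hg hh hgV hhV
        rw [chi_of_not hg hgV, p1 h8, p2 hg hgV, p2 hh hhV, cor_apply_not V U s ψ hh hhV]
        have ha : g * s⁻¹ ∈ V := I2.div_mem h2 hg hs hgV hs'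
        have hb : h * s⁻¹ ∈ V := I2.div_mem h2 hh hs hhV hs'
        have hb' := I2.cj hVU h2 hs hb
        have e : g * h = (g * s⁻¹) * ((s * (h * s⁻¹) * s⁻¹) * (s * s)) := by group
        have e2 : h * h = (h * s⁻¹) * ((s * (h * s⁻¹) * s⁻¹) * (s * s)) := by group
        rw [e, e2, h5 _ ha _ (V.mul_mem hb' hx), h5 _ hb _ (V.mul_mem hb' hx), h5 _ hb' _ hx]
        generalize ψ (h * s⁻¹) = a
        generalize ψ (s * (h * s⁻¹) * s⁻¹) = b
        generalize ψ (g * s⁻¹) = c
        generalize ψ (s * s) = d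
        revert a b c d
        decide

end Pool.Agent.Work.MP_787500_nt.PA
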