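import Mathlib
import Pool.Agent.Work.MP_787500_nt.PA.Defs
import Pool.Agent.Work.MP_787500_nt.PA.IdxTwo
import Pool.Agent.Work.MP_787500_nt.PA.SymbKer

/-!
# Module RESKER (size S): classes that vanish on a subgroup of index two are symbols

`V ≤ U` open of index two, `α` a smooth 2-cocycle on `U` modulo 2, `α = δ z` on `V`. Then there is
`ψ ∈ homs S U` with `α + chi V U ∪ ψ` a coboundary on `U`. All identities in `ZMod 2`.

Proof. Fix `s ∈ U`, `s ∉ V`. Replacing `α` by `α + δ z` (with `z` replaced by a smooth function on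
`G`; it only matters on `V`, so take `z` zero off `V`) we may assume `α = 0` on `V × V`.
Put `z v = 0` for `v ∈ V`, `z (v s) = α v s`, and zero off `U`, and `f = α + δ z`. Then `f u g = 0` for
`u ∈ V`, `g ∈ U`: clear for `g ∈ V`; for `g = v s`: `f u (v s) = α u (v s) + α v s + α (u v) s`, and the
cocycle identity at `(u, v, s)` reads `α u v + α (u v) s = α v s + α u (v s)` with `α u v = 0`.
The cocycle identity for `f` at `(u, g, h)` gives `f (u g) h = f g h`: `f g h` depends only on the coset
`V g`, so `f g h = chi g * ψ h` with `ψ h = f s h` (for `g, h ∈ U`). The cocycle identity at `(s, h, k)`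
reads `ψ h + f (s h) k = f h k + ψ (h k)`, i.e. `ψ h + (1 + chi h) ψ k = chi h ψ k + ψ (h k)`, so `ψ` is
a homomorphism on `U`; extend it by zero off `U`. Smoothness: everything is built from smooth
functions of one or two variables; take the intersection of the subgroups and one inside `V`.
-/

set_option autoImplicit false

namespace Pool.Agent.Work.MP_787500_nt.PA

variable {G : Type*} [Group G] {S : TwoSys G}

open scoped Classical in
/-- the case where the cocycle vanishes on `V` -/
theorem res_cob_zero {V U : Subgroup G} (hVU : V ≤ U) (hV : Opn S V) (h2 : V.relIndex U = 2)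
    {α : G → G → ZMod 2} (hα : Coc S U α) (h0 : ∀ g ∈ V, ∀ h ∈ V, α g h = 0) :
    ∃ ψ ∈ homs S U, Cob S U (fun g h => α g h + cup (chi V U) ψ g h) := by
  classical
  obtain ⟨hs2, hcoc⟩ := hα
  -- an element of `U` outside `V`
  obtain ⟨s, hs, hs'⟩ : ∃ s ∈ U, s ∉ V := by
    by_contra hc
    push Not at hc
    have h3 : V.relIndex U = 1 := Subgroup.relIndex_eq_one.2 hc
    omega
  obtain ⟨W, hW, hWV, hWn, hw⟩ := I2.sm2_in hs2 hV
  have hWU := hWV.trans hVU
  set z : G → ZMod 2 := fun g => if g ∈ U ∧ g ∉ V then α (g * s⁻¹) s else 0 with hz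
  have z1 : ∀ {g}, g ∈ V → z g = 0 := fun hg => if_neg fun h => h.2 hg
  have z2 : ∀ {g}, g ∈ U → g ∉ V → z g = α (g * s⁻¹) s := fun hg hg' => if_pos ⟨hg, hg'⟩
  have z3 : ∀ {g}, g ∉ U → z g = 0 := fun hg => if_neg fun h => hg h.1
  have hzW : ∀ g, ∀ w ∈ W, z (g * w) = z g := by
    intro g w hww
    by_cases hgU : g ∈ U
    · have h9 : g * w ∈ U := (I2.mem_mul_iff hWU g hww).2 hgU
      by_cases hgV : g ∈ V
      · rw [z1 hgV, z1 ((I2.mem_mul_iff hWV g hww).2 hgV)]
      · have h8 : g * w ∉ V := fun h => hgV ((I2.mem_mul_iff hWV g hww).1 h)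
        rw [z2 hgU hgV, z2 h9 h8]
        have e : g * w * s⁻¹ = (g * s⁻¹) * (s * w * s⁻¹) := by group
        have h10 := hw (g * s⁻¹) s (s * w * s⁻¹) (hWn.conj_mem w hww s) 1 W.one_mem
        rw [mul_one] at h10
        rw [e, h10]
    · have h9 : g * w ∉ U := fun h => hgU ((I2.mem_mul_iff hWU g hww).1 h)
      rw [z3 hgU, z3 h9]
  set f : G → G → ZMod 2 := fun g h => α g h + (z g + z h + z (g * h)) with hf
  -- f is a cocycle on U
  have fcoc : ∀ g ∈ U, ∀ h ∈ U, ∀ k ∈ U, f g h + f (g * h) k = f h k + f g (h * k) := by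
    intro g hg h hh k hk
    have h3 := hcoc g hg h hh k hk
    simp only [hf]
    rw [mul_assoc g h k]
    have e1 : α g h + (z g + z h + z (g * h)) + (α (g * h) k + (z (g * h) + z k +
        z (g * (h * k)))) = (α g h + α (g * h) k) + (z g + z h + z k + z (g * (h * k))) +
        (z (g * h) + z (g * h)) := by ring
    have e2 : α h k + (z h + z k + z (h * k)) + (α g (h * k) + (z g + z (h * k) +
        z (g * (h * k)))) = (α h k + α g (h * k)) + (z g + z h + z k + z (g * (h * k))) +
        (z (h * k) + z (h * k)) := by ring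
    rw [e1, e2, h3, I2.add_self, I2.add_self]
  -- f vanishes on V × U
  have f0 : ∀ u ∈ V, ∀ g ∈ U, f u g = 0 := by
    intro u hu g hg
    simp only [hf]
    by_cases hgV : g ∈ V
    · rw [h0 u hu g hgV, z1 hu, z1 hgV, z1 (V.mul_mem hu hgV)]
      decide
    · have hug : u * g ∉ V := fun h => hgV ((V.mul_mem_cancel_left hu).1 h)
      have hb : g * s⁻¹ ∈ V := I2.div_mem h2 hg hs hgV hs'
      rw [z1 hu, z2 hg hgV, z2 (U.mul_mem (hVU hu) hg) hug]
      have h3 := hcoc u (hVU hu) (g * s⁻¹) (hVU hb) s hs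
      rw [h0 u hu _ hb, inv_mul_cancel_right] at h3
      rw [mul_assoc u g s⁻¹]
      revert h3
      generalize α (u * (g * s⁻¹)) s = a
      generalize α (g * s⁻¹) s = b
      generalize α u g = c
      revert a b c
      decide
  -- f depends on the coset of the first variable
  have f1 : ∀ u ∈ V, ∀ g ∈ U, ∀ h ∈ U, f (u * g) h = f g h := by
    intro u hu g hg h hh
    have h3 := fcoc u (hVU hu) g hg h hh
    rw [f0 u hu g hg, f0 u hu _ (U.mul_mem hg hh), zero_add, add_zero] at h3
    exact h3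
  have f2 : ∀ g ∈ U, ∀ h ∈ U, f g h = chi V U g * f s h := by
    intro g hg h hh
    by_cases hgV : g ∈ V
    · rw [chi_of_mem U hgV, f0 g hgV h hh, zero_mul]
    · rw [chi_of_not hg hgV, one_mul]
      have e : g = (g * s⁻¹) * s := by group
      rw [e]
      exact f1 _ (I2.div_mem h2 hg hs hgV hs') s hs h hh
  -- the homomorphism
  set ψ : G → ZMod 2 := fun h => if h ∈ U then f s h else 0 with hψ
  have p1 : ∀ {g}, g ∈ U → ψ g = f s g := fun hg => if_pos hg
  have p2 : ∀ {g}, g ∉ U → ψ g = 0 := fun hg => if_neg hg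
  refine ⟨ψ, ⟨⟨W, hW, fun g w hww => ?_⟩, fun g hg => p2 hg, fun g hg h hh => ?_⟩, z, ⟨W, hW,
    hzW⟩, fun g hg h hh => ?_⟩
  · by_cases hgU : g ∈ U
    · rw [p1 hgU, p1 ((I2.mem_mul_iff hWU g hww).2 hgU)]
      simp only [hf]
      have h10 := hw s g 1 W.one_mem w hww
      rw [mul_one] at h10
      rw [h10, hzW g w hww, ← mul_assoc, hzW (s * g) w hww]
    · rw [p2 hgU, p2 fun h => hgU ((I2.mem_mul_iff hWU g hww).1 h)]
  · rw [p1 hg, p1 hh, p1 (U.mul_mem hg hh)]
    have h3 := fcoc s hs g hg h hh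
    have h4 := f2 (s * g) (U.mul_mem hs hg) h hh
    have h5 := f2 g hg h hh
    have h6 : chi V U (s * g) = 1 + chi V U g := by
      have h7 := (chi_mem hVU hV h2).2.2 s hs g hg
      rw [h7, chi_of_not hs hs']
    rw [h4, h5, h6] at h3
    revert h3
    generalize f s g = a
    generalize f s h = b
    generalize f s (g * h) = c
    generalize chi V U g = d
    revert a b c d
    decide
  · change α g h + chi V U g * ψ h = _
    rw [p1 hh, ← f2 g hg h hh]
    simp only [hf]
    generalize α g h = a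
    generalize z g = b
    generalize z h = c
    generalize z (g * h) = d
    revert a b c d
    decide

theorem res_cob {V U : Subgroup G} (hVU : V ≤ U) (hV : Opn S V) (h2 : V.relIndex U = 2)
    {α : G → G → ZMod 2} (hα : Coc S U α) (hc : Cob S V α) :
    ∃ ψ ∈ homs S U, Cob S U (fun g h => α g h + cup (chi V U) ψ g h) := by
  classical
  obtain ⟨z, hz, hc⟩ := hc
  obtain ⟨hs2, hcoc⟩ := hα
  set z' : G → ZMod 2 := resV V z with hz'
  have hz's : Sm1 S z' := by
    obtain ⟨W, hW, hWV, hWn, h6⟩ := I2.sm1_in hz hV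
    refine ⟨W, hW, fun g w hw => ?_⟩
    by_cases hg : g ∈ V
    · rw [hz', resV_mem V z hg, resV_mem V z ((I2.mem_mul_iff hWV g hw).2 hg), h6 g w hw]
    · rw [hz', resV_not V z hg, resV_not V z fun h => hg ((I2.mem_mul_iff hWV g hw).1 h)]
  set β : G → G → ZMod 2 := fun g h => α g h + (z' g + z' h + z' (g * h)) with hβ
  have hβc : Coc S U β := by
    constructor
    · obtain ⟨W, hW, h3⟩ := hs2
      obtain ⟨W', hW', h4⟩ := hz's
      have hWn := S.normal (S.inf hW hW')
      refine ⟨W ⊓ W', S.inf hW hW', fun g h w hw w' hw' => ?_⟩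
      simp only [hβ]
      rw [h3 g h w hw.1 w' hw'.1, h4 g w hw.2, h4 h w' hw'.2]
      have e : g * w * (h * w') = (g * h) * ((h⁻¹ * w * h) * w') := by group
      have h5 := hWn.conj_mem w hw h⁻¹
      rw [inv_inv] at h5
      rw [e, h4 (g * h) _ (W'.mul_mem h5.2 hw'.2)]
    · intro g hg h hh k hk
      have h3 := hcoc g hg h hh k hk
      simp only [hβ]
      rw [mul_assoc g h k]
      have e1 : α g h + (z' g + z' h + z' (g * h)) + (α (g * h) k + (z' (g * h) + z' k +
          z' (g * (h * k)))) = (α g h + α (g * h) k) + (z' g + z' h + z' k + z' (g * (h * k))) +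
          (z' (g * h) + z' (g * h)) := by ring
      have e2 : α h k + (z' h + z' k + z' (h * k)) + (α g (h * k) + (z' g + z' (h * k) +
          z' (g * (h * k)))) = (α h k + α g (h * k)) + (z' g + z' h + z' k + z' (g * (h * k))) +
          (z' (h * k) + z' (h * k)) := by ring
      rw [e1, e2, h3, I2.add_self, I2.add_self]
  have hβ0 : ∀ g ∈ V, ∀ h ∈ V, β g h = 0 := by
    intro g hg h hh
    simp only [hβ]
    rw [hc g hg h hh, hz', resV_mem V z hg, resV_mem V z hh, resV_mem V z (V.mul_mem hg hh),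
      I2.add_self]
  obtain ⟨ψ, hψ, y, hy, h3⟩ := res_cob_zero hVU hV h2 hβc hβ0
  refine ⟨ψ, hψ, fun g => y g + z' g, ?_, fun g hg h hh => ?_⟩
  · obtain ⟨W, hW, h4⟩ := hy
    obtain ⟨W', hW', h5⟩ := hz's
    exact ⟨W ⊓ W', S.inf hW hW', fun g w hw => by
      simp only
      rw [h4 g w hw.1, h5 g w hw.2]⟩
  · have h4 := h3 g hg h hh
    simp only [hβ] at h4
    simp only
    revert h4
    generalize α g h = a
    generalize cup (chi V U) ψ g h = b
    generalize z' g = c
    generalize z' h = d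
    generalize z' (g * h) = e
    generalize y g = c'
    generalize y h = d'
    generalize y (g * h) = e'
    intro h4
    have h5 : a + b = (a + (c + d + e) + b) + (c + d + e) := by
      rw [show a + (c + d + e) + b + (c + d + e) = (a + b) + ((c + d + e) + (c + d + e)) by ring,
        I2.add_self, add_zero]
    rw [h5, h4]
    ring

end Pool.Agent.Work.MP_787500_nt.PA
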