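import Mathlib
import Pool.Agent.Work.MP_787500_nt.PA.Transfer
import Pool.Agent.Work.MP_787500_nt.PA.SymbKer

/-!
# Module NONDEG (size M): counting: the kernel of the cup product with a character has index two

`Counts S`, `U` open, `χ ∈ homs S U`, `χ ≠ 0`. Let `V = {g ∈ U | χ g = 0}` (a subgroup; write it as
`U ⊓ ...` or build it by hand); it is open, `V.relIndex U = 2`, `V.index = 2 * U.index`
(`Subgroup.relIndex_mul_index`), `χ = chi V U`; choose `s ∈ U`, `s ∉ V`. Let `k = U.index` (it is a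
positive number, since `U` is open: a member of the system inside `U` has finite index). By `Counts`,
`dim homs S U = k + 2`, `dim homs S V = 2 k + 2`, and `finrank_cor` gives
`dim (image of cor) = (2 k + 2) + 1 - (k + 2) = k + 1`. By `cup_chi_iff` the set
`{ω ∈ homs S U | Cob S U (cup χ ω)}` is this image, a subspace of codimension one in `homs S U` and of
positive dimension. So there is `ω` outside it, and the sum of two elements outside it lies in it
(over `ZMod 2` a subspace of codimension one has two cosets).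
* `exists_cor_ne_zero`: some `ψ ∈ homs S V` has `cor V U s ψ ≠ 0` (`k + 1 > 0`).
-/

set_option autoImplicit false

namespace Pool.Agent.Work.MP_787500_nt.PA

variable {G : Type*} [Group G] {S : TwoSys G}

private lemma nd_two (a : ZMod 2) : a + a = 0 := CharTwo.add_self_eq_zero a

private lemma nd_one : ∀ x : ZMod 2, x ≠ 0 → x = 1 := by decide

theorem exists_kernel (hS : Counts S) {U : Subgroup G} (hU : Opn S U) {χ : G → ZMod 2}
    (hχ : χ ∈ homs S U) (h0 : χ ≠ 0) :
    ∃ V : Subgroup G, V ≤ U ∧ Opn S V ∧ V.relIndex U = 2 ∧ χ = chi V U := by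
  classical
  obtain ⟨⟨W, hW, h1⟩, hoff, hadd⟩ := hχ
  have e1 : χ 1 = 0 := by
    have := hadd 1 U.one_mem 1 U.one_mem
    rw [one_mul] at this
    rw [this, nd_two]
  let V : Subgroup G :=
    { carrier := {g | g ∈ U ∧ χ g = 0}
      mul_mem' := by
        rintro a b ⟨ha, ha'⟩ ⟨hb, hb'⟩
        exact ⟨U.mul_mem ha hb, by rw [hadd a ha b hb, ha', hb', add_zero]⟩
      one_mem' := ⟨U.one_mem, e1⟩
      inv_mem' := by
        rintro a ⟨ha, ha'⟩
        refine ⟨U.inv_mem ha, ?_⟩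
        have := hadd a ha a⁻¹ (U.inv_mem ha)
        rw [mul_inv_cancel, e1, ha', zero_add] at this
        exact this.symm }
  have hmem : ∀ g, g ∈ V ↔ g ∈ U ∧ χ g = 0 := fun _ => Iff.rfl
  have hVU : V ≤ U := fun g hg => hg.1
  obtain ⟨a, ha⟩ : ∃ a, χ a ≠ 0 := by
    by_contra hcon
    push Not at hcon
    exact h0 (funext hcon)
  have haU : a ∈ U := by
    by_contra h
    exact ha (hoff a h)
  refine ⟨V, hVU, ?_, ?_, ?_⟩
  · obtain ⟨W', hW', hle⟩ := hU
    refine ⟨W ⊓ W', S.inf hW hW', fun w hw => ⟨hle hw.2, ?_⟩⟩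
    have := h1 1 w hw.1
    rwa [one_mul, e1] at this
  · rw [Subgroup.relIndex, Subgroup.index_eq_two_iff]
    refine ⟨⟨a, haU⟩, fun b => ?_⟩
    have hb := hadd b b.2 a haU
    rw [nd_one _ ha] at hb
    have k1 : (b * ⟨a, haU⟩ : U) ∈ V.subgroupOf U ↔ χ (b * a) = 0 := by
      rw [Subgroup.mem_subgroupOf, hmem]
      simp only [Subgroup.coe_mul, and_iff_right_iff_imp]
      intro _
      exact U.mul_mem b.2 haU
    have k2 : b ∈ V.subgroupOf U ↔ χ b = 0 := by
      rw [Subgroup.mem_subgroupOf, hmem]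
      simp only [SetLike.coe_mem, true_and]
    rw [k1, k2, hb]
    by_cases hc : χ b = 0
    · rw [hc]
      right
      exact ⟨rfl, by decide⟩
    · rw [nd_one _ hc]
      left
      exact ⟨by decide, by decide⟩
  · funext g
    unfold chi
    by_cases hg : g ∈ U
    · by_cases hc : χ g = 0
      · rw [hc, if_neg]
        rintro ⟨-, h⟩
        exact h ⟨hg, hc⟩
      · rw [nd_one _ hc, if_pos]
        exact ⟨hg, fun h => hc h.2⟩
    · rw [hoff g hg, if_neg]
      rintro ⟨h, -⟩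
      exact hg h

private theorem nd_rank (hS : Counts S) {V U : Subgroup G} (hVU : V ≤ U) (hV : Opn S V)
    (h2 : V.relIndex U = 2) {s : G} (hs : s ∈ U) (hs' : s ∉ V) :
    Module.finrank (ZMod 2) ((homs S V).map (cor V U s)) = U.index + 1 ∧
      (homs S V).map (cor V U s) ≤ homs S U ∧ Module.finrank (ZMod 2) (homs S U) = U.index + 2 ∧
      FiniteDimensional (ZMod 2) (homs S U) := by
  have hU : Opn S U := by
    obtain ⟨W, hW, hle⟩ := hV
    exact ⟨W, hW, hle.trans hVU⟩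
  obtain ⟨fV, rV⟩ := hS V hV
  obtain ⟨fU, rU⟩ := hS U hU
  have h3 := finrank_cor hVU hV h2 hs hs' fV fU
  have h4 := Subgroup.relIndex_mul_index hVU
  rw [h2] at h4
  refine ⟨by omega, ?_, rU, fU⟩
  rintro _ ⟨ψ, hψ, rfl⟩
  exact cor_mem hVU hV h2 hs hs' hψ

private theorem nd_out {V U : Subgroup G} (hVU : V ≤ U) (h2 : V.relIndex U = 2) :
    ∃ s ∈ U, s ∉ V := by
  by_contra hcon
  push Not at hcon
  have : V.relIndex U = 1 := Subgroup.relIndex_eq_one.2 hcon
  omega

theorem exists_not_cob (hS : Counts S) {U : Subgroup G} (hU : Opn S U) {χ : G → ZMod 2}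
    (hχ : χ ∈ homs S U) (h0 : χ ≠ 0) : ∃ ω ∈ homs S U, ¬ Cob S U (cup χ ω) := by
  obtain ⟨V, hVU, hV, h2, rfl⟩ := exists_kernel hS hU hχ h0
  obtain ⟨s, hs, hs'⟩ := nd_out hVU h2
  obtain ⟨r1, hle, r2, hf⟩ := nd_rank hS hVU hV h2 hs hs'
  by_contra hcon
  push Not at hcon
  have : homs S U ≤ (homs S V).map (cor V U s) := by
    intro ω hω
    obtain ⟨ψ, hψ, h⟩ := (cup_chi_iff hVU hV h2 hs hs' hω).1 (hcon ω hω)
    exact ⟨ψ, hψ, h⟩
  have he := le_antisymm hle this
  rw [he] at r1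
  omega

theorem cob_add (hS : Counts S) {U : Subgroup G} (hU : Opn S U) {χ : G → ZMod 2}
    (hχ : χ ∈ homs S U) {ω ω' : G → ZMod 2} (hω : ω ∈ homs S U) (hω' : ω' ∈ homs S U)
    (h : ¬ Cob S U (cup χ ω)) (h' : ¬ Cob S U (cup χ ω')) : Cob S U (cup χ (ω + ω')) := by
  by_cases h0 : χ = 0
  · exfalso
    apply h
    obtain ⟨W, hW⟩ := S.ex
    refine ⟨fun _ => 0, ⟨W, hW, fun _ _ _ => rfl⟩, fun g _ k _ => ?_⟩
    simp [cup, h0]
  obtain ⟨V, hVU, hV, h2, rfl⟩ := exists_kernel hS hU hχ h0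
  obtain ⟨s, hs, hs'⟩ := nd_out hVU h2
  obtain ⟨r1, hle, r2, hf⟩ := nd_rank hS hVU hV h2 hs hs'
  set M := (homs S V).map (cor V U s) with hM
  have hiff : ∀ η ∈ homs S U, (Cob S U (cup (chi V U) η) ↔ η ∈ M) := by
    intro η hη
    rw [cup_chi_iff hVU hV h2 hs hs' hη]
    constructor
    · rintro ⟨ψ, hψ, e⟩; exact ⟨ψ, hψ, e⟩
    · rintro ⟨ψ, hψ, e⟩; exact ⟨ψ, hψ, e⟩
  rw [hiff ω hω] at h
  rw [hiff ω' hω'] at h'
  rw [hiff _ (add_mem hω hω')]
  set N := M ⊔ Submodule.span (ZMod 2) {ω} with hN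
  have hNle : N ≤ homs S U := sup_le hle ((Submodule.span_singleton_le_iff_mem _ _).2 hω)
  have hNf : FiniteDimensional (ZMod 2) N := Submodule.finiteDimensional_of_le hNle
  have hωN : ω ∈ N := (le_sup_right : _ ≤ N) (Submodule.mem_span_singleton_self ω)
  have hlt : M < N := lt_of_le_of_ne le_sup_left (fun e => h (by rw [e]; exact hωN))
  have hfr := Submodule.finrank_lt_finrank_of_lt hlt
  have hfr2 := Submodule.finrank_mono hNle
  have hNe : N = homs S U := Submodule.eq_of_le_of_finrank_eq hNle (by omega)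
  have : ω' ∈ N := by rw [hNe]; exact hω'
  rw [hN, Submodule.mem_sup] at this
  obtain ⟨m, hm, y, hy, e⟩ := this
  obtain ⟨c, rfl⟩ := Submodule.mem_span_singleton.1 hy
  by_cases hc : c = 0
  · rw [hc, zero_smul, add_zero] at e
    rw [← e] at h'
    exact absurd hm h'
  · rw [nd_one c hc, one_smul] at e
    have : ω + ω' = m := by
      rw [← e]
      funext g
      simp only [Pi.add_apply]
      have := nd_two (ω g)
      linear_combination this
    rw [this]
    exact hm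

theorem exists_cor_ne_zero (hS : Counts S) {V U : Subgroup G} (hVU : V ≤ U) (hV : Opn S V)
    (h2 : V.relIndex U = 2) {s : G} (hs : s ∈ U) (hs' : s ∉ V) :
    ∃ ψ ∈ homs S V, cor V U s ψ ≠ 0 := by
  obtain ⟨r1, hle, r2, hf⟩ := nd_rank hS hVU hV h2 hs hs'
  by_contra hcon
  push Not at hcon
  have : (homs S V).map (cor V U s) = ⊥ := by
    rw [eq_bot_iff]
    rintro _ ⟨ψ, hψ, rfl⟩
    exact hcon ψ hψ
  rw [this, finrank_bot] at r1
  omega

end Pool.Agent.Work.MP_787500_nt.PA
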