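import Mathlib
import Pool.Agent.Work.MP_787500_nt.PA.Nondeg

/-!
# Module SYMB (size S): all nonzero symbols are equal

`Counts S`, `U` open. Facts: (a) `Cob S U` is closed under addition, and if `f + g` and `g` are
coboundaries then so is `f`; (b) `cup χ ω + cup ω χ` is a coboundary (of `z g = χ g * ω g`), for
homomorphisms on `U` (on `U` only; `z` is smooth); (c) `cup χ (ω + ω') = cup χ ω + cup χ ω'`.
`cup_comm`: `Cob (cup χ ω) ↔ Cob (cup ω χ)`, by (b).

`symb_eq`: Let `cup χ ω`, `cup χ' ω'` not be coboundaries. The set `A = {η ∈ homs | Cob (cup χ η)}` is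
a proper subspace and `A' = {η | Cob (cup χ' η)}` too; a vector space is not the union of two proper
subspaces: directly: if `ω ∉ A'` take `η = ω`; if `ω' ∉ A` take `η = ω'`; else `η = ω + ω'`. So there is
`η` with `cup χ η`, `cup χ' η` both not coboundaries. Then `cup χ ω + cup χ η = cup χ (ω + η)` is a
coboundary by `cob_add`, similarly `cup χ' ω' + cup χ' η`; and `cup χ η + cup χ' η` is, modulo
coboundaries, `cup η χ + cup η χ' = cup η (χ + χ')`, a coboundary by `cob_add` for `η`
(`cup η χ`, `cup η χ'` are not coboundaries by `cup_comm`). Add.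
-/

set_option autoImplicit false

namespace Pool.Agent.Work.MP_787500_nt.PA

variable {G : Type*} [Group G] {S : TwoSys G}

private lemma symb_two (a : ZMod 2) : a + a = 0 := CharTwo.add_self_eq_zero a

theorem Cob.add' {U : Subgroup G} {f f' : G → G → ZMod 2} (h : Cob S U f) (h' : Cob S U f') :
    Cob S U (fun g k => f g k + f' g k) := by
  obtain ⟨z, ⟨W, hW, h1⟩, h2⟩ := h
  obtain ⟨z', ⟨W', hW', h1'⟩, h2'⟩ := h'
  refine ⟨fun g => z g + z' g, ⟨W ⊓ W', S.inf hW hW', fun g w hw => ?_⟩, fun g hg k hk => ?_⟩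
  · simp only
    rw [h1 g w hw.1, h1' g w hw.2]
  · simp only
    rw [h2 g hg k hk, h2' g hg k hk]
    ring

theorem cup_comm {U : Subgroup G} (hU : Opn S U) {χ ω : G → ZMod 2} (hχ : χ ∈ homs S U)
    (hω : ω ∈ homs S U) : Cob S U (fun g h => cup χ ω g h + cup ω χ g h) := by
  obtain ⟨⟨W, hW, h1⟩, -, h3⟩ := hχ
  obtain ⟨⟨W', hW', h1'⟩, -, h3'⟩ := hω
  refine ⟨fun g => χ g * ω g, ⟨W ⊓ W', S.inf hW hW', fun g w hw => ?_⟩, fun g hg h hh => ?_⟩
  · simp only
    rw [h1 g w hw.1, h1' g w hw.2]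
  · simp only [cup]
    rw [h3 g hg h hh, h3' g hg h hh]
    have e1 := symb_two (χ g * ω g)
    have e2 := symb_two (χ h * ω h)
    linear_combination -e1 - e2

/-- congruence and cancellation for coboundaries -/
private lemma cob_congr {U : Subgroup G} {f f' : G → G → ZMod 2} (h : Cob S U f)
    (he : ∀ g ∈ U, ∀ k ∈ U, f' g k = f g k) : Cob S U f' := by
  obtain ⟨z, hz, h2⟩ := h
  exact ⟨z, hz, fun g hg k hk => by rw [he g hg k hk, h2 g hg k hk]⟩

private lemma cob_swap {U : Subgroup G} (hU : Opn S U) {χ ω : G → ZMod 2} (hχ : χ ∈ homs S U)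
    (hω : ω ∈ homs S U) (h : Cob S U (cup χ ω)) : Cob S U (cup ω χ) := by
  refine cob_congr (Cob.add' h (cup_comm hU hχ hω)) fun g _ k _ => ?_
  have := symb_two (cup χ ω g k)
  linear_combination -this

theorem symb_eq (hS : Counts S) {U : Subgroup G} (hU : Opn S U) {χ ω χ' ω' : G → ZMod 2}
    (hχ : χ ∈ homs S U) (hω : ω ∈ homs S U) (hχ' : χ' ∈ homs S U) (hω' : ω' ∈ homs S U)
    (h : ¬ Cob S U (cup χ ω)) (h' : ¬ Cob S U (cup χ' ω')) :
    Cob S U (fun g k => cup χ ω g k + cup χ' ω' g k) := by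
  -- an element `η` with both symbols nonzero
  obtain ⟨η, hη, h1, h2⟩ : ∃ η ∈ homs S U, ¬ Cob S U (cup χ η) ∧ ¬ Cob S U (cup χ' η) := by
    by_cases ha : Cob S U (cup χ' ω)
    · by_cases hb : Cob S U (cup χ ω')
      · refine ⟨ω + ω', add_mem hω hω', fun hc => h ?_, fun hc => h' ?_⟩
        · refine cob_congr (Cob.add' hc hb) fun g _ k _ => ?_
          simp only [cup, Pi.add_apply]
          have := symb_two (χ g * ω' k)
          linear_combination -this
        · refine cob_congr (Cob.add' hc ha) fun g _ k _ => ?_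
          simp only [cup, Pi.add_apply]
          have := symb_two (χ' g * ω k)
          linear_combination -this
      · exact ⟨ω', hω', hb, h'⟩
    · exact ⟨ω, hω, h, ha⟩
  have k1 : Cob S U (cup χ (ω + η)) := cob_add hS hU hχ hω hη h h1
  have k2 : Cob S U (cup χ' (ω' + η)) := cob_add hS hU hχ' hω' hη h' h2
  have k3 : Cob S U (cup η (χ + χ')) :=
    cob_add hS hU hη hχ hχ' (fun hc => h1 (cob_swap hU hη hχ hc)) (fun hc => h2 (cob_swap hU hη hχ' hc))
  have k4 : Cob S U (cup (χ + χ') η) := cob_swap hU hη (add_mem hχ hχ') k3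
  refine cob_congr (Cob.add' (Cob.add' k1 k2) k4) fun g _ k _ => ?_
  simp only [cup, Pi.add_apply]
  have e1 := symb_two (χ g * η k)
  have e2 := symb_two (χ' g * η k)
  linear_combination -e1 - e2

end Pool.Agent.Work.MP_787500_nt.PA
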