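import Mathlib
import Pool.Agent.Work.MP_787500_nt.PA.GoodSys

/-!
Fourth roots of unity: definitions (fixed, do not change).
-/

set_option autoImplicit false

namespace Pool.Agent.Work.MP_787500_nt.PA

open IsDedekindDomain NumberField

universe u

variable (K : Type u) [Field K]

/-- a square root of `-1` -/
noncomputable def imI : AlgebraicClosure K :=
  Classical.choose (IsAlgClosed.exists_pow_nat_eq (-1 : AlgebraicClosure K) (n := 2) (by norm_num))

theorem imI_sq : imI K ^ 2 = -1 :=
  Classical.choose_spec (IsAlgClosed.exists_pow_nat_eq (-1 : AlgebraicClosure K) (n := 2)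
    (by norm_num))

/-- the power of the square root of `-1` with exponent `j` modulo 4 -/
noncomputable def ip (j : ZMod 4) : AlgebraicClosure K := imI K ^ j.val

/-- reduction modulo 4 -/
noncomputable def red4 : ℤ_[2] →+* ZMod 4 := PadicInt.toZModPow 2

/-- reduction from `ZMod 4` to `ZMod 2` -/
def r2 : ZMod 4 →+* ZMod 2 := ZMod.castHom (by norm_num) (ZMod 2)

/-- the lift with values 0, 1, 2, 3 -/
noncomputable def lift4 (a : ZMod 4) : ℤ_[2] := (a.val : ℤ_[2])

variable {K}

/-- the cyclotomic character modulo 4 -/
noncomputable def c4 (g : AbsGal K) : ZMod 4 := red4 (cyc g)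

end Pool.Agent.Work.MP_787500_nt.PA
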