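import Mathlib
import Pool.Agent.Work.MP_787500_nt.PA.FDefs
import Pool.Agent.Work.MP_787500_nt.H10_Defs

/-!
# Module CONJA (size S-M): a complex conjugation

`c` an involution of `Ω = AlgebraicClosure K` with `c s = -s`, `s ≠ 0` (as `s ^ 2 = -q`). Let
`R = {x | c x = x}` (a subfield). Elementary arguments, `i = imI K`:
(1) `c i = -i`: `c i = ± i`. Suppose `c i = i`. Let `t ^ 2 = s`. Then `(c t) ^ 2 = -s = (i t) ^ 2`, so
    `c t = ± i t` and `t = c (c t) = (± i) (± i) t = - t`, so `t = 0`: contradiction.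
(2) For `x ∈ R`: `x = t ^ 2`, `c t = ± t`; if `c t = t` then `x` is the square of an element of `R`, if
    `c t = -t` then `-x = (i t) ^ 2` with `c (i t) = i t`. So `x` or `-x` is a square of an element of `R`.
(3) `-1` is not the square of an element of `R` (`± i ∉ R`).
(4) A sum of two squares of `R` is a square of `R`: `x² + y² = (x + i y) (x - i y) = z * c z`; let
    `w ^ 2 = z`; then `z * c z = (w * c w) ^ 2` and `w * c w ∈ R`.
(5) `r ^ 2 = 2`: `2 = 1² + 1²` is a square `u ^ 2` in `R`, `r = ± u ∈ R`.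
(6) `e ^ 2 = 2 + r`: suppose `2 + r` is not a square in `R`. Then `-(2 + r)` is. If `2 - r` is a square
    in `R` then so is `-(2 + r) (2 - r) = -2`, and `-2 / 2 = -1`: contradiction to (3). So `-(2 - r)` is a
    square in `R` by (2), and `-(2 + r) - (2 - r) = -4` is a sum of two squares, so a square in `R`, and
    `-1` too: contradiction. So `2 + r = u ^ 2` with `u ∈ R` and `e = ± u`.
(7) `norm`: let `a ∈ K`, `a ≠ 0`. `K = ℚ + ℚ s` (degree 2, `s ∉ ℚ`), `a = x + y s`, so
    `a * c a = x² + q y²` is a positive rational number.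
-/

set_option autoImplicit false
set_option linter.unusedSectionVars false

namespace Pool.Agent.Work.MP_787500_nt.PA

open IsDedekindDomain NumberField

universe u

variable {K : Type u} [Field K] [NumberField K]

private theorem conjA_s_ne {q : ℕ} {s : K} (hK : IsBase K q s) : s ≠ 0 := by
  intro h
  have h2 := hK.2.1
  rw [h] at h2
  have hq : (q : K) ≠ 0 := Nat.cast_ne_zero.2 hK.2.2.1.ne_zero
  apply hq
  have : (0 : K) ^ 2 = 0 := by ring
  rw [this] at h2
  exact neg_eq_zero.1 h2.symm

private theorem conjA_charZero : CharZero (AlgebraicClosure K) :=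
  charZero_of_injective_algebraMap (algebraMap K (AlgebraicClosure K)).injective

private theorem conjA_sq_cases {x y : AlgebraicClosure K} (h : x ^ 2 = y ^ 2) : x = y ∨ x = -y :=
  sq_eq_sq_iff_eq_or_eq_neg.1 h

theorem conj_imI {q : ℕ} {s : K} (hK : IsBase K q s)
    {c : AlgebraicClosure K ≃+* AlgebraicClosure K} (hc : IsConj s c) : c (imI K) = -imI K := by
  have hz := conjA_charZero (K := K)
  have h1 : (c (imI K)) ^ 2 = (imI K) ^ 2 := by
    rw [← map_pow, imI_sq, map_neg, map_one]
  rcases conjA_sq_cases h1 with h | h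
  · exfalso
    obtain ⟨t, ht⟩ := IsAlgClosed.exists_pow_nat_eq (algebraMap K (AlgebraicClosure K) s)
      (n := 2) (by norm_num)
    have h2 : (c t) ^ 2 = (imI K * t) ^ 2 := by
      rw [← map_pow, ht, hc.neg, mul_pow, imI_sq, ht]
      ring
    have h3 : c (imI K * t) = imI K * c t := by rw [map_mul, h]
    have h4 : t = -t := by
      rcases conjA_sq_cases h2 with h5 | h5
      · have h6 := hc.sq t
        rw [h5, h3, h5, ← mul_assoc, ← sq, imI_sq] at h6
        linear_combination -h6
      · have h6 := hc.sq t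
        rw [h5, map_neg, h3, h5] at h6
        have h7 : -(imI K * -(imI K * t)) = (imI K) ^ 2 * t := by ring
        rw [h7, imI_sq] at h6
        linear_combination -h6
    have h5 : t = 0 := by
      have : (2 : AlgebraicClosure K) * t = 0 := by linear_combination h4
      rcases mul_eq_zero.1 this with h6 | h6
      · norm_num at h6
      · exact h6
    rw [h5] at ht
    have h6 : algebraMap K (AlgebraicClosure K) s = 0 := by rw [← ht]; ring
    exact conjA_s_ne hK ((map_eq_zero _).1 h6)
  · exact h

/-- a square of a real element -/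
private def conjA_RS (c : AlgebraicClosure K ≃+* AlgebraicClosure K) (x : AlgebraicClosure K) : Prop :=
  ∃ u, c u = u ∧ u ^ 2 = x

private theorem conjA_dich {q : ℕ} {s : K} (hK : IsBase K q s)
    {c : AlgebraicClosure K ≃+* AlgebraicClosure K} (hc : IsConj s c) {x : AlgebraicClosure K}
    (hx : c x = x) : conjA_RS c x ∨ conjA_RS c (-x) := by
  obtain ⟨t, ht⟩ := IsAlgClosed.exists_pow_nat_eq x (n := 2) (by norm_num)
  have h1 : (c t) ^ 2 = t ^ 2 := by rw [← map_pow, ht, hx]
  rcases conjA_sq_cases h1 with h | h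
  · exact Or.inl ⟨t, h, ht⟩
  · refine Or.inr ⟨imI K * t, ?_, ?_⟩
    · rw [map_mul, conj_imI hK hc, h]
      ring
    · rw [mul_pow, imI_sq, ht]
      ring

private theorem conjA_neg_one {q : ℕ} {s : K} (hK : IsBase K q s)
    {c : AlgebraicClosure K ≃+* AlgebraicClosure K} (hc : IsConj s c) : ¬ conjA_RS c (-1) := by
  have hz := conjA_charZero (K := K)
  rintro ⟨u, hu, h⟩
  have h1 : u ^ 2 = (imI K) ^ 2 := by rw [h, imI_sq]
  have hi := conj_imI hK hc
  have hne : imI K ≠ 0 := by
    intro h0
    have := imI_sq K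
    rw [h0] at this
    norm_num at this
  have h2 : imI K = -imI K := by
    rcases conjA_sq_cases h1 with h3 | h3
    · rw [h3, hi] at hu
      exact hu.symm
    · rw [h3, map_neg, hi, neg_neg] at hu
      exact hu
  have : (2 : AlgebraicClosure K) * imI K = 0 := by linear_combination h2
  rcases mul_eq_zero.1 this with h6 | h6
  · norm_num at h6
  · exact hne h6

private theorem conjA_add {q : ℕ} {s : K} (hK : IsBase K q s)
    {c : AlgebraicClosure K ≃+* AlgebraicClosure K} (hc : IsConj s c) {x y : AlgebraicClosure K}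
    (hx : conjA_RS c x) (hy : conjA_RS c y) : conjA_RS c (x + y) := by
  obtain ⟨u, hu, rfl⟩ := hx
  obtain ⟨v, hv, rfl⟩ := hy
  obtain ⟨w, hw⟩ := IsAlgClosed.exists_pow_nat_eq (u + imI K * v) (n := 2) (by norm_num)
  refine ⟨w * c w, ?_, ?_⟩
  · rw [map_mul, hc.sq]
    ring
  · rw [mul_pow, ← map_pow, hw, map_add, map_mul, conj_imI hK hc, hu, hv]
    linear_combination -v ^ 2 * imI_sq K

private theorem conjA_mul {c : AlgebraicClosure K ≃+* AlgebraicClosure K} {x y : AlgebraicClosure K}
    (hx : conjA_RS c x) (hy : conjA_RS c y) : conjA_RS c (x * y) := by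
  obtain ⟨u, hu, rfl⟩ := hx
  obtain ⟨v, hv, rfl⟩ := hy
  exact ⟨u * v, by rw [map_mul, hu, hv], by ring⟩

private theorem conjA_one {c : AlgebraicClosure K ≃+* AlgebraicClosure K} : conjA_RS c 1 :=
  ⟨1, map_one c, by ring⟩

private theorem conjA_inv {c : AlgebraicClosure K ≃+* AlgebraicClosure K} {x : AlgebraicClosure K}
    (hx : conjA_RS c x) : conjA_RS c x⁻¹ := by
  obtain ⟨u, hu, rfl⟩ := hx
  exact ⟨u⁻¹, by rw [map_inv₀, hu], by rw [inv_pow]⟩

private theorem conjA_fix {c : AlgebraicClosure K ≃+* AlgebraicClosure K} {x r : AlgebraicClosure K}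
    (hx : conjA_RS c x) (hr : r ^ 2 = x) : c r = r := by
  obtain ⟨u, hu, h⟩ := hx
  rcases conjA_sq_cases (hr.trans h.symm) with h1 | h1
  · rw [h1, hu]
  · rw [h1, map_neg, hu]

theorem conj_sqrt_two {q : ℕ} {s : K} (hK : IsBase K q s)
    {c : AlgebraicClosure K ≃+* AlgebraicClosure K} (hc : IsConj s c) {r : AlgebraicClosure K}
    (hr : r ^ 2 = 2) : c r = r := by
  have h : conjA_RS c (1 + 1) := conjA_add hK hc conjA_one conjA_one
  exact conjA_fix h (by rw [hr]; norm_num)

theorem conj_eta {q : ℕ} {s : K} (hK : IsBase K q s)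
    {c : AlgebraicClosure K ≃+* AlgebraicClosure K} (hc : IsConj s c) {r e : AlgebraicClosure K}
    (hr : r ^ 2 = 2) (he : e ^ 2 = 2 + r) : c e = e := by
  have hz := conjA_charZero (K := K)
  have hcr := conj_sqrt_two hK hc hr
  have h2 : c 2 = 2 := map_ofNat c 2
  have hRS2 : conjA_RS c 2 := ⟨r, hcr, hr⟩
  have hp : c (2 + r) = 2 + r := by rw [map_add, h2, hcr]
  have hm : c (2 - r) = 2 - r := by rw [map_sub, h2, hcr]
  apply conjA_fix (x := 2 + r) _ he
  rcases conjA_dich hK hc hp with h | h
  · exact h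
  exfalso
  rcases conjA_dich hK hc hm with h' | h'
  · have h3 := conjA_mul (conjA_mul h h') (conjA_inv hRS2)
    have h4 : -(2 + r) * (2 - r) * (2 : AlgebraicClosure K)⁻¹ = -1 := by
      have : -(2 + r) * (2 - r) = -2 := by linear_combination hr
      rw [this]
      norm_num
    rw [h4] at h3
    exact conjA_neg_one hK hc h3
  · have h3 := conjA_mul (conjA_mul (conjA_add hK hc h h') (conjA_inv hRS2)) (conjA_inv hRS2)
    have h4 : (-(2 + r) + -(2 - r)) * (2 : AlgebraicClosure K)⁻¹ * (2 : AlgebraicClosure K)⁻¹ = -1 := by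
      have : -(2 + r) + -(2 - r) = -4 := by ring
      rw [this]
      norm_num
    rw [h4] at h3
    exact conjA_neg_one hK hc h3

theorem conj_norm {q : ℕ} {s : K} (hK : IsBase K q s)
    {c : AlgebraicClosure K ≃+* AlgebraicClosure K} (hc : IsConj s c) {a : K} (ha : a ≠ 0) :
    ∃ N : ℚ, 0 < N ∧ algebraMap K (AlgebraicClosure K) a * c (algebraMap K (AlgebraicClosure K) a) =
      (N : AlgebraicClosure K) := by
  have hq0 : (0 : ℚ) < q := by exact_mod_cast hK.2.2.1.pos
  -- `1, s` span `K`
  have hli : LinearIndependent ℚ ![(1 : K), s] := by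
    rw [LinearIndependent.pair_iff]
    intro x y hxy
    have hy : y = 0 := by
      by_contra hy
      have h1 : s = ((-x / y : ℚ) : K) := by
        have h2 : (y : K) ≠ 0 := by exact_mod_cast hy
        push_cast
        rw [eq_div_iff h2]
        rw [Algebra.smul_def, Algebra.smul_def] at hxy
        simp only [eq_ratCast, mul_one] at hxy
        linear_combination hxy
      have h2 := hK.2.1
      rw [h1] at h2
      have h3 : (-x / y : ℚ) ^ 2 = -(q : ℚ) := by exact_mod_cast h2
      nlinarith [sq_nonneg (-x / y : ℚ)]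
    subst hy
    refine ⟨?_, rfl⟩
    rw [zero_smul, add_zero, Algebra.smul_def, mul_one] at hxy
    exact (map_eq_zero _).1 hxy
  have hspan : Submodule.span ℚ (Set.range ![(1 : K), s]) = ⊤ := by
    apply hli.span_eq_top_of_card_eq_finrank'
    rw [hK.1]
    simp
  have hmem : a ∈ Submodule.span ℚ (Set.range ![(1 : K), s]) := by
    rw [hspan]
    trivial
  have hr : Set.range ![(1 : K), s] = {1, s} := by
    simp [Matrix.range_cons, Set.pair_comm]
  rw [hr, Submodule.mem_span_pair] at hmem
  obtain ⟨x, y, hxy⟩ := hmem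
  have hxy' : a = (x : K) + (y : K) * s := by
    rw [← hxy, Algebra.smul_def, Algebra.smul_def]
    simp
  refine ⟨x ^ 2 + q * y ^ 2, ?_, ?_⟩
  · have hne : x ≠ 0 ∨ y ≠ 0 := by
      by_contra hcon
      push Not at hcon
      apply ha
      rw [hxy', hcon.1, hcon.2]
      simp
    rcases hne with h | h
    · have := sq_pos_of_ne_zero h
      positivity
    · have := sq_pos_of_ne_zero h
      positivity
  · have hs2 : (algebraMap K (AlgebraicClosure K) s) ^ 2 = -(q : AlgebraicClosure K) := by
      rw [← map_pow, hK.2.1, map_neg, map_natCast]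
    have ha' : algebraMap K (AlgebraicClosure K) a = (x : AlgebraicClosure K) +
        (y : AlgebraicClosure K) * algebraMap K (AlgebraicClosure K) s := by
      rw [hxy', map_add, map_mul, map_ratCast, map_ratCast]
    rw [ha', map_add, map_mul, map_ratCast, map_ratCast, hc.neg]
    push_cast
    linear_combination (-(y : AlgebraicClosure K) ^ 2) * hs2

end Pool.Agent.Work.MP_787500_nt.PA
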