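import Mathlib
import Pool.Agent.Work.MP_787500_nt.PA.GoodSys

/-!
# Module KAPK (size S-M): the involution of the Galois group

`κ σ = c σ c`, `c` an involutive ring automorphism of `Ω = AlgebraicClosure K`.
* multiplicative, involutive: clear from `hκ`.
* continuous: the Krull topology: for `σ₀` and `x ∈ Ω`, `{σ | κ σ x = κ σ₀ x} = {σ | σ (c x) = σ₀ (c x)}` is
  open (`krullTopology`; or: the preimage under `κ` of the stabilizer of `x` is the stabilizer of `c x`,
  open by `stabilizer_isOpen_of_isIntegral`, and the stabilizers generate the topology at 1).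
* `Good`: for `W` good, `W' = {g | κ g ∈ W}` is good: normal, open, `κ (g ^ (2 ^ k)) = (κ g) ^ (2 ^ k)`;
  inertia: `c` induces a ring automorphism `c'` of `𝓞 Ω`; if `g ∈ Q.inertia` then
  `κ g ∈ (c' Q).inertia` (`κ g (c x) - c x = c (g x - x)`), where `c' Q = Q.map c'` or
  `Q.comap c'.symm`, a prime ideal not containing 2.
* `cyc (κ g) = cyc g`: for a `2 ^ n`-th root of unity `ζ`, `c ζ` is one as well and
  `κ g ζ = c (g (c ζ)) = c ((c ζ) ^ a) = ζ ^ a` where `a` is the exponent of `g` modulo `2 ^ n`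
  (`cyclotomicCharacter.spec`, uniqueness; `PadicInt.ext_of_toZModPow`).
-/

set_option autoImplicit false

namespace Pool.Agent.Work.MP_787500_nt.PA

open IsDedekindDomain NumberField

universe u

variable {K : Type u} [Field K] [NumberField K]

private theorem kapK_mul {c : AlgebraicClosure K ≃+* AlgebraicClosure K} (h2 : ∀ x, c (c x) = x)
    {κ : AbsGal K → AbsGal K}
    (hκ : ∀ (σ : AbsGal K) (x : AlgebraicClosure K), κ σ x = c (σ (c x))) (g h : AbsGal K) :
    κ (g * h) = κ g * κ h := by
  ext x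
  show κ (g * h) x = κ g (κ h x)
  rw [hκ, hκ, hκ, h2]
  rfl

private theorem kapK_inv {c : AlgebraicClosure K ≃+* AlgebraicClosure K} (h2 : ∀ x, c (c x) = x)
    {κ : AbsGal K → AbsGal K}
    (hκ : ∀ (σ : AbsGal K) (x : AlgebraicClosure K), κ σ x = c (σ (c x))) (g : AbsGal K) :
    κ (κ g) = g := by
  ext x
  rw [hκ, hκ, h2, h2]

/-- the involution as a homomorphism -/
private noncomputable def kapKHom {c : AlgebraicClosure K ≃+* AlgebraicClosure K} (h2 : ∀ x, c (c x) = x)
    {κ : AbsGal K → AbsGal K}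
    (hκ : ∀ (σ : AbsGal K) (x : AlgebraicClosure K), κ σ x = c (σ (c x))) :
    AbsGal K →* AbsGal K := MonoidHom.mk' κ (kapK_mul h2 hκ)

theorem kappa_continuous {c : AlgebraicClosure K ≃+* AlgebraicClosure K} (h2 : ∀ x, c (c x) = x)
    {κ : AbsGal K → AbsGal K}
    (hκ : ∀ (σ : AbsGal K) (x : AlgebraicClosure K), κ σ x = c (σ (c x))) : Continuous κ := by
  show Continuous (kapKHom h2 hκ)
  apply continuous_of_continuousAt_one
  rw [ContinuousAt, map_one]
  intro s hs
  obtain ⟨F, hF, hFs⟩ := (krullTopology_mem_nhds_one_iff K (AlgebraicClosure K) s).1 hs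
  obtain ⟨α, hα⟩ := Field.exists_primitive_element K F
  have hop : (MulAction.stabilizer (AbsGal K) (c (α : AlgebraicClosure K)) : Set (AbsGal K)) ∈
      nhds (1 : AbsGal K) :=
    (stabilizer_isOpen_of_isIntegral (K := K) (c (α : AlgebraicClosure K))).mem_nhds
      (Subgroup.one_mem _)
  refine Filter.mem_map.2 (Filter.mem_of_superset hop fun σ hσ => hFs ?_)
  have h1 : κ σ (α : AlgebraicClosure K) = α := by
    have h3 : σ (c (α : AlgebraicClosure K)) = c (α : AlgebraicClosure K) := hσ
    rw [hκ, h3, h2]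
  have h4 : F ≤ IntermediateField.fixedField (Subgroup.zpowers (κ σ)) := by
    have h5 : F = IntermediateField.adjoin K {(α : AlgebraicClosure K)} := by
      have := congrArg (IntermediateField.lift) hα
      rw [IntermediateField.lift_adjoin_simple, IntermediateField.lift_top] at this
      exact this.symm
    rw [h5, IntermediateField.adjoin_simple_le_iff, IntermediateField.mem_fixedField_iff]
    intro f hf
    have h6 : f ∈ MulAction.stabilizer (AbsGal K) (α : AlgebraicClosure K) :=
      (Subgroup.zpowers_le.2 h1) hf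
    exact h6
  rw [IntermediateField.le_iff_le] at h4
  exact h4 (Subgroup.mem_zpowers _)

theorem isInvol {c : AlgebraicClosure K ≃+* AlgebraicClosure K} (h2 : ∀ x, c (c x) = x)
    {κ : AbsGal K → AbsGal K}
    (hκ : ∀ (σ : AbsGal K) (x : AlgebraicClosure K), κ σ x = c (σ (c x))) :
    IsInvol (goodSys K) cyc κ := by
  refine ⟨kapK_mul h2 hκ, kapK_inv h2 hκ, ?_, ?_⟩
  · intro W hW
    have hW' : Good W := hW
    have hn := hW'.normal
    refine ⟨W.comap (kapKHom h2 hκ), ?_, fun g hg => hg⟩
    refine (⟨inferInstance, hW'.isOpen.preimage (kappa_continuous h2 hκ), ?_, ?_⟩ :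
      Good (W.comap (kapKHom h2 hκ)))
    · intro g
      obtain ⟨k, hk⟩ := hW'.pow (κ g)
      refine ⟨k, ?_⟩
      rw [Subgroup.mem_comap, map_pow]
      exact hk
    · intro Q hQ hQ2 g hg
      let C : 𝓞 (AlgebraicClosure K) ≃+* 𝓞 (AlgebraicClosure K) :=
        RingOfIntegers.mapRingEquiv c
      have hC : ∀ x : 𝓞 (AlgebraicClosure K), ((C x : 𝓞 (AlgebraicClosure K)) :
          AlgebraicClosure K) = c x := fun x => rfl
      have hmem : κ g ∈ (Q.comap (C : 𝓞 (AlgebraicClosure K) →+* 𝓞 (AlgebraicClosure K))).inertia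
          (AbsGal K) := by
        intro x
        show (C : 𝓞 (AlgebraicClosure K) →+* 𝓞 (AlgebraicClosure K)) (κ g • x - x) ∈ Q
        have h3 : (C : 𝓞 (AlgebraicClosure K) →+* 𝓞 (AlgebraicClosure K)) (κ g • x - x) =
            g • C x - C x := by
          rw [map_sub]
          congr 1
          apply RingOfIntegers.ext
          show c (κ g (x : AlgebraicClosure K)) = g (c (x : AlgebraicClosure K))
          rw [hκ, h2]
        rw [h3]
        exact hg (C x)
      refine hW'.inertia _ (Ideal.comap_isPrime _ _) ?_ hmem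
      intro h4
      apply hQ2
      have h5 : (C : 𝓞 (AlgebraicClosure K) →+* 𝓞 (AlgebraicClosure K)) 2 ∈ Q := h4
      rwa [map_ofNat] at h5
  · intro g
    refine PadicInt.ext_of_toZModPow.mp fun n => ?_
    obtain ⟨ζ, hζ⟩ : ∃ ζ : AlgebraicClosure K, IsPrimitiveRoot ζ (2 ^ n) :=
      HasEnoughRootsOfUnity.exists_primitiveRoot _ _
    have hspec : ∀ (g : AbsGal K) (x : AlgebraicClosure K), x ^ 2 ^ n = 1 →
        g x = x ^ (PadicInt.toZModPow n (cyc g)).val := fun g x hx =>
      cyclotomicCharacter.spec 2 (g : AlgebraicClosure K ≃+* AlgebraicClosure K) x hx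
    have h3 := hspec (κ g) ζ hζ.pow_eq_one
    have h4 : (c ζ) ^ 2 ^ n = 1 := by rw [← map_pow, hζ.pow_eq_one, map_one]
    rw [hκ, hspec g (c ζ) h4, map_pow, h2] at h3
    haveI : NeZero (2 ^ n) := ⟨by positivity⟩
    exact (ZMod.val_injective _ (hζ.pow_inj (ZMod.val_lt _) (ZMod.val_lt _) h3)).symm

end Pool.Agent.Work.MP_787500_nt.PA
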