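import Mathlib
import Pool.Agent.Work.MP_787500_nt.PA.Chain

/-!
# Module GENS (size S): topological generators

`homs S ⊤` is finite dimensional over `ZMod 2`, so it is a finite set. For each nonzero `ω` in it choose
`g` with `ω g ≠ 0`; let `X` be the finite set of these `g`. If an open subgroup `H` contains `X` and
`H ≠ ⊤` then `exists_index_two` gives a nonzero `ω` vanishing on `H`: contradiction.
-/

set_option autoImplicit false

namespace Pool.Agent.Work.MP_787500_nt.PA

variable {G : Type*} [Group G] {S : TwoSys G} {χ : G → ℤ_[2]}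

theorem exists_gens (hfin : FiniteDimensional (ZMod 2) (homs S ⊤)) :
    ∃ X : Finset G, ∀ H : Subgroup G, Opn S H → (∀ g ∈ X, g ∈ H) → H = ⊤ := by
  classical
  have hf : Finite (homs S ⊤) := Module.finite_of_finite (ZMod 2)
  have hft : Fintype (homs S ⊤) := Fintype.ofFinite _
  have hch : ∀ ω : homs S ⊤, ∃ g : G, ω ≠ 0 → (ω : G → ZMod 2) g ≠ 0 := by
    intro ω
    by_cases h0 : ω = 0
    · exact ⟨1, fun h => absurd h0 h⟩
    · by_contra hcon
      push Not at hcon
      apply h0
      ext g
      exact (hcon g).2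
  choose φ hφ using hch
  refine ⟨Finset.univ.image φ, fun H hH hX => ?_⟩
  by_contra hne
  obtain ⟨ω, hω, h0, hv⟩ := exists_index_two hH hne
  have h1 : (⟨ω, hω⟩ : homs S ⊤) ≠ 0 := fun h => h0 (congrArg Subtype.val h)
  have h2 := hφ ⟨ω, hω⟩ h1
  exact h2 (hv _ (hX _ (Finset.mem_image_of_mem φ (Finset.mem_univ _))))

end Pool.Agent.Work.MP_787500_nt.PA
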