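import Mathlib
import Pool.Agent.Work.MP_787500_nt.PA.Defs

/-!
# Module DIVIDE (size S): a cocycle which is a coboundary modulo 2 is twice a cocycle

`dd χ z` satisfies the cocycle identity (`χ` multiplicative); it is continuous (`C2`) for `z` smooth or
`C1`, as `χ` is `C1` (`x y - x' y' = x (y - y') + (x - x') y'`).
* `dd_Z2`: `dd χ z` is in `Z2` for `z` in `C1`. `Sm1.c1`: smooth implies `C1`.
* `divide`: let `2 ∣ f g h - dd χ z g h` for all `g, h`; choose `f'` with
  `f g h - dd χ z g h = 2 * f' g h`. Cocycle identity: multiply by 2 and cancel (`2 ≠ 0` in the domain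
  `ℤ_[2]`). Continuity at level `n`: use level `n + 1` for `f` and `dd χ z` and cancel 2.
* `Z2.cocMod`, `B2.cobMod`: exact implies modulo `2 ^ n` (replace a `C1` function `z` by a smooth one
  congruent to it modulo `2 ^ n`: choose a member `W` of the system for level `n`, and compose with a
  choice of representatives of the cosets `g W`).
-/

set_option autoImplicit false

namespace Pool.Agent.Work.MP_787500_nt.PA

variable {G : Type*} [Group G] {S : TwoSys G} {χ : G → ℤ_[2]}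

theorem Sm1.c1 {z : G → ℤ_[2]} (hz : Sm1 S z) : C1 S z := by
  obtain ⟨W, hW, h⟩ := hz
  exact fun n => ⟨W, hW, fun g w hw => by rw [h g w hw, sub_self]; exact dvd_zero _⟩

theorem dd_Z2 (hχ : IsChar S χ) {z : G → ℤ_[2]} (hz : C1 S z) : Z2 S χ (dd χ z) := by
  refine ⟨fun n => ?_, fun g h k => ?_⟩
  · obtain ⟨W1, hW1, h1⟩ := hz n
    obtain ⟨W2, hW2, h2⟩ := hχ.cont n
    refine ⟨W1 ⊓ W2, S.inf hW1 hW2, fun g h w hw w' hw' => ?_⟩
    have hn := S.normal hW1
    have e1 : g * w * (h * w') = g * h * (h⁻¹ * w * h * w') := by group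
    have hmem : h⁻¹ * w * h * w' ∈ W1 := by
      refine W1.mul_mem ?_ hw'.1
      have := hn.conj_mem w hw.1 h⁻¹
      rwa [inv_inv] at this
    have a1 := h1 g w hw.1
    have a2 := h1 h w' hw'.1
    have a3 := h2 g w hw.2
    have a4 := h1 (g * h) _ hmem
    rw [← e1] at a4
    have e : dd χ z (g * w) (h * w') - dd χ z g h =
        (z (g * w) - z g) + χ (g * w) * (z (h * w') - z h) + (χ (g * w) - χ g) * z h -
          (z (g * w * (h * w')) - z (g * h)) := by
      simp only [dd]; ring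
    rw [e]
    exact dvd_sub (dvd_add (dvd_add a1 (Dvd.dvd.mul_left a2 _)) (Dvd.dvd.mul_right a3 _)) a4
  · simp only [dd]
    rw [hχ.mul, mul_assoc g h k]
    ring

theorem Z2.cocMod {f : G → G → ℤ_[2]} (hf : Z2 S χ f) (n : ℕ) : CocMod S χ n f := by
  refine ⟨hf.1 n, fun g h k => ?_⟩
  rw [hf.2 g h k, sub_self]
  exact dvd_zero _

theorem B2.cobMod (hχ : IsChar S χ) {f : G → G → ℤ_[2]} (hf : B2 S χ f) (n : ℕ) :
    CobMod S χ n f := by
  obtain ⟨z, hz, rfl⟩ := hf
  obtain ⟨W, hW, h1⟩ := hz n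
  have key : ∀ g, (2 : ℤ_[2]) ^ n ∣ z ((QuotientGroup.mk g : G ⧸ W).out) - z g := by
    intro g
    obtain ⟨w, hw⟩ := QuotientGroup.mk_out_eq_mul W g
    rw [hw]
    exact h1 g w w.2
  refine ⟨fun g => z ((QuotientGroup.mk g : G ⧸ W).out), ⟨W, hW, fun g w hw => ?_⟩,
    fun g h => ?_⟩
  · have : (QuotientGroup.mk (g * w) : G ⧸ W) = QuotientGroup.mk g :=
      (QuotientGroup.eq).2 (by simpa using hw)
    simp only [this]
  · have e : dd χ z g h - dd χ (fun g => z ((QuotientGroup.mk g : G ⧸ W).out)) g h =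
        -(z ((QuotientGroup.mk g : G ⧸ W).out) - z g)
          - χ g * (z ((QuotientGroup.mk h : G ⧸ W).out) - z h)
          + (z ((QuotientGroup.mk (g * h) : G ⧸ W).out) - z (g * h)) := by
      simp only [dd]; ring
    rw [e]
    exact dvd_add (dvd_sub ((dvd_neg).2 (key g)) (Dvd.dvd.mul_left (key h) _)) (key (g * h))

theorem divide (hχ : IsChar S χ) {f : G → G → ℤ_[2]} (hf : Z2 S χ f) (h : CobMod S χ 1 f) :
    ∃ (f' : G → G → ℤ_[2]) (z : G → ℤ_[2]), Z2 S χ f' ∧ Sm1 S z ∧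
      ∀ g k, f g k = dd χ z g k + 2 * f' g k := by
  obtain ⟨z, hz, h1⟩ := h
  have h2 : ∀ g k, ∃ c, f g k - dd χ z g k = 2 * c := by
    intro g k
    obtain ⟨c, hc⟩ := h1 g k
    exact ⟨c, by rw [hc, pow_one]⟩
  choose f' hf' using h2
  have two_ne : (2 : ℤ_[2]) ≠ 0 := two_ne_zero
  obtain ⟨d1, d2⟩ := dd_Z2 hχ hz.c1
  have e : ∀ g k, f g k = dd χ z g k + 2 * f' g k := fun g k => by rw [← hf' g k]; ring
  refine ⟨f', z, ⟨fun n => ?_, fun g k l => ?_⟩, hz, e⟩
  · obtain ⟨W1, hW1, a1⟩ := hf.1 (n + 1)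
    obtain ⟨W2, hW2, a2⟩ := d1 (n + 1)
    refine ⟨W1 ⊓ W2, S.inf hW1 hW2, fun g k w hw w' hw' => ?_⟩
    have b1 := a1 g k w hw.1 w' hw'.1
    have b2 := a2 g k w hw.2 w' hw'.2
    have b3 := dvd_sub b1 b2
    have e3 : f (g * w) (k * w') - f g k - (dd χ z (g * w) (k * w') - dd χ z g k) =
        2 * (f' (g * w) (k * w') - f' g k) := by
      rw [e (g * w) (k * w'), e g k]; ring
    rw [e3, pow_succ'] at b3
    exact (mul_dvd_mul_iff_left two_ne).1 b3
  · have c1 := hf.2 g k l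
    have c2 := d2 g k l
    rw [e g k, e (g * k) l, e k l, e g (k * l)] at c1
    refine mul_left_cancel₀ two_ne ?_
    linear_combination c1 - c2

end Pool.Agent.Work.MP_787500_nt.PA
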