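import Mathlib
import Pool.Agent.Work.MP_787500_nt.RS.Defs
import Pool.Agent.Work.MP_787500_nt.H10_LocSq
import Pool.Agent.Work.MP_787500_nt.H10_Local

/-!
# Module LOCCLASSES (size M-L): the number of local square classes at a dyadic place

`F` a number field, `w` above 2, `2 = unit * π ^ e` at `w`, `RS.dyIdeal w = w ^ e` (elements `t` with
`w t ≤ w 2`). `LocSq (w.valuation F) z`: `z` is approximated by squares. Claim: a map `c` from `F` to a
set with `4 * card (𝓞 F ⧸ dyIdeal w)` elements such that `c a = c b` implies `LocSq w (a * b)`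
(for nonzero `a, b`).
Direct proof. Choose `π ∈ F` with `w π = exp (-1)`. Let `N = 2 e + 1` and `R = 𝓞 F ⧸ w ^ N`, a finite
ring. For `a ≠ 0` write `a = π ^ k * u`, `w u = 1`; choose `r ∈ 𝓞 F` with `w (r - u) ≤ exp (-N)`
(density; `exists_int_close`, `exists_close` in `H10_Local.lean` for the completion, or use that
`𝓞 F → 𝓞_w / w ^ N` is onto), `r` is a unit modulo `w ^ N`. `c a = (k mod 2, class of r in Rˣ / (Rˣ)²)`.
If `c a = c b` then `a b = π ^ (even) * u u'` with `u u' = y ^ 2 * (1 + x)`, `w x ≤ exp (-N)`, i.e.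
`w x < w 4`, so it is `LocSq` (`LocSq.one_add_four_mul`, `LocSq.mul_sq_iff`). 
The count: `card (Rˣ / squares) = card {u ∈ Rˣ | u ^ 2 = 1}` (finite abelian group), and `u ^ 2 = 1`
modulo `w ^ N` means `w (u - 1) * w (u + 1) ≤ exp (-N)`; as the difference of `u + 1` and `u - 1` is 2,
one of the two has valuation at least `exp (-e)` and the other at most `exp (-(N - e))`, so
`u = ± 1` modulo `w ^ (N - e)`: at most `2 * card (w ^ (N - e) / w ^ N) = 2 * card (𝓞 F ⧸ w ^ e)`
solutions. Total: `2 * 2 * card`.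
(Alternative: in the completion, with `RS/Herb.lean` for the unit group and `RS/ComplA.lean`,
`RS/ComplB.lean` as in `RS/LocCount.lean`, and `locSq_of_completion`.)
-/

set_option autoImplicit false

namespace Pool.Agent.Work.MP_787500_nt.PA

open IsDedekindDomain NumberField

universe u

private theorem lc_mem {F : Type*} [Field F] [NumberField F] (w : HeightOneSpectrum (𝓞 F)) (n : ℕ)
    (t : 𝓞 F) : t ∈ w.asIdeal ^ n ↔
      w.valuation F (algebraMap (𝓞 F) F t) ≤ WithZero.exp (-(n : ℤ)) := by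
  rw [HeightOneSpectrum.valuation_of_algebraMap, w.intValuation_le_pow_iff_mem]

private theorem lc_finite {F : Type*} [Field F] [NumberField F] (w : HeightOneSpectrum (𝓞 F))
    (n : ℕ) : Finite (𝓞 F ⧸ w.asIdeal ^ n) := by
  refine Ideal.finiteQuotientOfFreeOfNeBot _ ?_
  exact pow_ne_zero n w.ne_bot

/-- units of the finite quotient -/
private theorem lc_unit {F : Type*} [Field F] [NumberField F] (w : HeightOneSpectrum (𝓞 F)) (n : ℕ)
    {r : 𝓞 F} (hr : w.valuation F (algebraMap (𝓞 F) F r) = 1) :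
    IsUnit (Ideal.Quotient.mk (w.asIdeal ^ n) r) := by
  have := lc_finite w n
  refine IsArtinianRing.isUnit_of_mem_nonZeroDivisors ?_
  rw [mem_nonZeroDivisors_iff_right]
  intro x hx
  obtain ⟨y, rfl⟩ := Ideal.Quotient.mk_surjective x
  rw [← map_mul, Ideal.Quotient.eq_zero_iff_mem, lc_mem, map_mul, map_mul, hr, mul_one] at hx
  rw [Ideal.Quotient.eq_zero_iff_mem, lc_mem]
  exact hx

/-- the kernel of reduction -/
private theorem lc_ker {F : Type*} [Field F] [NumberField F] (w : HeightOneSpectrum (𝓞 F))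
    (a b : ℕ) :
    Nat.card {x : 𝓞 F ⧸ w.asIdeal ^ (a + b) | ∃ t ∈ w.asIdeal ^ b, Ideal.Quotient.mk _ t = x} =
      Nat.card (𝓞 F ⧸ w.asIdeal ^ a) := by
  classical
  have hle : w.asIdeal ^ (a + b) ≤ w.asIdeal ^ b := Ideal.pow_le_pow_right (by omega)
  let f : (𝓞 F ⧸ w.asIdeal ^ (a + b)) →+ (𝓞 F ⧸ w.asIdeal ^ b) :=
    (Ideal.Quotient.factor hle).toAddMonoidHom
  have hsurj : Function.Surjective f := Ideal.Quotient.factor_surjective hle
  have h1 : Nat.card f.ker * f.ker.index = Nat.card (𝓞 F ⧸ w.asIdeal ^ (a + b)) :=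
    f.ker.card_mul_index
  have h2 : f.ker.index = Nat.card (𝓞 F ⧸ w.asIdeal ^ b) := by
    rw [AddSubgroup.index_ker, AddMonoidHom.range_eq_top.2 hsurj]
    exact Nat.card_congr AddSubgroup.topEquiv.toEquiv
  have h3 : ∀ n : ℕ, Nat.card (𝓞 F ⧸ w.asIdeal ^ n) = Ideal.absNorm w.asIdeal ^ n := by
    intro n
    rw [← map_pow]
    rfl
  have h1' : Nat.card f.ker * Ideal.absNorm w.asIdeal ^ b =
      Ideal.absNorm w.asIdeal ^ a * Ideal.absNorm w.asIdeal ^ b := by
    rw [← pow_add, ← h3 (a + b), ← h1, h2, h3 b]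
  have h4 : 0 < Ideal.absNorm w.asIdeal ^ b := by
    apply Nat.pos_of_ne_zero
    rw [← h3]
    have := lc_finite w b
    exact Nat.card_pos.ne'
  have h5 := Nat.eq_of_mul_eq_mul_right h4 h1'
  rw [h3 a, ← h5]
  apply Nat.card_congr
  refine Equiv.subtypeEquivRight fun x => ?_
  constructor
  · rintro ⟨t, ht, rfl⟩
    show Ideal.Quotient.factor hle (Ideal.Quotient.mk _ t) = 0
    rw [Ideal.Quotient.factor_mk, Ideal.Quotient.eq_zero_iff_mem]
    exact ht
  · intro hx
    obtain ⟨t, rfl⟩ := Ideal.Quotient.mk_surjective x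
    have hx' : Ideal.Quotient.factor hle (Ideal.Quotient.mk _ t) = 0 := hx
    rw [Ideal.Quotient.factor_mk, Ideal.Quotient.eq_zero_iff_mem] at hx'
    exact ⟨t, hx', rfl⟩

/-- the number of square roots of one -/
private theorem lc_roots {F : Type*} [Field F] [NumberField F] (w : HeightOneSpectrum (𝓞 F))
    {e : ℕ} (he : w.valuation F 2 = WithZero.exp (-(e : ℤ))) :
    Nat.card {u : (𝓞 F ⧸ w.asIdeal ^ (e + (e + 1)))ˣ | u ^ 2 = 1} ≤
      2 * Nat.card (𝓞 F ⧸ w.asIdeal ^ e) := by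
  classical
  have := lc_finite w (e + (e + 1))
  let v := w.valuation F
  set S := {x : 𝓞 F ⧸ w.asIdeal ^ (e + (e + 1)) | ∃ t ∈ w.asIdeal ^ (e + 1),
    Ideal.Quotient.mk _ t = x} with hS
  have hint : ∀ t : 𝓞 F, v (algebraMap (𝓞 F) F t) ≤ 1 := fun t =>
    HeightOneSpectrum.valuation_le_one w t
  have key : ∀ u : {u : (𝓞 F ⧸ w.asIdeal ^ (e + (e + 1)))ˣ | u ^ 2 = 1},
      ∃ c : Bool × S, (u : (𝓞 F ⧸ w.asIdeal ^ (e + (e + 1)))ˣ).val =
        c.2.1 + (if c.1 then 1 else -1) := by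
    rintro ⟨u, hu⟩
    obtain ⟨x, hx⟩ := Ideal.Quotient.mk_surjective u.val
    have hu2 : u.val ^ 2 = 1 := by
      have := congrArg Units.val hu
      simpa using this
    have h1 : (x - 1) * (x + 1) ∈ w.asIdeal ^ (e + (e + 1)) := by
      rw [← Ideal.Quotient.eq_zero_iff_mem, map_mul, map_sub, map_add, hx, map_one]
      linear_combination hu2
    rw [lc_mem, map_mul, map_mul] at h1
    have h2 : v (algebraMap (𝓞 F) F (x + 1) - algebraMap (𝓞 F) F (x - 1)) =
        WithZero.exp (-(e : ℤ)) := by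
      rw [← he, ← map_sub]
      congr 1
      rw [← map_ofNat (algebraMap (𝓞 F) F) 2]
      congr 1
      ring
    have h3 : x - 1 ∈ w.asIdeal ^ (e + 1) ∨ x + 1 ∈ w.asIdeal ^ (e + 1) := by
      rw [lc_mem, lc_mem]
      by_contra hc
      push Not at hc
      obtain ⟨c1, c2⟩ := hc
      -- both valuations are at least exp (-e)
      have g : ∀ t : F, WithZero.exp (-((e + 1 : ℕ) : ℤ)) < v t → WithZero.exp (-(e : ℤ)) ≤ v t := by
        intro t ht
        by_cases h0 : v t = 0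
        · rw [h0] at ht
          exact absurd ht not_lt_zero
        · obtain ⟨m, hm⟩ : ∃ m : ℤ, v t = WithZero.exp m := ⟨_, (WithZero.exp_log h0).symm⟩
          rw [hm, WithZero.exp_lt_exp] at ht
          rw [hm, WithZero.exp_le_exp]
          push_cast at ht
          omega
      have d1 := g _ c1
      have d2 := g _ c2
      have d3 : WithZero.exp (-(e : ℤ)) * WithZero.exp (-(e : ℤ)) ≤
          WithZero.exp (-((e + (e + 1) : ℕ) : ℤ)) := (mul_le_mul' d1 d2).trans h1
      rw [← WithZero.exp_add, WithZero.exp_le_exp] at d3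
      push_cast at d3
      omega
    rcases h3 with h3 | h3
    · refine ⟨(true, ⟨Ideal.Quotient.mk _ (x - 1), x - 1, h3, rfl⟩), ?_⟩
      simp only [if_true]
      rw [map_sub, map_one, sub_add_cancel, hx]
    · refine ⟨(false, ⟨Ideal.Quotient.mk _ (x + 1), x + 1, h3, rfl⟩), ?_⟩
      simp only [Bool.false_eq_true, if_false]
      rw [map_add, map_one, add_neg_cancel_right, hx]
  choose c hc using key
  have hinj : Function.Injective c := by
    intro u u' h
    apply Subtype.ext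
    apply Units.ext
    rw [hc, hc, h]
  have hSfin : Finite S := Subtype.finite
  have h4 := Nat.card_le_card_of_injective c hinj
  rw [Nat.card_prod, hS, lc_ker w e (e + 1)] at h4
  simpa using h4

/-- the index of the squares -/
private theorem lc_index {F : Type*} [Field F] [NumberField F] (w : HeightOneSpectrum (𝓞 F))
    {e : ℕ} (he : w.valuation F 2 = WithZero.exp (-(e : ℤ))) :
    Finite ((𝓞 F ⧸ w.asIdeal ^ (e + (e + 1)))ˣ ⧸
      (powMonoidHom 2 : (𝓞 F ⧸ w.asIdeal ^ (e + (e + 1)))ˣ →* _).range) ∧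
    Nat.card ((𝓞 F ⧸ w.asIdeal ^ (e + (e + 1)))ˣ ⧸
      (powMonoidHom 2 : (𝓞 F ⧸ w.asIdeal ^ (e + (e + 1)))ˣ →* _).range) ≤
      2 * Nat.card (𝓞 F ⧸ w.asIdeal ^ e) := by
  classical
  have := lc_finite w (e + (e + 1))
  set G := (𝓞 F ⧸ w.asIdeal ^ (e + (e + 1)))ˣ
  set f : G →* G := powMonoidHom 2
  refine ⟨Quotient.finite _, ?_⟩
  have h1 : Nat.card f.range * f.range.index = Nat.card G := f.range.card_mul_index
  have h2 : Nat.card f.ker * f.ker.index = Nat.card G := f.ker.card_mul_index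
  rw [Subgroup.index_ker] at h2
  have h3 : f.range.index = Nat.card f.ker := by
    have h4 : 0 < Nat.card f.range := Nat.card_pos
    apply Nat.eq_of_mul_eq_mul_left h4
    rw [h1, ← h2, mul_comm]
  rw [← Subgroup.index, h3]
  refine le_trans (le_of_eq ?_) (lc_roots w he)
  exact Nat.card_congr (Equiv.subtypeEquivRight fun u => MonoidHom.mem_ker)

theorem exists_classes {F : Type*} [Field F] [NumberField F] {w : HeightOneSpectrum (𝓞 F)}
    (hw : (2 : 𝓞 F) ∈ w.asIdeal) :
    ∃ c : F → Fin (4 * Nat.card (𝓞 F ⧸ RS.dyIdeal w)), ∀ a b : F, a ≠ 0 → b ≠ 0 → c a = c b →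
      LocSq (w.valuation F) (a * b) := by
  classical
  have h2 : (2 : 𝓞 F) ≠ 0 := two_ne_zero
  obtain ⟨e, he⟩ : ∃ e : ℕ, w.intValuation (2 : 𝓞 F) = WithZero.exp (-(e : ℤ)) :=
    ⟨_, w.intValuation_if_neg h2⟩
  have he2 : w.valuation F 2 = WithZero.exp (-(e : ℤ)) := by
    rw [← map_ofNat (algebraMap (𝓞 F) F) 2, HeightOneSpectrum.valuation_of_algebraMap, he]
  have hdy : RS.dyIdeal w = w.asIdeal ^ e := by
    ext t
    rw [RS.mem_dyIdeal, lc_mem, he2]
  obtain ⟨hfin, hcard⟩ := lc_index w he2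
  set N := e + (e + 1) with hN
  set Q := ((𝓞 F ⧸ w.asIdeal ^ N)ˣ ⧸ (powMonoidHom 2 : (𝓞 F ⧸ w.asIdeal ^ N)ˣ →* _).range)
    with hQ
  have hT : Nat.card (Bool × Q) ≤ 4 * Nat.card (𝓞 F ⧸ RS.dyIdeal w) := by
    rw [hdy, Nat.card_prod]
    simp only [Nat.card_eq_fintype_card, Fintype.card_bool] at hcard ⊢
    omega
  let g : Bool × Q → Fin (4 * Nat.card (𝓞 F ⧸ RS.dyIdeal w)) := fun t =>
    Fin.castLE hT (Finite.equivFin (Bool × Q) t)
  have hg : Function.Injective g := (Fin.castLE_injective hT).comp (Finite.equivFin _).injective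
  let v := w.valuation F
  obtain ⟨π, hπ⟩ := w.valuation_exists_uniformizer F
  have hπ0 : π ≠ 0 := by
    rintro rfl
    rw [map_zero] at hπ
    exact WithZero.exp_ne_zero hπ.symm
  -- decomposition of a nonzero element
  have hdec : ∀ a : F, ∃ (k : ℤ) (r : 𝓞 F), a ≠ 0 → v (a * π ^ k) = 1 ∧
      v (algebraMap (𝓞 F) F r - a * π ^ k) ≤ WithZero.exp (-(N : ℤ)) := by
    intro a
    by_cases ha : a = 0
    · exact ⟨0, 0, fun h => absurd ha h⟩
    · have hva : v a ≠ 0 := (Valuation.ne_zero_iff _).2 ha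
      obtain ⟨k, hk⟩ : ∃ k : ℤ, v a = WithZero.exp k := ⟨_, (WithZero.exp_log hva).symm⟩
      have h1 : v (a * π ^ k) = 1 := by
        rw [map_mul, map_zpow₀, hk, hπ, ← WithZero.exp_zsmul, ← WithZero.exp_add]
        simp
      obtain ⟨r, hr⟩ := HeightOneSpectrum.exists_valuation_sub_lt_of_integer w h1.le
        (Units.mk0 (WithZero.exp (-(N : ℤ))) WithZero.exp_ne_zero)
      exact ⟨k, r, fun _ => ⟨h1, hr.le⟩⟩
  choose k r hkr using hdec
  have hNlt : WithZero.exp (-(N : ℤ)) < (1 : WithZero (Multiplicative ℤ)) := by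
    rw [← WithZero.exp_zero, WithZero.exp_lt_exp]
    omega
  have hvr : ∀ a, a ≠ 0 → v (algebraMap (𝓞 F) F (r a)) = 1 := by
    intro a ha
    obtain ⟨h1, h3⟩ := hkr a ha
    have h4 : v (algebraMap (𝓞 F) F (r a) - a * π ^ k a) < v (a * π ^ k a) := by
      rw [h1]
      exact h3.trans_lt hNlt
    have h5 := Valuation.map_add_eq_of_lt_left v h4
    rw [add_sub_cancel] at h5
    rw [h5, h1]
  have hu : ∀ a, ∃ u : (𝓞 F ⧸ w.asIdeal ^ N)ˣ, a ≠ 0 →
      u.val = Ideal.Quotient.mk (w.asIdeal ^ N) (r a) := by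
    intro a
    by_cases ha : a = 0
    · exact ⟨1, fun h => absurd ha h⟩
    · obtain ⟨u, hu⟩ := lc_unit w N (hvr a ha)
      exact ⟨u, fun _ => hu⟩
  choose u hu using hu
  refine ⟨fun a => g (decide (Even (k a)), QuotientGroup.mk (u a)), ?_⟩
  intro a b ha hb hab
  have h3 := hg hab
  rw [Prod.mk.injEq] at h3
  obtain ⟨h4, h5⟩ := h3
  obtain ⟨y, hy⟩ := QuotientGroup.eq.1 h5
  have hy' : u a * u b = (u a * y) ^ 2 := by
    have : y ^ 2 = (u a)⁻¹ * u b := hy
    rw [mul_pow, this, sq, mul_assoc, mul_inv_cancel_left]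
  obtain ⟨z, hz⟩ := Ideal.Quotient.mk_surjective (u a * y).val
  have h6 : r a * r b - z ^ 2 ∈ w.asIdeal ^ N := by
    rw [← Ideal.Quotient.eq_zero_iff_mem, map_sub, map_mul, map_pow, hz, ← hu a ha, ← hu b hb,
      ← Units.val_mul, hy', Units.val_pow_eq_pow_val, sub_self]
  rw [lc_mem, map_sub, map_mul, map_pow] at h6
  set ra := algebraMap (𝓞 F) F (r a) with hra
  set rb := algebraMap (𝓞 F) F (r b) with hrb
  set zz := algebraMap (𝓞 F) F z with hzz
  obtain ⟨a1, a2⟩ := hkr a ha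
  obtain ⟨b1, b2⟩ := hkr b hb
  have hra1 := hvr a ha
  have hrb1 := hvr b hb
  -- the product of the unit parts
  have h7 : v (a * π ^ k a * (b * π ^ k b) - zz ^ 2) ≤ WithZero.exp (-(N : ℤ)) := by
    have e1 : a * π ^ k a * (b * π ^ k b) - zz ^ 2 =
        (ra * rb - zz ^ 2) - (ra - a * π ^ k a) * rb - (a * π ^ k a) * (rb - b * π ^ k b) := by
      ring
    rw [e1]
    refine (Valuation.map_sub _ _ _).trans (max_le ((Valuation.map_sub _ _ _).trans
      (max_le h6 ?_)) ?_)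
    · rw [map_mul, hrb1, mul_one]
      exact a2
    · rw [map_mul, a1, one_mul]
      exact b2
  have h8 : v zz = 1 := by
    have h9 : v (ra * rb) = 1 := by rw [map_mul, hra1, hrb1, mul_one]
    have h10 : v (ra * rb - zz ^ 2) < v (ra * rb) := by
      rw [h9]
      exact h6.trans_lt hNlt
    have h11 : v (zz ^ 2) = 1 := by
      have := Valuation.map_sub_eq_of_lt_left v h10
      rw [sub_sub_cancel] at this
      rw [this, h9]
    rw [map_pow] at h11
    by_contra hne
    have hlt : v zz < 1 := lt_of_le_of_ne (HeightOneSpectrum.valuation_le_one w z) hne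
    exact absurd h11 (pow_lt_one₀ zero_le hlt two_ne_zero).ne
  have hz0 : zz ≠ 0 := by
    intro h
    rw [h, map_zero] at h8
    exact zero_ne_one h8
  have h20 : (2 : F) ≠ 0 := two_ne_zero
  have h4v : v (4 : F) = WithZero.exp (-(e : ℤ)) * WithZero.exp (-(e : ℤ)) := by
    rw [show (4 : F) = 2 * 2 by norm_num, map_mul, he2]
  have h40 : (4 : F) ≠ 0 := by
    rw [show (4 : F) = 2 * 2 by norm_num]
    exact mul_ne_zero h20 h20
  have hx : v ((a * π ^ k a * (b * π ^ k b) - zz ^ 2) / (4 * zz ^ 2)) < 1 := by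
    rw [map_div₀, map_mul, map_pow, h8, one_pow, mul_one, h4v]
    rw [div_lt_one₀ (by
      rw [← WithZero.exp_add]
      exact WithZero.exp_pos)]
    refine lt_of_le_of_lt h7 ?_
    rw [← WithZero.exp_add, WithZero.exp_lt_exp, hN]
    push_cast
    omega
  have hloc := LocSq.one_add_four_mul (v := v) h20 hx (by
    rw [he2, ← WithZero.exp_zero, WithZero.exp_le_exp]
    omega)
  have e2 : 1 + 4 * ((a * π ^ k a * (b * π ^ k b) - zz ^ 2) / (4 * zz ^ 2)) =
      (a * π ^ k a * (b * π ^ k b)) * (zz⁻¹) ^ 2 := by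
    field_simp
    ring
  rw [e2, LocSq.mul_sq_iff (inv_ne_zero hz0)] at hloc
  have hev : Even (k a + k b) := by
    rw [Int.even_add]
    simpa using h4
  obtain ⟨m, hm⟩ := hev
  have e3 : a * π ^ k a * (b * π ^ k b) = a * b * (π ^ m) ^ 2 := by
    have : π ^ k a * π ^ k b = (π ^ m) ^ 2 := by
      rw [← zpow_add₀ hπ0, hm, zpow_add₀ hπ0, sq]
    linear_combination (a * b) * this
  rw [e3, LocSq.mul_sq_iff (zpow_ne_zero _ hπ0)] at hloc
  exact hloc

end Pool.Agent.Work.MP_787500_nt.PA
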