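import Mathlib
import Pool.Agent.Work.MP_787500_nt.H10_Quad
import Pool.Agent.Work.MP_787500_nt.H10_Tower
import Pool.Agent.Work.MP_787500_nt.H10_Defs
import Pool.Agent.Work.MP_787500_nt.RS.Defs

/-!
# Module TWOPLACES (size S-M): the dyadic places

All of this is in the (private) proofs of `RS/Dyad.lean` (helper73): `exists_dyadic_small`.
* `exists_two_places`: the two places of `K` above 2 (one contains `W`, the other `1 - W`, see
  `dyad_place` there) are different and have places of `F` above them (`exists_above`).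
* `card_mul_card_le`: for different dyadic places `w, w'` of any number field: the ideals
  `dyIdeal w = w ^ e`, `dyIdeal w' = w' ^ e'` are coprime and contain 2, so
  `card (𝓞 F ⧸ dyIdeal w) * card (𝓞 F ⧸ dyIdeal w') ≤ card (𝓞 F ⧸ (2)) = 2 ^ finrank ℚ F`.
* `totallyComplex`: `F` contains `s` with `s ^ 2 = -q`, so it has no real place.
-/

set_option autoImplicit false

namespace Pool.Agent.Work.MP_787500_nt.PA

open IsDedekindDomain NumberField

universe u

/-- a place of `K` containing `2` and `W` -/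
private theorem dyad_place {K : Type*} [Field K] [NumberField K] {q : ℕ} {s : K} (hs : s ^ 2 = -(q : K)) (hq : 0 < q) {W : 𝓞 K} {k : ℤ}
    (h1 : 2 * algebraMap (𝓞 K) K W = 1 + s) (h2 : W * (1 - W) = 2 * k)
    (h3 : ∀ x : 𝓞 K, ∃ a b : ℤ, x = a + b * W) :
    ∃ v : HeightOneSpectrum (𝓞 K), (2 : 𝓞 K) ∈ v.asIdeal ∧ W ∈ v.asIdeal := by
  have hne : Ideal.span {(2 : 𝓞 K), W} ≠ ⊤ := by
    intro htop
    have h4 : (1 : 𝓞 K) ∈ Ideal.span {(2 : 𝓞 K), W} := by rw [htop]; trivial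
    rw [Ideal.mem_span_pair] at h4
    obtain ⟨x, y, hxy⟩ := h4
    obtain ⟨a, b, rfl⟩ := h3 x
    obtain ⟨c, d, rfl⟩ := h3 y
    have h5 : ((2 * a - 2 * k * d : ℤ) : 𝓞 K) + ((2 * b + c + d : ℤ) : 𝓞 K) * W = 1 := by
      push_cast
      linear_combination hxy + (d : 𝓞 K) * h2
    have h6 : ((2 * a - 2 * k * d : ℤ) : K) + ((2 * b + c + d : ℤ) : K) *
        algebraMap (𝓞 K) K W = 1 := by
      have := congrArg (algebraMap (𝓞 K) K) h5
      rw [map_add, map_mul, map_intCast, map_intCast, map_one] at this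
      exact this
    have h7 : (((2 * (2 * a - 2 * k * d) + (2 * b + c + d) - 2 : ℤ) : ℚ) : K) +
        (((2 * b + c + d : ℤ) : ℚ) : K) * s = 0 := by
      push_cast at h6 ⊢
      linear_combination 2 * h6 - (2 * (b : K) + c + d) * h1
    obtain ⟨g1, g2⟩ := Quad.not_rat hs hq _ _ h7
    have g1' : 2 * (2 * a - 2 * k * d) + (2 * b + c + d) - 2 = 0 := by exact_mod_cast g1
    have g2' : 2 * b + c + d = 0 := by exact_mod_cast g2
    rw [g2'] at g1'
    have g3 : 2 * (a - k * d) = 1 := by linarith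
    omega
  obtain ⟨M, hM, hle⟩ := Ideal.exists_le_maximal _ hne
  have m2 : (2 : 𝓞 K) ∈ M := hle (Ideal.subset_span (by simp))
  have mW : W ∈ M := hle (Ideal.subset_span (by simp))
  refine ⟨⟨M, hM.isPrime, ?_⟩, m2, mW⟩
  rintro rfl
  exact two_ne_zero (α := 𝓞 K) m2

/-- the ideal of a dyadic place is a power -/
private theorem dyad_pow {F : Type*} [Field F] [NumberField F] (w : HeightOneSpectrum (𝓞 F)) :
    ∃ e : ℕ, RS.dyIdeal w = w.asIdeal ^ e := by
  have h2 : (2 : 𝓞 F) ≠ 0 := two_ne_zero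
  obtain ⟨e, he⟩ : ∃ e : ℕ, w.intValuation (2 : 𝓞 F) = WithZero.exp (-(e : ℤ)) :=
    ⟨_, w.intValuation_if_neg h2⟩
  refine ⟨e, ?_⟩
  ext t
  rw [RS.mem_dyIdeal, ← map_ofNat (algebraMap (𝓞 F) F) 2, HeightOneSpectrum.valuation_of_algebraMap,
    HeightOneSpectrum.valuation_of_algebraMap, he, w.intValuation_le_pow_iff_mem]

private theorem dyad_card {F : Type*} [Field F] [NumberField F] (I1 I2 : Ideal (𝓞 F)) (hco : IsCoprime I1 I2) (h1 : (2 : 𝓞 F) ∈ I1)
    (h2 : (2 : 𝓞 F) ∈ I2) :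
    Nat.card (𝓞 F ⧸ I1) * Nat.card (𝓞 F ⧸ I2) ≤ 2 ^ Module.finrank ℚ F := by
  rw [← Nat.card_prod, ← Nat.card_congr (Ideal.quotientInfEquivQuotientProd I1 I2 hco).toEquiv]
  have hle : Ideal.span {(2 : 𝓞 F)} ≤ I1 ⊓ I2 := by
    rw [Ideal.span_singleton_le_iff_mem]
    exact ⟨h1, h2⟩
  have hcard : Nat.card (𝓞 F ⧸ Ideal.span {(2 : 𝓞 F)}) = 2 ^ Module.finrank ℚ F := by
    have h3 : Ideal.absNorm (Ideal.span {(2 : 𝓞 F)}) = Nat.card (𝓞 F ⧸ Ideal.span {(2 : 𝓞 F)}) :=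
      Ideal.absNorm_apply _
    rw [← h3, Ideal.absNorm_span_singleton]
    have h4 : Algebra.norm ℤ (2 : 𝓞 F) = 2 ^ Module.finrank ℚ F := by
      have h5 := Algebra.norm_algebraMap_of_basis (RingOfIntegers.basis F) (2 : ℤ)
      rw [map_ofNat] at h5
      rw [h5, ← Module.finrank_eq_card_basis (RingOfIntegers.basis F), RingOfIntegers.rank]
    rw [h4]
    simp [Int.natAbs_pow]
  rw [← hcard]
  have hfin : Finite (𝓞 F ⧸ Ideal.span {(2 : 𝓞 F)}) := by
    apply Nat.finite_of_card_ne_zero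
    rw [hcard]
    positivity
  exact Nat.card_le_card_of_surjective (Ideal.Quotient.factor hle)
    (Ideal.Quotient.factor_surjective hle)

theorem exists_two_places {K F : Type*} [Field K] [NumberField K] [Field F] [NumberField F]
    [Algebra K F] {q : ℕ} {s : K} (hK : IsBase K q s) :
    ∃ w w' : HeightOneSpectrum (𝓞 F), (2 : 𝓞 F) ∈ w.asIdeal ∧ (2 : 𝓞 F) ∈ w'.asIdeal ∧ w ≠ w' := by
  obtain ⟨h2, hs, hq, hq16⟩ := hK
  obtain ⟨W, k, hW1, hW2, hW3⟩ := Quad.exists_W h2 hs hq (by omega)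
  obtain ⟨v1, v12, v1W⟩ := dyad_place hs hq.pos hW1 hW2 hW3
  obtain ⟨v2, v22, v2W⟩ := dyad_place (s := -s) (q := q) (W := 1 - W) (k := k)
    (by rw [neg_sq]; exact hs) hq.pos (by rw [map_sub, map_one]; linear_combination -hW1)
    (by rw [← hW2]; ring) (fun x => by
      obtain ⟨a, b, rfl⟩ := hW3 x
      exact ⟨a + b, -b, by push_cast; ring⟩)
  obtain ⟨w1, hw1⟩ := exists_above (L := F) v1
  obtain ⟨w2, hw2⟩ := exists_above (L := F) v2
  have w12 : (2 : 𝓞 F) ∈ w1.asIdeal := (two_mem_below (K := K) w1).1 (by rw [hw1]; exact v12)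
  have w22 : (2 : 𝓞 F) ∈ w2.asIdeal := (two_mem_below (K := K) w2).1 (by rw [hw2]; exact v22)
  refine ⟨w1, w2, w12, w22, ?_⟩
  rintro rfl
  have w1W : W ∈ (below K w1).asIdeal := by rw [hw1]; exact v1W
  have w2W : 1 - W ∈ (below K w1).asIdeal := by rw [hw2]; exact v2W
  have h1 : (1 : 𝓞 K) ∈ (below K w1).asIdeal := by
    have := Ideal.add_mem _ w1W w2W
    rwa [add_sub_cancel] at this
  exact (below K w1).isPrime.ne_top ((Ideal.eq_top_iff_one _).2 h1)

theorem card_mul_card_le {F : Type*} [Field F] [NumberField F] {w w' : HeightOneSpectrum (𝓞 F)}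
    (hw : (2 : 𝓞 F) ∈ w.asIdeal) (hw' : (2 : 𝓞 F) ∈ w'.asIdeal) (hne : w ≠ w') :
    Nat.card (𝓞 F ⧸ RS.dyIdeal w) * Nat.card (𝓞 F ⧸ RS.dyIdeal w') ≤ 2 ^ Module.finrank ℚ F := by
  have hco : IsCoprime w.asIdeal w'.asIdeal := by
    have m1 := w.isMaximal
    have m2 := w'.isMaximal
    exact Ideal.isCoprime_of_isMaximal fun h => hne (HeightOneSpectrum.ext h)
  have hco' : IsCoprime (RS.dyIdeal w) (RS.dyIdeal w') := by
    obtain ⟨a, ha⟩ := dyad_pow w
    obtain ⟨b, hb⟩ := dyad_pow w'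
    rw [ha, hb]
    exact hco.pow
  have hmem : ∀ w : HeightOneSpectrum (𝓞 F), (2 : 𝓞 F) ∈ RS.dyIdeal w := by
    intro w
    rw [RS.mem_dyIdeal, map_ofNat]
  exact dyad_card _ _ hco' (hmem w) (hmem w')

theorem totallyComplex {K F : Type*} [Field K] [NumberField K] [Field F] [NumberField F]
    [Algebra K F] {q : ℕ} {s : K} (hK : IsBase K q s) : IsTotallyComplex F := by
  obtain ⟨h2, hs, hq, hq16⟩ := hK
  refine ⟨fun v => ?_⟩
  by_contra hv
  rw [InfinitePlace.not_isComplex_iff_isReal] at hv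
  have h1 : (v.embedding_of_isReal hv (algebraMap K F s)) ^ 2 = -(q : ℝ) := by
    rw [← map_pow, ← map_pow, hs]
    simp
  have h3 : (0 : ℝ) < q := by exact_mod_cast hq.pos
  nlinarith [sq_nonneg (v.embedding_of_isReal hv (algebraMap K F s))]

end Pool.Agent.Work.MP_787500_nt.PA
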