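import Mathlib
import Pool.Agent.Work.MP_787500_nt.PA.SunitRank
import Pool.Agent.Work.MP_787500_nt.PA.LocClasses
import Pool.Agent.Work.MP_787500_nt.PA.TwoPlaces
import Pool.Agent.Work.MP_787500_nt.H10_Main

/-!
# Module SELCOUNT (size M): assembly of the count

`F` in the 2-tower of `K`, `m = [F : K]`, `[F : ℚ] = 2 m`. `PropP F` holds (`general_tower` in
`H10_Main.lean`): at every dyadic place, an element with even valuations off 2 which is `LocSq` is a
square. Take `a i` from `exists_sunits` (two places from `exists_two_places`). For `T` a set of indices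
let `a_T` be the product. For `T ≠ T'`, `a_T * a_T'` is not a square (it is `a_(T Δ T')` times a
square), has even valuations off 2 (`SU.evenOff2`), so it is not `LocSq` at any dyadic place `w`.
Hence `T ↦ c (a_T)` (`c` from `exists_classes`) is injective and
`2 ^ (m + 2) ≤ 4 * card (𝓞 F ⧸ dyIdeal w)` for every dyadic `w`. With a different dyadic place `w'`
(one of the two of `exists_two_places` is different from `w`) and `card_mul_card_le` we get
`card (𝓞 F ⧸ dyIdeal w) = 2 ^ m`, so `T ↦ c (a_T)` is bijective onto `Fin (4 * 2 ^ m)`; for `z ≠ 0`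
there is `T` with `c z = c (a_T)`, so `z * a_T` is `LocSq`. If `z` is even off 2 then `z * a_T` is a
square by `PropP`.
-/

set_option autoImplicit false

namespace Pool.Agent.Work.MP_787500_nt.PA

open IsDedekindDomain NumberField

universe u

private theorem sc_symm {F : Type*} [Field F] {n : ℕ} (a : Fin n → F) (ha : ∀ i, a i ≠ 0)
    (hsq : ∀ T : Finset (Fin n), IsSquare (∏ i ∈ T, a i) → T = ∅) {T T' : Finset (Fin n)}
    (h : IsSquare ((∏ i ∈ T, a i) * ∏ i ∈ T', a i)) : T = T' := by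
  classical
  have e1 : ∏ i ∈ T, a i = (∏ i ∈ T \ T', a i) * ∏ i ∈ T ∩ T', a i := by
    rw [← Finset.prod_union (Finset.disjoint_sdiff_inter T T'), Finset.sdiff_union_inter]
  have e2 : ∏ i ∈ T', a i = (∏ i ∈ T' \ T, a i) * ∏ i ∈ T ∩ T', a i := by
    rw [Finset.inter_comm, ← Finset.prod_union (Finset.disjoint_sdiff_inter T' T),
      Finset.sdiff_union_inter]
  have e3 : ∏ i ∈ symmDiff T T', a i = (∏ i ∈ T \ T', a i) * ∏ i ∈ T' \ T, a i := by
    rw [← Finset.prod_union (disjoint_sdiff_sdiff)]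
    rfl
  have hne : ∏ i ∈ T ∩ T', a i ≠ 0 := Finset.prod_ne_zero_iff.2 fun i _ => ha i
  have h1 : IsSquare (∏ i ∈ symmDiff T T', a i) := by
    obtain ⟨y, hy⟩ := h
    refine ⟨y / ∏ i ∈ T ∩ T', a i, ?_⟩
    rw [e3]
    rw [e1, e2] at hy
    field_simp
    linear_combination hy
  have h2 := hsq _ h1
  exact symmDiff_eq_bot.1 h2

theorem sel_count {K F : Type u} [Field K] [NumberField K] [Field F] [NumberField F]
    [Algebra K F] {q : ℕ} {s : K} (hK : IsBase K q s) (hF : InTwoTower K F) {m : ℕ}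
    (hm : Module.finrank K F = m) :
    ∃ a : Fin (m + 2) → F, (∀ i, SU (a i)) ∧
      (∀ T : Finset (Fin (m + 2)), IsSquare (∏ i ∈ T, a i) → T = ∅) ∧
      (∀ w : HeightOneSpectrum (𝓞 F), (2 : 𝓞 F) ∈ w.asIdeal → ∀ z : F, z ≠ 0 →
        ∃ T : Finset (Fin (m + 2)), LocSq (w.valuation F) (z * ∏ i ∈ T, a i)) ∧
      ∀ z : F, z ≠ 0 → EvenOff2 z → ∃ T : Finset (Fin (m + 2)), IsSquare (z * ∏ i ∈ T, a i) := by
  classical
  have hP : PropP F := general_tower hK.1 hK.2.1 hK.2.2.1 hK.2.2.2 hF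
  have hdeg : Module.finrank ℚ F = 2 * m := by
    rw [← Module.finrank_mul_finrank ℚ K F, hK.1, hm]
  obtain ⟨w1, w2, hw1, hw2, hne⟩ := exists_two_places (F := F) hK
  have htc : IsTotallyComplex F := totallyComplex hK
  obtain ⟨a, ha1, ha2⟩ := exists_sunits hdeg hw1 hw2 hne
  have hsu : ∀ T : Finset (Fin (m + 2)), SU (∏ i ∈ T, a i) := fun T => SU.prod T a fun i _ => ha1 i
  have hmain : ∀ w : HeightOneSpectrum (𝓞 F), (2 : 𝓞 F) ∈ w.asIdeal →
      ∃ c : F → Fin (4 * Nat.card (𝓞 F ⧸ RS.dyIdeal w)), (∀ a b : F, a ≠ 0 → b ≠ 0 → c a = c b →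
        LocSq (w.valuation F) (a * b)) ∧
        Function.Injective fun T : Finset (Fin (m + 2)) => c (∏ i ∈ T, a i) := by
    intro w hw
    obtain ⟨c, hc⟩ := exists_classes hw
    refine ⟨c, hc, fun T T' h => ?_⟩
    have h1 := hc _ _ (hsu T).1 (hsu T').1 h
    have h2 := hP w hw _ (mul_ne_zero (hsu T).1 (hsu T').1)
      (((hsu T).mul (hsu T')).evenOff2) h1
    exact sc_symm a (fun i => (ha1 i).1) ha2 h2
  have hle : ∀ w : HeightOneSpectrum (𝓞 F), (2 : 𝓞 F) ∈ w.asIdeal →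
      2 ^ m ≤ Nat.card (𝓞 F ⧸ RS.dyIdeal w) := by
    intro w hw
    obtain ⟨c, -, hinj⟩ := hmain w hw
    have h1 := Fintype.card_le_of_injective _ hinj
    rw [Fintype.card_finset, Fintype.card_fin, Fintype.card_fin, pow_add] at h1
    omega
  have hcard : ∀ w : HeightOneSpectrum (𝓞 F), (2 : 𝓞 F) ∈ w.asIdeal →
      Nat.card (𝓞 F ⧸ RS.dyIdeal w) = 2 ^ m := by
    intro w hw
    obtain ⟨w', hw', hww'⟩ : ∃ w' : HeightOneSpectrum (𝓞 F), (2 : 𝓞 F) ∈ w'.asIdeal ∧ w ≠ w' := by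
      by_cases h : w = w1
      · exact ⟨w2, hw2, by rw [h]; exact hne⟩
      · exact ⟨w1, hw1, h⟩
    have h1 := card_mul_card_le hw hw' hww'
    rw [hdeg, two_mul, pow_add] at h1
    have h2 := hle w hw
    have h3 := hle w' hw'
    apply le_antisymm _ h2
    by_contra hc
    push Not at hc
    have h4 : 2 ^ m * 2 ^ m < Nat.card (𝓞 F ⧸ RS.dyIdeal w) * Nat.card (𝓞 F ⧸ RS.dyIdeal w') :=
      Nat.mul_lt_mul_of_lt_of_le hc h3 (lt_of_lt_of_le (by positivity) h3)
    omega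
  have hloc : ∀ w : HeightOneSpectrum (𝓞 F), (2 : 𝓞 F) ∈ w.asIdeal → ∀ z : F, z ≠ 0 →
        ∃ T : Finset (Fin (m + 2)), LocSq (w.valuation F) (z * ∏ i ∈ T, a i) := by
    intro w hw z hz
    obtain ⟨c, hc, hinj⟩ := hmain w hw
    have hbij := (Fintype.bijective_iff_injective_and_card _).2 ⟨hinj, by
      rw [Fintype.card_finset, Fintype.card_fin, Fintype.card_fin, hcard w hw, pow_add]
      ring⟩
    obtain ⟨T, hT⟩ := hbij.2 (c z)
    exact ⟨T, hc _ _ hz (hsu T).1 hT.symm⟩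
  refine ⟨a, ha1, ha2, hloc, ?_⟩
  intro z hz hze
  obtain ⟨T, hT⟩ := hloc w1 hw1 z hz
  refine ⟨T, hP w1 hw1 _ (mul_ne_zero hz (hsu T).1) ?_ hT⟩
  intro Q hQ
  rw [map_mul]
  exact (hze Q hQ).mul ((hsu T).evenOff2 Q hQ)

end Pool.Agent.Work.MP_787500_nt.PA
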