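import Mathlib
import Pool.Agent.Work.MP_787500_nt.PA.SelCount
import Pool.Agent.Work.MP_787500_nt.PA.FixedF
import Pool.Agent.Work.MP_787500_nt.PA.ActHom

/-!
# Module COUNTSK (size M): the number of quadratic characters

`U` open in the system, `F = fixedField U`, `m = U.index = [F : K]` (`fixedF`), `a i` from `sel_count`,
`t i` in the algebraic closure with `t i ^ 2 = a i` (`IsAlgClosed.exists_pow_nat_eq`). `InM (t i)`:
`a i ∈ F` is fixed by a good subgroup inside `U`, `SU (a i)` (`SU.map`), `InM.sqrt`. So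
`act2 U (t i) ∈ homs`. For `T` a set of indices, `Σ_(i ∈ T) act2 U (t i) = act2 U (∏_(i ∈ T) t i)`
(`act2_mul`), and it is zero iff `U` fixes the product (iff the product lies in `F`), which makes
`∏_(i ∈ T) a i` a square in `F`, so `T = ∅`: the `m + 2` elements are linearly independent over
`ZMod 2`. They span: for `ψ ∈ homs` take `t` from `exists_act2`, `t ^ 2 = d ∈ F`, even off 2
(`even_of_act2`), so `d * ∏_T a i = y ^ 2`, `t * ∏_T t i = ± y`, and `ψ = Σ_(i ∈ T) act2 U (t i)`.
So `finrank = m + 2`.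
`exists_su`: the last step shows also `ψ = act2 U (∏_T t i)` with `SU (∏_T t i)`.
-/

set_option autoImplicit false
set_option linter.unusedSectionVars false

namespace Pool.Agent.Work.MP_787500_nt.PA

open IsDedekindDomain NumberField

universe u

variable {K : Type u} [Field K] [NumberField K]

private theorem countsK_InM_prod {ι : Type*} (T : Finset ι) (t : ι → AlgebraicClosure K)
    (h : ∀ i, InM (t i)) : InM (∏ i ∈ T, t i) := by
  classical
  induction T using Finset.induction_on with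
  | empty =>
    rw [Finset.prod_empty]
    exact ⟨⊤, Good.top, fun w _ => map_one w⟩
  | insert a T ha ih =>
    rw [Finset.prod_insert ha]
    exact (h a).mul ih

private theorem countsK_fix {ι : Type*} (T : Finset ι) (t : ι → AlgebraicClosure K)
    {U : Subgroup (AbsGal K)} (hfix : ∀ i, ∀ g ∈ U, g (t i ^ 2) = t i ^ 2) :
    ∀ g ∈ U, g ((∏ i ∈ T, t i) ^ 2) = (∏ i ∈ T, t i) ^ 2 := by
  intro g hg
  rw [← Finset.prod_pow, map_prod]
  exact Finset.prod_congr rfl fun i _ => hfix i g hg

private theorem countsK_sum {ι : Type*} (T : Finset ι) (t : ι → AlgebraicClosure K)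
    {U : Subgroup (AbsGal K)} (h0 : ∀ i, t i ≠ 0) (hfix : ∀ i, ∀ g ∈ U, g (t i ^ 2) = t i ^ 2) :
    act2 U (∏ i ∈ T, t i) = ∑ i ∈ T, act2 U (t i) := by
  classical
  induction T using Finset.induction_on with
  | empty =>
    rw [Finset.prod_empty, Finset.sum_empty, act2_eq_zero_iff]
    exact fun g _ => map_one g
  | insert a T ha ih =>
    rw [Finset.prod_insert ha, Finset.sum_insert ha, ← ih]
    exact act2_mul (h0 a) (Finset.prod_ne_zero_iff.2 fun i _ => h0 i) (hfix a)
      (countsK_fix T t hfix)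

private theorem countsK_core {q : ℕ} {s : K} (hK : IsBase K q s) {U : Subgroup (AbsGal K)}
    (hU : Opn (goodSys K) U) :
    ∃ t : Fin (U.index + 2) → AlgebraicClosure K, (∀ i, SU (t i)) ∧ (∀ i, InM (t i)) ∧
      (∀ i, ∀ g ∈ U, g (t i ^ 2) = t i ^ 2) ∧
      (∀ T : Finset (Fin (U.index + 2)), act2 U (∏ i ∈ T, t i) = 0 → T = ∅) ∧
      ∀ ψ ∈ homs (goodSys K) U, ∃ T : Finset (Fin (U.index + 2)),
        ψ = act2 U (∏ i ∈ T, t i) := by
  classical
  obtain ⟨hfin, hrank, hfixg, hNF, hT⟩ := fixedF hU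
  obtain ⟨a, hSU, hind, -, hspan⟩ := sel_count hK hT hrank
  have hsq : ∀ i, ∃ t : AlgebraicClosure K, t ^ 2 = (a i : AlgebraicClosure K) := fun i =>
    IsAlgClosed.exists_pow_nat_eq _ (by norm_num)
  choose t ht using hsq
  have hmemF : ∀ x : AlgebraicClosure K, x ∈ IntermediateField.fixedField U ↔
      ∀ g ∈ U, g x = x := fun x => IntermediateField.mem_fixedField_iff _ _
  have haU : ∀ i, ∀ g ∈ U, g (a i : AlgebraicClosure K) = a i := fun i => (hmemF _).1 (a i).2
  have hSUa : ∀ i, SU (a i : AlgebraicClosure K) := fun i =>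
    SU.map (algebraMap (IntermediateField.fixedField U) (AlgebraicClosure K)) (hSU i)
  have hSUt : ∀ i, SU (t i) := fun i => SU.of_pow two_ne_zero (by rw [ht]; exact hSUa i)
  have hInMa : ∀ i, InM (a i : AlgebraicClosure K) := by
    intro i
    obtain ⟨W, hW, hle⟩ := hU
    exact ⟨W, hW, fun w hw => haU i w (hle hw)⟩
  have hInMt : ∀ i, InM (t i) := fun i => InM.sqrt (hInMa i) (hSUa i) (ht i)
  have hfix : ∀ i, ∀ g ∈ U, g (t i ^ 2) = t i ^ 2 := by
    intro i g hg
    rw [ht, haU i g hg]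
  have h0 : ∀ i, t i ≠ 0 := fun i => (hSUt i).1
  have hprod : ∀ T : Finset (Fin (U.index + 2)), (∏ i ∈ T, t i) ^ 2 =
      ((∏ i ∈ T, a i : IntermediateField.fixedField U) : AlgebraicClosure K) := by
    intro T
    rw [← Finset.prod_pow]
    have : ((∏ i ∈ T, a i : IntermediateField.fixedField U) : AlgebraicClosure K) =
        algebraMap (IntermediateField.fixedField U) (AlgebraicClosure K) (∏ i ∈ T, a i) := rfl
    rw [this, map_prod]
    exact Finset.prod_congr rfl fun i _ => ht i
  refine ⟨t, hSUt, hInMt, hfix, ?_, ?_⟩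
  · intro T hT0
    rw [act2_eq_zero_iff] at hT0
    apply hind T
    refine ⟨⟨_, (hmemF _).2 hT0⟩, ?_⟩
    apply Subtype.ext
    show ((∏ i ∈ T, a i : IntermediateField.fixedField U) : AlgebraicClosure K) =
      (∏ i ∈ T, t i) * (∏ i ∈ T, t i)
    rw [← hprod, pow_two]
  · intro ψ hψ
    obtain ⟨x, hx0, hxM, hxfix, rfl⟩ := exists_act2 hU hψ
    let d : IntermediateField.fixedField U := ⟨x ^ 2, (hmemF _).2 hxfix⟩
    have hd0 : d ≠ 0 := by
      intro h
      have : (d : AlgebraicClosure K) = 0 := by rw [h]; rfl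
      exact hx0 (pow_eq_zero_iff two_ne_zero |>.1 this)
    have hev : EvenOff2 d := even_of_act2 hxM hd0 rfl
    obtain ⟨T, y, hy⟩ := hspan d hd0 hev
    refine ⟨T, ?_⟩
    have h1 : (x * ∏ i ∈ T, t i) ^ 2 = (y : AlgebraicClosure K) ^ 2 := by
      rw [mul_pow, hprod]
      have h2 := congrArg (fun z : IntermediateField.fixedField U => (z : AlgebraicClosure K)) hy
      have h3 : (d : AlgebraicClosure K) *
          ((∏ i ∈ T, a i : IntermediateField.fixedField U) : AlgebraicClosure K) = y * y := h2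
      rw [pow_two (y : AlgebraicClosure K), ← h3]
    have h4 : act2 U (x * ∏ i ∈ T, t i) = 0 := by
      rw [act2_eq_zero_iff]
      intro g hg
      have hgy : g (y : AlgebraicClosure K) = y := (hmemF _).1 y.2 g hg
      rcases sq_eq_sq_iff_eq_or_eq_neg.1 h1 with h | h
      · rw [h, hgy]
      · rw [h, map_neg, hgy]
    rw [act2_mul hx0 (Finset.prod_ne_zero_iff.2 fun i _ => h0 i) hxfix (countsK_fix T t hfix)]
      at h4
    funext g
    have h5 := congrFun h4 g
    rw [Pi.add_apply, Pi.zero_apply] at h5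
    revert h5
    generalize act2 U x g = α
    generalize act2 U (∏ i ∈ T, t i) g = β
    revert α β
    decide

theorem countsK {q : ℕ} {s : K} (hK : IsBase K q s) : Counts (goodSys K) := by
  classical
  intro U hU
  obtain ⟨t, hSU, hInM, hfix, hind, hspan⟩ := countsK_core hK hU
  have h0 : ∀ i, t i ≠ 0 := fun i => (hSU i).1
  let b : Fin (U.index + 2) → homs (goodSys K) U := fun i =>
    ⟨act2 U (t i), act2_mem hU (h0 i) (hInM i) (hfix i)⟩
  have hli : LinearIndependent (ZMod 2) b := by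
    apply LinearIndependent.of_comp (homs (goodSys K) U).subtype
    rw [linearIndependent_iff']
    intro S g hg i hi
    by_contra hcon
    have hz2 : ∀ a : ZMod 2, a ≠ 0 → a = 1 := by decide
    have h1 : ∑ i ∈ S.filter (fun i => g i ≠ 0), act2 U (t i) = 0 := by
      rw [← hg, Finset.sum_filter]
      refine Finset.sum_congr rfl fun j _ => ?_
      by_cases hj : g j = 0
      · rw [if_neg (by simpa using hj), hj, zero_smul]
      · rw [if_pos hj, hz2 _ hj, one_smul]
        rfl
    rw [← countsK_sum _ t h0 hfix] at h1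
    have h2 := hind _ h1
    have h3 : i ∈ S.filter (fun i => g i ≠ 0) := Finset.mem_filter.2 ⟨hi, hcon⟩
    rw [h2] at h3
    exact absurd h3 (Finset.notMem_empty _)
  have hsp : ⊤ ≤ Submodule.span (ZMod 2) (Set.range b) := by
    rintro ⟨ψ, hψ⟩ -
    obtain ⟨T, hT⟩ := hspan ψ hψ
    have h1 : (⟨ψ, hψ⟩ : homs (goodSys K) U) = ∑ i ∈ T, b i := by
      apply Subtype.ext
      rw [Submodule.coe_sum]
      show ψ = ∑ i ∈ T, act2 U (t i)
      rw [← countsK_sum _ t h0 hfix, hT]
    rw [h1]
    exact Submodule.sum_mem _ fun i _ => Submodule.subset_span ⟨i, rfl⟩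
  let B := Module.Basis.mk hli hsp
  refine ⟨Module.Finite.of_basis B, ?_⟩
  rw [Module.finrank_eq_card_basis B, Fintype.card_fin]

theorem exists_su {q : ℕ} {s : K} (hK : IsBase K q s) {U : Subgroup (AbsGal K)}
    (hU : Opn (goodSys K) U) {ψ : AbsGal K → ZMod 2} (hψ : ψ ∈ homs (goodSys K) U) :
    ∃ t : AlgebraicClosure K, SU t ∧ InM t ∧ (∀ g ∈ U, g (t ^ 2) = t ^ 2) ∧ ψ = act2 U t := by
  obtain ⟨t, hSU, hInM, hfix, -, hspan⟩ := countsK_core hK hU
  obtain ⟨T, hT⟩ := hspan ψ hψ
  exact ⟨_, SU.prod T t fun i _ => hSU i, countsK_InM_prod T t hInM, countsK_fix T t hfix, hT⟩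

end Pool.Agent.Work.MP_787500_nt.PA
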