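import Mathlib
import Pool.Agent.Work.MP_787500_nt.PA.FDefs

/-!
# Module FOUR (size S-M): calculus modulo 4

* `ip`: `imI K` has order 4 (`imI ^ 2 = -1 ≠ 1`, characteristic zero), so `ip` is a homomorphism from
  `ZMod 4` to the units (`ZMod.val_add`, `pow_mod_orderOf` or `pow_eq_pow_mod`), injective.
* `gal_ip`: `g (imI K)` is `imI K ^ (c4 g).val`: use `cyclotomicCharacter.spec` (with `n = 2`) or
  `cyclotomicCharacter.toZModPow`, for the primitive root `imI K` of order `2 ^ 2`; then
  `g (imI ^ a) = imI ^ (c4 g * a)`.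
* `exists_ip`: `(x / y) ^ 4 = 1`, so `x / y` is a power of `imI K` (`IsPrimitiveRoot.eq_pow_of_pow_eq_one`).
* `red4`: `PadicInt.ker_toZModPow`; `toZMod` and `toZModPow` are compatible: any two ring homomorphisms
  from `ℤ_[2]` to `ZMod 2` are equal (both have kernel the maximal ideal and `x = ε + 2 y` with
  `ε ∈ {0, 1}`).
* `r2 (c4 g) = 1`: `cyc g` is a unit, so `toZMod (cyc g) ≠ 0`.
* `cobMod_two_iff`: compose with `red4`, resp. `lift4` (a smooth function stays smooth).
-/

set_option autoImplicit false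
set_option linter.unusedSectionVars false

namespace Pool.Agent.Work.MP_787500_nt.PA

open IsDedekindDomain NumberField

universe u

variable {K : Type u} [Field K]

theorem ip_zero : ip K 0 = 1 := by
  simp [ip]

private theorem four_imI4 : imI K ^ 4 = 1 := by
  have : imI K ^ 4 = (imI K ^ 2) ^ 2 := by ring
  rw [this, imI_sq]
  ring

private theorem four_mod (n : ℕ) : imI K ^ n = imI K ^ (n % 4) := by
  conv_lhs => rw [← Nat.div_add_mod n 4, pow_add, pow_mul, four_imI4, one_pow, one_mul]

private theorem four_ip_natCast (n : ℕ) : ip K (n : ZMod 4) = imI K ^ n := by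
  rw [ip, ZMod.val_natCast, ← four_mod]

theorem ip_add (a b : ZMod 4) : ip K (a + b) = ip K a * ip K b := by
  rw [ip, ip, ip, ZMod.val_add, ← four_mod, pow_add]

private theorem four_imI_ne : imI K ≠ 0 := by
  intro h
  have h2 := imI_sq K
  rw [h] at h2
  norm_num at h2

theorem ip_ne_zero (a : ZMod 4) : ip K a ≠ 0 := by
  rw [ip]
  exact pow_ne_zero _ four_imI_ne

theorem ip_pow (a : ZMod 4) (n : ℕ) : ip K a ^ n = ip K (n * a) := by
  induction n with
  | zero => rw [pow_zero, Nat.cast_zero, zero_mul, ip_zero]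
  | succ n ih => rw [pow_succ, ih, ← ip_add, Nat.cast_succ, add_mul, one_mul]

theorem ip_sum {ι : Type*} (T : Finset ι) (f : ι → ZMod 4) :
    ∏ i ∈ T, ip K (f i) = ip K (∑ i ∈ T, f i) := by
  classical
  induction T using Finset.induction_on with
  | empty => simp [ip_zero]
  | insert a s ha ih => rw [Finset.prod_insert ha, Finset.sum_insert ha, ip_add, ih]

section zero

variable [CharZero K]

private theorem four_charZero : CharZero (AlgebraicClosure K) :=
  charZero_of_injective_algebraMap (algebraMap K (AlgebraicClosure K)).injective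

private theorem four_neg_one_ne : (-1 : AlgebraicClosure K) ≠ 1 := by
  have := four_charZero (K := K)
  norm_num

private theorem four_prim : IsPrimitiveRoot (imI K) 4 := by
  rw [IsPrimitiveRoot.iff_orderOf]
  have h : orderOf (imI K) = 2 ^ 2 := by
    apply orderOf_eq_prime_pow
    · rw [pow_one, imI_sq]
      exact four_neg_one_ne
    · exact four_imI4
  simpa using h

theorem ip_injective : Function.Injective (ip K) := by
  intro a b h
  have := (four_prim (K := K)).pow_inj (ZMod.val_lt a) (ZMod.val_lt b) h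
  exact ZMod.val_injective 4 this

theorem ip_sq_eq_one_iff (a : ZMod 4) : ip K a ^ 2 = 1 ↔ r2 a = 0 := by
  rw [ip_pow]
  constructor
  · intro h
    have h1 : ((2 : ℕ) : ZMod 4) * a = 0 := by
      apply ip_injective (K := K)
      rw [h, ip_zero]
    revert h1
    clear h
    revert a
    decide
  · intro h
    have h1 : ((2 : ℕ) : ZMod 4) * a = 0 := by
      revert h
      revert a
      decide
    rw [h1, ip_zero]

theorem ip_pow_four (a : ZMod 4) : ip K a ^ 4 = 1 := by
  rw [ip, ← pow_mul, mul_comm, pow_mul, four_imI4, one_pow]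

theorem gal_ip (g : AbsGal K) (a : ZMod 4) : g (ip K a) = ip K (c4 g * a) := by
  have h1 : g (imI K) = imI K ^ (c4 g).val := by
    have := four_charZero (K := K)
    exact cyclotomicCharacter.spec 2 (n := 2) (g : AlgebraicClosure K ≃+* AlgebraicClosure K)
      (imI K) four_imI4
  rw [ip, map_pow, h1, ← pow_mul, ip, ZMod.val_mul, ← four_mod]

theorem exists_ip {x y : AlgebraicClosure K} (hy : y ≠ 0) (h : x ^ 4 = y ^ 4) :
    ∃ a : ZMod 4, x = ip K a * y := by
  have h1 : (x / y) ^ 4 = 1 := by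
    rw [div_pow, h, div_self (pow_ne_zero 4 hy)]
  obtain ⟨i, hi, hi'⟩ := (four_prim (K := K)).eq_pow_of_pow_eq_one h1
  refine ⟨(i : ZMod 4), ?_⟩
  rw [four_ip_natCast, hi', div_mul_cancel₀ _ hy]

theorem conj_ip {c : AlgebraicClosure K ≃+* AlgebraicClosure K} (hc : c (imI K) = -imI K)
    (a : ZMod 4) : c (ip K a) = ip K (-a) := by
  have h1 : c (ip K a) * ip K a = 1 := by
    rw [ip, map_pow, hc, ← mul_pow]
    have : -imI K * imI K = 1 := by
      have := imI_sq K
      linear_combination -this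
    rw [this, one_pow]
  have h2 : ip K (-a) * ip K a = 1 := by
    rw [← ip_add, neg_add_cancel, ip_zero]
  exact mul_right_cancel₀ (ip_ne_zero a) (h1.trans h2.symm)

end zero

theorem red4_eq_zero_iff (x : ℤ_[2]) : red4 x = 0 ↔ (2 : ℤ_[2]) ^ 2 ∣ x := by
  have h1 : x ∈ RingHom.ker (PadicInt.toZModPow (p := 2) 2) ↔ red4 x = 0 := RingHom.mem_ker
  rw [← h1, PadicInt.ker_toZModPow, Ideal.mem_span_singleton]
  norm_num

theorem red4_lift4 (a : ZMod 4) : red4 (lift4 a) = a := by
  rw [lift4, map_natCast]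
  exact ZMod.natCast_zmod_val a

private theorem four_toZMod_eq_zero (x : ℤ_[2]) : PadicInt.toZMod x = (0 : ZMod 2) ↔ (2 : ℤ_[2]) ∣ x := by
  have h1 : x ∈ RingHom.ker (PadicInt.toZMod (p := 2)) ↔ PadicInt.toZMod x = (0 : ZMod 2) :=
    RingHom.mem_ker
  rw [← h1, PadicInt.ker_toZMod, PadicInt.maximalIdeal_eq_span_p, Ideal.mem_span_singleton]
  norm_num

theorem r2_red4 (x : ℤ_[2]) : r2 (red4 x) = PadicInt.toZMod x := by
  have key : ∀ (f g : ℤ_[2] →+* ZMod 2), (∀ y, (2 : ℤ_[2]) ∣ y → f y = 0) →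
      (∀ y, (2 : ℤ_[2]) ∣ y → g y = 0) → f x = g x := by
    intro f g hf hg
    have h : (2 : ℤ_[2]) ∣ x ∨ (2 : ℤ_[2]) ∣ x - 1 := by
      rw [← four_toZMod_eq_zero, ← four_toZMod_eq_zero, map_sub, map_one]
      generalize PadicInt.toZMod x = t
      revert t
      decide
    rcases h with h | h
    · rw [hf x h, hg x h]
    · have h1 := hf _ h
      have h2 := hg _ h
      rw [map_sub, map_one, sub_eq_zero] at h1 h2
      rw [h1, h2]
  refine key (r2.comp red4) PadicInt.toZMod ?_ ?_
  · rintro y ⟨z, rfl⟩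
    rw [map_mul, map_ofNat]
    have : (2 : ZMod 2) = 0 := by decide
    rw [show (OfNat.ofNat 2 : ZMod 2) = 0 from this, zero_mul]
  · intro y hy
    exact (four_toZMod_eq_zero y).2 hy

theorem c4_mul (g h : AbsGal K) : c4 (g * h) = c4 g * c4 h := by
  rw [c4, c4, c4, ← map_mul]
  congr 1
  rw [cyc, cyc, cyc]
  have : ((g * h : AbsGal K) : AlgebraicClosure K ≃+* AlgebraicClosure K) =
      (g : AlgebraicClosure K ≃+* AlgebraicClosure K) * (h : AlgebraicClosure K ≃+* AlgebraicClosure K) := rfl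
  rw [this, map_mul, Units.val_mul]

theorem r2_c4 (g : AbsGal K) : r2 (c4 g) = 1 := by
  rw [c4, r2_red4]
  have h : PadicInt.toZMod (cyc g) ≠ (0 : ZMod 2) := by
    have hu : IsUnit (cyc g) := Units.isUnit _
    exact (hu.map PadicInt.toZMod).ne_zero
  revert h
  generalize PadicInt.toZMod (cyc g) = t
  revert t
  decide

theorem cobMod_two_iff {K : Type u} [Field K] [NumberField K]
    {f : AbsGal K → AbsGal K → ℤ_[2]} :
    CobMod (goodSys K) cyc 2 f ↔ ∃ z : AbsGal K → ZMod 4, Sm1 (goodSys K) z ∧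
      ∀ g h, red4 (f g h) = z g + c4 g * z h - z (g * h) := by
  constructor
  · rintro ⟨z, ⟨W, hW, hz⟩, h⟩
    refine ⟨fun g => red4 (z g), ⟨W, hW, fun g w hw => by simp only [hz g w hw]⟩, fun g k => ?_⟩
    have h1 := (red4_eq_zero_iff _).2 (h g k)
    rw [map_sub, sub_eq_zero] at h1
    rw [h1, dd, map_sub, map_add, map_mul]
    rfl
  · rintro ⟨z, ⟨W, hW, hz⟩, h⟩
    refine ⟨fun g => lift4 (z g), ⟨W, hW, fun g w hw => by simp only [hz g w hw]⟩, fun g k => ?_⟩
    rw [← red4_eq_zero_iff, map_sub, sub_eq_zero, h, dd, map_sub, map_add, map_mul, red4_lift4,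
      red4_lift4, red4_lift4]
    rfl

end Pool.Agent.Work.MP_787500_nt.PA
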