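import Mathlib
import Pool.Agent.Work.MP_787500_nt.PA.LocA
import Pool.Agent.Work.MP_787500_nt.H10_LocSq

/-!
# Module LOCB (size M): the place of a finite extension inside the algebraic closure of the completion

`N` from `krasner`. For `x` in `𝓞 F`, `N (ι x) ≤ 1` (integral over `ℤ`, `N` is multiplicative and
nonarchimedean and `N n ≤ 1` for integers `n`, by the fifth property: `Valued.v (n) ≤ 1`). The set
`{x ∈ 𝓞 F | N (ι x) < 1}` is a prime ideal; it contains 2: `N (1/2) ≤ 1` is false by the fifth property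
(`v` is above 2, `Valued.v (1/2) > 1`), so it is the ideal of a place `w`.
`w.valuation F x ≤ 1 ↔ N (ι x) ≤ 1`: if `w x ≤ 1` then `x = a / b` with `a, b ∈ 𝓞 F`, `b ∉ w`
(`HeightOneSpectrum.exists_...`, e.g. weak approximation or the localization at `w`), so
`N (ι b) = 1`, `N (ι a) ≤ 1`; if `w x > 1` then `w x⁻¹ < 1`, `x⁻¹ = a / b` with `a ∈ w`, `b ∉ w`, and
`N (ι x⁻¹) < 1`. Hence `w x < w y ↔ N (ι x) < N (ι y)` (`y ≠ 0`).
Let `LocSq (w.valuation F) z`, `z ≠ 0`, `t ^ 2 = z`: take `y : F` with `w (z - y ^ 2) < w (4 z)`; then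
`N (ι (y ^ 2 - z)) < N (4 (ι t) ^ 2)`. Let `g ∈ decomp ι` fix `F` and `τ` extend it (`τ (ι x) = ι (g x)`).
`krasner` with `u = ι y`, the element `ι t` in the role of `y` and `x = ι (y ^ 2 - z)`: `τ (ι y) = ι y`, so
`τ (ι t) = ι t`, and `g t = t` (`ι` injective).
-/

set_option autoImplicit false

namespace Pool.Agent.Work.MP_787500_nt.PA

open IsDedekindDomain NumberField

universe u

variable {K : Type u} [Field K] [NumberField K]

theorem exists_place {v : HeightOneSpectrum (𝓞 K)} (hv : (2 : 𝓞 K) ∈ v.asIdeal)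
    (ι : AlgebraicClosure K →ₐ[K] AlgebraicClosure (v.adicCompletion K))
    (F : IntermediateField K (AlgebraicClosure K)) [NumberField F] :
    ∃ w : HeightOneSpectrum (𝓞 F), (2 : 𝓞 F) ∈ w.asIdeal ∧
      ∀ z : F, z ≠ 0 → LocSq (w.valuation F) z → ∀ t : AlgebraicClosure K, t ^ 2 = (z : AlgebraicClosure K) →
        ∀ g ∈ decomp ι, (∀ x : F, g x = x) → g t = t := by
  obtain ⟨N, n1, n2, n3, n4, n5, n6⟩ := krasner ι
  have hneg := norm_neg_locA N n1 n3 n4
  have hN0 : N 0 = 0 := (n4 0).2 rfl
  have hN1 : N 1 = 1 := by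
    have h := n1 1 1
    rw [mul_one] at h
    have hne : N 1 ≠ 0 := fun h' => one_ne_zero ((n4 1).1 h')
    exact (mul_left_cancel₀ hne (h.symm.trans (mul_one _).symm))
  -- the valuation of `F`
  let V : Valuation F NNReal :=
    { toFun := fun x => Real.toNNReal (N (ι (x : AlgebraicClosure K)))
      map_zero' := by
        rw [ZeroMemClass.coe_zero, map_zero, hN0, Real.toNNReal_zero]
      map_one' := by
        rw [OneMemClass.coe_one, map_one, hN1, Real.toNNReal_one]
      map_mul' := fun x y => by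
        rw [MulMemClass.coe_mul, map_mul, n1, Real.toNNReal_mul (n3 _)]
      map_add_le_max' := fun x y => by
        rw [AddMemClass.coe_add, map_add, le_max_iff]
        rcases le_max_iff.1 (n2 (ι (x : AlgebraicClosure K)) (ι (y : AlgebraicClosure K))) with h | h
        · exact Or.inl (Real.toNNReal_mono h)
        · exact Or.inr (Real.toNNReal_mono h) }
  have hV : ∀ x : F, ((V x : NNReal) : ℝ) = N (ι (x : AlgebraicClosure K)) :=
    fun x => Real.coe_toNNReal _ (n3 _)
  have hint : ∀ x : 𝓞 F, V (algebraMap (𝓞 F) F x) ≤ 1 := by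
    intro x
    have h1 : IsIntegral ℤ (algebraMap (𝓞 F) F x) := RingOfIntegers.isIntegral_coe x
    have h2 : IsIntegral V.integer (algebraMap (𝓞 F) F x) := h1.tower_top
    exact (Valuation.integer.integers V).mem_of_integral h2
  have hv2 : Valued.v (2 : v.adicCompletion K) < 1 := by
    have h1 : Valued.v ((algebraMap K (v.adicCompletion K)) 2) = v.valuation K 2 :=
      HeightOneSpectrum.valuedAdicCompletion_eq_valuation' v 2
    rw [map_ofNat] at h1
    rw [h1]
    have h2 := (HeightOneSpectrum.valuation_lt_one_iff_mem v (K := K) (2 : 𝓞 K)).2 hv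
    have h3 : algebraMap (𝓞 K) K 2 = 2 := map_ofNat _ 2
    change v.valuation K (algebraMap (𝓞 K) K 2) < 1 at h2
    rwa [h3] at h2
  have hN2 : N (2 : AlgebraicClosure (v.adicCompletion K)) < 1 := by
    by_contra hcon
    rw [not_lt] at hcon
    have h20 : (2 : v.adicCompletion K) ≠ 0 := by
      have : CharZero (v.adicCompletion K) :=
        charZero_of_injective_algebraMap (algebraMap K (v.adicCompletion K)).injective
      exact two_ne_zero
    have h1 : N (algebraMap _ (AlgebraicClosure (v.adicCompletion K)) (2 : v.adicCompletion K)⁻¹) ≤ 1 := by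
      have h3 : N (algebraMap _ (AlgebraicClosure (v.adicCompletion K)) (2 : v.adicCompletion K)⁻¹) * N 2 = 1 := by
        rw [← n1, map_inv₀, map_ofNat, inv_mul_cancel₀, hN1]
        have : (algebraMap _ (AlgebraicClosure (v.adicCompletion K)) (2 : v.adicCompletion K)) ≠ 0 :=
          (map_ne_zero _).2 h20
        rwa [map_ofNat] at this
      have h4 := n3 (algebraMap _ (AlgebraicClosure (v.adicCompletion K)) (2 : v.adicCompletion K)⁻¹)
      nlinarith
    have h2 := (n5 _).1 h1
    rw [map_inv₀] at h2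
    have h3 : (1 : WithZero (Multiplicative ℤ)) < (Valued.v (2 : v.adicCompletion K))⁻¹ := by
      rw [one_lt_inv₀]
      · exact hv2
      · exact zero_lt_iff.2 ((Valuation.ne_zero_iff _).2 h20)
    exact absurd h2 (not_le.2 h3)
  let P : Ideal (𝓞 F) :=
    { carrier := {x | V (algebraMap (𝓞 F) F x) < 1}
      add_mem' := fun {a b} ha hb => by
        show V (algebraMap (𝓞 F) F (a + b)) < 1
        rw [map_add]
        exact lt_of_le_of_lt (V.map_add _ _) (max_lt ha hb)
      zero_mem' := by
        show V (algebraMap (𝓞 F) F 0) < 1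
        rw [map_zero, map_zero]
        exact one_pos
      smul_mem' := fun c x hx => by
        show V (algebraMap (𝓞 F) F (c • x)) < 1
        rw [smul_eq_mul, map_mul, map_mul]
        exact mul_lt_one_of_nonneg_of_lt_one_right (hint c) zero_le hx }
  have hmemP : ∀ x : 𝓞 F, x ∈ P ↔ V (algebraMap (𝓞 F) F x) < 1 := fun x => Iff.rfl
  have hP : P.IsPrime := by
    refine ⟨?_, ?_⟩
    · rw [Ideal.ne_top_iff_one, hmemP, map_one, map_one]
      exact lt_irrefl _
    · intro x y hxy
      rw [hmemP, hmemP]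
      by_contra hcon
      push Not at hcon
      have h1 : V (algebraMap (𝓞 F) F x) = 1 := le_antisymm (hint x) hcon.1
      have h2 : V (algebraMap (𝓞 F) F y) = 1 := le_antisymm (hint y) hcon.2
      rw [hmemP, map_mul, map_mul, h1, h2, mul_one] at hxy
      exact lt_irrefl _ hxy
  have hP2 : (2 : 𝓞 F) ∈ P := by
    rw [hmemP, ← NNReal.coe_lt_coe, hV, map_ofNat]
    have : ι (((2 : F)) : AlgebraicClosure K) = 2 := by
      rw [show ((2 : F) : AlgebraicClosure K) = 2 from rfl, map_ofNat]
    rw [this]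
    exact hN2
  have hPbot : P ≠ ⊥ := by
    intro h
    rw [h, Ideal.mem_bot] at hP2
    exact two_ne_zero hP2
  let w : HeightOneSpectrum (𝓞 F) := ⟨P, hP, hPbot⟩
  have hlt : ∀ x : F, w.valuation F x < 1 → V x < 1 := by
    intro x hx
    obtain ⟨n, d, hnd⟩ := HeightOneSpectrum.exists_primeCompl_mul_eq_of_integer w x hx.le
    have hd : (d : 𝓞 F) ∉ P := d.2
    have hd1 : w.valuation F (algebraMap (𝓞 F) F d) = 1 :=
      (HeightOneSpectrum.valuation_eq_one_iff_notMem w).2 hd
    have hVd : V (algebraMap (𝓞 F) F d) = 1 :=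
      le_antisymm (hint d) (not_lt.1 fun h => hd ((hmemP _).2 h))
    have hn : n ∈ P := by
      rw [← HeightOneSpectrum.valuation_lt_one_iff_mem w (K := F)]
      show w.valuation F (algebraMap (𝓞 F) F n) < 1
      rw [← hnd, map_mul, hd1, mul_one]
      exact hx
    have := (hmemP n).1 hn
    rw [← hnd, map_mul, hVd, mul_one] at this
    exact this
  refine ⟨w, hP2, ?_⟩
  intro z hz hsq t ht g hg hfix
  have h4z : (4 : F) * z ≠ 0 := mul_ne_zero (by norm_num) hz
  obtain ⟨y, hy⟩ := hsq (w.valuation F (4 * z)) ((Valuation.ne_zero_iff _).2 h4z)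
  have h1 : V ((z - y ^ 2) / (4 * z)) < 1 := by
    apply hlt
    rw [map_div₀]
    exact (div_lt_one₀ (zero_lt_iff.2 ((Valuation.ne_zero_iff _).2 h4z))).2 hy
  have h2 : V (z - y ^ 2) < V (4 * z) := by
    rw [map_div₀] at h1
    exact (div_lt_one₀ (zero_lt_iff.2 ((Valuation.ne_zero_iff _).2 h4z))).1 h1
  rw [← NNReal.coe_lt_coe, hV, hV] at h2
  obtain ⟨τ, hτ⟩ := hg
  have hιt : ι t ^ 2 = ι (z : AlgebraicClosure K) := by rw [← map_pow, ht]
  have ht0 : ι t ≠ 0 := by
    intro h
    rw [h, zero_pow two_ne_zero] at hιt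
    have h3 : (z : AlgebraicClosure K) = 0 := by
      apply ι.toRingHom.injective
      show ι (z : AlgebraicClosure K) = ι 0
      rw [map_zero, hιt]
    exact hz (by exact_mod_cast h3)
  have h3 := n6 (ι (y : AlgebraicClosure K))
    (ι (((y ^ 2 - z : F)) : AlgebraicClosure K)) (ι t) ht0 (by
      rw [hιt]
      push_cast
      rw [map_sub, map_pow]
      ring) (by
      have e1 : ι (((y ^ 2 - z : F)) : AlgebraicClosure K) =
          -ι (((z - y ^ 2 : F)) : AlgebraicClosure K) := by
        rw [← map_neg]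
        congr 1
        push_cast
        ring
      have e2 : 4 * ι t ^ 2 = ι ((4 * z : F) : AlgebraicClosure K) := by
        rw [hιt]
        rw [show ((4 * z : F) : AlgebraicClosure K) = 4 * (z : AlgebraicClosure K) from rfl,
          map_mul, map_ofNat]
      rw [e1, hneg, e2]
      exact h2) τ (by
      rw [hιt, hτ, hfix z]) (by
      rw [← map_pow, hτ, ← SubmonoidClass.coe_pow, hfix])
  have h4 : τ (ι (y : AlgebraicClosure K)) = ι (y : AlgebraicClosure K) := by
    rw [hτ, hfix y]
  have h5 := h3.1 h4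
  rw [hτ] at h5
  exact ι.toRingHom.injective h5

end Pool.Agent.Work.MP_787500_nt.PA
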