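import Mathlib
import Pool.Agent.Work.MP_787500_nt.PA.LocA
import Pool.Agent.Work.MP_787500_nt.PA.LocB
import Pool.Agent.Work.MP_787500_nt.PA.CountsK

/-!
# Module LOCGLOB (size M): local characters are restrictions of global ones

`F = fixedField U` with `fixedF`, `m = U.index`; `t` from `exists_local_sqrt`, `t ^ 2 = d ∈ F`, `d ≠ 0`
(`mem`: elements fixed by `U`). `a i` from `sel_count`, `t i ^ 2 = a i`, `w` from `exists_place` for `F`.
There is `T` with `LocSq w (d * ∏_T a i)`; `t' = ∏_T t i`; `(t * t') ^ 2 = d * ∏_T a i`, so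
`g (t t') = t t'` for `g ∈ D ⊓ U` (`D = decomp ι`). As `g t = ± t` and `g t' = ± t'`: `g t = t ↔ g t' = t'`.
`ψ = act2 U t' ∈ homs` (`act2_mem`; `InM t'` by `InM.sqrt`: `∏_T a i ∈ F` is fixed by a good subgroup
inside `U`, and `SU`). `lam g = 0 ↔ g t = t ↔ g t' = t' ↔ ψ g = 0`, and the values are in `ZMod 2`.
-/

set_option autoImplicit false

namespace Pool.Agent.Work.MP_787500_nt.PA

open IsDedekindDomain NumberField

universe u

variable {K : Type u} [Field K] [NumberField K]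

theorem loc_glob {q : ℕ} {s : K} (hK : IsBase K q s) {v : HeightOneSpectrum (𝓞 K)}
    (hv : (2 : 𝓞 K) ∈ v.asIdeal)
    (ι : AlgebraicClosure K →ₐ[K] AlgebraicClosure (v.adicCompletion K))
    {U : Subgroup (AbsGal K)} (hU : Opn (goodSys K) U) (lam : AbsGal K → ZMod 2)
    (hmul : ∀ g ∈ decomp ι ⊓ U, ∀ h ∈ decomp ι ⊓ U, lam (g * h) = lam g + lam h)
    (hcont : ∃ U' : Subgroup (AbsGal K), IsOpen (U' : Set (AbsGal K)) ∧
      ∀ g ∈ decomp ι ⊓ U ⊓ U', lam g = 0) :
    ∃ ψ ∈ homs (goodSys K) U, ∀ g ∈ decomp ι ⊓ U, lam g = ψ g := by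
  classical
  obtain ⟨hfd, hfr, hfix, hNF, hTower⟩ := fixedF hU
  obtain ⟨t, ht0, htU, htl⟩ := exists_local_sqrt ι hU.isOpen lam hmul hcont
  have hmemF : ∀ x : AlgebraicClosure K, (∀ g ∈ U, g x = x) →
      x ∈ IntermediateField.fixedField U := by
    intro x hx
    rw [IntermediateField.mem_fixedField_iff]
    exact hx
  have hFmem : ∀ x : IntermediateField.fixedField U, ∀ g ∈ U,
      g (x : AlgebraicClosure K) = x := by
    intro x
    exact (IntermediateField.mem_fixedField_iff _ _).1 x.2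
  obtain ⟨d, hd⟩ : ∃ d : IntermediateField.fixedField U, (d : AlgebraicClosure K) = t ^ 2 :=
    ⟨⟨t ^ 2, hmemF _ htU⟩, rfl⟩
  have hd0 : d ≠ 0 := by
    rintro rfl
    rw [ZeroMemClass.coe_zero] at hd
    exact pow_ne_zero 2 ht0 hd.symm
  obtain ⟨a, hsu, -, hloc, -⟩ := sel_count hK hTower hfr
  obtain ⟨w, hw2, hplace⟩ := exists_place hv ι (IntermediateField.fixedField U)
  obtain ⟨T, hT⟩ := hloc w hw2 d hd0
  set c : IntermediateField.fixedField U := ∏ i ∈ T, a i with hc
  have hcsu : SU c := SU.prod T a fun i _ => hsu i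
  have hcsu' : SU (c : AlgebraicClosure K) :=
    SU.map (algebraMap (IntermediateField.fixedField U) (AlgebraicClosure K)) hcsu
  have hc0 : (c : AlgebraicClosure K) ≠ 0 := hcsu'.1
  have hcF0 : c ≠ 0 := hcsu.1
  obtain ⟨t', ht'⟩ := IsAlgClosed.exists_pow_nat_eq (c : AlgebraicClosure K) (n := 2) (by norm_num)
  have ht'0 : t' ≠ 0 := by
    rintro rfl
    apply hc0
    rw [← ht']
    ring
  have htU' : ∀ g ∈ U, g (t' ^ 2) = t' ^ 2 := by
    intro g hg
    rw [ht']
    exact hFmem c g hg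
  have hInMc : InM (c : AlgebraicClosure K) := by
    obtain ⟨W, hW, hWU⟩ := hU
    exact ⟨W, hW, fun x hx => hFmem c x (hWU hx)⟩
  have hInM : InM t' := InM.sqrt hInMc hcsu' ht'
  refine ⟨act2 U t', act2_mem hU ht'0 hInM htU', fun g hg => ?_⟩
  have hgD : g ∈ decomp ι := hg.1
  have hgU : g ∈ U := hg.2
  have h1 : g (t * t') = t * t' := by
    refine hplace (d * c) (mul_ne_zero hd0 hcF0) hT (t * t') ?_ g hgD fun x => hFmem x g hgU
    rw [mul_pow, ← hd, ht']
    rfl
  rw [map_mul] at h1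
  have h2 : g t = t ∨ g t = -t := by
    rw [← sq_eq_sq_iff_eq_or_eq_neg, ← map_pow]
    exact htU g hgU
  have h3 : g t' = t' ∨ g t' = -t' := by
    rw [← sq_eq_sq_iff_eq_or_eq_neg, ← map_pow]
    exact htU' g hgU
  have h4 : g t = t ↔ g t' = t' := by
    constructor
    · intro h
      rw [h] at h1
      exact mul_left_cancel₀ ht0 h1
    · intro h
      rw [h] at h1
      exact mul_right_cancel₀ ht'0 h1
  have h5 : act2 U t' g = 0 ↔ g t' = t' := by
    simp only [act2]
    split_ifs with h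
    · simp only [one_ne_zero, false_iff]
      exact h.2
    · simp only [true_iff]
      by_contra h6
      exact h ⟨hgU, h6⟩
  have h6 : lam g = 0 ↔ act2 U t' g = 0 := by
    rw [htl g hg, h4, h5]
  have h7 : ∀ x y : ZMod 2, (x = 0 ↔ y = 0) → x = y := by decide
  exact h7 _ _ h6

end Pool.Agent.Work.MP_787500_nt.PA
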