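import Mathlib
import Pool.Agent.Work.MP_787500_nt.PA.Stab
import Pool.Agent.Work.MP_787500_nt.PA.LocGlob

/-!
# Module NOHOM (size M): there are no homomorphisms on the kernel of the decomposition group

`P = decomp ι ⊓ core K`.
* `no_hom`: `μ : P → ZMod 2` a homomorphism, zero on `P ⊓ U'`, `U'` open. We may shrink `U'` to an open
  normal subgroup (`Subgroup.normalCore` of an open subgroup, of finite index, is open and closed).
  `W` from `stab ι hU'`. For `g ∈ D ⊓ W` (`D = decomp ι`) choose `d₀ ∈ P` with `d₀⁻¹ * g ∈ U'` and put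
  `lam g = μ d₀` (independent of the choice: two choices differ by an element of `P ⊓ U'`); `lam = 0`
  outside `D ⊓ W`. `lam` is a homomorphism on `D ⊓ W` (`U'` normal) and zero on `D ⊓ W ⊓ U'`
  (`d₀ = 1`). By `loc_glob` with `U = W` (`Opn`: `W` itself) there is `ψ ∈ homs (goodSys K) W` with
  `lam = ψ` on `D ⊓ W`. `ψ` is smooth: constant on cosets of a good subgroup, which contains `core K`,
  so `ψ g = ψ 1 = 0` for `g ∈ core K`. For `g ∈ P`: `μ g = lam g = ψ g = 0` (`d₀ = g`).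
* `no_homE`: `μ : P → E` continuous and additive, `μ g₀ ≠ 0`. Choose a `ℚ_[2]`-linear (continuous)
  `φ : E → ℚ_[2]` with `φ (μ g₀) ≠ 0` (`FiniteDimensional`). `P` is compact (closed in `AbsGal K`):
  `‖φ (μ g)‖` takes its maximum `2 ^ m` (`m : ℤ`; the norm of a nonzero 2-adic number is a power of 2) at
  some `g₁ ∈ P`. `x g = 2 ^ m * φ (μ g)` has norm at most 1 and `‖x g₁‖ = 1`; `x : P → ℤ_[2]` additive and
  continuous. `μ' g = toZMod (x g)` (0 off `P`) is a homomorphism on `P` with `μ' g₁ ≠ 0`, and vanishes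
  on `P ⊓ U'` for an open subgroup `U'` (continuity at 1, `‖x g‖ < 1`). Contradiction to `no_hom`.
-/

set_option autoImplicit false

namespace Pool.Agent.Work.MP_787500_nt.PA

open IsDedekindDomain NumberField

universe u

variable {K : Type u} [Field K] [NumberField K]

theorem no_hom {q : ℕ} {s : K} (hK : IsBase K q s) {v : HeightOneSpectrum (𝓞 K)}
    (hv : (2 : 𝓞 K) ∈ v.asIdeal)
    (ι : AlgebraicClosure K →ₐ[K] AlgebraicClosure (v.adicCompletion K)) (μ : AbsGal K → ZMod 2)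
    (hmul : ∀ g ∈ decomp ι ⊓ core K, ∀ h ∈ decomp ι ⊓ core K, μ (g * h) = μ g + μ h)
    (hcont : ∃ U' : Subgroup (AbsGal K), IsOpen (U' : Set (AbsGal K)) ∧
      ∀ g ∈ decomp ι ⊓ core K ⊓ U', μ g = 0) {g : AbsGal K} (hg : g ∈ decomp ι ⊓ core K) :
    μ g = 0 := by
  classical
  obtain ⟨U', hU', hμ0⟩ := hcont
  have hcomp : CompactSpace (AbsGal K) := inferInstance
  have hfin : Finite (AbsGal K ⧸ U') := Subgroup.quotient_finite_of_isOpen U' hU'
  have hfi : U'.FiniteIndex := Subgroup.finiteIndex_of_finite_quotient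
  have hN1 : IsClosed (U'.normalCore : Set (AbsGal K)) :=
    Subgroup.normalCore_isClosed U' (Subgroup.isClosed_of_isOpen U' hU')
  have hN : IsOpen (U'.normalCore : Set (AbsGal K)) :=
    Subgroup.isOpen_of_isClosed_of_finiteIndex _ hN1
  have hNle : U'.normalCore ≤ U' := U'.normalCore_le
  have hNn : U'.normalCore.Normal := U'.normalCore_normal
  obtain ⟨W, hW, hst⟩ := stab ι hN
  choose! δ hδ1 hδ2 using hst
  let lam : AbsGal K → ZMod 2 := fun g => if g ∈ decomp ι ⊓ W then μ (δ g) else 0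
  have key : ∀ g ∈ decomp ι ⊓ W, ∀ d₀ ∈ decomp ι ⊓ core K, d₀⁻¹ * g ∈ U'.normalCore →
      lam g = μ d₀ := by
    intro g hg d₀ hd₀ hd
    have h1 : lam g = μ (δ g) := if_pos hg
    have h2 : d₀⁻¹ * δ g ∈ decomp ι ⊓ core K :=
      (decomp ι ⊓ core K).mul_mem ((decomp ι ⊓ core K).inv_mem hd₀) (hδ1 g hg)
    have h3 : d₀⁻¹ * δ g ∈ U'.normalCore := by
      have := U'.normalCore.mul_mem hd (U'.normalCore.inv_mem (hδ2 g hg))
      rw [_root_.mul_inv_rev, inv_inv] at this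
      simpa [mul_assoc] using this
    have h4 := hmul d₀ hd₀ _ h2
    rw [mul_inv_cancel_left, hμ0 _ ⟨h2, hNle h3⟩, add_zero] at h4
    rw [h1, h4]
  have hone : (1 : AbsGal K) ∈ decomp ι ⊓ core K := Subgroup.one_mem _
  have hμ1 : μ 1 = 0 := hμ0 1 ⟨hone, U'.one_mem⟩
  obtain ⟨ψ, hψ, hlam⟩ := loc_glob hK hv ι (U := W) ⟨W, hW, le_rfl⟩ lam (by
      intro a ha b hb
      rw [key a ha _ (hδ1 a ha) (hδ2 a ha), key b hb _ (hδ1 b hb) (hδ2 b hb),
        ← hmul _ (hδ1 a ha) _ (hδ1 b hb)]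
      apply key _ ((decomp ι ⊓ W).mul_mem ha hb) _
        ((decomp ι ⊓ core K).mul_mem (hδ1 a ha) (hδ1 b hb))
      have h1 : (δ a * δ b)⁻¹ * (a * b) = ((δ b)⁻¹ * ((δ a)⁻¹ * a) * δ b) * ((δ b)⁻¹ * b) := by
        group
      rw [h1]
      refine U'.normalCore.mul_mem ?_ (hδ2 b hb)
      have := hNn.conj_mem _ (hδ2 a ha) (δ b)⁻¹
      rwa [inv_inv] at this)
    ⟨U'.normalCore, hN, by
      rintro a ⟨ha, ha'⟩
      rw [key a ha 1 hone (by rwa [inv_one, one_mul]), hμ1]⟩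
  have hgW : g ∈ decomp ι ⊓ W := ⟨hg.1, core_le hW hg.2⟩
  have h1 : lam g = μ g := key g hgW g hg (by rw [inv_mul_cancel]; exact Subgroup.one_mem _)
  have h2 := hlam g hgW
  obtain ⟨⟨W', hW', h3⟩, h4, h5⟩ := hψ
  have h6 : ψ g = ψ 1 := by
    have := h3 1 g (core_le hW' hg.2)
    rwa [one_mul] at this
  have h7 := h5 1 W.one_mem 1 W.one_mem
  rw [mul_one] at h7
  have h8 : ψ 1 = 0 := by
    have : ψ 1 + 0 = ψ 1 + ψ 1 := by rw [add_zero]; exact h7
    exact (add_left_cancel this).symm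
  rw [← h1, h2, h6, h8]

theorem no_homE {q : ℕ} {s : K} (hK : IsBase K q s) {v : HeightOneSpectrum (𝓞 K)}
    (hv : (2 : 𝓞 K) ∈ v.asIdeal)
    (ι : AlgebraicClosure K →ₐ[K] AlgebraicClosure (v.adicCompletion K))
    {E : Type*} [NormedField E] [NormedAlgebra ℚ_[2] E] [FiniteDimensional ℚ_[2] E]
    (μ : AbsGal K → E)
    (hmul : ∀ g ∈ decomp ι ⊓ core K, ∀ h ∈ decomp ι ⊓ core K, μ (g * h) = μ g + μ h)
    (hcont : ContinuousOn μ ((decomp ι ⊓ core K : Subgroup (AbsGal K)) : Set (AbsGal K)))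
    {g : AbsGal K} (hg : g ∈ decomp ι ⊓ core K) : μ g = 0 := by
  classical
  by_contra hne
  obtain ⟨φ, hφ⟩ : ∃ φ : Module.Dual ℚ_[2] E, φ (μ g) ≠ 0 := by
    by_contra hcon
    push Not at hcon
    exact hne ((Module.forall_dual_apply_eq_zero_iff ℚ_[2] (μ g)).1 hcon)
  have hφc : Continuous φ := LinearMap.continuous_of_finiteDimensional φ
  have hPc : IsClosed ((decomp ι ⊓ core K : Subgroup (AbsGal K)) : Set (AbsGal K)) := by
    rw [Subgroup.coe_inf]
    exact (decomp_closed ι).inter core_closed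
  have hPk : IsCompact ((decomp ι ⊓ core K : Subgroup (AbsGal K)) : Set (AbsGal K)) := hPc.isCompact
  have hfc : ContinuousOn (fun g => φ (μ g))
      ((decomp ι ⊓ core K : Subgroup (AbsGal K)) : Set (AbsGal K)) := hφc.comp_continuousOn hcont
  obtain ⟨g₁, hg₁, hmax⟩ := hPk.exists_isMaxOn ⟨g, hg⟩ hfc.norm
  have hmax' : ∀ h ∈ decomp ι ⊓ core K, ‖φ (μ h)‖ ≤ ‖φ (μ g₁)‖ := fun h hh => hmax hh
  have hne1 : φ (μ g₁) ≠ 0 := by
    intro h
    have h1 := hmax' g hg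
    rw [h, norm_zero] at h1
    exact hφ (norm_le_zero_iff.1 h1)
  let x : AbsGal K → ℚ_[2] := fun h => φ (μ h) / φ (μ g₁)
  have hx1 : ∀ h ∈ decomp ι ⊓ core K, ‖x h‖ ≤ 1 := by
    intro h hh
    show ‖φ (μ h) / φ (μ g₁)‖ ≤ 1
    rw [norm_div, div_le_one (norm_pos_iff.2 hne1)]
    exact hmax' h hh
  have hxadd : ∀ a ∈ decomp ι ⊓ core K, ∀ b ∈ decomp ι ⊓ core K, x (a * b) = x a + x b := by
    intro a ha b hb
    show φ (μ (a * b)) / φ (μ g₁) = φ (μ a) / φ (μ g₁) + φ (μ b) / φ (μ g₁)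
    rw [hmul a ha b hb, map_add, add_div]
  have hy : ∀ h ∈ decomp ι ⊓ core K, ∃ y : ℤ_[2], (y : ℚ_[2]) = x h :=
    fun h hh => ⟨⟨x h, hx1 h hh⟩, rfl⟩
  choose! y hy using hy
  let μ' : AbsGal K → ZMod 2 := fun h => PadicInt.toZMod (y h)
  have hadd : ∀ a ∈ decomp ι ⊓ core K, ∀ b ∈ decomp ι ⊓ core K, μ' (a * b) = μ' a + μ' b := by
    intro a ha b hb
    show PadicInt.toZMod (y (a * b)) = PadicInt.toZMod (y a) + PadicInt.toZMod (y b)
    rw [← map_add]
    congr 1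
    apply Subtype.ext
    rw [PadicInt.coe_add, hy a ha, hy b hb]
    exact (hy _ ((decomp ι ⊓ core K).mul_mem ha hb)).trans (hxadd a ha b hb)
  have hx0 : x 1 = 0 := by
    have h1 := hxadd 1 (Subgroup.one_mem _) 1 (Subgroup.one_mem _)
    rw [mul_one] at h1
    have : x 1 + 0 = x 1 + x 1 := by rw [add_zero]; exact h1
    exact (add_left_cancel this).symm
  have hcont' : ∃ U' : Subgroup (AbsGal K), IsOpen (U' : Set (AbsGal K)) ∧
      ∀ g ∈ decomp ι ⊓ core K ⊓ U', μ' g = 0 := by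
    have hxc : ContinuousWithinAt (fun h => ‖x h‖)
        ((decomp ι ⊓ core K : Subgroup (AbsGal K)) : Set (AbsGal K)) 1 :=
      ((hfc.div_const _).norm) 1 (Subgroup.one_mem _)
    have h1 : {h | ‖x h‖ < 1} ∈ nhdsWithin (1 : AbsGal K)
        ((decomp ι ⊓ core K : Subgroup (AbsGal K)) : Set (AbsGal K)) := by
      refine hxc (Iio_mem_nhds ?_)
      show ‖x 1‖ < 1
      rw [hx0, norm_zero]
      exact one_pos
    rw [mem_nhdsWithin_iff_exists_mem_nhds_inter] at h1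
    obtain ⟨O, hO, hO'⟩ := h1
    obtain ⟨F, hF1, hF2⟩ := (krullTopology_mem_nhds_one_iff K (AlgebraicClosure K) _).1 hO
    refine ⟨F.fixingSubgroup, IntermediateField.fixingSubgroup_isOpen F, ?_⟩
    rintro h ⟨hh, hh'⟩
    have h2 : ‖x h‖ < 1 := hO' ⟨hF2 hh', hh⟩
    have h3 : y h ∈ RingHom.ker (PadicInt.toZMod (p := 2)) := by
      rw [PadicInt.ker_toZMod]
      rw [IsLocalRing.mem_maximalIdeal, PadicInt.mem_nonunits, PadicInt.norm_def, hy h hh]
      exact h2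
    exact h3
  have h1 := no_hom hK hv ι μ' hadd hcont' hg₁
  have h2 : y g₁ = 1 := by
    apply Subtype.ext
    rw [PadicInt.coe_one]
    exact (hy g₁ hg₁).trans (div_self hne1)
  have h3 : PadicInt.toZMod (y g₁) = 0 := h1
  rw [h2, map_one] at h3
  exact one_ne_zero h3

end Pool.Agent.Work.MP_787500_nt.PA
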