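import Mathlib
import Pool.Agent.Work.MP_787500_nt.PA.Symb
import Pool.Agent.Work.MP_787500_nt.PA.Chain
import Pool.Agent.Work.MP_787500_nt.PA.ResKer
import Pool.Agent.Work.MP_787500_nt.PA.NotRes
import Pool.Agent.Work.MP_787500_nt.PA.Transfer

/-!
# Module CLIMB (size M): every class is zero or the symbol

`Counts S`. Claim by induction on `n = W.relIndex U`: for `W` in the system, `W ≤ U`, `α` a smooth
cocycle on `U` with `Cob S W α`: either `Cob S U α` or there are `χ, ω ∈ homs S U` with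
`¬ Cob S U (cup χ ω)` and `Cob S U (α + cup χ ω)`.

If `W = U`: clear. Otherwise take `V` from `exists_between`. `α` is a cocycle on `V`; by induction:
(1) `Cob S V α`. By `res_cob`, `α + cup (chi V U) ψ` is a coboundary on `U`; if `cup (chi V U) ψ` is a
    coboundary then so is `α` (`Cob.add'`, `2 f = 0`), else take `χ = chi V U` (`chi_mem`), `ω = ψ`.
(2) `α + cup χ' ω'` is a coboundary on `V` and `cup χ' ω'` is not (`χ', ω' ∈ homs S V`): contradiction,
    as follows. Choose any `s₀ ∈ U`, `s₀ ∉ V` and `ψ ∈ homs S V` with `cor V U s₀ ψ ≠ 0`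
    (`exists_cor_ne_zero`). By `exists_not_cob` (for `cor ψ ∈ homs S U`, `cor_mem`) there is
    `ω ∈ homs S U` with `¬ Cob S U (cup (cor ψ) ω)`. Claim: there is `s ∈ U`, `s ∉ V` with `ω s = 0`:
    otherwise `ω = 1` on `U \ V`, hence `ω = 0` on `V` (`v = (v s₀) s₀⁻¹`), so `ω = chi V U`; but
    `Cob S U (cup (chi V U) (cor ψ))` by `cup_chi_iff`, so `Cob S U (cup (cor ψ) (chi V U))` by
    `cup_comm`: contradiction. By `cor_indep`, `cor V U s ψ = cor V U s₀ ψ`.
    The restriction `ω_V = fun g => if g ∈ V then ω g else 0` lies in `homs S V` and agrees with `ω` on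
    `V`. `cup ψ ω` is not a coboundary on `V`: else `notres` with `α = 0` gives
    `Cob S U (cup (cor ψ) ω)`. So by `symb_eq` on `V`, `cup ψ ω_V + cup χ' ω'` is a coboundary on `V`;
    adding, `cup ψ ω + α` is a coboundary on `V`, and `notres` gives `Cob S U (cup (cor ψ) ω)`:
    contradiction.

Then `climb` (start with `exists_cob`) and `localType`: `nondeg` is `exists_not_cob` for `U = ⊤`
(`Opn S ⊤`), `one`: both `f`, `f'` are symbols modulo coboundaries, use `symb_eq`.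
-/

set_option autoImplicit false

namespace Pool.Agent.Work.MP_787500_nt.PA

variable {G : Type*} [Group G] {S : TwoSys G}

private lemma cl_two (a : ZMod 2) : a + a = 0 := CharTwo.add_self_eq_zero a

private lemma cl_one : ∀ x : ZMod 2, x ≠ 0 → x = 1 := by decide

private lemma cl_congr {U : Subgroup G} {f f' : G → G → ZMod 2} (h : Cob S U f)
    (he : ∀ g ∈ U, ∀ k ∈ U, f' g k = f g k) : Cob S U f' := by
  obtain ⟨z, hz, h2⟩ := h
  exact ⟨z, hz, fun g hg k hk => by rw [he g hg k hk, h2 g hg k hk]⟩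

private lemma cl_swap {U : Subgroup G} (hU : Opn S U) {χ ω : G → ZMod 2} (hχ : χ ∈ homs S U)
    (hω : ω ∈ homs S U) (h : Cob S U (cup χ ω)) : Cob S U (cup ω χ) := by
  refine cl_congr (Cob.add' h (cup_comm hU hχ hω)) fun g _ k _ => ?_
  have := cl_two (cup χ ω g k)
  linear_combination -this

private theorem cl_contra (hS : Counts S) {V U : Subgroup G} (hVU : V ≤ U) (hV : Opn S V)
    (h2 : V.relIndex U = 2) {α : G → G → ZMod 2} (hα : Coc S U α) {χ' ω' : G → ZMod 2}
    (hχ' : χ' ∈ homs S V) (hω' : ω' ∈ homs S V) (hn : ¬ Cob S V (cup χ' ω'))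
    (hc : Cob S V (fun g h => α g h + cup χ' ω' g h)) : False := by
  classical
  have hU : Opn S U := by
    obtain ⟨W, hW, hle⟩ := hV
    exact ⟨W, hW, hle.trans hVU⟩
  obtain ⟨s₀, hs₀, hs₀'⟩ : ∃ s ∈ U, s ∉ V := by
    by_contra hcon
    push Not at hcon
    have : V.relIndex U = 1 := Subgroup.relIndex_eq_one.2 hcon
    omega
  obtain ⟨ψ, hψ, hψ0⟩ := exists_cor_ne_zero hS hVU hV h2 hs₀ hs₀'
  have hcorm := cor_mem hVU hV h2 hs₀ hs₀' hψ
  obtain ⟨ω, hω, hωn⟩ := exists_not_cob hS hU hcorm hψ0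
  obtain ⟨s, hs, hs', hωs⟩ : ∃ s ∈ U, s ∉ V ∧ ω s = 0 := by
    by_contra hcon
    push Not at hcon
    have h1 : ∀ g ∈ U, g ∉ V → ω g = 1 := fun g hg hg' => cl_one _ (hcon g hg hg')
    have he : ω = chi V U := by
      funext g
      unfold chi
      by_cases hg : g ∈ U
      · by_cases hgV : g ∈ V
        · rw [if_neg (fun h => h.2 hgV)]
          have h3 : g * s₀ ∉ V := fun h => hs₀' ((Subgroup.mul_mem_cancel_left V hgV).1 h)
          have h4 := h1 (g * s₀) (U.mul_mem hg hs₀) h3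
          rw [hω.2.2 g hg s₀ hs₀, h1 s₀ hs₀ hs₀'] at h4
          linear_combination h4
        · rw [if_pos ⟨hg, hgV⟩, h1 g hg hgV]
      · rw [if_neg (fun h => hg h.1), hω.2.1 g hg]
    apply hωn
    rw [he]
    refine cl_swap hU (he ▸ hω) hcorm ?_
    exact (cup_chi_iff hVU hV h2 hs₀ hs₀' hcorm).2 ⟨ψ, hψ, rfl⟩
  have hcs : cor V U s ψ = cor V U s₀ ψ := cor_indep hVU hV h2 hs hs' hs₀ hs₀' hψ
  let ωV : G → ZMod 2 := fun g => if g ∈ V then ω g else 0
  have hωV : ωV ∈ homs S V := by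
    obtain ⟨W₁, hW₁, hle⟩ := hV
    obtain ⟨⟨W₂, hW₂, h1⟩, -, h3⟩ := hω
    refine ⟨⟨W₁ ⊓ W₂, S.inf hW₁ hW₂, fun g w hw => ?_⟩, fun g hg => if_neg hg, fun g hg h hh => ?_⟩
    · have hm : g * w ∈ V ↔ g ∈ V := Subgroup.mul_mem_cancel_right V (hle hw.1)
      simp only [ωV, hm, h1 g w hw.2]
    · simp only [ωV, if_pos hg, if_pos hh, if_pos (V.mul_mem hg hh)]
      exact h3 g (hVU hg) h (hVU hh)
  have hωVe : ∀ g ∈ V, ωV g = ω g := fun g hg => if_pos hg
  have hn2 : ¬ Cob S V (cup ψ ωV) := by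
    intro hcc
    apply hωn
    rw [← hcs]
    obtain ⟨W, hW⟩ := S.ex
    refine notres hVU hV h2 hs hs' hψ hω hωs (α := fun _ _ => 0)
      ⟨⟨W, hW, fun _ _ _ _ _ _ => rfl⟩, fun _ _ _ _ _ _ => rfl⟩ ?_
    refine cl_congr hcc fun g _ k hk => ?_
    simp only [cup, add_zero, hωVe k hk]
  have k1 := symb_eq hS hV hψ hωV hχ' hω' hn2 hn
  apply hωn
  rw [← hcs]
  refine notres hVU hV h2 hs hs' hψ hω hωs hα ?_
  refine cl_congr (Cob.add' k1 hc) fun g _ k hk => ?_
  simp only [cup, hωVe k hk]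
  have := cl_two (χ' g * ω' k)
  linear_combination -this

private theorem cl_key (hS : Counts S) {W : Subgroup G} (hW : S.mem W) :
    ∀ n : ℕ, ∀ U : Subgroup G, W ≤ U → W.relIndex U ≤ n → ∀ α : G → G → ZMod 2, Coc S U α →
      Cob S W α → Cob S U α ∨ ∃ χ ∈ homs S U, ∃ ω ∈ homs S U, ¬ Cob S U (cup χ ω) ∧
      Cob S U (fun g h => α g h + cup χ ω g h) := by
  intro n
  induction n with
  | zero =>
    intro U hWU hn α hα hc
    exfalso
    by_cases hne : W = U
    · rw [hne, Subgroup.relIndex_self] at hn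
      omega
    · obtain ⟨V, -, -, -, h⟩ := exists_between hW hWU hne
      omega
  | succ n ih =>
    intro U hWU hn α hα hc
    by_cases hne : W = U
    · rw [← hne]
      exact Or.inl hc
    obtain ⟨V, hWV, hVU, h2, hlt⟩ := exists_between hW hWU hne
    have hV : Opn S V := ⟨W, hW, hWV⟩
    have hαV : Coc S V α := ⟨hα.1, fun g hg h hh k hk => hα.2 g (hVU hg) h (hVU hh) k (hVU hk)⟩
    rcases ih V hWV (by omega) α hαV hc with h | ⟨χ', hχ', ω', hω', hn', hc'⟩
    · obtain ⟨ψ, hψ, hψc⟩ := res_cob hVU hV h2 hα h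
      by_cases hcc : Cob S U (cup (chi V U) ψ)
      · left
        refine cl_congr (Cob.add' hψc hcc) fun g _ k _ => ?_
        have := cl_two (cup (chi V U) ψ g k)
        linear_combination -this
      · right
        exact ⟨chi V U, chi_mem hVU hV h2, ψ, hψ, hcc, hψc⟩
    · exact (cl_contra hS hVU hV h2 hα hχ' hω' hn' hc').elim

theorem climb (hS : Counts S) {U : Subgroup G} (hU : Opn S U) {α : G → G → ZMod 2}
    (hα : Coc S U α) : Cob S U α ∨ ∃ χ ∈ homs S U, ∃ ω ∈ homs S U, ¬ Cob S U (cup χ ω) ∧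
      Cob S U (fun g h => α g h + cup χ ω g h) := by
  obtain ⟨W, hW, hWU, hc⟩ := exists_cob hU hα
  exact cl_key hS hW _ U hWU le_rfl α hα hc

theorem localType (hS : Counts S) : LocalType S := by
  have hT : Opn S (⊤ : Subgroup G) := by
    obtain ⟨W, hW⟩ := S.ex
    exact ⟨W, hW, le_top⟩
  refine ⟨fun χ hχ h0 => exists_not_cob hS hT hχ h0, fun f f' hf hf' hn hn' => ?_⟩
  rcases climb hS hT hf with h | ⟨χ, hχ, ω, hω, h1, h2⟩
  · exact absurd h hn
  rcases climb hS hT hf' with h | ⟨χ', hχ', ω', hω', h1', h2'⟩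
  · exact absurd h hn'
  have k := symb_eq hS hT hχ hω hχ' hω' h1 h1'
  refine cl_congr (Cob.add' (Cob.add' h2 h2') k) fun g _ k _ => ?_
  have e1 := cl_two (cup χ ω g k)
  have e2 := cl_two (cup χ' ω' g k)
  linear_combination -e1 - e2

end Pool.Agent.Work.MP_787500_nt.PA
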