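import Mathlib
import Pool.Agent.Work.MP_787500_nt.PA.Defs

/-!
# Module MODTWO (size S): 2-adic cochains modulo 2

Reduce modulo 2 with `PadicInt.toZMod` (`2 ∣ x ↔ toZMod x = 0`; `toZMod_eq_zero_iff` in `H10_Coh.lean`,
`PadicInt.ker_toZMod`). As `χ g = 1` modulo 2, `CocMod S χ 1 f` says `Coc S ⊤ (toZMod f)`, and
`CobMod S χ 1 f` says `Cob S ⊤ (toZMod f)` (lift a smooth `z : G → ZMod 2` to `ℤ_[2]` with values 0, 1;
signs do not matter modulo 2). Then use `LocalType.one`.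
* `cobMod_one_iff`: this equivalence.
* `cup_lift`: for two functions `a, b : G → ℤ_[2]` with reductions `a', b'`, and `¬ Cob S ⊤ (cup a' b')`:
  `¬ CobMod S χ 1 (a g * b h)`.
-/

set_option autoImplicit false

namespace Pool.Agent.Work.MP_787500_nt.PA

variable {G : Type*} [Group G] {S : TwoSys G} {χ : G → ℤ_[2]}

private theorem modTwo_iff (x : ℤ_[2]) : (2 : ℤ_[2]) ^ 1 ∣ x ↔ PadicInt.toZMod x = (0 : ZMod 2) := by
  rw [pow_one]
  have h1 : x ∈ RingHom.ker (PadicInt.toZMod (p := 2)) ↔ PadicInt.toZMod x = (0 : ZMod 2) :=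
    RingHom.mem_ker
  rw [← h1, PadicInt.ker_toZMod, PadicInt.maximalIdeal_eq_span_p, Ideal.mem_span_singleton]
  norm_num

private theorem modTwo_chi (hχ : IsChar S χ) (g : G) : PadicInt.toZMod (χ g) = (1 : ZMod 2) := by
  have h := hχ.odd g
  rw [← pow_one (2 : ℤ_[2]), modTwo_iff, map_sub, map_one] at h
  exact sub_eq_zero.1 h

private theorem modTwo_coc (hχ : IsChar S χ) {f : G → G → ℤ_[2]} (hf : CocMod S χ 1 f) :
    Coc S ⊤ (fun g h => PadicInt.toZMod (f g h)) := by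
  obtain ⟨⟨W, hW, h1⟩, h2⟩ := hf
  refine ⟨⟨W, hW, fun g h w hw w' hw' => ?_⟩, fun g _ h _ k _ => ?_⟩
  · have h := (modTwo_iff _).1 (h1 g h w hw w' hw')
    rw [map_sub] at h
    exact sub_eq_zero.1 h
  · have h := (modTwo_iff _).1 (h2 g h k)
    rw [map_sub, map_add, map_add, map_mul, modTwo_chi hχ, one_mul] at h
    exact sub_eq_zero.1 h

theorem cobMod_one_iff (hχ : IsChar S χ) {f : G → G → ℤ_[2]} :
    CobMod S χ 1 f ↔ Cob S ⊤ (fun g h => PadicInt.toZMod (f g h)) := by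
  constructor
  · rintro ⟨z, ⟨W, hW, hz⟩, h⟩
    refine ⟨fun g => PadicInt.toZMod (z g), ⟨W, hW, fun g w hw => by simp only [hz g w hw]⟩,
      fun g _ k _ => ?_⟩
    have h1 := (modTwo_iff _).1 (h g k)
    rw [dd, map_sub, map_sub, map_add, map_mul, modTwo_chi hχ, one_mul] at h1
    show PadicInt.toZMod (f g k) = PadicInt.toZMod (z g) + PadicInt.toZMod (z k) +
      PadicInt.toZMod (z (g * k))
    rw [sub_eq_zero.1 h1, CharTwo.sub_eq_add]
  · rintro ⟨z, ⟨W, hW, hz⟩, h⟩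
    refine ⟨fun g => ((z g).val : ℤ_[2]), ⟨W, hW, fun g w hw => by simp only [hz g w hw]⟩,
      fun g k => ?_⟩
    have h3 : PadicInt.toZMod (f g k) = z g + z k + z (g * k) :=
      h g (Subgroup.mem_top g) k (Subgroup.mem_top k)
    rw [modTwo_iff, dd, map_sub, map_sub, map_add, map_mul, modTwo_chi hχ, one_mul, map_natCast,
      map_natCast, map_natCast, ZMod.natCast_zmod_val, ZMod.natCast_zmod_val,
      ZMod.natCast_zmod_val, h3, CharTwo.sub_eq_add, CharTwo.sub_eq_add]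
    exact CharTwo.add_self_eq_zero _

theorem cobMod_one_sub (hL : LocalType S) (hχ : IsChar S χ) {f f' : G → G → ℤ_[2]}
    (hf : CocMod S χ 1 f) (hf' : CocMod S χ 1 f') (h : ¬ CobMod S χ 1 f)
    (h' : ¬ CobMod S χ 1 f') : CobMod S χ 1 (fun g k => f g k - f' g k) := by
  rw [cobMod_one_iff hχ] at h h' ⊢
  have := hL.one _ _ (modTwo_coc hχ hf) (modTwo_coc hχ hf') h h'
  refine (congrArg (Cob S ⊤) ?_).mp this
  funext g k
  simp only [map_sub]
  rw [CharTwo.sub_eq_add]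

end Pool.Agent.Work.MP_787500_nt.PA
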