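import Mathlib
import Pool.Agent.Work.MP_787500_nt.PA.Sep
import Pool.Agent.Work.MP_787500_nt.PA.ModTwo

/-!
# Module CYCLIC (size M): the second cohomology is a cyclic module over the 2-adic integers

Case A: there is `n0` in `Z2` with `¬ CobMod S χ 1 n0`. Let `f` be in `Z2`. For every `f` in `Z2` there
are `ε ∈ {0, 1}`, `z` smooth, `f'` in `Z2` with `f = ε n0 + dd χ z + 2 f'`: if `CobMod S χ 1 f`, use
`divide` (`ε = 0`), else `CobMod S χ 1 (f - n0)` by `cobMod_one_sub` (`Z2.cocMod`), and `divide`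
(`ε = 1`). Iterate (choose a step function on the subtype of `Z2`): `f_0 = f`,
`f_i = ε_i n0 + dd χ z_i + 2 f_(i+1)`, so
`f = (Σ_(i<n) 2 ^ i ε_i) n0 + dd χ (Σ_(i<n) 2 ^ i z_i) + 2 ^ n f_n`. Let `a = Σ ε_i 2 ^ i` (limit in
`ℤ_[2]`; `2 ^ n ∣ a - Σ_(i<n)`). Then `f - a n0` is `CobMod S χ n` for all `n`, and in `Z2`, so `B2` by
`b2_of_forall`. The last claim holds vacuously.
Case B: all `f` in `Z2` are `CobMod S χ 1`. Take `n0 = 0`. The same iteration with `ε = 0` shows that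
all `f` in `Z2` are `CobMod S χ n` for all `n`, hence `B2`.
-/

set_option autoImplicit false

namespace Pool.Agent.Work.MP_787500_nt.PA

variable {G : Type*} [Group G] {S : TwoSys G} {χ : G → ℤ_[2]}

private lemma cyc_sub {f f' : G → G → ℤ_[2]} (hf : Z2 S χ f) (hf' : Z2 S χ f') :
    Z2 S χ (fun g h => f g h - f' g h) := by
  refine ⟨fun n => ?_, fun g h k => ?_⟩
  · obtain ⟨W, hW, h1⟩ := hf.1 n
    obtain ⟨W', hW', h1'⟩ := hf'.1 n
    refine ⟨W ⊓ W', S.inf hW hW', fun g h w hw w' hw' => ?_⟩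
    have e : f (g * w) (h * w') - f' (g * w) (h * w') - (f g h - f' g h)
        = (f (g * w) (h * w') - f g h) - (f' (g * w) (h * w') - f' g h) := by ring
    simp only
    rw [e]
    exact dvd_sub (h1 g h w hw.1 w' hw'.1) (h1' g h w hw.2 w' hw'.2)
  · have e1 := hf.2 g h k
    have e2 := hf'.2 g h k
    linear_combination e1 - e2

private lemma cyc_smul (a : ℤ_[2]) {f : G → G → ℤ_[2]} (hf : Z2 S χ f) :
    Z2 S χ (fun g h => a * f g h) := by
  refine ⟨fun n => ?_, fun g h k => ?_⟩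
  · obtain ⟨W, hW, h1⟩ := hf.1 n
    refine ⟨W, hW, fun g h w hw w' hw' => ?_⟩
    have e : a * f (g * w) (h * w') - a * f g h = a * (f (g * w) (h * w') - f g h) := by ring
    simp only
    rw [e]
    exact Dvd.dvd.mul_left (h1 g h w hw w' hw') a
  · have e1 := hf.2 g h k
    linear_combination a * e1

private lemma cyc_sm_sum {z : ℕ → G → ℤ_[2]} (hz : ∀ i, Sm1 S (z i)) (c : ℕ → ℤ_[2]) (n : ℕ) :
    Sm1 S (fun g => ∑ i ∈ Finset.range n, c i * z i g) := by
  induction n with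
  | zero =>
    obtain ⟨W, hW⟩ := S.ex
    exact ⟨W, hW, fun _ _ _ => by simp⟩
  | succ n ih =>
    obtain ⟨W, hW, h1⟩ := ih
    obtain ⟨W', hW', h1'⟩ := hz n
    refine ⟨W ⊓ W', S.inf hW hW', fun g w hw => ?_⟩
    have := h1 g w hw.1
    simp only at this
    simp only [Finset.sum_range_succ]
    rw [this, h1' g w hw.2]

private lemma cyc_lim (e : ℕ → ℤ_[2]) :
    ∃ a : ℤ_[2], ∀ n : ℕ, (2 : ℤ_[2]) ^ n ∣ a - ∑ i ∈ Finset.range n, 2 ^ i * e i := by
  have hsum : ∀ e : ℕ → ℤ_[2], Summable fun i => (2 : ℤ_[2]) ^ i * e i := by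
    intro e
    refine Summable.of_norm_bounded (g := fun i => (1 / 2 : ℝ) ^ i)
      (summable_geometric_of_lt_one (by norm_num) (by norm_num)) fun i => ?_
    rw [norm_mul, norm_pow]
    have h2 : ‖(2 : ℤ_[2])‖ = 1 / 2 := by
      have := PadicInt.norm_p (p := 2)
      norm_num at this ⊢
      exact this
    rw [h2]
    exact mul_le_of_le_one_right (by positivity) (PadicInt.norm_le_one _)
  refine ⟨∑' i, 2 ^ i * e i, fun n => ?_⟩
  have h := (hsum e).sum_add_tsum_nat_add n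
  have h3 : ∑' i, (2 : ℤ_[2]) ^ (i + n) * e (i + n) = 2 ^ n * ∑' i, 2 ^ i * e (i + n) := by
    rw [← (hsum fun i => e (i + n)).tsum_mul_left]
    refine tsum_congr fun i => ?_
    rw [pow_add]
    ring
  rw [← h, h3, add_sub_cancel_left]
  exact dvd_mul_right _ _

private theorem cyc_core (hχ : IsChar S χ) {X : Finset G}
    (hX : ∀ H : Subgroup G, Opn S H → (∀ g ∈ X, g ∈ H) → H = ⊤) {n0 : G → G → ℤ_[2]}
    (hn0 : Z2 S χ n0)
    (step : ∀ f : {f : G → G → ℤ_[2] // Z2 S χ f}, ∃ (ε : ℤ_[2]) (z : G → ℤ_[2])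
      (f' : {f : G → G → ℤ_[2] // Z2 S χ f}), Sm1 S z ∧
        ∀ g k, f.1 g k = ε * n0 g k + dd χ z g k + 2 * f'.1 g k)
    {f : G → G → ℤ_[2]} (hf : Z2 S χ f) : ∃ a : ℤ_[2], B2 S χ (fun g h => f g h - a * n0 g h) := by
  choose ee zz nx hsm hst using step
  let F : ℕ → {f : G → G → ℤ_[2] // Z2 S χ f} := fun n => nx^[n] ⟨f, hf⟩
  have hF : ∀ n, F (n + 1) = nx (F n) := fun n => Function.iterate_succ_apply' nx n _
  have key : ∀ n g k, f g k = (∑ i ∈ Finset.range n, 2 ^ i * ee (F i)) * n0 g k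
      + dd χ (fun g => ∑ i ∈ Finset.range n, 2 ^ i * zz (F i) g) g k + 2 ^ n * (F n).1 g k := by
    intro n
    induction n with
    | zero =>
      intro g k
      simp only [Finset.range_zero, Finset.sum_empty, dd, pow_zero, one_mul, zero_mul, mul_zero,
        add_zero, sub_zero, zero_add]
      rfl
    | succ n ih =>
      intro g k
      rw [ih g k, hst (F n) g k, hF n]
      simp only [dd, Finset.sum_range_succ]
      ring
  obtain ⟨a, ha⟩ := cyc_lim fun i => ee (F i)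
  refine ⟨a, b2_of_forall hχ hX (cyc_sub hf (cyc_smul a hn0)) fun n => ?_⟩
  refine ⟨fun g => ∑ i ∈ Finset.range n, 2 ^ i * zz (F i) g,
    cyc_sm_sum (fun i => hsm (F i)) (fun i => 2 ^ i) n, fun g k => ?_⟩
  obtain ⟨b, hb⟩ := ha n
  refine ⟨(F n).1 g k - b * n0 g k, ?_⟩
  have h1 := key n g k
  simp only
  linear_combination h1 - n0 g k * hb

theorem cyclic (hL : LocalType S) (hχ : IsChar S χ) {X : Finset G}
    (hX : ∀ H : Subgroup G, Opn S H → (∀ g ∈ X, g ∈ H) → H = ⊤) :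
    ∃ n0 : G → G → ℤ_[2], Z2 S χ n0 ∧
      (∀ f, Z2 S χ f → ∃ a : ℤ_[2], B2 S χ (fun g h => f g h - a * n0 g h)) ∧
      (CobMod S χ 1 n0 → ∀ f, Z2 S χ f → B2 S χ f) := by
  by_cases hA : ∃ n0, Z2 S χ n0 ∧ ¬ CobMod S χ 1 n0
  · obtain ⟨n0, hn0, hnc⟩ := hA
    refine ⟨n0, hn0, fun f hf => cyc_core hχ hX hn0 ?_ hf, fun h => absurd h hnc⟩
    rintro ⟨f, hf⟩
    by_cases hc : CobMod S χ 1 f
    · obtain ⟨f', z, hf', hz, he⟩ := divide hχ hf hc
      exact ⟨0, z, ⟨f', hf'⟩, hz, fun g k => by have := he g k; linear_combination this⟩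
    · have h1 := cobMod_one_sub hL hχ (hf.cocMod 1) (hn0.cocMod 1) hc hnc
      obtain ⟨f', z, hf', hz, he⟩ := divide hχ (cyc_sub hf hn0) h1
      exact ⟨1, z, ⟨f', hf'⟩, hz, fun g k => by have := he g k; linear_combination this⟩
  · push Not at hA
    have hz0 : Z2 S χ (fun _ _ => (0 : ℤ_[2])) := by
      refine ⟨fun n => ?_, fun g h k => by ring⟩
      obtain ⟨W, hW⟩ := S.ex
      exact ⟨W, hW, fun _ _ _ _ _ _ => by simp⟩
    have hall : ∀ f, Z2 S χ f → B2 S χ f := by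
      intro f hf
      obtain ⟨a, ha⟩ := cyc_core hχ hX hz0 (by
        rintro ⟨f, hf⟩
        obtain ⟨f', z, hf', hz, he⟩ := divide hχ hf (hA f hf)
        exact ⟨0, z, ⟨f', hf'⟩, hz, fun g k => by have := he g k; linear_combination this⟩) hf
      simpa using ha
    refine ⟨fun _ _ => 0, hz0, fun f hf => ⟨0, ?_⟩, fun _ => hall⟩
    simpa using hall f hf

end Pool.Agent.Work.MP_787500_nt.PA
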