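import Mathlib
import Pool.Agent.Work.MP_787500_nt.PA.Four
import Pool.Agent.Work.MP_787500_nt.PA.RootM

/-!
# Module KUM (size S): Kummer cocycles modulo 4

`θ ≠ 0`, `θ ^ 4` fixed by `AbsGal K`: `(g θ) ^ 4 = θ ^ 4`, so `g θ = ip (k g) θ` (`exists_ip`), `k g` is
unique (`ip_injective`). `g (h θ) = g (ip (k h)) * g θ = ip (c4 g * k h + k g) θ` (`gal_ip`). If `W` is
good and fixes `θ` then `k (g w) = k g`.
-/

set_option autoImplicit false

namespace Pool.Agent.Work.MP_787500_nt.PA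

open IsDedekindDomain NumberField

universe u

variable {K : Type u} [Field K] [NumberField K]

theorem exists_kum {θ : AlgebraicClosure K} (h0 : θ ≠ 0) (hM : InM θ)
    (hfix : ∀ g : AbsGal K, g (θ ^ 4) = θ ^ 4) :
    ∃ k : AbsGal K → ZMod 4, Sm1 (goodSys K) k ∧ (∀ g, g θ = ip K (k g) * θ) ∧
      ∀ g h, k (g * h) = k g + c4 g * k h := by
  have h1 : ∀ g : AbsGal K, ∃ a : ZMod 4, g θ = ip K a * θ := by
    intro g
    apply exists_ip h0
    rw [← map_pow]
    exact hfix g
  choose k hk using h1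
  obtain ⟨W, hW, hWθ⟩ := hM
  refine ⟨k, ⟨W, hW, fun g w hw => ?_⟩, hk, fun g h => ?_⟩
  · apply ip_injective (K := K)
    apply mul_right_cancel₀ h0
    rw [← hk, ← hk]
    show g (w θ) = g θ
    rw [hWθ w hw]
  · apply ip_injective (K := K)
    apply mul_right_cancel₀ h0
    rw [← hk]
    show g (h θ) = _
    rw [hk h, map_mul, gal_ip, hk g, add_comm, ip_add]
    ring

end Pool.Agent.Work.MP_787500_nt.PA
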