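import Mathlib
import Pool.Agent.Work.MP_787500_nt.PA.Kum
import Pool.Agent.Work.MP_787500_nt.PA.CountsK

/-!
# Module INJI (size M): injectivity of multiplication by 2 from modulo 2 to modulo 4

Let `2 γ = dd cyc z` modulo 4, `z` smooth. Then `toZMod (z g)` is a smooth homomorphism `ω` to `ZMod 2`
(modulo 2 the character is 1), so `ω ∈ homs ⊤`; `exists_su` (`U = ⊤`): `ω = act2 ⊤ t`, `SU t`, `InM t`,
`t ^ 2` fixed by `AbsGal K`. Let `θ ^ 2 = t`; `InM θ` (`InM.sqrt`), `k` from `exists_kum`,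
`r2 (k g) = ω g` (`g t = ip (k g) ^ 2 * t`, `ip_sq_eq_one_iff`; `act2`). So `z g - lift4 (k g)` is divisible
by 2 (`r2_red4`): `z g = lift4 (k g) + 2 y g`, `y` smooth. The cocycle identity for `k` gives
`4 ∣ dd cyc (lift4 ∘ k)`. Hence `2 γ - 2 dd cyc y` is divisible by 4, and `γ - dd cyc y` by 2.
-/

set_option autoImplicit false

namespace Pool.Agent.Work.MP_787500_nt.PA

open IsDedekindDomain NumberField

universe u

variable {K : Type u} [Field K] [NumberField K]

private theorem injI_half : ∀ a : ZMod 4, r2 a = 0 → a = 2 * (if a = 0 then 0 else 1) := by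
  intro a ha
  have h1 : r2 a = ((a.val : ℕ) : ZMod 2) := by
    show ZMod.castHom (by norm_num) (ZMod 2) a = _
    rw [ZMod.castHom_apply, ZMod.natCast_val]
  rw [h1] at ha
  revert ha
  revert a
  decide

private theorem injI_two (a b : ZMod 2) (h : a = 0 ↔ b = 0) : a = b := by
  revert h
  revert a b
  decide

theorem injI {q : ℕ} {s : K} (hK : IsBase K q s) (γ : AbsGal K → AbsGal K → ℤ_[2])
    (hγ : CocMod (goodSys K) cyc 1 γ) (h : CobMod (goodSys K) cyc 2 (fun g h => 2 * γ g h)) :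
    CobMod (goodSys K) cyc 1 γ := by
  obtain ⟨z, hz, hzz⟩ := cobMod_two_iff.1 h
  have h20 : ∀ x : ℤ_[2], r2 (red4 (2 * x)) = 0 := by
    intro x
    rw [map_mul, map_mul]
    have : r2 (red4 2) = 0 := by
      rw [map_ofNat, map_ofNat]
      decide
    rw [this, zero_mul]
  have hom : (fun g => r2 (z g)) ∈ homs (goodSys K) ⊤ := by
    obtain ⟨W, hW, hzW⟩ := hz
    refine ⟨⟨W, hW, fun g w hw => ?_⟩, fun g hg => absurd trivial hg, fun g _ h _ => ?_⟩
    · show r2 (z (g * w)) = r2 (z g)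
      rw [hzW g w hw]
    · show r2 (z (g * h)) = r2 (z g) + r2 (z h)
      have h1 := congrArg r2 (hzz g h)
      rw [h20, map_sub, map_add, map_mul, r2_c4, one_mul] at h1
      exact (sub_eq_zero.1 h1.symm).symm
  have hop : Opn (goodSys K) ⊤ := by
    obtain ⟨W, hW⟩ := (goodSys K).ex
    exact ⟨W, hW, le_top⟩
  obtain ⟨t, hSU, hInM, hfix, hact⟩ := exists_su hK hop hom
  obtain ⟨θ, hθ⟩ := IsAlgClosed.exists_pow_nat_eq t (n := 2) (by norm_num)
  have ht0 : t ≠ 0 := hSU.1
  have hθ0 : θ ≠ 0 := by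
    rintro rfl
    apply ht0
    rw [← hθ]
    norm_num
  have hθM : InM θ := InM.sqrt hInM hSU hθ
  obtain ⟨k, hk, hkθ, hkk⟩ := exists_kum hθ0 hθM (fun g => by
    have : θ ^ 4 = t ^ 2 := by rw [← hθ]; ring
    rw [this]
    exact hfix g trivial)
  have hr : ∀ g, r2 (k g) = r2 (z g) := by
    intro g
    apply injI_two
    have h1 : g t = ip K (k g) ^ 2 * t := by
      rw [← hθ, map_pow, hkθ, mul_pow]
    have h2 : r2 (z g) = act2 ⊤ t g := congrFun hact g
    rw [h2, ← ip_sq_eq_one_iff (K := K)]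
    unfold act2
    constructor
    · intro h3
      rw [if_neg]
      rintro ⟨_, h4⟩
      apply h4
      rw [h1, h3, one_mul]
    · intro h3
      by_contra h4
      rw [if_pos] at h3
      · exact one_ne_zero h3
      · refine ⟨trivial, fun h5 => h4 ?_⟩
        rw [h1] at h5
        exact mul_right_cancel₀ ht0 (by rw [h5, one_mul])
  let y : AbsGal K → ℤ_[2] := fun g => if z g - k g = 0 then 0 else 1
  have hy : ∀ g, red4 (2 * y g) = z g - k g := by
    intro g
    have h1 := injI_half (z g - k g) (by rw [map_sub, hr, sub_self])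
    have h2 : red4 (y g) = if z g - k g = 0 then 0 else 1 := by
      show red4 (if z g - k g = 0 then 0 else 1) = _
      split_ifs
      · exact map_zero _
      · exact map_one _
    rw [map_mul, map_ofNat, h2]
    exact h1.symm
  refine ⟨y, ?_, fun g h => ?_⟩
  · obtain ⟨W, hW, hzW⟩ := hz
    obtain ⟨W', hW', hkW⟩ := hk
    refine ⟨W ⊓ W', (goodSys K).inf hW hW', fun g w hw => ?_⟩
    show (if z (g * w) - k (g * w) = 0 then (0 : ℤ_[2]) else 1) = _
    rw [hzW g w hw.1, hkW g w hw.2]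
  · have h1 : red4 (2 * γ g h - 2 * dd cyc y g h) = 0 := by
      have h2 : 2 * dd cyc y g h = 2 * y g + cyc g * (2 * y h) - 2 * y (g * h) := by
        unfold dd
        ring
      rw [h2, map_sub, hzz, map_sub, map_add, map_mul red4 (cyc g), hy, hy, hy, hkk]
      show _ + c4 g * _ - _ - (_ + c4 g * _ - _) = (0 : ZMod 4)
      ring
    rw [red4_eq_zero_iff, ← mul_sub, pow_two] at h1
    rw [pow_one]
    exact (mul_dvd_mul_iff_left (by norm_num)).1 h1

end Pool.Agent.Work.MP_787500_nt.PA
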