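import Mathlib
import Pool.Agent.Work.MP_787500_nt.PA.ConjA
import Pool.Agent.Work.MP_787500_nt.PA.RootM
import Pool.Agent.Work.MP_787500_nt.PA.Four
import Pool.Agent.Work.MP_787500_nt.H10_Gal

/-!
# Module ETA (size M): the cyclic quartic field of conductor 16

Let `r ^ 2 = 2`, `e0 ^ 2 = 2 + r`, `e1 = r / e0` (so `e1 ^ 2 = 2 / (2 + r) = 2 - r`), `e 0 = e0`,
`e 1 = e1`, `e 2 = -e0`, `e 3 = -e1`. They are different. `∏ e j = e0² e1² = r² = 2`.
For `g` in `AbsGal K`: `g r = ± r`. If `g r = r` then `g e0 = ± e0` and `g e1 = ± e1` with the same sign: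
shift by 0 or 2. If `g r = -r` then `(g e0) ^ 2 = 2 - r = e1 ^ 2`, `g e0 = ± e1` and
`g e1 = -r / (± e1) = ∓ e0`: `+` is the shift by 1 (`e0 → e1 → -e0 = e 2`), `-` is the shift by 3.
So `g (e j) = e (j + ψ g)` for a unique `ψ g`, `ψ` is a homomorphism (`e` is injective), and `ψ g` is odd iff
`g r = -r`. Some `g` has `g r = -r`, as `r ∉ K` (`mem_base_of_fixed` in `H10_Gal.lean`): if `r ∈ K`
then `K = ℚ + ℚ r`, `s = x + y r`, `s ^ 2 = x² + 2 y² + 2 x y r = -q` gives `x y = 0` and `x² + 2 y² = -q`: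
impossible.
`SU (e j)`: `(2 + r) (2 - r) = 2` and `2 ± r` are integral, `SU (2 + r)`, `SU.of_pow`. `InM r`,
`InM (2 + r)`, `InM (e j)`: `InM.sqrt`, `InM.base`, `InM.add`, ... Smoothness of `ψ`: a good subgroup
fixing `e 0`. `c (e j) = e j`: `conj_eta`, `conj_sqrt_two`.
-/

set_option autoImplicit false
set_option linter.unusedSectionVars false

namespace Pool.Agent.Work.MP_787500_nt.PA

open IsDedekindDomain NumberField

universe u

variable {K : Type u} [Field K] [NumberField K]

/-- the four conjugates of `√(2 + √2)` -/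
structure IsEta (e : ZMod 4 → AlgebraicClosure K) (ψ : AbsGal K → ZMod 4) : Prop where
  gal : ∀ (g : AbsGal K) (j : ZMod 4), g (e j) = e (j + ψ g)
  mul : ∀ g h, ψ (g * h) = ψ g + ψ h
  sm : Sm1 (goodSys K) ψ
  su : ∀ j, SU (e j)
  inM : ∀ j, InM (e j)
  prod : ∏ j, e j = 2
  odd : ∃ g, r2 (ψ g) ≠ 0
  inj : Function.Injective e

/-- the four values -/
private noncomputable def etaE (e0 e1 : AlgebraicClosure K) (j : ZMod 4) : AlgebraicClosure K :=
  if j = 0 then e0 else if j = 1 then e1 else if j = 2 then -e0 else -e1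

private theorem etaE_0 (e0 e1 : AlgebraicClosure K) : etaE e0 e1 0 = e0 := by simp [etaE]

private theorem etaE_1 (e0 e1 : AlgebraicClosure K) : etaE e0 e1 1 = e1 := by
  rw [etaE, if_neg (by decide), if_pos rfl]

private theorem etaE_2 (e0 e1 : AlgebraicClosure K) : etaE e0 e1 2 = -e0 := by
  rw [etaE, if_neg (by decide), if_neg (by decide), if_pos rfl]

private theorem etaE_3 (e0 e1 : AlgebraicClosure K) : etaE e0 e1 3 = -e1 := by
  rw [etaE, if_neg (by decide), if_neg (by decide), if_neg (by decide)]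

private theorem eta_cases : ∀ j : ZMod 4, j = 0 ∨ j = 1 ∨ j = 2 ∨ j = 3 := by decide

private theorem eta_forall {P : ZMod 4 → Prop} (h0 : P 0) (h1 : P 1) (h2 : P 2) (h3 : P 3) :
    ∀ j, P j := by
  intro j
  rcases eta_cases j with rfl | rfl | rfl | rfl
  · exact h0
  · exact h1
  · exact h2
  · exact h3

private theorem eta_charZero : CharZero (AlgebraicClosure K) :=
  charZero_of_injective_algebraMap (algebraMap K (AlgebraicClosure K)).injective

private theorem eta_not_mem {q : ℕ} {s : K} (hK : IsBase K q s) (a : K) : a ^ 2 ≠ 2 := by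
  intro ha
  have hq0 : (0 : ℚ) < q := by exact_mod_cast hK.2.2.1.pos
  have hirr : ∀ x y : ℚ, (x : K) + (y : K) * s = 0 → y = 0 := by
    intro x y hxy
    by_contra hy
    have h1 : s = ((-x / y : ℚ) : K) := by
      have h2 : (y : K) ≠ 0 := by exact_mod_cast hy
      push_cast
      rw [eq_div_iff h2]
      linear_combination hxy
    have h2 := hK.2.1
    rw [h1] at h2
    have h3 : (-x / y : ℚ) ^ 2 = -(q : ℚ) := by exact_mod_cast h2
    nlinarith [sq_nonneg (-x / y : ℚ)]
  have hli : LinearIndependent ℚ ![(1 : K), s] := by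
    rw [LinearIndependent.pair_iff]
    intro x y hxy
    rw [Algebra.smul_def, Algebra.smul_def] at hxy
    simp only [eq_ratCast, mul_one] at hxy
    have hy := hirr x y hxy
    subst hy
    refine ⟨?_, rfl⟩
    rw [Rat.cast_zero, zero_mul, add_zero] at hxy
    exact_mod_cast hxy
  have hspan : Submodule.span ℚ (Set.range ![(1 : K), s]) = ⊤ := by
    apply hli.span_eq_top_of_card_eq_finrank'
    rw [hK.1]
    simp
  have hmem : a ∈ Submodule.span ℚ (Set.range ![(1 : K), s]) := by
    rw [hspan]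
    trivial
  have hr : Set.range ![(1 : K), s] = {1, s} := by
    simp [Matrix.range_cons, Set.pair_comm]
  rw [hr, Submodule.mem_span_pair] at hmem
  obtain ⟨x, y, hxy⟩ := hmem
  have hxy' : a = (x : K) + (y : K) * s := by
    rw [← hxy, Algebra.smul_def, Algebra.smul_def]
    simp
  have h1 : ((x ^ 2 - q * y ^ 2 - 2 : ℚ) : K) + ((2 * x * y : ℚ) : K) * s = 0 := by
    rw [hxy'] at ha
    push_cast
    linear_combination ha - (y : K) ^ 2 * hK.2.1
  have h2 := hirr _ _ h1
  rw [h2] at h1
  have h3 : (x ^ 2 - q * y ^ 2 - 2 : ℚ) = 0 := by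
    rw [Rat.cast_zero, zero_mul, add_zero] at h1
    exact_mod_cast h1
  rcases mul_eq_zero.1 h2 with h4 | h4
  · have h5 : x = 0 := by linarith
    rw [h5] at h3
    nlinarith [sq_nonneg y]
  · rw [h4] at h3
    have h5 : x ^ 2 = 2 := by linarith
    have h6 : Irrational (Real.sqrt 2) := irrational_sqrt_two
    apply h6
    refine ⟨|x|, ?_⟩
    have h7 : ((x : ℝ)) ^ 2 = 2 := by exact_mod_cast h5
    push_cast
    rw [← Real.sqrt_sq_eq_abs, h7]

theorem exists_eta {q : ℕ} {s : K} (hK : IsBase K q s)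
    {c : AlgebraicClosure K ≃+* AlgebraicClosure K} (hc : IsConj s c) :
    ∃ (e : ZMod 4 → AlgebraicClosure K) (ψ : AbsGal K → ZMod 4), IsEta e ψ ∧ ∀ j, c (e j) = e j := by
  have hz := eta_charZero (K := K)
  obtain ⟨r, hr⟩ := IsAlgClosed.exists_pow_nat_eq (2 : AlgebraicClosure K) (n := 2) (by norm_num)
  obtain ⟨e0, he0⟩ := IsAlgClosed.exists_pow_nat_eq (2 + r : AlgebraicClosure K) (n := 2)
    (by norm_num)
  have h2 : (2 : AlgebraicClosure K) ≠ 0 := by norm_num
  have hr0 : r ≠ 0 := by
    rintro rfl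
    norm_num at hr
  have hpm : (2 + r) * (2 - r) = 2 := by linear_combination -hr
  have hp0 : 2 + r ≠ 0 := by
    intro h
    rw [h, zero_mul] at hpm
    exact h2 hpm.symm
  have he0' : e0 ≠ 0 := by
    rintro rfl
    apply hp0
    rw [← he0]
    ring
  obtain ⟨e1, he1⟩ : ∃ e1, e1 = r / e0 := ⟨_, rfl⟩
  have he1m : e1 * e0 = r := by rw [he1, div_mul_cancel₀ _ he0']
  have he1' : e1 ≠ 0 := by
    rintro rfl
    rw [zero_mul] at he1m
    exact hr0 he1m.symm
  have he1s : e1 ^ 2 = 2 - r := by
    apply mul_left_cancel₀ hp0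
    rw [hpm, ← he0]
    linear_combination (e1 * e0 + r) * he1m + hr
  have hne : ∀ x : AlgebraicClosure K, x ≠ 0 → x ≠ -x := by
    intro x hx h
    have : (2 : AlgebraicClosure K) * x = 0 := by linear_combination h
    rcases mul_eq_zero.1 this with h' | h'
    · exact h2 h'
    · exact hx h'
  have h01 : e0 ^ 2 ≠ e1 ^ 2 := by
    rw [he0, he1s]
    intro h
    exact hne r hr0 (by linear_combination h)
  have h01a : e0 ≠ e1 := fun h => h01 (by rw [h])
  have h01b : e0 ≠ -e1 := fun h => h01 (by rw [h]; ring)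
  set e : ZMod 4 → AlgebraicClosure K := etaE e0 e1 with he
  have E0 : e 0 = e0 := etaE_0 e0 e1
  have E1 : e 1 = e1 := etaE_1 e0 e1
  have E2 : e 2 = -e0 := etaE_2 e0 e1
  have E3 : e 3 = -e1 := etaE_3 e0 e1
  have hinj : Function.Injective e := by
    intro i j hij
    have hn0 : -e0 ≠ e1 := fun h => h01b (by rw [← h, neg_neg])
    have hn1 : e0 ≠ -e0 := hne e0 he0'
    have hn2 : e1 ≠ -e1 := hne e1 he1'
    rcases eta_cases i with rfl | rfl | rfl | rfl <;>
      rcases eta_cases j with rfl | rfl | rfl | rfl <;>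
      first
      | rfl
      | (exfalso
         rw [he] at hij
         simp only [etaE_0, etaE_1, etaE_2, etaE_3, neg_inj] at hij
         first
         | exact h01a hij
         | exact h01a hij.symm
         | exact h01b hij
         | exact h01b hij.symm
         | exact hn0 hij
         | exact hn0 hij.symm
         | exact hn1 hij
         | exact hn1 hij.symm
         | exact hn2 hij
         | exact hn2 hij.symm)
  have hgal : ∀ g : AbsGal K, ∃ a : ZMod 4, ∀ j, g (e j) = e (j + a) := by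
    intro g
    have hgr : g r = r ∨ g r = -r := by
      apply sq_eq_sq_iff_eq_or_eq_neg.1
      rw [← map_pow, hr, map_ofNat]
    have hg0 : (g e0) ^ 2 = 2 + g r := by
      rw [← map_pow, he0, map_add, map_ofNat]
    have hg1 : g e1 * g e0 = g r := by rw [← map_mul, he1m]
    rcases hgr with h | h
    · rw [h] at hg0 hg1
      have h3 : g e0 = e0 ∨ g e0 = -e0 := by
        apply sq_eq_sq_iff_eq_or_eq_neg.1
        rw [hg0, he0]
      rcases h3 with h3 | h3
      · refine ⟨0, ?_⟩
        have h4 : g e1 = e1 := by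
          apply mul_right_cancel₀ he0'
          rw [he1m, ← hg1, h3]
        apply eta_forall
        · rw [add_zero, E0, h3]
        · rw [add_zero, E1, h4]
        · rw [add_zero, E2, map_neg, h3]
        · rw [add_zero, E3, map_neg, h4]
      · refine ⟨2, ?_⟩
        have h4 : g e1 = -e1 := by
          apply mul_right_cancel₀ he0'
          rw [h3] at hg1
          linear_combination -hg1 + he1m
        apply eta_forall
        · rw [zero_add, E0, E2, h3]
        · rw [show (1 + 2 : ZMod 4) = 3 from rfl, E1, E3, h4]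
        · rw [show (2 + 2 : ZMod 4) = 0 from rfl, E2, E0, map_neg, h3, neg_neg]
        · rw [show (3 + 2 : ZMod 4) = 1 from rfl, E3, E1, map_neg, h4, neg_neg]
    · rw [h] at hg0 hg1
      have h3 : g e0 = e1 ∨ g e0 = -e1 := by
        apply sq_eq_sq_iff_eq_or_eq_neg.1
        rw [hg0, he1s]
        ring
      rcases h3 with h3 | h3
      · refine ⟨1, ?_⟩
        have h4 : g e1 = -e0 := by
          apply mul_right_cancel₀ he1'
          rw [h3] at hg1
          linear_combination hg1 + he1m
        apply eta_forall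
        · rw [zero_add, E0, E1, h3]
        · rw [show (1 + 1 : ZMod 4) = 2 from rfl, E1, E2, h4]
        · rw [show (2 + 1 : ZMod 4) = 3 from rfl, E2, E3, map_neg, h3]
        · rw [show (3 + 1 : ZMod 4) = 0 from rfl, E3, E0, map_neg, h4, neg_neg]
      · refine ⟨3, ?_⟩
        have h4 : g e1 = e0 := by
          apply mul_right_cancel₀ he1'
          rw [h3] at hg1
          linear_combination -hg1 - he1m
        apply eta_forall
        · rw [zero_add, E0, E3, h3]
        · rw [show (1 + 3 : ZMod 4) = 0 from rfl, E1, E0, h4]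
        · rw [show (2 + 3 : ZMod 4) = 1 from rfl, E2, E1, map_neg, h3, neg_neg]
        · rw [show (3 + 3 : ZMod 4) = 2 from rfl, E3, E2, map_neg, h4]
  choose ψ hψ using hgal
  have hint2 : IsIntegral ℤ (2 : AlgebraicClosure K) := SUlem_two_int
  have hint_r : IsIntegral ℤ r := by
    apply IsIntegral.of_pow (n := 2) (by norm_num)
    rw [hr]
    exact hint2
  have hsu_r : SU r := SU.of_pow (n := 2) two_ne_zero (by rw [hr]; exact SU.two)
  have hsu_p : SU (2 + r) := by
    refine ⟨hp0, ⟨0, ?_⟩, ⟨1, ?_⟩⟩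
    · rw [pow_zero, one_mul]
      exact hint2.add hint_r
    · have : (2 : AlgebraicClosure K) ^ 1 * (2 + r)⁻¹ = 2 - r := by
        apply mul_left_cancel₀ hp0
        rw [pow_one, hpm, mul_left_comm, mul_inv_cancel₀ hp0, mul_one]
      rw [this]
      exact hint2.sub hint_r
  have hsu0 : SU e0 := SU.of_pow (n := 2) two_ne_zero (by rw [he0]; exact hsu_p)
  have hsu1 : SU e1 := by
    rw [he1, div_eq_mul_inv]
    exact hsu_r.mul hsu0.inv
  have hsun : ∀ x : AlgebraicClosure K, SU x → SU (-x) := by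
    intro x hx
    have h1 : SU (-1 : AlgebraicClosure K) := SU.of_root (n := 2) two_ne_zero (by ring)
    have := h1.mul hx
    rwa [neg_one_mul] at this
  have hM2 : InM (2 : AlgebraicClosure K) := by
    have := InM.base (2 : K)
    rwa [map_ofNat] at this
  have hMr : InM r := InM.sqrt hM2 SU.two hr
  have hMe0 : InM e0 := InM.sqrt (hM2.add hMr) hsu_p he0
  have hMe1 : InM e1 := by
    rw [he1, div_eq_mul_inv]
    exact hMr.mul hMe0.inv
  refine ⟨e, ψ, ⟨hψ, ?_, ?_, ?_, ?_, ?_, ?_, hinj⟩, ?_⟩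
  · intro g h
    have h1 : (g * h) (e 0) = g (h (e 0)) := rfl
    rw [hψ, hψ h, hψ g] at h1
    have := hinj h1
    rw [zero_add, zero_add, add_comm] at this
    exact this
  · obtain ⟨W, hW, hWe⟩ := hMe0
    refine ⟨W, hW, fun g w hw => ?_⟩
    have h1 : (g * w) (e 0) = g (w (e 0)) := rfl
    rw [E0, hWe w hw, ← E0, hψ, hψ g] at h1
    have := hinj h1
    rwa [zero_add, zero_add] at this
  · apply eta_forall
    · rw [E0]; exact hsu0
    · rw [E1]; exact hsu1
    · rw [E2]; exact hsun _ hsu0
    · rw [E3]; exact hsun _ hsu1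
  · apply eta_forall
    · rw [E0]; exact hMe0
    · rw [E1]; exact hMe1
    · rw [E2]; exact hMe0.neg
    · rw [E3]; exact hMe1.neg
  · have h1 : ∏ j : ZMod 4, e j = e 0 * e 1 * e 2 * e 3 := Fin.prod_univ_four e
    rw [h1, E0, E1, E2, E3]
    linear_combination (e1 * e0 + r) * he1m + hr
  · by_contra hcon
    push Not at hcon
    have hfix : ∀ g : AbsGal K, g r = r := by
      intro g
      have h1 : ∀ a : ZMod 4, r2 a = 0 → a = 0 ∨ a = 2 := by decide
      have h3 : (g e0) ^ 2 = e0 ^ 2 := by
        have h4 := hψ g 0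
        rw [zero_add, E0] at h4
        rcases h1 _ (hcon g) with h5 | h5
        · rw [h4, h5, E0]
        · rw [h4, h5, E2]
          ring
      rw [← map_pow, he0, map_add, map_ofNat] at h3
      exact add_left_cancel h3
    obtain ⟨a, ha⟩ := mem_base_of_fixed hfix
    apply eta_not_mem hK a
    apply (algebraMap K (AlgebraicClosure K)).injective
    rw [map_pow, ha, hr, map_ofNat]
  · have hc0 : c e0 = e0 := conj_eta hK hc hr he0
    have hcr : c r = r := conj_sqrt_two hK hc hr
    have hc1 : c e1 = e1 := by rw [he1, map_div₀, hcr, hc0]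
    apply eta_forall
    · rw [E0, hc0]
    · rw [E1, hc1]
    · rw [E2, map_neg, hc0]
    · rw [E3, map_neg, hc1]

end Pool.Agent.Work.MP_787500_nt.PA
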