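import Mathlib
import Pool.Agent.Work.MP_787500_nt.PA.Eta
import Pool.Agent.Work.MP_787500_nt.PA.Kum

/-!
# Module NORMCOB (size S-M): 2 is a norm from the quartic field, explicitly

`r j` with `r j ^ 4 = e j` (`IsAlgClosed`), `r j ≠ 0`, `InM (r j)` (`InM.root` with `k = 2`). For `g`:
`(g (r j)) ^ 4 = e (j + ψ g) = r (j + ψ g) ^ 4`, so `g (r j) = ip (m j g) * r (j + ψ g)` (`exists_ip`), and
`m j (g h) = m (j + ψ h) g + c4 g * m j h` (apply `g` to `h (r j) = ...`, `ip_injective`). `m j` is smooth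
(a good subgroup fixing all `r j` is in the kernel of `ψ`: `ψ` is smooth; intersect).
Let `R = ∏ j, r j`, `R ^ 4 = ∏ e j = 2`, and `g R = ip (M g) R` with `M g = Σ j, m j g` (reindex).
Let `z0 g = Σ j, j * m j g`. Then
`z0 g + c4 g * z0 h - z0 (g h) = Σ j, j m j g - Σ j, j m (j + ψ h) g = ψ h * M g` (substitute
`j → j - ψ h` in the second sum).
Now `lam ^ 4 = 2 ^ j = (R ^ j) ^ 4`, so `lam = ip a * R ^ j`, and `g lam = ip (c4 g * a - a + j * M g) lam`,
so `k g = (c4 g - 1) * a + j * M g` (`ip_injective`). Take `z g = a * ψ g + j * z0 g`: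
`a ψ g + c4 g * a ψ h - a ψ (g h) = (c4 g - 1) * a * ψ h`.
-/

set_option autoImplicit false
set_option linter.unusedSectionVars false

namespace Pool.Agent.Work.MP_787500_nt.PA

open IsDedekindDomain NumberField

universe u

variable {K : Type u} [Field K] [NumberField K]

private theorem nc_charZero : CharZero (AlgebraicClosure K) :=
  charZero_of_injective_algebraMap (algebraMap K (AlgebraicClosure K)).injective

/-- the abstract computation modulo 4 -/
private theorem nc_sum (m : ZMod 4 → ZMod 4) (b : ZMod 4) :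
    ∑ j, j * m j - ∑ j, j * m (j + b) = b * ∑ j, m j := by
  have h : ∑ j, j * m j = ∑ j, (j + b) * m (j + b) :=
    (Equiv.sum_comp (Equiv.addRight b) (fun j => j * m j)).symm
  have h' : ∑ j, m j = ∑ j, m (j + b) :=
    (Equiv.sum_comp (Equiv.addRight b) m).symm
  rw [h, h', ← Finset.sum_sub_distrib, Finset.mul_sum]
  exact Finset.sum_congr rfl fun j _ => by ring

theorem norm_cob {e : ZMod 4 → AlgebraicClosure K} {ψ : AbsGal K → ZMod 4} (he : IsEta e ψ)
    {lam : AlgebraicClosure K} {j : ℤ} (hlam : lam ^ 4 = (2 : AlgebraicClosure K) ^ j)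
    {k : AbsGal K → ZMod 4} (hk : ∀ g, g lam = ip K (k g) * lam) :
    ∃ z : AbsGal K → ZMod 4, Sm1 (goodSys K) z ∧
      ∀ g h, k g * ψ h = z g + c4 g * z h - z (g * h) := by
  have hz := nc_charZero (K := K)
  have h2 : (2 : AlgebraicClosure K) ≠ 0 := by norm_num
  have hroot : ∀ i : ZMod 4, ∃ x, x ^ 4 = e i := fun i =>
    IsAlgClosed.exists_pow_nat_eq (e i) (n := 4) (by norm_num)
  choose r hr using hroot
  have hr0 : ∀ i, r i ≠ 0 := by
    intro i h
    apply (he.su i).1
    rw [← hr i, h]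
    ring
  have hM : ∀ i, InM (r i) := fun i => InM.root (k := 2) (he.inM i) (he.su i) (by
    rw [← hr i]
    norm_num)
  have hm : ∀ (i : ZMod 4) (g : AbsGal K), ∃ a : ZMod 4, g (r i) = ip K a * r (i + ψ g) := by
    intro i g
    apply exists_ip (hr0 _)
    rw [← map_pow, hr, he.gal, hr]
  choose m hm using hm
  have hmul : ∀ (i : ZMod 4) (g h : AbsGal K), m i (g * h) = m (i + ψ h) g + c4 g * m i h := by
    intro i g h
    have h1 : (g * h) (r i) = g (h (r i)) := rfl
    rw [hm, hm i h, map_mul, gal_ip, hm (i + ψ h) g, he.mul] at h1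
    have h3 : i + (ψ g + ψ h) = i + ψ h + ψ g := by ring
    rw [h3, ← mul_assoc, ← ip_add] at h1
    have h4 := ip_injective (mul_right_cancel₀ (hr0 _) h1)
    rw [h4, add_comm]
  -- smoothness
  have hsm : ∀ i, Sm1 (goodSys K) (m i) := by
    intro i
    obtain ⟨W, hW, hWr⟩ := hM i
    obtain ⟨W', hW', hψ⟩ := he.sm
    refine ⟨W ⊓ W', (goodSys K).inf hW hW', fun g w hw => ?_⟩
    have h1 : (g * w) (r i) = g (w (r i)) := rfl
    rw [hWr w hw.1, hm, hm i g, hψ g w hw.2] at h1
    exact ip_injective (mul_right_cancel₀ (hr0 _) h1)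
  obtain ⟨a, ha⟩ : ∃ a : ZMod 4, lam = ip K a * (∏ i, r i) ^ j := by
    apply exists_ip
    · exact zpow_ne_zero _ (Finset.prod_ne_zero_iff.2 fun i _ => hr0 i)
    · rw [hlam, ← zpow_natCast, ← zpow_mul, mul_comm j, zpow_mul, zpow_natCast,
        ← Finset.prod_pow, Finset.prod_congr rfl (fun i _ => hr i), he.prod]
  have hR : ∀ g : AbsGal K, g (∏ i, r i) = ip K (∑ i, m i g) * ∏ i, r i := by
    intro g
    rw [map_prod, Finset.prod_congr rfl (fun i _ => hm i g), Finset.prod_mul_distrib, ip_sum]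
    congr 1
    exact Equiv.prod_comp (Equiv.addRight (ψ g)) r
  have hipz : ∀ (b : ZMod 4), ip K b ^ j = ip K ((j : ZMod 4) * b) := by
    intro b
    obtain ⟨n, rfl | rfl⟩ := j.eq_nat_or_neg
    · rw [zpow_natCast, ip_pow, Int.cast_natCast]
    · rw [zpow_neg, zpow_natCast, ip_pow]
      rw [inv_eq_iff_eq_inv]
      apply (mul_eq_one_iff_eq_inv₀ (ip_ne_zero _)).1
      rw [← ip_add]
      have : ((n : ℕ) : ZMod 4) * b + ((-(n : ℤ) : ℤ) : ZMod 4) * b = 0 := by
        push_cast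
        ring
      rw [this, ip_zero]
  have hkg : ∀ g, k g = (c4 g - 1) * a + (j : ZMod 4) * ∑ i, m i g := by
    intro g
    have h1 := hk g
    have hlam0 : lam ≠ 0 := by
      rintro rfl
      rw [zero_pow (by norm_num)] at hlam
      exact zpow_ne_zero j h2 hlam.symm
    have h3 : g lam = ip K ((c4 g - 1) * a + (j : ZMod 4) * ∑ i, m i g) * lam := by
      rw [ha, map_mul, map_zpow₀, hR, mul_zpow, gal_ip, hipz]
      have h4 : c4 g * a = (c4 g - 1) * a + a := by ring
      rw [h4, ip_add, ip_add]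
      ring
    rw [h3] at h1
    exact ip_injective (mul_right_cancel₀ hlam0 h1.symm)
  refine ⟨fun g => a * ψ g + (j : ZMod 4) * ∑ i, i * m i g, ?_, ?_⟩
  · obtain ⟨W', hW', hψ⟩ := he.sm
    choose V hV hVm using hsm
    refine ⟨W' ⊓ (V 0 ⊓ V 1 ⊓ (V 2 ⊓ V 3)), (goodSys K).inf hW' ((goodSys K).inf
      ((goodSys K).inf (hV 0) (hV 1)) ((goodSys K).inf (hV 2) (hV 3))), fun g w hw => ?_⟩
    have h3 : ∀ i : ZMod 4, m i (g * w) = m i g := by
      have hc : ∀ i : ZMod 4, i = 0 ∨ i = 1 ∨ i = 2 ∨ i = 3 := by decide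
      intro i
      rcases hc i with rfl | rfl | rfl | rfl
      · exact hVm 0 g w hw.2.1.1
      · exact hVm 1 g w hw.2.1.2
      · exact hVm 2 g w hw.2.2.1
      · exact hVm 3 g w hw.2.2.2
    simp only [hψ g w hw.1, h3]
  · intro g h
    have h3 : ∑ i, i * m i (g * h) = ∑ i, i * m (i + ψ h) g + c4 g * ∑ i, i * m i h := by
      rw [Finset.mul_sum, ← Finset.sum_add_distrib]
      exact Finset.sum_congr rfl fun i _ => by rw [hmul]; ring
    have h4 := nc_sum (fun i => m i g) (ψ h)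
    show k g * ψ h = (a * ψ g + (j : ZMod 4) * ∑ i, i * m i g) +
      c4 g * (a * ψ h + (j : ZMod 4) * ∑ i, i * m i h) -
      (a * ψ (g * h) + (j : ZMod 4) * ∑ i, i * m i (g * h))
    rw [h3, he.mul, hkg]
    linear_combination -(j : ZMod 4) * h4

end Pool.Agent.Work.MP_787500_nt.PA
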