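import Mathlib
import Pool.Agent.Work.MP_787500_nt.PA.NormCob
import Pool.Agent.Work.MP_787500_nt.PA.CountsK
import Pool.Agent.Work.MP_787500_nt.PA.Climb
import Pool.Agent.Work.MP_787500_nt.PA.ModTwo
import Pool.Agent.Work.MP_787500_nt.PA.ConjA

/-!
# Module KAPPAP (size M): a class modulo 4 which is invariant under the involution

`e, ψ` from `exists_eta`. `ω₂ g = r2 (ψ g)` is a nonzero element of `homs ⊤` (`IsEta.odd`; `ψ` is a smooth
homomorphism). By `LocalType.nondeg` (`localType`, `countsK`) there is `ω ∈ homs ⊤` with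
`¬ Cob ⊤ (cup ω₂ ω)`, and then `¬ Cob ⊤ (cup ω ω₂)` by `cup_comm` (`Cob.add'`). By `exists_su` (`U = ⊤`)
`ω = act2 ⊤ t`, `SU t`, `InM t`, `t ^ 2` fixed by `AbsGal K`, so `t ^ 2 = a ∈ K`. Let `θ ^ 2 = t`, `InM θ`
(`InM.sqrt`), `SU θ`, `θ ^ 4 = a`; `k` from `exists_kum`. `r2 (k g) = ω g`: `g t = (ip (k g)) ^ 2 t`,
`ip_sq_eq_one_iff`.
Let `k0 g h = lift4 (k g) * lift4 (ψ h)`. `CocMod cyc 2 k0`: apply `red4` (`red4_eq_zero_iff`); modulo 4:
`k g ψ h + (k g + c4 g k h) ψ l = c4 g k h ψ l + k g (ψ h + ψ l)`. `¬ CobMod cyc 1 k0`: `cobMod_one_iff` in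
`ModTwo.lean` (`toZMod (lift4 x) = r2 x`, so `toZMod (k0 g h) = ω g * ω₂ h`).
Invariance: `ψ (κ g) = ψ g`: `κ g (e j) = c (g (c (e j))) = c (e (j + ψ g)) = e (j + ψ g)` (`IsEta.inj`).
Let `lam = θ * c θ`. `lam ^ 4 = a * c a = N`, a positive rational number (`conj_norm`), and `SU (N)`, so
`N = 2 ^ j` (`2 ^ M N` and `2 ^ M N⁻¹` are integers with product `4 ^ M`). And
`g (c θ) = c (κ g θ) = c (ip (k (κ g)) θ) = ip (- k (κ g)) * c θ` (`conj_ip`), so
`g lam = ip (k g - k (κ g)) lam`. By `norm_cob`: `(k g - k (κ g)) * ψ h = z g + c4 g z h - z (g h)`, and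
`red4 (k0 (κ g) (κ h) - k0 g h) = (k (κ g) - k g) ψ h`: use `cobMod_two_iff` with `-z`.
-/

set_option autoImplicit false
set_option linter.unusedSectionVars false

namespace Pool.Agent.Work.MP_787500_nt.PA

open IsDedekindDomain NumberField

universe u

variable {K : Type u} [Field K] [NumberField K]

private theorem kp_charZero : CharZero (AlgebraicClosure K) :=
  charZero_of_injective_algebraMap (algebraMap K (AlgebraicClosure K)).injective

/-- a positive rational number which is a unit away from 2 is a power of 2 -/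
private theorem kp_pow {N : ℚ} (hN : 0 < N) (h : SU (N : AlgebraicClosure K)) :
    ∃ j : ℤ, N = 2 ^ j := by
  have hz := kp_charZero (K := K)
  have hint : ∀ x : ℚ, IsIntegral ℤ (x : AlgebraicClosure K) → ∃ n : ℤ, (n : ℚ) = x := by
    intro x hx
    have h1 : (x : AlgebraicClosure K) = algebraMap ℚ (AlgebraicClosure K) x := by
      rw [eq_ratCast]
    rw [h1] at hx
    have h2 : IsIntegral ℤ x :=
      (isIntegral_algebraMap_iff (algebraMap ℚ (AlgebraicClosure K)).injective).1 hx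
    obtain ⟨n, hn⟩ := IsIntegrallyClosed.isIntegral_iff.1 h2
    exact ⟨n, by rw [← hn]; simp⟩
  obtain ⟨-, ⟨A, hA⟩, ⟨B, hB⟩⟩ := h
  have hA' : (2 : AlgebraicClosure K) ^ A * (N : AlgebraicClosure K) =
      ((2 ^ A * N : ℚ) : AlgebraicClosure K) := by push_cast; ring
  have hB' : (2 : AlgebraicClosure K) ^ B * (N : AlgebraicClosure K)⁻¹ =
      ((2 ^ B * N⁻¹ : ℚ) : AlgebraicClosure K) := by push_cast; ring
  rw [hA'] at hA
  rw [hB'] at hB
  obtain ⟨n, hn⟩ := hint _ hA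
  obtain ⟨m, hm⟩ := hint _ hB
  have hnm : n * m = 2 ^ (A + B) := by
    have : (n : ℚ) * m = 2 ^ (A + B) := by
      rw [hn, hm]
      field_simp
      ring
    exact_mod_cast this
  have hn0 : 0 < n := by
    have : (0 : ℚ) < n := by rw [hn]; positivity
    exact_mod_cast this
  obtain ⟨n', rfl⟩ := Int.eq_ofNat_of_zero_le hn0.le
  have hdvd : n' ∣ 2 ^ (A + B) := by
    have : (n' : ℤ) ∣ ((2 ^ (A + B) : ℕ) : ℤ) := ⟨m, by rw [hnm]; push_cast; rfl⟩
    exact_mod_cast this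
  obtain ⟨i, -, hi⟩ := (Nat.dvd_prime_pow Nat.prime_two).1 hdvd
  refine ⟨(i : ℤ) - (A : ℤ), ?_⟩
  rw [zpow_sub₀ (by norm_num), zpow_natCast, zpow_natCast, eq_div_iff (by positivity)]
  rw [hi] at hn
  push_cast at hn
  rw [hn]
  ring

theorem exists_k0 {q : ℕ} {s : K} (hK : IsBase K q s)
    {c : AlgebraicClosure K ≃+* AlgebraicClosure K} (hc : IsConj s c) {κ : AbsGal K → AbsGal K}
    (hκ : ∀ (σ : AbsGal K) (x : AlgebraicClosure K), κ σ x = c (σ (c x))) :
    ∃ k0 : AbsGal K → AbsGal K → ℤ_[2], CocMod (goodSys K) cyc 2 k0 ∧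
      ¬ CobMod (goodSys K) cyc 1 k0 ∧
      CobMod (goodSys K) cyc 2 (fun g h => k0 (κ g) (κ h) - k0 g h) := by
  classical
  have hz := kp_charZero (K := K)
  obtain ⟨e, ψ, he, hce⟩ := exists_eta hK hc
  have hT : Opn (goodSys K) (⊤ : Subgroup (AbsGal K)) := ⟨⊤, Good.top, le_rfl⟩
  have hω₂ : (fun g => r2 (ψ g)) ∈ homs (goodSys K) (⊤ : Subgroup (AbsGal K)) := by
    obtain ⟨W, hW, h⟩ := he.sm
    refine ⟨⟨W, hW, fun g w hw => by simp only [h g w hw]⟩, fun g hg => absurd trivial hg,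
      fun g _ h _ => ?_⟩
    simp only [he.mul, map_add]
  have hω₂0 : (fun g => r2 (ψ g)) ≠ 0 := by
    intro h
    obtain ⟨g, hg⟩ := he.odd
    exact hg (congrFun h g)
  have hL := localType (countsK hK)
  obtain ⟨ω, hω, hncob⟩ := hL.nondeg _ hω₂ hω₂0
  have hncob' : ¬ Cob (goodSys K) ⊤ (cup ω (fun g => r2 (ψ g))) := by
    intro hcob
    apply hncob
    obtain ⟨z, hz1, hz2⟩ := Cob.add' hcob (cup_comm hT hω hω₂)
    refine ⟨z, hz1, fun g hg h hh => ?_⟩
    have h3 := hz2 g hg h hh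
    rw [← h3]
    have h4 := CharTwo.add_self_eq_zero (cup ω (fun g => r2 (ψ g)) g h)
    linear_combination -h4
  obtain ⟨t, hsut, hMt, hfixt, hωt⟩ := exists_su hK hT hω
  obtain ⟨θ, hθ⟩ := IsAlgClosed.exists_pow_nat_eq t (n := 2) (by norm_num)
  have hMθ : InM θ := InM.sqrt hMt hsut hθ
  have hsuθ : SU θ := SU.of_pow (n := 2) two_ne_zero (by rw [hθ]; exact hsut)
  have hθ4 : θ ^ 4 = t ^ 2 := by
    rw [← hθ]
    ring
  have hθ0 : θ ≠ 0 := hsuθ.1
  obtain ⟨k, hks, hk, hkm⟩ := exists_kum hθ0 hMθ (fun g => by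
    rw [hθ4]
    exact hfixt g trivial)
  have hkω : ∀ g, r2 (k g) = ω g := by
    intro g
    have h1 : g t = ip K (k g) ^ 2 * t := by
      rw [← hθ, map_pow, hk, mul_pow]
    rw [hωt]
    by_cases h2 : g t = t
    · have h3 : ip K (k g) ^ 2 = 1 := by
        apply mul_right_cancel₀ hsut.1
        rw [← h1, h2, one_mul]
      rw [(ip_sq_eq_one_iff _).1 h3, act2, if_neg (fun h => h.2 h2)]
    · rw [act2, if_pos ⟨trivial, h2⟩]
      have h3 : r2 (k g) ≠ 0 := by
        intro h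
        apply h2
        rw [h1, (ip_sq_eq_one_iff (K := K) _).2 h, one_mul]
      revert h3
      generalize r2 (k g) = a
      revert a
      decide
  have hψκ : ∀ g, ψ (κ g) = ψ g := by
    intro g
    have h1 := hκ g (e 0)
    rw [hce, he.gal, he.gal, hce] at h1
    exact add_left_cancel (he.inj h1)
  have hi := conj_imI hK hc
  -- the element `lam`
  obtain ⟨a, ha⟩ := mem_base_of_fixed (x := t ^ 2) (fun g => hfixt g trivial)
  have ha0 : a ≠ 0 := by
    rintro rfl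
    rw [map_zero] at ha
    exact pow_ne_zero 2 hsut.1 ha.symm
  obtain ⟨N, hN0, hN⟩ := conj_norm hK hc ha0
  have hlam4 : (θ * c θ) ^ 4 = (N : AlgebraicClosure K) := by
    rw [mul_pow, ← map_pow, hθ4, ← ha, hN]
  have hsuN : SU (N : AlgebraicClosure K) := by
    rw [← hlam4]
    exact (hsuθ.mul (SU.map (c : AlgebraicClosure K →+* AlgebraicClosure K) hsuθ)).pow 4
  obtain ⟨j, hj⟩ := kp_pow hN0 hsuN
  have hlam : (θ * c θ) ^ 4 = (2 : AlgebraicClosure K) ^ j := by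
    rw [hlam4, hj]
    push_cast
    rfl
  have hkl : ∀ g, g (θ * c θ) = ip K (k g - k (κ g)) * (θ * c θ) := by
    intro g
    have h1 : g (c θ) = ip K (-k (κ g)) * c θ := by
      have h2 : g (c θ) = c (κ g θ) := by rw [hκ, hc.sq]
      rw [h2, hk, map_mul, conj_ip hi]
    rw [map_mul, hk, h1, sub_eq_add_neg, ip_add]
    ring
  obtain ⟨z, hzs, hz'⟩ := norm_cob he hlam hkl
  refine ⟨fun g h => lift4 (k g) * lift4 (ψ h), ⟨?_, ?_⟩, ?_, ?_⟩
  · obtain ⟨W, hW, h⟩ := hks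
    obtain ⟨W', hW', h'⟩ := he.sm
    refine ⟨W ⊓ W', (goodSys K).inf hW hW', fun g g' w hw w' hw' => ?_⟩
    simp only [h g w hw.1, h' g' w' hw'.2, sub_self]
    exact dvd_zero _
  · intro g h l
    rw [← red4_eq_zero_iff]
    simp only [map_sub, map_add, map_mul, red4_lift4]
    rw [hkm, he.mul]
    show k g * ψ h + (k g + c4 g * k h) * ψ l - (c4 g * (k h * ψ l) + k g * (ψ h + ψ l)) = 0
    ring
  · rintro ⟨y, ⟨W, hW, hy⟩, hd⟩
    apply hncob'
    refine ⟨fun g => PadicInt.toZMod (y g), ⟨W, hW, fun g w hw => by simp only [hy g w hw]⟩,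
      fun g _ h _ => ?_⟩
    have h1 := hd g h
    have h2 : PadicInt.toZMod (lift4 (k g) * lift4 (ψ h) - dd cyc y g h) = (0 : ZMod 2) := by
      rw [← r2_red4]
      obtain ⟨x, hx⟩ := h1
      rw [hx, map_mul, map_mul, map_pow, map_pow, map_ofNat, map_ofNat]
      have : ((2 : ZMod 2)) ^ 1 = 0 := by decide
      rw [show ((OfNat.ofNat 2 : ZMod 2)) ^ 1 = 0 from this, zero_mul]
    have hl : ∀ b : ZMod 4, PadicInt.toZMod (lift4 b) = r2 b := fun b => by
      rw [← r2_red4, red4_lift4]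
    have hcy : PadicInt.toZMod (cyc g) = (1 : ZMod 2) := by
      rw [← r2_red4]
      exact r2_c4 g
    rw [map_sub, map_mul, hl, hl, dd, map_sub, map_add, map_mul, hcy, one_mul, sub_eq_zero] at h2
    show ω g * r2 (ψ h) = _
    rw [← hkω, h2]
    rw [sub_eq_add_neg, ZMod.neg_eq_self_mod_two]
  · rw [cobMod_two_iff]
    refine ⟨fun g => -z g, ?_, fun g h => ?_⟩
    · obtain ⟨W, hW, h⟩ := hzs
      exact ⟨W, hW, fun g w hw => by simp only [h g w hw]⟩
    · simp only [map_sub, map_mul, red4_lift4]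
      rw [hψκ]
      linear_combination -hz' g h

end Pool.Agent.Work.MP_787500_nt.PA
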