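import Mathlib
import Pool.Agent.Work.MP_787500_nt.PA.Cyclic

/-!
# Module SIGN (size M): the involution acts trivially on the second cohomology, up to torsion

Notation: `f ~ f'` if `f - f'` is in `B2`; `B2` is closed under addition, under multiplication by
elements of `ℤ_[2]`, and under `f ↦ f ∘ κ := fun g h => f (κ g) (κ h)` (`dd χ z ∘ κ = dd χ (z ∘ κ)`
because `χ (κ g) = χ g` and `κ` is multiplicative; `IsInvol.sys` for the continuity), and `Z2` is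
closed under `∘ κ` as well.
If `CobMod S χ 1 n0` then all `f` in `Z2` are in `B2` and the claim is clear with `k = 0`. So assume
`¬ CobMod S χ 1 n0`. Let `n0 ∘ κ ~ a0 n0`. Then `n0 = n0 ∘ κ ∘ κ ~ a0² n0`, so `(a0² - 1) n0 ~ 0`.
(i) If `a0² ≠ 1`: write `a0² - 1 = 2 ^ k * unit`; `2 ^ k n0 ~ 0`, hence `2 ^ k f ~ 0` for all `f` in
    `Z2`, and `2 ^ k (f ∘ κ - f) ~ 0`.
(ii) `a0 = 1`: `f ~ a n0` gives `f ∘ κ ~ a (n0 ∘ κ) ~ a n0 ~ f`; `k = 0`.
(iii) `a0 = -1`: contradiction. Work modulo 4: write `≈` for congruence modulo `CobMod S χ 2`; it is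
    compatible with sums, multiples and `∘ κ`. `k0` from `hS`. Modulo 2: `k0` and `n0` are both not
    coboundaries, so `CobMod S χ 1 (k0 - n0)` (`cobMod_one_sub`; `CocMod S χ 2` implies
    `CocMod S χ 1`): `k0 - n0 - dd χ z = 2 γ`, `z` smooth, and `γ` satisfies `CocMod S χ 1` (divide the
    relation modulo 4 by 2). By `cobMod_one_sub` either `CobMod S χ 1 γ` (`ε = 0`) or
    `CobMod S χ 1 (γ - n0)` (`ε = 1`), so `2 γ ≈ 2 ε n0` and `k0 ≈ (1 + 2 ε) n0`. Hence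
    `k0 ∘ κ ≈ (1 + 2 ε) (n0 ∘ κ) ≈ -(1 + 2 ε) n0 ≈ - k0`. By hypothesis `k0 ∘ κ ≈ k0`, so `2 k0 ≈ 0`,
    `2 (1 + 2 ε) n0 ≈ 0`, i.e. `2 n0 ≈ 0` (`4 ε n0` is zero modulo 4), and `hI` gives
    `CobMod S χ 1 n0`: contradiction.
-/

set_option autoImplicit false

namespace Pool.Agent.Work.MP_787500_nt.PA

variable {G : Type*} [Group G] {S : TwoSys G} {χ : G → ℤ_[2]}

private lemma sg_c1_lin (a b : ℤ_[2]) {z z' : G → ℤ_[2]} (hz : C1 S z) (hz' : C1 S z') :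
    C1 S (fun g => a * z g + b * z' g) := by
  intro n
  obtain ⟨W, hW, h1⟩ := hz n
  obtain ⟨W', hW', h1'⟩ := hz' n
  refine ⟨W ⊓ W', S.inf hW hW', fun g w hw => ?_⟩
  have e : a * z (g * w) + b * z' (g * w) - (a * z g + b * z' g)
      = a * (z (g * w) - z g) + b * (z' (g * w) - z' g) := by ring
  simp only
  rw [e]
  exact dvd_add (Dvd.dvd.mul_left (h1 g w hw.1) a) (Dvd.dvd.mul_left (h1' g w hw.2) b)

private lemma sg_c1_kap {κ : G → G} (hκ : IsInvol S χ κ) {z : G → ℤ_[2]} (hz : C1 S z) :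
    C1 S (fun g => z (κ g)) := by
  intro n
  obtain ⟨W, hW, h1⟩ := hz n
  obtain ⟨W', hW', h2⟩ := hκ.sys W hW
  refine ⟨W', hW', fun g w hw => ?_⟩
  simp only
  rw [hκ.mul]
  exact h1 _ _ (h2 w hw)

private lemma sg_dd_kap {κ : G → G} (hκ : IsInvol S χ κ) (z : G → ℤ_[2]) (g h : G) :
    dd χ (fun g => z (κ g)) g h = dd χ z (κ g) (κ h) := by
  simp only [dd]
  rw [hκ.mul, hκ.chi]

private lemma sg_b2_lin (a b : ℤ_[2]) {f f' : G → G → ℤ_[2]} (hf : B2 S χ f) (hf' : B2 S χ f') :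
    B2 S χ (fun g h => a * f g h + b * f' g h) := by
  obtain ⟨z, hz, rfl⟩ := hf
  obtain ⟨z', hz', rfl⟩ := hf'
  refine ⟨fun g => a * z g + b * z' g, sg_c1_lin a b hz hz', ?_⟩
  funext g h
  simp only [dd]
  ring

private lemma sg_b2_kap {κ : G → G} (hκ : IsInvol S χ κ) {f : G → G → ℤ_[2]} (hf : B2 S χ f) :
    B2 S χ (fun g h => f (κ g) (κ h)) := by
  obtain ⟨z, hz, rfl⟩ := hf
  refine ⟨fun g => z (κ g), sg_c1_kap hκ hz, ?_⟩
  funext g h
  exact (sg_dd_kap hκ z g h).symm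

private lemma sg_b2_congr {f f' : G → G → ℤ_[2]} (hf : B2 S χ f) (h : ∀ g k, f' g k = f g k) :
    B2 S χ f' := by
  have : f' = f := by
    funext g k
    exact h g k
  rw [this]
  exact hf

private lemma sg_z2_kap {κ : G → G} (hκ : IsInvol S χ κ) {f : G → G → ℤ_[2]} (hf : Z2 S χ f) :
    Z2 S χ (fun g h => f (κ g) (κ h)) := by
  refine ⟨fun n => ?_, fun g h k => ?_⟩
  · obtain ⟨W, hW, h1⟩ := hf.1 n
    obtain ⟨W', hW', h2⟩ := hκ.sys W hW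
    refine ⟨W', hW', fun g h w hw w' hw' => ?_⟩
    simp only
    rw [hκ.mul, hκ.mul]
    exact h1 _ _ _ (h2 w hw) _ (h2 w' hw')
  · have := hf.2 (κ g) (κ h) (κ k)
    rw [hκ.chi, ← hκ.mul, ← hκ.mul] at this
    exact this

private lemma sg_z2_sub {f f' : G → G → ℤ_[2]} (hf : Z2 S χ f) (hf' : Z2 S χ f') :
    Z2 S χ (fun g h => f g h - f' g h) := by
  refine ⟨fun n => ?_, fun g h k => ?_⟩
  · obtain ⟨W, hW, h1⟩ := hf.1 n
    obtain ⟨W', hW', h1'⟩ := hf'.1 n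
    refine ⟨W ⊓ W', S.inf hW hW', fun g h w hw w' hw' => ?_⟩
    have e : f (g * w) (h * w') - f' (g * w) (h * w') - (f g h - f' g h)
        = (f (g * w) (h * w') - f g h) - (f' (g * w) (h * w') - f' g h) := by ring
    simp only
    rw [e]
    exact dvd_sub (h1 g h w hw.1 w' hw'.1) (h1' g h w hw.2 w' hw'.2)
  · have e1 := hf.2 g h k
    have e2 := hf'.2 g h k
    linear_combination e1 - e2

private lemma sg_sm_lin (a b : ℤ_[2]) {z z' : G → ℤ_[2]} (hz : Sm1 S z) (hz' : Sm1 S z') :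
    Sm1 S (fun g => a * z g + b * z' g) := by
  obtain ⟨W, hW, h1⟩ := hz
  obtain ⟨W', hW', h1'⟩ := hz'
  refine ⟨W ⊓ W', S.inf hW hW', fun g w hw => ?_⟩
  simp only
  rw [h1 g w hw.1, h1' g w hw.2]

private lemma sg_cm_lin {n : ℕ} (a b : ℤ_[2]) {f f' : G → G → ℤ_[2]} (hf : CobMod S χ n f)
    (hf' : CobMod S χ n f') : CobMod S χ n (fun g h => a * f g h + b * f' g h) := by
  obtain ⟨z, hz, h1⟩ := hf
  obtain ⟨z', hz', h1'⟩ := hf'
  refine ⟨fun g => a * z g + b * z' g, sg_sm_lin a b hz hz', fun g h => ?_⟩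
  have e : a * f g h + b * f' g h - dd χ (fun g => a * z g + b * z' g) g h
      = a * (f g h - dd χ z g h) + b * (f' g h - dd χ z' g h) := by
    simp only [dd]
    ring
  rw [e]
  exact dvd_add (Dvd.dvd.mul_left (h1 g h) a) (Dvd.dvd.mul_left (h1' g h) b)

private lemma sg_cm_kap {n : ℕ} {κ : G → G} (hκ : IsInvol S χ κ) {f : G → G → ℤ_[2]}
    (hf : CobMod S χ n f) : CobMod S χ n (fun g h => f (κ g) (κ h)) := by
  obtain ⟨z, ⟨W, hW, h0⟩, h1⟩ := hf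
  refine ⟨fun g => z (κ g), ?_, fun g h => ?_⟩
  · obtain ⟨W', hW', h2⟩ := hκ.sys W hW
    refine ⟨W', hW', fun g w hw => ?_⟩
    simp only
    rw [hκ.mul]
    exact h0 _ _ (h2 w hw)
  · rw [sg_dd_kap hκ]
    exact h1 _ _

private lemma sg_cm_congr {n : ℕ} {f f' : G → G → ℤ_[2]} (hf : CobMod S χ n f)
    (h : ∀ g k, (2 : ℤ_[2]) ^ n ∣ f' g k - f g k) : CobMod S χ n f' := by
  obtain ⟨z, hz, h1⟩ := hf
  refine ⟨z, hz, fun g k => ?_⟩
  have e : f' g k - dd χ z g k = (f' g k - f g k) + (f g k - dd χ z g k) := by ring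
  rw [e]
  exact dvd_add (h g k) (h1 g k)

private lemma sg_coc_one {f : G → G → ℤ_[2]} (hf : CocMod S χ 2 f) : CocMod S χ 1 f := by
  obtain ⟨⟨W, hW, h1⟩, h2⟩ := hf
  have h4 : (2 : ℤ_[2]) ^ 1 ∣ 2 ^ 2 := pow_dvd_pow 2 (by norm_num)
  exact ⟨⟨W, hW, fun g h w hw w' hw' => h4.trans (h1 g h w hw w' hw')⟩, fun g h k => h4.trans (h2 g h k)⟩

private theorem sg_three (hL : LocalType S) (hχ : IsChar S χ) {κ : G → G} (hκ : IsInvol S χ κ)
    {n0 : G → G → ℤ_[2]} (hn0 : Z2 S χ n0) (hnc : ¬ CobMod S χ 1 n0)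
    (hS : ∃ k0 : G → G → ℤ_[2], CocMod S χ 2 k0 ∧ ¬ CobMod S χ 1 k0 ∧
      CobMod S χ 2 (fun g h => k0 (κ g) (κ h) - k0 g h))
    (hI : ∀ γ : G → G → ℤ_[2], CocMod S χ 1 γ → CobMod S χ 2 (fun g h => 2 * γ g h) →
      CobMod S χ 1 γ)
    (hD : B2 S χ (fun g h => n0 (κ g) (κ h) + n0 g h)) : False := by
  obtain ⟨k0, hk0, hk1, hk2⟩ := hS
  have hD2 := hD.cobMod hχ 2
  have hn1 : CocMod S χ 1 n0 := hn0.cocMod 1
  obtain ⟨z, hz, hd⟩ := cobMod_one_sub hL hχ (sg_coc_one hk0) hn1 hk1 hnc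
  have hd' : ∀ g h, ∃ c, k0 g h - n0 g h - dd χ z g h = 2 * c := by
    intro g h
    obtain ⟨c, hc⟩ := hd g h
    exact ⟨c, by rw [hc, pow_one]⟩
  choose γ hγ using hd'
  have htwo : (2 : ℤ_[2]) ≠ 0 := two_ne_zero
  have hdz := dd_Z2 hχ hz.c1
  have hγc : CocMod S χ 1 γ := by
    refine ⟨?_, fun g h k => ?_⟩
    · obtain ⟨W₁, hW₁, h1⟩ := hk0.1
      obtain ⟨W₂, hW₂, h2⟩ := hn0.1 2
      obtain ⟨W₃, hW₃, h3⟩ := hdz.1 2
      refine ⟨W₁ ⊓ (W₂ ⊓ W₃), S.inf hW₁ (S.inf hW₂ hW₃), fun g h w hw w' hw' => ?_⟩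
      have a1 := h1 g h w hw.1 w' hw'.1
      have a2 := h2 g h w hw.2.1 w' hw'.2.1
      have a3 := h3 g h w hw.2.2 w' hw'.2.2
      have a4 := dvd_sub (dvd_sub a1 a2) a3
      have e : k0 (g * w) (h * w') - k0 g h - (n0 (g * w) (h * w') - n0 g h)
          - (dd χ z (g * w) (h * w') - dd χ z g h) = 2 * (γ (g * w) (h * w') - γ g h) := by
        have b1 := hγ (g * w) (h * w')
        have b2 := hγ g h
        linear_combination b1 - b2
      rw [e] at a4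
      obtain ⟨c, hc⟩ := a4
      refine ⟨c, mul_left_cancel₀ htwo ?_⟩
      rw [hc]
      ring
    · obtain ⟨c, hc⟩ := hk0.2 g h k
      have e2 := hn0.2 g h k
      have e3 := hdz.2 g h k
      refine ⟨c, mul_left_cancel₀ htwo ?_⟩
      have b1 := hγ g h
      have b2 := hγ (g * h) k
      have b3 := hγ h k
      have b4 := hγ g (h * k)
      linear_combination hc - e2 - e3 - b1 - b2 + χ g * b3 + b4
  -- `k0` is `c n0` modulo 4
  obtain ⟨ε, hε⟩ : ∃ ε : ℤ_[2], CobMod S χ 2 (fun g h => k0 g h - (1 + 2 * ε) * n0 g h) := by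
    have main : ∀ ε : ℤ_[2], CobMod S χ 1 (fun g h => γ g h - ε * n0 g h) →
        CobMod S χ 2 (fun g h => k0 g h - (1 + 2 * ε) * n0 g h) := by
      rintro ε ⟨z', hz', h1⟩
      refine ⟨fun g => 1 * z g + 2 * z' g, sg_sm_lin 1 2 hz hz', fun g h => ?_⟩
      obtain ⟨c, hc⟩ := h1 g h
      refine ⟨c, ?_⟩
      have b1 := hγ g h
      simp only [dd] at b1 hc ⊢
      linear_combination b1 + 2 * hc
    by_cases hc : CobMod S χ 1 γ
    · exact ⟨0, main 0 (sg_cm_congr hc fun g k => by simp)⟩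
    · exact ⟨1, main 1 (sg_cm_congr (cobMod_one_sub hL hχ hγc hn1 hc hnc) fun g k => by simp)⟩
  have hεκ := sg_cm_kap hκ hε
  -- combine
  have c1 := sg_cm_lin 1 (1 + 2 * ε) hεκ hD2
  have c2 := sg_cm_lin 1 (-1) c1 hk2
  have c3 := sg_cm_lin 1 (-1) c2 hε
  refine hnc (hI n0 hn1 (sg_cm_congr c3 fun g k => ⟨-ε * n0 g k, ?_⟩))
  ring

theorem sign (hL : LocalType S) (hχ : IsChar S χ) {κ : G → G} (hκ : IsInvol S χ κ)
    {n0 : G → G → ℤ_[2]} (hn0 : Z2 S χ n0)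
    (hcyc : ∀ f, Z2 S χ f → ∃ a : ℤ_[2], B2 S χ (fun g h => f g h - a * n0 g h))
    (htriv : CobMod S χ 1 n0 → ∀ f, Z2 S χ f → B2 S χ f)
    (hS : ∃ k0 : G → G → ℤ_[2], CocMod S χ 2 k0 ∧ ¬ CobMod S χ 1 k0 ∧
      CobMod S χ 2 (fun g h => k0 (κ g) (κ h) - k0 g h))
    (hI : ∀ γ : G → G → ℤ_[2], CocMod S χ 1 γ → CobMod S χ 2 (fun g h => 2 * γ g h) →
      CobMod S χ 1 γ)
    {f : G → G → ℤ_[2]} (hf : Z2 S χ f) :
    ∃ k : ℕ, B2 S χ (fun g h => 2 ^ k * (f (κ g) (κ h) - f g h)) := by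
  have hfκ := sg_z2_kap hκ hf
  by_cases hn : CobMod S χ 1 n0
  · refine ⟨0, sg_b2_congr (htriv hn _ (sg_z2_sub hfκ hf)) fun g k => ?_⟩
    rw [pow_zero, one_mul]
  obtain ⟨a0, hD⟩ := hcyc _ (sg_z2_kap hκ hn0)
  have hDκ := sg_b2_kap hκ hD
  have hsq : B2 S χ (fun g h => (a0 ^ 2 - 1) * n0 g h) := by
    refine sg_b2_congr (sg_b2_lin (-1) (-a0) hDκ hD) fun g k => ?_
    rw [hκ.inv, hκ.inv]
    ring
  obtain ⟨a, hE⟩ := hcyc f hf
  by_cases h1 : a0 ^ 2 - 1 = 0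
  · have h2 : a0 = 1 ∨ a0 = -1 := by
      have h3 : (a0 - 1) * (a0 + 1) = 0 := by linear_combination h1
      rcases mul_eq_zero.1 h3 with h | h
      · exact Or.inl (sub_eq_zero.1 h)
      · exact Or.inr (eq_neg_of_add_eq_zero_left h)
    rcases h2 with rfl | rfl
    · refine ⟨0, ?_⟩
      have c1 := sg_b2_lin 1 (-1) (sg_b2_kap hκ hE) hE
      refine sg_b2_congr (sg_b2_lin 1 a c1 hD) fun g k => ?_
      ring
    · exfalso
      refine sg_three hL hχ hκ hn0 hn hS hI (sg_b2_congr hD fun g k => ?_)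
      ring
  · refine ⟨(a0 ^ 2 - 1).valuation, ?_⟩
    set x := a0 ^ 2 - 1 with hx
    have hspec := PadicInt.unitCoeff_spec h1
    set u := PadicInt.unitCoeff h1 with hu
    have hpn : B2 S χ (fun g h => (2 : ℤ_[2]) ^ x.valuation * n0 g h) := by
      refine sg_b2_congr (sg_b2_lin (↑u⁻¹) 0 hsq hsq) fun g k => ?_
      have hui : (↑u⁻¹ : ℤ_[2]) * ↑u = 1 := u.inv_mul
      have h3 : (↑u⁻¹ : ℤ_[2]) * x = 2 ^ x.valuation := by
        conv_lhs => rw [hspec]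
        rw [← mul_assoc, hui, one_mul]
        norm_num
      linear_combination -n0 g k * h3
    have hpf : B2 S χ (fun g h => (2 : ℤ_[2]) ^ x.valuation * f g h) := by
      refine sg_b2_congr (sg_b2_lin (2 ^ x.valuation) a hE hpn) fun g k => ?_
      ring
    refine sg_b2_congr (sg_b2_lin 1 (-1) (sg_b2_kap hκ hpf) hpf) fun g k => ?_
    ring

end Pool.Agent.Work.MP_787500_nt.PA
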