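import Mathlib
import Pool.Agent.Work.MP_787500_nt.PA.CountsK
import Pool.Agent.Work.MP_787500_nt.PA.Climb
import Pool.Agent.Work.MP_787500_nt.PA.Gens
import Pool.Agent.Work.MP_787500_nt.PA.Cyclic
import Pool.Agent.Work.MP_787500_nt.PA.Sign
import Pool.Agent.Work.MP_787500_nt.PA.QTwo
import Pool.Agent.Work.MP_787500_nt.PA.InvE
import Pool.Agent.Work.MP_787500_nt.PA.KappaP
import Pool.Agent.Work.MP_787500_nt.PA.InjI
import Pool.Agent.Work.MP_787500_nt.PA.CycK
import Pool.Agent.Work.MP_787500_nt.PA.KapK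

/-!
The invariant map (assembly).
-/

set_option autoImplicit false

namespace Pool.Agent.Work.MP_787500_nt.PA

open IsDedekindDomain NumberField

universe u

variable {K : Type u} [Field K] [NumberField K]

theorem exists_inv {q : ℕ} {s : K} (hK : IsBase K q s)
    {c : AlgebraicClosure K ≃+* AlgebraicClosure K} (hc : IsConj s c) {κ : AbsGal K → AbsGal K}
    (hκ : ∀ (σ : AbsGal K) (x : AlgebraicClosure K), κ σ x = c (σ (c x)))
    (E : Type*) [NormedField E] [NormedAlgebra ℚ_[2] E] [FiniteDimensional ℚ_[2] E] :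
    ∃ inv : (AbsGal K → AbsGal K → E) → E, InvMap (goodSys K) E cyc κ inv := by
  have hS := countsK hK
  have hL := localType hS
  have hχ := isChar_cyc (K := K)
  have hi := isInvol hc.sq hκ
  obtain ⟨X, hX⟩ := exists_gens (S := goodSys K)
    (hS ⊤ ⟨(goodSys K).ex.choose, (goodSys K).ex.choose_spec, le_top⟩).1
  obtain ⟨n0, hn0, hcyc, htriv⟩ := cyclic hL hχ hX
  obtain ⟨inv, hinv⟩ := exists_invMap_Q hχ hi hn0 hcyc
    (fun f hf => sign hL hχ hi hn0 hcyc htriv (exists_k0 hK hc hκ) (injI hK) hf)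
  exact exists_invMap_E E hinv

end Pool.Agent.Work.MP_787500_nt.PA
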