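import Mathlib
import Pool.Agent.Work.MP_787500_nt.PA.Defs

/-!
# Module EVENRANK (size S): antisymmetric forms have even rank

`B` descends to the quotient `Q = V / ker B`, where it is antisymmetric and nondegenerate (the kernel on
the other side is the same by antisymmetry). With a basis of `Q` of size `n'` the matrix `A` of the form
is invertible and `Aᵀ = -A`, so `det A = (-1) ^ n' det A` and `n'` is even (characteristic zero).
`finrank V = finrank (ker B) + finrank Q`.
-/

set_option autoImplicit false

namespace Pool.Agent.Work.MP_787500_nt.PA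

open IsDedekindDomain NumberField

universe u

theorem even_rank {E V : Type*} [Field E] [CharZero E] [AddCommGroup V] [Module E V]
    [FiniteDimensional E V] (B : V →ₗ[E] V →ₗ[E] E) (hB : ∀ x y, B x y = - B y x) :
    ∃ k, Module.finrank E V = Module.finrank E (LinearMap.ker B) + 2 * k := by
  obtain ⟨W, hW⟩ := Submodule.exists_isCompl (LinearMap.ker B)
  have h1 := Submodule.finrank_add_eq_of_isCompl hW
  set m := Module.finrank E W with hm
  let b : Module.Basis (Fin m) E W := Module.finBasis E W
  let A : Matrix (Fin m) (Fin m) E := Matrix.of fun i j => B (b i : V) (b j : V)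
  have hA : A.transpose = -A := by
    ext i j
    simp only [A, Matrix.transpose_apply, Matrix.of_apply, Matrix.neg_apply]
    exact hB _ _
  have hdet : A.det ≠ 0 := by
    intro h0
    obtain ⟨c, hc, hc0⟩ := Matrix.exists_mulVec_eq_zero_iff.2 h0
    apply hc
    set w : W := ∑ j, c j • b j with hw
    have hwz : ∀ i, B (b i : V) (w : V) = 0 := by
      intro i
      have h2 := congrFun hc0 i
      rw [hw]
      rw [Submodule.coe_sum, map_sum]
      simp only [Submodule.coe_smul, map_smul, smul_eq_mul]
      simp only [Matrix.mulVec, dotProduct, A, Matrix.of_apply, Pi.zero_apply] at h2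
      rw [← h2]
      exact Finset.sum_congr rfl fun j _ => mul_comm _ _
    have hwW : ∀ w' : W, B (w' : V) (w : V) = 0 := by
      intro w'
      have h3 : w' = ∑ i, b.repr w' i • b i := (b.sum_repr w').symm
      rw [h3, Submodule.coe_sum, map_sum]
      simp only [Submodule.coe_smul, map_smul, LinearMap.sum_apply, LinearMap.smul_apply]
      simp [hwz]
    have hker : (w : V) ∈ LinearMap.ker B := by
      rw [LinearMap.mem_ker]
      ext v
      have hv : v ∈ LinearMap.ker B ⊔ W := by rw [hW.sup_eq_top]; exact Submodule.mem_top
      obtain ⟨y, hy, z, hz, rfl⟩ := Submodule.mem_sup.1 hv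
      rw [map_add, hB (w : V) y, (LinearMap.mem_ker.1 hy), hB (w : V) z, hwW ⟨z, hz⟩]
      simp
    have hw0 : w = 0 := by
      have h4 : (w : V) ∈ LinearMap.ker B ⊓ W := ⟨hker, w.2⟩
      rw [hW.inf_eq_bot, Submodule.mem_bot] at h4
      exact Subtype.ext h4
    have h5 := b.linearIndependent
    rw [Fintype.linearIndependent_iff] at h5
    exact funext fun i => h5 c (by rw [← hw]; exact hw0) i
  have h2 : A.det = (-1) ^ m * A.det := by
    calc A.det = A.transpose.det := (Matrix.det_transpose A).symm
      _ = (-A).det := by rw [hA]
      _ = (-1) ^ m * A.det := by rw [Matrix.det_neg, Fintype.card_fin]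
  have h3 : ((-1 : E)) ^ m = 1 := by
    have : ((-1 : E) ^ m - 1) * A.det = 0 := by linear_combination -h2
    rcases mul_eq_zero.1 this with h | h
    · linear_combination h
    · exact absurd h hdet
  have h4 : Even m := by
    rcases Nat.even_or_odd m with h | h
    · exact h
    · rw [h.neg_one_pow] at h3
      norm_num at h3
  obtain ⟨k, hk⟩ := h4
  exact ⟨k, by omega⟩

end Pool.Agent.Work.MP_787500_nt.PA
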