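import Mathlib
import Pool.Agent.Work.MP_787500_nt.H10_CohDefs

/-!
Parity of Selmer groups: definitions used in the statement of the theorem. Do not change.
-/

set_option autoImplicit false

namespace Pool.Agent.Work.MP_787500_nt.PA

open IsDedekindDomain NumberField Matrix

universe u

variable {K : Type u} [Field K]
variable {E : Type*} [NormedField E] [NormedAlgebra ℚ_[2] E]
variable {n : ℕ}

/-- The value in `E` of the 2-adic cyclotomic character. -/
noncomputable def cycE (E : Type*) [NormedField E] [NormedAlgebra ℚ_[2] E] (σ : AbsGal K) : E :=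
  algebraMap ℚ_[2] E (((cyclotomicCharacter (AlgebraicClosure K) 2
    (σ : AlgebraicClosure K ≃+* AlgebraicClosure K) : ℤ_[2]ˣ) : ℤ_[2]) : ℚ_[2])

/-- The continuous representation `ρ` of the absolute Galois group of `K` on `E ^ n` has pro-2
image, is unramified at all primes not above 2, and `b` is the matrix of a symmetric bilinear form
with `b (σ x) (κ σ y) = χ σ * b x y`, where `χ` is the cyclotomic character. -/
structure IsConjDual (κ : AbsGal K → AbsGal K) (ρ : AbsGal K →* Matrix (Fin n) (Fin n) E)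
    (b : Matrix (Fin n) (Fin n) E) : Prop where
  cont : Continuous ρ
  proTwo : ∀ σ, Filter.Tendsto (fun k : ℕ => ρ (σ ^ 2 ^ k)) Filter.atTop (nhds 1)
  unram : ∀ Q : Ideal (𝓞 (AlgebraicClosure K)), Q.IsPrime → (2 : 𝓞 (AlgebraicClosure K)) ∉ Q →
    ∀ σ ∈ Q.inertia (AbsGal K), ρ σ = 1
  symm : bᵀ = b
  dual : ∀ σ, (ρ σ)ᵀ * b * ρ (κ σ) = cycE E σ • b

/-- The continuous cocycles of the subgroup `D`, for the action of `σ` by the matrix `A σ`. -/
noncomputable def cocyclesOn (A : AbsGal K → Matrix (Fin n) (Fin n) E)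
    (D : Subgroup (AbsGal K)) : Submodule E (D → Fin n → E) where
  carrier := {x | Continuous x ∧ ∀ σ τ : D, x (σ * τ) = x σ + A σ *ᵥ x τ}
  add_mem' := fun {x y} hx hy => ⟨hx.1.add hy.1, fun σ τ => by
    simp only [Pi.add_apply, hx.2 σ τ, hy.2 σ τ, mulVec_add]
    abel⟩
  zero_mem' := ⟨continuous_const, fun σ τ => by simp⟩
  smul_mem' := fun a x hx => ⟨hx.1.const_smul a, fun σ τ => by
    simp only [Pi.smul_apply, hx.2 σ τ, mulVec_smul, smul_add]⟩

/-- The coboundaries of the subgroup `D`, for the action of `σ` by the matrix `A σ`. -/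
noncomputable def coboundariesOn (A : AbsGal K → Matrix (Fin n) (Fin n) E)
    (D : Subgroup (AbsGal K)) : Submodule E (D → Fin n → E) where
  carrier := {x | ∃ v : Fin n → E, ∀ σ : D, x σ = A σ *ᵥ v - v}
  add_mem' := by
    rintro x y ⟨v, hv⟩ ⟨w, hw⟩
    refine ⟨v + w, fun σ => ?_⟩
    simp only [Pi.add_apply, hv, hw, mulVec_add]
    abel
  zero_mem' := ⟨0, fun σ => by simp⟩
  smul_mem' := by
    rintro a x ⟨v, hv⟩
    refine ⟨a • v, fun σ => ?_⟩
    simp only [Pi.smul_apply, hv, mulVec_smul, smul_sub]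

/-- The orthogonal complement of `L` for the local cup product: the cocycles `y` of `D`, for the
action of `σ` by `ρ (κ σ)`, such that for all `x` in `L` the 2-cocycle `b (x σ) (ρ (κ σ) (y τ))` of
`D` with values in `E` twisted by the cyclotomic character is the coboundary of a continuous
function. -/
noncomputable def perp (κ : AbsGal K → AbsGal K) (ρ : AbsGal K →* Matrix (Fin n) (Fin n) E)
    (b : Matrix (Fin n) (Fin n) E) (D : Subgroup (AbsGal K)) (L : Submodule E (D → Fin n → E)) :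
    Submodule E (D → Fin n → E) where
  carrier := {y | y ∈ cocyclesOn (fun σ => ρ (κ σ)) D ∧ ∀ x ∈ L, ∃ z : D → E, Continuous z ∧
    ∀ σ τ : D, x σ ⬝ᵥ (b *ᵥ (ρ (κ σ) *ᵥ y τ)) = z σ + cycE E (σ : AbsGal K) * z τ - z (σ * τ)}
  add_mem' := by
    rintro y y' ⟨h1, h2⟩ ⟨h1', h2'⟩
    refine ⟨add_mem h1 h1', fun x hx => ?_⟩
    obtain ⟨z, hz, hz'⟩ := h2 x hx
    obtain ⟨w, hw, hw'⟩ := h2' x hx
    refine ⟨z + w, hz.add hw, fun σ τ => ?_⟩
    simp only [Pi.add_apply, mulVec_add, dotProduct_add, hz', hw']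
    ring
  zero_mem' := ⟨zero_mem _, fun x _ => ⟨0, continuous_const, fun σ τ => by simp⟩⟩
  smul_mem' := by
    rintro a y ⟨h1, h2⟩
    refine ⟨Submodule.smul_mem _ a h1, fun x hx => ?_⟩
    obtain ⟨z, hz, hz'⟩ := h2 x hx
    refine ⟨a • z, hz.const_smul a, fun σ τ => ?_⟩
    simp only [Pi.smul_apply, mulVec_smul, dotProduct_smul, hz', smul_eq_mul]
    ring

/-- The Selmer space: the continuous cocycles `x` of the absolute Galois group of `K` that vanish on
the inertia groups of all primes not above 2, whose restriction to `D` lies in `L`, and such that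
`x ∘ κ`, restricted to `D`, lies in the orthogonal complement of `L`. -/
noncomputable def selmerPerp (κ : AbsGal K → AbsGal K) (ρ : AbsGal K →* Matrix (Fin n) (Fin n) E)
    (b : Matrix (Fin n) (Fin n) E) (D : Subgroup (AbsGal K)) (L : Submodule E (D → Fin n → E)) :
    Submodule E (AbsGal K → Fin n → E) where
  carrier := {x | Continuous x ∧ (∀ σ τ, x (σ * τ) = x σ + ρ σ *ᵥ x τ) ∧
    (∀ Q : Ideal (𝓞 (AlgebraicClosure K)), Q.IsPrime → (2 : 𝓞 (AlgebraicClosure K)) ∉ Q →
      ∀ σ ∈ Q.inertia (AbsGal K), x σ = 0) ∧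
    (fun σ : D => x σ) ∈ L ∧ (fun σ : D => x (κ σ)) ∈ perp κ ρ b D L}
  add_mem' := by
    rintro x y ⟨h1, h2, h3, h4, h5⟩ ⟨h1', h2', h3', h4', h5'⟩
    refine ⟨h1.add h1', fun σ τ => ?_, fun Q hQ hQ2 σ hσ => ?_, add_mem h4 h4', add_mem h5 h5'⟩
    · simp only [Pi.add_apply, h2 σ τ, h2' σ τ, mulVec_add]
      abel
    · simp only [Pi.add_apply, h3 Q hQ hQ2 σ hσ, h3' Q hQ hQ2 σ hσ, add_zero]
  zero_mem' := ⟨continuous_const, fun σ τ => by simp, fun _ _ _ _ _ => rfl, zero_mem L,
    zero_mem (perp κ ρ b D L)⟩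
  smul_mem' := by
    rintro a x ⟨h1, h2, h3, h4, h5⟩
    refine ⟨h1.const_smul a, fun σ τ => ?_, fun Q hQ hQ2 σ hσ => ?_, L.smul_mem a h4,
      (perp κ ρ b D L).smul_mem a h5⟩
    · simp only [Pi.smul_apply, h2 σ τ, mulVec_smul, smul_add]
    · simp only [Pi.smul_apply, h3 Q hQ hQ2 σ hσ, smul_zero]

/-- The coboundaries of the absolute Galois group of `K`. -/
noncomputable def coboundaries (ρ : AbsGal K →* Matrix (Fin n) (Fin n) E) :
    Submodule E (AbsGal K → Fin n → E) where
  carrier := {x | ∃ v : Fin n → E, ∀ σ, x σ = ρ σ *ᵥ v - v}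
  add_mem' := by
    rintro x y ⟨v, hv⟩ ⟨w, hw⟩
    refine ⟨v + w, fun σ => ?_⟩
    simp only [Pi.add_apply, hv, hw, mulVec_add]
    abel
  zero_mem' := ⟨0, fun σ => by simp⟩
  smul_mem' := by
    rintro a x ⟨v, hv⟩
    refine ⟨a • v, fun σ => ?_⟩
    simp only [Pi.smul_apply, hv, mulVec_smul, smul_sub]

/-- The dimension of `M` modulo `B`. -/
noncomputable def dimModulo {A : Type*} [AddCommGroup A] [Module E A] (M B : Submodule E A) : ℕ :=
  Module.finrank E (M ⧸ B.submoduleOf M)

/-- For every local condition `L`, the space `L` and the Selmer space are finite dimensional modulo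
coboundaries, and the dimension of the Selmer space modulo coboundaries is at most the dimension of
`L` modulo coboundaries, and of the same parity. -/
def ParityBound (κ : AbsGal K → AbsGal K) (ρ : AbsGal K →* Matrix (Fin n) (Fin n) E)
    (b : Matrix (Fin n) (Fin n) E) (D : Subgroup (AbsGal K)) : Prop :=
  ∀ L : Submodule E (D → Fin n → E), coboundariesOn (fun σ => ρ σ) D ≤ L →
    L ≤ cocyclesOn (fun σ => ρ σ) D →
    FiniteDimensional E (L ⧸ (coboundariesOn (fun σ => ρ σ) D).submoduleOf L) ∧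
    FiniteDimensional E (selmerPerp κ ρ b D L ⧸
      (coboundaries ρ).submoduleOf (selmerPerp κ ρ b D L)) ∧
    coboundaries ρ ≤ selmerPerp κ ρ b D L ∧
    ∃ k : ℕ, dimModulo L (coboundariesOn (fun σ => ρ σ) D) =
      dimModulo (selmerPerp κ ρ b D L) (coboundaries ρ) + 2 * k

end Pool.Agent.Work.MP_787500_nt.PA
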