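import Mathlib
import Pool.Agent.Work.MP_787500_nt.PA.GoodSys
import Pool.Agent.Work.MP_787500_nt.PA.StDefs

/-!
Global cocycles and their cup product: definitions (fixed, do not change).
-/

set_option autoImplicit false

namespace Pool.Agent.Work.MP_787500_nt.PA

open IsDedekindDomain NumberField Matrix

universe u

variable {K : Type u} [Field K] [NumberField K]
variable {E : Type*} [NormedField E] [NormedAlgebra ℚ_[2] E]
variable {n : ℕ}

/-- the global cocycles that are uniformly continuous for the system of good subgroups -/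
noncomputable def Zg (ρ : AbsGal K →* Matrix (Fin n) (Fin n) E) :
    Submodule E (AbsGal K → Fin n → E) where
  carrier := {X | N1 (goodSys K) X ∧ ∀ g h, X (g * h) = X g + ρ g *ᵥ X h}
  add_mem' := by
    rintro X Y ⟨h1, h2⟩ ⟨h1', h2'⟩
    refine ⟨fun ε hε => ?_, fun g h => ?_⟩
    · obtain ⟨W, hW, hX⟩ := h1 (ε / 2) (half_pos hε)
      obtain ⟨W', hW', hY⟩ := h1' (ε / 2) (half_pos hε)
      refine ⟨W ⊓ W', (goodSys K).inf hW hW', fun g w hw => ?_⟩
      have h3 : (X + Y) (g * w) - (X + Y) g = (X (g * w) - X g) + (Y (g * w) - Y g) := by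
        simp only [Pi.add_apply]
        abel
      rw [h3]
      exact (norm_add_le _ _).trans_lt (by linarith [hX g w hw.1, hY g w hw.2])
    · simp only [Pi.add_apply, h2, h2', mulVec_add]
      abel
  zero_mem' := by
    refine ⟨fun ε hε => ?_, fun g h => by simp⟩
    obtain ⟨W, hW⟩ := (goodSys K).ex
    exact ⟨W, hW, fun g w _ => by simpa using hε⟩
  smul_mem' := by
    rintro a X ⟨h1, h2⟩
    refine ⟨fun ε hε => ?_, fun g h => ?_⟩
    · obtain ⟨W, hW, hX⟩ := h1 (ε / (‖a‖ + 1)) (by positivity)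
      refine ⟨W, hW, fun g w hw => ?_⟩
      have h3 : (a • X) (g * w) - (a • X) g = a • (X (g * w) - X g) := by
        simp only [Pi.smul_apply, smul_sub]
      rw [h3, norm_smul]
      have h4 := hX g w hw
      have h5 : 0 ≤ ‖a‖ := norm_nonneg a
      rw [lt_div_iff₀ (by positivity)] at h4
      have h6 : 0 ≤ ‖X (g * w) - X g‖ := norm_nonneg _
      nlinarith
    · simp only [Pi.smul_apply, h2, mulVec_smul, smul_add]

/-- the cup product of the cocycle `X` and the cocycle `Y ∘ κ` -/
noncomputable def om (κ : AbsGal K → AbsGal K) (ρ : AbsGal K →* Matrix (Fin n) (Fin n) E)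
    (b : Matrix (Fin n) (Fin n) E) (X Y : AbsGal K → Fin n → E) (g h : AbsGal K) : E :=
  X g ⬝ᵥ (b *ᵥ (ρ (κ g) *ᵥ Y (κ h)))

end Pool.Agent.Work.MP_787500_nt.PA
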