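import Mathlib
import Pool.Agent.Work.MP_787500_nt.PA.CDefs

/-!
# Module SMALLRHO (size M): pro-2 representations are trivial on small good subgroups

* `ultra`: `‖(k : E)‖ = ‖(k : ℚ_[2])‖ ≤ 1` for natural numbers `k` (`norm_algebraMap'`), and
  `IsUltrametricDist.isUltrametricDist_of_forall_norm_natCast_le_one`.
* `small_rho`: we may assume `ε ≤ 1`. `V = {g | ∀ i j, ‖(r g - 1) i j‖ < ε}` is open and contains 1, and
  is closed under products: `(1 + A) (1 + B) - 1 = A + B + A B` (ultrametric, `ε ≤ 1`). It is closed under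
  inverses: `AbsGal K` is profinite, let `V'` be an open subgroup inside `V` (Krull topology); it has finite
  index, so `g ^ m ∈ V'` for some `m ≥ 1` and `g⁻¹ = g ^ (m - 1) * (g ^ m)⁻¹ ∈ V * V' ⊆ V`. So `V` is an
  open subgroup. `W = V.normalCore` is open (finite index and closed, or a finite intersection of
  conjugates) and normal. Powers: `V` has finitely many conjugates under `AbsGal K`; equivalently
  `h g h⁻¹ ∈ V` depends only on the class of `h` modulo `W` (finite quotient); for each `h`,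
  `r ((h g h⁻¹) ^ 2 ^ k) → 1` gives `k_h` with `(h g h⁻¹) ^ 2 ^ k ∈ V` for `k ≥ k_h`; take the maximum.
  Inertia: `r σ = 1` and then `r (h σ h⁻¹) = 1`.
-/

set_option autoImplicit false

namespace Pool.Agent.Work.MP_787500_nt.PA

open IsDedekindDomain NumberField Matrix

universe u

variable {K : Type u} [Field K] [NumberField K]
variable {E : Type*} [NormedField E] [NormedAlgebra ℚ_[2] E]
variable {n : ℕ}

theorem ultra (E : Type*) [NormedField E] [NormedAlgebra ℚ_[2] E] : IsUltrametricDist E :=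
  IsUltrametricDist.of_normedAlgebra ℚ_[2]

private theorem sr_sum {E : Type*} [NormedField E] [NormedAlgebra ℚ_[2] E] {ι : Type*}
    (s : Finset ι) (f : ι → E) {δ : ℝ} (hδ : 0 < δ) (h : ∀ i ∈ s, ‖f i‖ < δ) :
    ‖∑ i ∈ s, f i‖ < δ := by
  classical
  have hu := ultra E
  induction s using Finset.induction_on with
  | empty => simpa using hδ
  | insert a s ha ih =>
    rw [Finset.sum_insert ha]
    refine (IsUltrametricDist.norm_add_le_max _ _).trans_lt (max_lt ?_ ?_)
    · exact h a (Finset.mem_insert_self a s)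
    · exact ih fun i hi => h i (Finset.mem_insert_of_mem hi)

private theorem sr_sub_one {E : Type*} [NormedField E] [NormedAlgebra ℚ_[2] E] {m : Type*}
    [Fintype m] [DecidableEq m] (A B : Matrix m m E) {δ : ℝ} (hδ : 0 < δ) (hδ1 : δ ≤ 1)
    (hA : ∀ i j, ‖(A - 1) i j‖ < δ) (hB : ∀ i j, ‖(B - 1) i j‖ < δ) (i j : m) :
    ‖(A * B - 1) i j‖ < δ := by
  have hu := ultra E
  have h1 : A * B - 1 = (A - 1) * (B - 1) + ((A - 1) + (B - 1)) := by
    noncomm_ring
  rw [h1, Matrix.add_apply, Matrix.add_apply]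
  refine (IsUltrametricDist.norm_add_le_max _ _).trans_lt (max_lt ?_ ?_)
  · rw [Matrix.mul_apply]
    refine sr_sum _ _ hδ fun k _ => ?_
    rw [norm_mul]
    calc ‖(A - 1) i k‖ * ‖(B - 1) k j‖ ≤ 1 * ‖(B - 1) k j‖ :=
          mul_le_mul_of_nonneg_right ((hA i k).le.trans hδ1) (norm_nonneg _)
      _ < δ := by rw [one_mul]; exact hB k j
  · exact (IsUltrametricDist.norm_add_le_max _ _).trans_lt (max_lt (hA i j) (hB i j))

theorem small_rho {m : Type*} [Fintype m] [DecidableEq m] (r : AbsGal K →* Matrix m m E)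
    (hcont : Continuous r)
    (hpro : ∀ σ, Filter.Tendsto (fun k : ℕ => r (σ ^ 2 ^ k)) Filter.atTop (nhds 1))
    (hun : ∀ Q : Ideal (𝓞 (AlgebraicClosure K)), Q.IsPrime → (2 : 𝓞 (AlgebraicClosure K)) ∉ Q →
      ∀ σ ∈ Q.inertia (AbsGal K), r σ = 1) {ε : ℝ} (hε : 0 < ε) :
    ∃ W : Subgroup (AbsGal K), Good W ∧ ∀ w ∈ W, ∀ i j, ‖(r w - 1) i j‖ < ε := by
  classical
  obtain ⟨δ, hδ, hδ1, hδε⟩ : ∃ δ : ℝ, 0 < δ ∧ δ ≤ 1 ∧ δ ≤ ε :=
    ⟨min 1 ε, lt_min one_pos hε, min_le_left _ _, min_le_right _ _⟩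
  set V : Set (AbsGal K) := {g | ∀ i j, ‖(r g - 1) i j‖ < δ} with hV
  have hVo : IsOpen V := by
    have h1 : V = ⋂ i, ⋂ j, {g | ‖(r g - 1) i j‖ < δ} := by
      ext g; simp [hV]
    rw [h1]
    refine isOpen_iInter_of_finite fun i => isOpen_iInter_of_finite fun j => ?_
    refine isOpen_lt ?_ continuous_const
    exact ((hcont.sub continuous_const).matrix_elem i j).norm
  have hV1 : ∀ g, r g = 1 → g ∈ V := fun g hg i j => by
    rw [hg, sub_self]; simpa using hδ
  let U : Subgroup (AbsGal K) :=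
    { carrier := {g | g ∈ V ∧ g⁻¹ ∈ V}
      mul_mem' := by
        rintro a b ⟨ha, ha'⟩ ⟨hb, hb'⟩
        refine ⟨fun i j => ?_, fun i j => ?_⟩
        · rw [map_mul]; exact sr_sub_one _ _ hδ hδ1 ha hb i j
        · rw [_root_.mul_inv_rev, map_mul]; exact sr_sub_one _ _ hδ hδ1 hb' ha' i j
      one_mem' := ⟨hV1 1 (map_one r), by rw [inv_one]; exact hV1 1 (map_one r)⟩
      inv_mem' := by
        rintro a ⟨ha, ha'⟩
        exact ⟨ha', by rw [inv_inv]; exact ha⟩ }
  have hUo : IsOpen (U : Set (AbsGal K)) := hVo.inter (hVo.preimage continuous_inv)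
  have hfin : Finite (AbsGal K ⧸ U) := Subgroup.quotient_finite_of_isOpen U hUo
  have hUfi : U.FiniteIndex := Subgroup.finiteIndex_of_finite_quotient
  have hUc : IsClosed (U : Set (AbsGal K)) := Subgroup.isClosed_of_isOpen U hUo
  have hWo : IsOpen (U.normalCore : Set (AbsGal K)) :=
    Subgroup.isOpen_of_isClosed_of_finiteIndex _ (U.normalCore_isClosed hUc)
  have hmem : ∀ x, (∀ h : AbsGal K, h⁻¹ * x * h ∈ U) → x ∈ U.normalCore := by
    intro x hx b
    have := hx b⁻¹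
    rwa [inv_inv] at this
  have hev : ∀ σ : AbsGal K, ∀ᶠ k : ℕ in Filter.atTop, σ ^ 2 ^ k ∈ V := by
    intro σ
    have h1 : ∀ i j, ∀ᶠ k : ℕ in Filter.atTop, ‖(r (σ ^ 2 ^ k) - 1) i j‖ < δ := by
      intro i j
      have h2 : Filter.Tendsto (fun k : ℕ => ‖(r (σ ^ 2 ^ k) - 1) i j‖) Filter.atTop (nhds 0) := by
        have h3 : Filter.Tendsto (fun k : ℕ => (r (σ ^ 2 ^ k)) i j) Filter.atTop
            (nhds ((1 : Matrix m m E) i j)) :=
          (tendsto_pi_nhds.1 ((tendsto_pi_nhds.1 (hpro σ)) i)) j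
        have h4 := (h3.sub_const ((1 : Matrix m m E) i j)).norm
        rw [sub_self, norm_zero] at h4
        exact h4
      exact h2.eventually_lt_const hδ
    filter_upwards [Filter.eventually_all.2 fun i => Filter.eventually_all.2 fun j => h1 i j]
      with k hk
    exact hk
  refine ⟨U.normalCore, ⟨inferInstance, hWo, ?_, ?_⟩, ?_⟩
  · intro g
    have hq : ∀ q : AbsGal K ⧸ U, ∀ᶠ k : ℕ in Filter.atTop,
        (q.out)⁻¹ * g ^ 2 ^ k * q.out ∈ U := by
      intro q
      filter_upwards [hev ((q.out)⁻¹ * g * q.out), hev (((q.out)⁻¹ * g * q.out)⁻¹)] with k h1 h2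
      have h3 : ((q.out)⁻¹ * g * q.out) ^ 2 ^ k = (q.out)⁻¹ * g ^ 2 ^ k * q.out := by
        have := conj_pow (i := 2 ^ k) (a := (q.out)⁻¹) (b := g)
        rwa [inv_inv] at this
      rw [h3] at h1
      rw [inv_pow, h3] at h2
      exact ⟨h1, h2⟩
    obtain ⟨k, hk⟩ := (Filter.eventually_all.2 hq).exists
    refine ⟨k, hmem _ fun h => ?_⟩
    have h1 := hk (QuotientGroup.mk h)
    obtain ⟨u, hu⟩ := QuotientGroup.mk_out_eq_mul U h
    have h2 : h = ((QuotientGroup.mk h : AbsGal K ⧸ U).out) * (u : AbsGal K)⁻¹ := by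
      rw [hu]; group
    have h3 : h⁻¹ * g ^ 2 ^ k * h = (u : AbsGal K) * (((QuotientGroup.mk h : AbsGal K ⧸ U).out)⁻¹ *
        g ^ 2 ^ k * ((QuotientGroup.mk h : AbsGal K ⧸ U).out)) * (u : AbsGal K)⁻¹ := by
      conv_lhs => rw [h2]
      group
    rw [h3]
    exact U.mul_mem (U.mul_mem u.2 h1) (U.inv_mem u.2)
  · intro Q hQ hQ2 σ hσ
    refine hmem σ fun h => ?_
    have h1 : r (h⁻¹ * σ * h) = 1 := by
      rw [map_mul, map_mul, hun Q hQ hQ2 σ hσ, mul_one, ← map_mul, inv_mul_cancel, map_one]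
    refine ⟨hV1 _ h1, hV1 _ ?_⟩
    have h2 : r (h⁻¹ * σ * h)⁻¹ * r (h⁻¹ * σ * h) = 1 := by
      rw [← map_mul, inv_mul_cancel, map_one]
    rwa [h1, mul_one] at h2
  · intro w hw i j
    exact ((U.normalCore_le hw).1 i j).trans_le hδε

end Pool.Agent.Work.MP_787500_nt.PA
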