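import Mathlib
import Pool.Agent.Work.MP_787500_nt.PA.RhoB
import Pool.Agent.Work.MP_787500_nt.PA.NoHom

/-!
# Module EXT (size M): local cocycles extend uniquely

`D = decomp ι`.
* `extend`: `x` a continuous cocycle of `D`. On `D ⊓ core K`, `ρ = 1` (`rho_core`), so each coordinate of
  `x` is a continuous homomorphism there, hence zero (`no_homE` with
  `μ g = if h : g ∈ D then x ⟨g, h⟩ i else 0`). So `x (d k) = x d + ρ d (x k) = x d` for `k ∈ D ⊓ core K`.
  `descend` (with `A = Fin n → E`) gives `X` with `N1`, `X = x` on `D`, `X (g k) = X g` for `k ∈ core K`.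
  Cocycle: for `g, h` write `g = d k`, `h = e k'` (`decomp_mul_core`), `g h = (d e) (e⁻¹ k e) k'`, and
  `X (g h) = x (d e) = x d + ρ d x e = X g + ρ g X h` (`ρ k = 1`).
* `zg_unique`: `X ∈ Zg ρ` zero on `D`: `g = d k`, `X g = X d = 0` (`zg_core`).
* `om_core`: not needed here.
-/

set_option autoImplicit false

namespace Pool.Agent.Work.MP_787500_nt.PA

open IsDedekindDomain NumberField Matrix

universe u

variable {K : Type u} [Field K] [NumberField K]
variable {E : Type*} [NormedField E] [NormedAlgebra ℚ_[2] E]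
variable {n : ℕ}

theorem extend [FiniteDimensional ℚ_[2] E] {q : ℕ} {s : K} (hK : IsBase K q s)
    {v : HeightOneSpectrum (𝓞 K)} (hv : (2 : 𝓞 K) ∈ v.asIdeal)
    (ι : AlgebraicClosure K →ₐ[K] AlgebraicClosure (v.adicCompletion K))
    {κ : AbsGal K → AbsGal K} {ρ : AbsGal K →* Matrix (Fin n) (Fin n) E}
    {b : Matrix (Fin n) (Fin n) E} (hρ : IsConjDual κ ρ b) {x : decomp ι → Fin n → E}
    (hx : x ∈ cocyclesOn (fun σ => ρ σ) (decomp ι)) :
    ∃ X ∈ Zg ρ, ∀ d : decomp ι, X d = x d := by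
  obtain ⟨hc, hx'⟩ := hx
  have hx : ∀ σ τ : decomp ι, x (σ * τ) = x σ + ρ σ *ᵥ x τ := hx'
  have hzero : ∀ k : decomp ι, (k : AbsGal K) ∈ core K → x k = 0 := by
    intro k hk
    funext i
    classical
    set μ : AbsGal K → E := fun g => if h : g ∈ decomp ι then x ⟨g, h⟩ i else 0 with hμ
    have hμ1 : ∀ (g : AbsGal K) (h : g ∈ decomp ι), μ g = x ⟨g, h⟩ i := fun g h => dif_pos h
    have h1 : μ k = 0 := by
      refine no_homE hK hv ι μ ?_ ?_ ⟨k.2, hk⟩
      · intro g hg h hh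
        have hg1 : g ∈ decomp ι := hg.1
        have hh1 : h ∈ decomp ι := hh.1
        have hg2 : g ∈ core K := hg.2
        have h2 : (⟨g * h, mul_mem hg1 hh1⟩ : decomp ι) = ⟨g, hg1⟩ * ⟨h, hh1⟩ := rfl
        rw [hμ1 g hg1, hμ1 h hh1, hμ1 _ (mul_mem hg1 hh1), h2, hx]
        simp only [rho_core hρ hg2, Matrix.one_mulVec, Pi.add_apply]
      · rw [continuousOn_iff_continuous_domRestrict]
        have h3 : ((decomp ι ⊓ core K : Subgroup (AbsGal K)) : Set (AbsGal K)).domRestrict μ =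
            fun a => x ⟨a.1, a.2.1⟩ i := by
          funext a
          exact hμ1 _ a.2.1
        rw [h3]
        exact (continuous_apply i).comp (hc.comp (Continuous.subtype_mk continuous_subtype_val _))
    rw [hμ1 k k.2] at h1
    exact h1
  obtain ⟨Z, hZ, hZx, hZk⟩ := descend hK hv ι x hc (by
    intro d k hk
    rw [hx, hzero k hk, Matrix.mulVec_zero, add_zero])
  have hdec : ∀ g : AbsGal K, ∃ d : decomp ι, ∃ k ∈ core K, g = d * k := by
    intro g
    obtain ⟨d, hd, hdg⟩ := decomp_mul_core hK hv ι g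
    exact ⟨⟨d, hd⟩, d⁻¹ * g, hdg, by rw [mul_inv_cancel_left]⟩
  refine ⟨Z, ⟨hZ, fun g h => ?_⟩, hZx⟩
  obtain ⟨d, k, hk, rfl⟩ := hdec g
  obtain ⟨e, k', hk', rfl⟩ := hdec h
  have h4 : (d : AbsGal K) * k * (e * k') =
      ((d * e : decomp ι) : AbsGal K) * ((e : AbsGal K)⁻¹ * k * ((e : AbsGal K)⁻¹)⁻¹ * k') := by
    rw [Subgroup.coe_mul, inv_inv]
    group
  have h5 : (e : AbsGal K)⁻¹ * k * ((e : AbsGal K)⁻¹)⁻¹ * k' ∈ core K :=
    mul_mem (core_normal.conj_mem k hk _) hk'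
  rw [h4, hZk _ _ h5, hZk _ _ hk, hZk _ _ hk', hZx, hZx, hZx, hx, map_mul, rho_core hρ hk, mul_one]

theorem zg_unique {q : ℕ} {s : K} (hK : IsBase K q s)
    {v : HeightOneSpectrum (𝓞 K)} (hv : (2 : 𝓞 K) ∈ v.asIdeal)
    (ι : AlgebraicClosure K →ₐ[K] AlgebraicClosure (v.adicCompletion K))
    {ρ : AbsGal K →* Matrix (Fin n) (Fin n) E} {X : AbsGal K → Fin n → E} (hX : X ∈ Zg ρ)
    (h : ∀ d : decomp ι, X d = 0) : X = 0 := by
  funext g
  obtain ⟨d, hd, hdg⟩ := decomp_mul_core hK hv ι g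
  have h1 := (zg_core hX hdg).2 d
  rw [mul_inv_cancel_left] at h1
  rw [h1, h ⟨d, hd⟩]
  rfl

end Pool.Agent.Work.MP_787500_nt.PA
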