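import Mathlib
import Pool.Agent.Work.MP_787500_nt.PA.RhoB
import Pool.Agent.Work.MP_787500_nt.PA.CountsK
import Pool.Agent.Work.MP_787500_nt.PA.Gens

/-!
# Module FINDIM (size S-M): the space of cocycles is finite dimensional

`T` a finite set as in `exists_gens` (for `S = goodSys K`; `countsK` gives the finite dimension of
`homs S ⊤`). Evaluation at the elements of `T` is a linear map from `Zg ρ` to the finite dimensional
space `T → Fin n → E`; it is injective: let `X ∈ Zg ρ`, `X = 0` on `T`. Then `X = 0` on the subgroup `H`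
generated by `T` (`Subgroup.closure_induction`; `X g⁻¹ = - ρ g⁻¹ X g`). For each good `W` the subgroup
`H ⊔ W` is open for the system (`Opn`) and contains `T`, so it is `⊤`; as `W` is normal each `g` is
`h w` (`Subgroup.mul_normal`), so `‖X g‖ = ‖X (h w) - X h‖ < ε` for `W` from `N1`. So `X = 0`.
-/

set_option autoImplicit false

namespace Pool.Agent.Work.MP_787500_nt.PA

open IsDedekindDomain NumberField Matrix

universe u

variable {K : Type u} [Field K] [NumberField K]
variable {E : Type*} [NormedField E] [NormedAlgebra ℚ_[2] E]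
variable {n : ℕ}

theorem zg_finite {q : ℕ} {s : K} (hK : IsBase K q s)
    (ρ : AbsGal K →* Matrix (Fin n) (Fin n) E) : FiniteDimensional E (Zg ρ) := by
  have hop : Opn (goodSys K) ⊤ := by
    obtain ⟨W, hW⟩ := (goodSys K).ex
    exact ⟨W, hW, le_top⟩
  obtain ⟨T, hT⟩ := exists_gens (S := goodSys K) (countsK hK ⊤ hop).1
  let ev : Zg ρ →ₗ[E] (T → Fin n → E) :=
    { toFun := fun X t => (X : AbsGal K → Fin n → E) t
      map_add' := fun X Y => rfl
      map_smul' := fun a X => rfl }
  refine FiniteDimensional.of_injective ev ?_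
  rw [injective_iff_map_eq_zero]
  rintro ⟨X, hX1, hX2⟩ hz
  have hzT : ∀ t ∈ T, X t = 0 := fun t ht => congrFun hz ⟨t, ht⟩
  have h1 : X 1 = 0 := by
    have h := hX2 1 1
    rw [mul_one, map_one, one_mulVec] at h
    exact left_eq_add.1 h
  have hH : ∀ g ∈ Subgroup.closure (T : Set (AbsGal K)), X g = 0 := by
    intro g hg
    induction hg using Subgroup.closure_induction with
    | mem x hx => exact hzT x hx
    | one => exact h1
    | mul x y _ _ hx hy => rw [hX2, hx, hy, mulVec_zero, add_zero]
    | inv x _ hx =>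
      have h := hX2 x x⁻¹
      rw [mul_inv_cancel, h1, hx, zero_add] at h
      have h3 := congrArg (fun v => ρ x⁻¹ *ᵥ v) h
      simp only [mulVec_zero, mulVec_mulVec] at h3
      rw [← map_mul, inv_mul_cancel, map_one, one_mulVec] at h3
      exact h3.symm
  have hall : ∀ g, X g = 0 := by
    intro g
    rw [← norm_le_zero_iff]
    refine le_of_forall_pos_lt_add fun ε hε => ?_
    obtain ⟨W, hW, hWX⟩ := hX1 ε hε
    have hn := (goodSys K).normal hW
    have htop : Subgroup.closure (T : Set (AbsGal K)) ⊔ W = ⊤ :=
      hT _ ⟨W, hW, le_sup_right⟩ fun t ht =>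
        (le_sup_left : Subgroup.closure (T : Set (AbsGal K)) ≤ _)
          (Subgroup.subset_closure ht)
    have hg : g ∈ Subgroup.closure (T : Set (AbsGal K)) ⊔ W := by
      rw [htop]
      trivial
    obtain ⟨h, hh, w, hw, rfl⟩ := Subgroup.mem_sup_of_normal_right.1 hg
    have h4 := hWX h w hw
    rw [hH h hh, sub_zero] at h4
    rw [zero_add]
    exact h4
  exact Subtype.ext (funext hall)

end Pool.Agent.Work.MP_787500_nt.PA
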