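import Mathlib
import Pool.Agent.Work.MP_787500_nt.PA.Stab
import Pool.Agent.Work.MP_787500_nt.PA.NoHom
import Pool.Agent.Work.MP_787500_nt.PA.CycK

/-!
# Module LGCOB (size M): a class is trivial if it is trivial on the decomposition group

`D = decomp ι`, `f` in `ZE (goodSys K) cyc`.
(⇒) `f = dE cyc z`, `z` in `N1`: restrict `z` to `D`; `N1` implies continuity (`‖z (g w) - z g‖ < ε` on the
open subgroup `W`).
(⇐) `f` is constant on the cosets of `core K` in both variables (`N2`, all `ε`; `core K` is contained in all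
good subgroups). Let `c₀ = f 1 1`. For `k, k' ∈ D ⊓ core K`: `cyc k = 1` (`cyc_core`), `f k k' = c₀`, so
`z k + z k' - z (k k') = c₀`: `k ↦ z k - c₀` is a continuous homomorphism on `D ⊓ core K`, zero by
`no_homE`: `z k = c₀`. The cocycle identity at `(d, 1, 1)` gives `f d 1 = cyc d * c₀`. So
`z (d k) = z d + cyc d * z k - f d k = z d + cyc d * c₀ - f d 1 = z d`. `descend` (with `A = E`) gives `Z`
in `N1` with `Z = z` on `D`, invariant under `core K`. `f g h = dE cyc Z g h`: for `g = d k`, `h = e k'`
(`decomp_mul_core`), `f g h = f d e`, `cyc g = cyc d`, `Z (g h) = Z (d e)` (`core K` normal).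
-/

set_option autoImplicit false

namespace Pool.Agent.Work.MP_787500_nt.PA

open IsDedekindDomain NumberField Matrix

universe u

variable {K : Type u} [Field K] [NumberField K]
variable {E : Type*} [NormedField E] [NormedAlgebra ℚ_[2] E]
variable {n : ℕ}

theorem lg_cob [FiniteDimensional ℚ_[2] E] {q : ℕ} {s : K} (hK : IsBase K q s)
    {v : HeightOneSpectrum (𝓞 K)} (hv : (2 : 𝓞 K) ∈ v.asIdeal)
    (ι : AlgebraicClosure K →ₐ[K] AlgebraicClosure (v.adicCompletion K))
    {f : AbsGal K → AbsGal K → E} (hf : ZE (goodSys K) cyc f) :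
    BE (goodSys K) cyc f ↔ ∃ z : decomp ι → E, Continuous z ∧
      ∀ σ τ : decomp ι, f σ τ = z σ + toE E (cyc (σ : AbsGal K)) * z τ - z (σ * τ) := by
  obtain ⟨hN2, hcoc⟩ := hf
  constructor
  · rintro ⟨z, hz, rfl⟩
    refine ⟨fun d => z d, ?_, fun σ τ => rfl⟩
    have hzc : Continuous z := by
      rw [continuous_iff_continuousAt]
      intro g
      rw [Metric.continuousAt_iff']
      intro ε hε
      obtain ⟨W, hW, hsm⟩ := hz ε hε
      have hW' : Good W := hW
      have h1 : {x : AbsGal K | g⁻¹ * x ∈ W} ∈ nhds g := by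
        have h2 : IsOpen {x : AbsGal K | g⁻¹ * x ∈ W} :=
          hW'.isOpen.preimage (continuous_const.mul continuous_id)
        refine h2.mem_nhds ?_
        change g⁻¹ * g ∈ W
        rw [inv_mul_cancel]
        exact W.one_mem
      filter_upwards [h1] with x hx
      have h3 := hsm g (g⁻¹ * x) hx
      rw [mul_inv_cancel_left] at h3
      rwa [dist_eq_norm]
    exact hzc.comp continuous_subtype_val
  · rintro ⟨z, hzc, hz⟩
    -- `f` is constant on cosets of the core
    have hfk : ∀ g h : AbsGal K, ∀ k ∈ core K, ∀ k' ∈ core K, f (g * k) (h * k') = f g h := by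
      intro g h k hk k' hk'
      rw [← sub_eq_zero, ← norm_le_zero_iff]
      refine le_of_forall_pos_le_add fun ε hε => ?_
      obtain ⟨W, hW, hsm⟩ := hN2 ε hε
      rw [zero_add]
      exact (hsm g h k (core_le hW hk) k' (core_le hW hk')).le
    have htoE1 : toE E (1 : ℤ_[2]) = 1 := by
      simp only [toE, PadicInt.coe_one, map_one]
    have hzk : ∀ k : decomp ι, (k : AbsGal K) ∈ core K → z k = f 1 1 := by
      intro k hk
      classical
      set μ : AbsGal K → E := fun g => if h : g ∈ decomp ι then z ⟨g, h⟩ - f 1 1 else 0 with hμ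
      have hμ1 : ∀ (g : AbsGal K) (h : g ∈ decomp ι), μ g = z ⟨g, h⟩ - f 1 1 :=
        fun g h => dif_pos h
      have h1 : μ k = 0 := by
        refine no_homE hK hv ι μ ?_ ?_ ⟨k.2, hk⟩
        · intro g hg h hh
          have hg1 : g ∈ decomp ι := hg.1
          have hh1 : h ∈ decomp ι := hh.1
          have hg2 : g ∈ core K := hg.2
          have hh2 : h ∈ core K := hh.2
          have h2 : (⟨g * h, mul_mem hg1 hh1⟩ : decomp ι) = ⟨g, hg1⟩ * ⟨h, hh1⟩ := rfl
          have h3 := hz ⟨g, hg1⟩ ⟨h, hh1⟩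
          have h4 : f g h = f 1 1 := by
            have := hfk 1 1 g hg2 h hh2
            rwa [one_mul, one_mul] at this
          simp only [cyc_core hg2, htoE1, one_mul, h4] at h3
          rw [hμ1 g hg1, hμ1 h hh1, hμ1 _ (mul_mem hg1 hh1), h2]
          linear_combination h3
        · rw [continuousOn_iff_continuous_domRestrict]
          have h3 : ((decomp ι ⊓ core K : Subgroup (AbsGal K)) : Set (AbsGal K)).domRestrict μ =
              fun a => z ⟨a.1, a.2.1⟩ - f 1 1 := by
            funext a
            exact hμ1 _ a.2.1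
          rw [h3]
          exact (hzc.comp (Continuous.subtype_mk continuous_subtype_val _)).sub continuous_const
      rw [hμ1 k k.2] at h1
      exact sub_eq_zero.1 h1
    have hf1 : ∀ g : AbsGal K, f g 1 = toE E (cyc g) * f 1 1 := by
      intro g
      have := hcoc g 1 1
      rw [mul_one, mul_one] at this
      exact add_right_cancel this
    obtain ⟨Z, hZ, hZz, hZk⟩ := descend hK hv ι z hzc (by
      intro d k hk
      have h1 := hz d k
      have h2 : f d k = f d 1 := by
        have := hfk d 1 1 (one_mem _) k hk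
        rwa [one_mul, mul_one] at this
      rw [hzk k hk, h2, hf1] at h1
      linear_combination h1)
    have hdec : ∀ g : AbsGal K, ∃ d : decomp ι, ∃ k ∈ core K, g = d * k := by
      intro g
      obtain ⟨d, hd, hdg⟩ := decomp_mul_core hK hv ι g
      exact ⟨⟨d, hd⟩, d⁻¹ * g, hdg, by rw [mul_inv_cancel_left]⟩
    refine ⟨Z, hZ, ?_⟩
    funext g h
    obtain ⟨d, k, hk, rfl⟩ := hdec g
    obtain ⟨e, k', hk', rfl⟩ := hdec h
    have h4 : (d : AbsGal K) * k * (e * k') =
        ((d * e : decomp ι) : AbsGal K) * ((e : AbsGal K)⁻¹ * k * ((e : AbsGal K)⁻¹)⁻¹ * k') := by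
      rw [Subgroup.coe_mul, inv_inv]
      group
    have h5 : (e : AbsGal K)⁻¹ * k * ((e : AbsGal K)⁻¹)⁻¹ * k' ∈ core K :=
      mul_mem (core_normal.conj_mem k hk _) hk'
    have h6 : cyc ((d : AbsGal K) * k) = cyc (d : AbsGal K) := by
      rw [(isChar_cyc (K := K)).mul, cyc_core hk, mul_one]
    simp only [dE]
    rw [h4, hZk _ _ h5, hZk _ _ hk, hZk _ _ hk', hZz, hZz, hZz, h6, hfk _ _ _ hk _ hk', hz]

end Pool.Agent.Work.MP_787500_nt.PA
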