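import Mathlib
import Pool.Agent.Work.MP_787500_nt.PA.SmallRho

/-!
# Module SMALLX (size M): continuous cocycles that vanish on inertia are small on small good subgroups

Let `r g` be the block matrix `[[ρ g, X g], [0, 1]]` on `Fin n ⊕ Unit` (`Matrix.fromBlocks`); it is a
continuous representation, `r σ = 1` for `σ` in an inertia group off 2 (`unram` and the hypothesis on
`X`). Pro-2: `r (σ ^ 2 ^ k) → 1`: as `ρ (σ ^ 2 ^ k) → 1` there is `j` with `‖(ρ (σ ^ 2 ^ k) - 1) x‖ ≤ (1/2) ‖x‖` for all `k ≥ j` and all `x`. Then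
`X (σ ^ 2 ^ (k + 1)) = X (σ ^ 2 ^ k) + ρ (σ ^ 2 ^ k) X (σ ^ 2 ^ k) = 2 X_k + (ρ (σ ^ 2 ^ k) - 1) X_k` with
`X_k = X (σ ^ 2 ^ k)`, so (ultrametric, `‖2‖ = 1/2`) `‖X_(k + 1)‖ ≤ (1/2) ‖X_k‖` for `k ≥ j` and
`X_k → 0`. So `small_rho` applies to `r`: for `w` in a good subgroup `‖X w‖ < ε`. Finally
`X (g w) - X g = ρ g X w` and `ρ` is bounded (compactness; `rho_bound` is in `RhoB.lean`, which may be
imported).
-/

set_option autoImplicit false

namespace Pool.Agent.Work.MP_787500_nt.PA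

open IsDedekindDomain NumberField Matrix

universe u

variable {K : Type u} [Field K] [NumberField K]
variable {E : Type*} [NormedField E] [NormedAlgebra ℚ_[2] E]
variable {n : ℕ}

private theorem sx_bound {m : Type*} [Fintype m] [DecidableEq m] {r : AbsGal K → Matrix m m E}
    (hcont : Continuous r) : ∃ C : ℝ, 0 < C ∧ ∀ g (x : m → E), ‖r g *ᵥ x‖ ≤ C * ‖x‖ := by
  classical
  have hb : ∀ i j, ∃ M : ℝ, ∀ g, ‖r g i j‖ ≤ M := by
    intro i j
    have h1 : Continuous fun g => ‖r g i j‖ := (hcont.matrix_elem i j).norm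
    obtain ⟨M, hM⟩ := (isCompact_range h1).bddAbove
    exact ⟨M, fun g => hM ⟨g, rfl⟩⟩
  choose M hM using hb
  have hM0 : ∀ i j, 0 ≤ M i j := fun i j => (norm_nonneg _).trans (hM i j 1)
  refine ⟨1 + ∑ i, ∑ j, M i j, ?_, ?_⟩
  · have : 0 ≤ ∑ i, ∑ j, M i j := Finset.sum_nonneg fun i _ => Finset.sum_nonneg fun j _ => hM0 i j
    linarith
  · intro g x
    have h0 : 0 ≤ ∑ i, ∑ j, M i j :=
      Finset.sum_nonneg fun i _ => Finset.sum_nonneg fun j _ => hM0 i j
    refine (pi_norm_le_iff_of_nonneg (by positivity)).2 fun i => ?_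
    calc ‖(r g *ᵥ x) i‖ = ‖∑ j, r g i j * x j‖ := rfl
      _ ≤ ∑ j, ‖r g i j * x j‖ := norm_sum_le _ _
      _ ≤ ∑ j, M i j * ‖x‖ := Finset.sum_le_sum fun j _ => by
          rw [norm_mul]
          exact mul_le_mul (hM i j g) (norm_le_pi_norm x j) (norm_nonneg _) (hM0 i j)
      _ = (∑ j, M i j) * ‖x‖ := by rw [Finset.sum_mul]
      _ ≤ (1 + ∑ i, ∑ j, M i j) * ‖x‖ := by
          apply mul_le_mul_of_nonneg_right _ (norm_nonneg _)
          have h1 : ∑ j, M i j ≤ ∑ i, ∑ j, M i j :=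
            Finset.single_le_sum (f := fun i => ∑ j, M i j)
              (fun i _ => Finset.sum_nonneg fun j _ => hM0 i j) (Finset.mem_univ i)
          linarith

private theorem sx_tendsto {ρ : AbsGal K →* Matrix (Fin n) (Fin n) E} {X : AbsGal K → Fin n → E}
    (hpro : ∀ σ, Filter.Tendsto (fun k : ℕ => ρ (σ ^ 2 ^ k)) Filter.atTop (nhds 1))
    (hmul : ∀ g h, X (g * h) = X g + ρ g *ᵥ X h) (σ : AbsGal K) :
    Filter.Tendsto (fun k : ℕ => X (σ ^ 2 ^ k)) Filter.atTop (nhds 0) := by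
  have hu := ultra E
  have h2 : ‖(2 : E)‖ = 1 / 2 := by
    have h3 : (2 : E) = algebraMap ℚ_[2] E 2 := (map_ofNat (algebraMap ℚ_[2] E) 2).symm
    rw [h3, norm_algebraMap']
    have h4 := Padic.norm_p (p := 2)
    rw [Nat.cast_ofNat] at h4
    rw [h4]; norm_num
  -- the representation is close to 1
  have hev : ∀ᶠ k : ℕ in Filter.atTop, ∀ i j, ‖(ρ (σ ^ 2 ^ k) - 1) i j‖ ≤ 1 / 2 := by
    refine Filter.eventually_all.2 fun i => Filter.eventually_all.2 fun j => ?_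
    have h3 : Filter.Tendsto (fun k : ℕ => (ρ (σ ^ 2 ^ k)) i j) Filter.atTop
        (nhds ((1 : Matrix (Fin n) (Fin n) E) i j)) :=
      (tendsto_pi_nhds.1 ((tendsto_pi_nhds.1 (hpro σ)) i)) j
    have h4 := (h3.sub_const ((1 : Matrix (Fin n) (Fin n) E) i j)).norm
    rw [sub_self, norm_zero] at h4
    exact (h4.eventually_lt_const (by norm_num : (0 : ℝ) < 1 / 2)).mono fun _ h => h.le
  obtain ⟨j, hj⟩ := Filter.eventually_atTop.1 hev
  have hstep : ∀ k ≥ j, ‖X (σ ^ 2 ^ (k + 1))‖ ≤ 1 / 2 * ‖X (σ ^ 2 ^ k)‖ := by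
    intro k hk
    set Y := X (σ ^ 2 ^ k) with hY
    have h3 : X (σ ^ 2 ^ (k + 1)) = (2 : E) • Y + (ρ (σ ^ 2 ^ k) - 1) *ᵥ Y := by
      rw [pow_succ, pow_mul, pow_two, hmul, sub_mulVec, one_mulVec, two_smul]
      abel
    rw [h3]
    refine (pi_norm_le_iff_of_nonneg (by positivity)).2 fun i => ?_
    rw [Pi.add_apply]
    refine (IsUltrametricDist.norm_add_le_max _ _).trans (max_le ?_ ?_)
    · rw [Pi.smul_apply, smul_eq_mul, norm_mul, h2]
      exact mul_le_mul_of_nonneg_left (norm_le_pi_norm Y i) (by norm_num)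
    · have h5 : ‖∑ l, (ρ (σ ^ 2 ^ k) - 1) i l * Y l‖ ≤ 1 / 2 * ‖Y‖ := by
        refine IsUltrametricDist.norm_sum_le_of_forall_le_of_nonneg (by positivity) fun l _ => ?_
        rw [norm_mul]
        exact mul_le_mul (hj k hk i l) (norm_le_pi_norm Y l) (norm_nonneg _) (by norm_num)
      exact h5
  have hgeo : ∀ k, ‖X (σ ^ 2 ^ (j + k))‖ ≤ (1 / 2) ^ k * ‖X (σ ^ 2 ^ j)‖ := by
    intro k
    induction k with
    | zero => simp
    | succ k ih =>
      calc ‖X (σ ^ 2 ^ (j + (k + 1)))‖ ≤ 1 / 2 * ‖X (σ ^ 2 ^ (j + k))‖ := hstep (j + k) (by omega)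
        _ ≤ 1 / 2 * ((1 / 2) ^ k * ‖X (σ ^ 2 ^ j)‖) := by gcongr
        _ = (1 / 2) ^ (k + 1) * ‖X (σ ^ 2 ^ j)‖ := by ring
  have h5 : Filter.Tendsto (fun k : ℕ => X (σ ^ 2 ^ (k + j))) Filter.atTop (nhds 0) := by
    refine squeeze_zero_norm (a := fun k => (1 / 2 : ℝ) ^ k * ‖X (σ ^ 2 ^ j)‖) (fun k => ?_) ?_
    · rw [add_comm k j]; exact hgeo k
    · have := (tendsto_pow_atTop_nhds_zero_of_lt_one (by norm_num : (0 : ℝ) ≤ 1 / 2)
        (by norm_num)).mul_const ‖X (σ ^ 2 ^ j)‖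
      rwa [zero_mul] at this
  exact (Filter.tendsto_add_atTop_iff_nat (f := fun k => X (σ ^ 2 ^ k)) j).1 h5

theorem small_x {κ : AbsGal K → AbsGal K} {ρ : AbsGal K →* Matrix (Fin n) (Fin n) E}
    {b : Matrix (Fin n) (Fin n) E} (hρ : IsConjDual κ ρ b) {X : AbsGal K → Fin n → E}
    (hX : Continuous X) (hmul : ∀ g h, X (g * h) = X g + ρ g *ᵥ X h)
    (hin : ∀ Q : Ideal (𝓞 (AlgebraicClosure K)), Q.IsPrime → (2 : 𝓞 (AlgebraicClosure K)) ∉ Q →
      ∀ σ ∈ Q.inertia (AbsGal K), X σ = 0) : X ∈ Zg ρ := by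
  classical
  have hX1 : X 1 = 0 := by
    have h1 := hmul 1 1
    rw [mul_one, map_one, one_mulVec] at h1
    have h2 : X 1 + 0 = X 1 + X 1 := by rw [add_zero]; exact h1
    exact (add_left_cancel h2).symm
  let r : AbsGal K →* Matrix (Fin n ⊕ Unit) (Fin n ⊕ Unit) E :=
    { toFun := fun g => fromBlocks (ρ g) (Matrix.of fun i _ => X g i) 0 1
      map_one' := by
        have h1 : (Matrix.of fun (i : Fin n) (_ : Unit) => X 1 i) = 0 := by
          ext i j; simp [hX1]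
        rw [h1, map_one, fromBlocks_one]
      map_mul' := fun g h => by
        rw [fromBlocks_multiply]
        congr 1
        · rw [map_mul]; simp
        · ext i j
          simp only [Matrix.of_apply, Matrix.add_apply, Matrix.mul_one, hmul g h, Pi.add_apply]
          rw [add_comm]
          rfl
        · simp
        · simp }
  have hr : ∀ g, r g = fromBlocks (ρ g) (Matrix.of fun i _ => X g i) 0 1 := fun g => rfl
  have hrc : Continuous r := by
    show Continuous fun g => fromBlocks (ρ g) (Matrix.of fun i (_ : Unit) => X g i) 0 1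
    refine Continuous.matrix_fromBlocks hρ.cont ?_ continuous_const continuous_const
    exact continuous_matrix fun i _ => (continuous_apply i).comp hX
  have hpro : ∀ σ, Filter.Tendsto (fun k : ℕ => r (σ ^ 2 ^ k)) Filter.atTop (nhds 1) := by
    intro σ
    have h1 := sx_tendsto hρ.proTwo hmul σ
    have h2 : Filter.Tendsto (fun k : ℕ => (Matrix.of fun (i : Fin n) (_ : Unit) => X (σ ^ 2 ^ k) i :
        Matrix (Fin n) Unit E)) Filter.atTop (nhds 0) := by
      refine tendsto_pi_nhds.2 fun i => tendsto_pi_nhds.2 fun _ => ?_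
      exact (tendsto_pi_nhds.1 h1) i
    have h3 : (1 : Matrix (Fin n ⊕ Unit) (Fin n ⊕ Unit) E) = fromBlocks 1 0 0 1 :=
      fromBlocks_one.symm
    rw [h3]
    have h4 : Continuous fun p : Matrix (Fin n) (Fin n) E × Matrix (Fin n) Unit E =>
        fromBlocks p.1 p.2 (0 : Matrix Unit (Fin n) E) (1 : Matrix Unit Unit E) := Continuous.matrix_fromBlocks continuous_fst continuous_snd
          continuous_const continuous_const
    exact (h4.tendsto ((1 : Matrix (Fin n) (Fin n) E), (0 : Matrix (Fin n) Unit E))).comp ((hρ.proTwo σ).prodMk_nhds h2)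
  have hun : ∀ Q : Ideal (𝓞 (AlgebraicClosure K)), Q.IsPrime →
      (2 : 𝓞 (AlgebraicClosure K)) ∉ Q → ∀ σ ∈ Q.inertia (AbsGal K), r σ = 1 := by
    intro Q hQ hQ2 σ hσ
    have h1 : (Matrix.of fun (i : Fin n) (_ : Unit) => X σ i) = (0 : Matrix (Fin n) Unit E) := by
      ext i j; simp [hin Q hQ hQ2 σ hσ]
    rw [hr, h1, hρ.unram Q hQ hQ2 σ hσ, fromBlocks_one]
  obtain ⟨C, hC, hb⟩ := sx_bound hρ.cont
  refine ⟨fun ε hε => ?_, hmul⟩
  obtain ⟨W, hW, hWs⟩ := small_rho r hrc hpro hun (ε := ε / C) (by positivity)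
  refine ⟨W, hW, fun g w hw => ?_⟩
  have h1 : X (g * w) - X g = ρ g *ᵥ X w := by rw [hmul, add_sub_cancel_left]
  have h2 : ‖X w‖ < ε / C := by
    refine (pi_norm_lt_iff (by positivity)).2 fun i => ?_
    have h3 := hWs w hw (Sum.inl i) (Sum.inr ())
    rw [hr, Matrix.sub_apply, fromBlocks_apply₁₂] at h3
    simpa using h3
  rw [h1]
  calc ‖ρ g *ᵥ X w‖ ≤ C * ‖X w‖ := hb g _
    _ < C * (ε / C) := by gcongr
    _ = ε := by field_simp

end Pool.Agent.Work.MP_787500_nt.PA
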